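import Mathlib
import Pool.Agent.Helper58.LT.Spacing

/-!
# Project PW (power saving for Lehmer numbers with a large prime factor): definitions

* `ex t = exp (2 π i t)`; `Per q f`: the function `f : ℤ → ℂ` has period `q`;
* `dl t f a = f (a + t) * conj (f a)`;
* `Gz l q f` for `f` of period `q`: `Gz 0 q f = |E_{a mod q} f a|^2`,
  `Gz (l+1) q f = E_{t mod q} Gz l q (dl t f)`  (so it is the `2^(l+1)`-th power of the
  Gowers norm `U^(l+1)`); `GF` is the same on a finite abelian group;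
* `ph ℓ v a = e (v * inv (a - 1) / ℓ)`, `inv` the inverse in `ZMod ℓ` (`0⁻¹ = 0` for `ℓ` prime);
* `DD g t a = ∑_S (-1)^(l - #S) g (a + ∑_{i ∈ S} t i)`, the iterated difference;
* `Exc T c`: some prime power `ℓ^v > T`, `v ≥ 2`, divides `φ(c)` exactly;
* `goodC, excC, iniC`: the three classes of divisors `c` of a Lehmer number `n` of index `k`;
* `PD c F P Dm`: the pairs `(p, D)` with `P < p ≤ 2 P`, `D ≤ Dm`, `c ∣ (p-1) D + 1`, `F ∣ p D + 1`;
* `IsP n p`: `p` is the largest prime factor of `n`.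
-/

namespace Pool.Agent.Helper6.PW

open Finset Pool.Agent.Helper6.Lehmer Pool.Agent.Helper6.LehmerCount Pool.Agent.Helper58.LT

/-- `e(t) = exp(2 π i t)` -/
noncomputable def ex (t : ℝ) : ℂ := Complex.exp (2 * Real.pi * t * Complex.I)

/-- `f` has period `q` -/
def Per (q : ℕ) (f : ℤ → ℂ) : Prop := ∀ a : ℤ, f (a + q) = f a

/-- multiplicative difference -/
noncomputable def dl (t : ℤ) (f : ℤ → ℂ) : ℤ → ℂ := fun a => f (a + t) * (starRingEnd ℂ) (f a)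

/-- Gowers type averages on `ℤ / q` -/
noncomputable def Gz : ℕ → ℕ → (ℤ → ℂ) → ℝ
  | 0, q, f => ‖(∑ a ∈ Finset.range q, f (a : ℤ)) / (q : ℂ)‖ ^ 2
  | l + 1, q, f => (∑ t ∈ Finset.range q, Gz l q (dl (t : ℤ) f)) / (q : ℝ)

/-- Gowers type averages on a finite abelian group -/
noncomputable def GF {A : Type*} [AddCommGroup A] [Fintype A] : ℕ → (A → ℂ) → ℝ
  | 0, f => ‖(∑ a, f a) / (Fintype.card A : ℂ)‖ ^ 2
  | l + 1, f => (∑ t, GF l (fun a => f (a + t) * (starRingEnd ℂ) (f a))) / (Fintype.card A : ℝ)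

/-- the phase of a scaled inverse of `a - 1` modulo `ℓ` -/
noncomputable def ph (ℓ : ℕ) (v : ℤ) (a : ℤ) : ℂ :=
  ex ((v : ℝ) * ((((a : ZMod ℓ) - 1)⁻¹).val : ℝ) / (ℓ : ℝ))

/-- iterated difference of `g` with steps `t` -/
def DD {l ℓ : ℕ} (g : ZMod ℓ → ZMod ℓ) (t : Fin l → ZMod ℓ) (a : ZMod ℓ) : ZMod ℓ :=
  ∑ S : Finset (Fin l), (-1 : ZMod ℓ) ^ (l - S.card) * g (a + ∑ i ∈ S, t i)

/-- some prime power `ℓ^v > T` with `v ≥ 2` exactly divides `φ(c)` -/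
def Exc (T c : ℕ) : Prop :=
  ∃ ℓ : ℕ, ℓ.Prime ∧ 2 ≤ c.totient.factorization ℓ ∧ T < ℓ ^ (c.totient.factorization ℓ)

open scoped Classical in
/-- divisors with a large smooth part and no large prime power in `φ(c)` -/
noncomputable def goodC (k W Z s₀ s₁ z T : ℕ) : Finset ℕ :=
  {c ∈ Icc 1 z | Squarefree c ∧ (∀ ℓ ∈ c.primeFactors, ℓ < Z) ∧ c.Coprime (k * c.totient) ∧
    c < k * c.totient ∧ z < 2 * W * c ∧ s₁ < 2 * W * sm s₀ c ∧ ¬ Exc T c}

open scoped Classical in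
/-- divisors with a large prime power in `φ(c)` -/
noncomputable def excC (k W w z T : ℕ) : Finset ℕ :=
  {c ∈ Icc 1 z | Squarefree c ∧ c.primeFactors.card ≤ w ∧ c.Coprime (k * c.totient) ∧
    c < k * c.totient ∧ z < 2 * W * c ∧ Exc T c}

open scoped Classical in
/-- divisors that are a multiple of an initial segment -/
noncomputable def iniC (k W s₀ s₁ z : ℕ) : Finset ℕ :=
  {c ∈ Icc 1 z | c.Coprime (k * c.totient) ∧ c < k * c.totient ∧ z < 2 * W * s₁ * c ∧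
    ∃ E m α : ℕ, c = E * m ∧ (s₀ : ℝ) ≤ 4 * W * (2 : ℝ) ^ α ∧ m ∈ Lset k W (s₀ : ℝ) (2 ^ α)}

/-- pairs `(p, D)` compatible with the divisor `c` and `F ∣ k φ(c)` -/
def PD (c F P Dm : ℕ) : Finset (ℕ × ℕ) :=
  {x ∈ Ioc P (2 * P) ×ˢ range (Dm + 1) | c ∣ (x.1 - 1) * x.2 + 1 ∧ F ∣ x.1 * x.2 + 1}

/-- the `p` occurring in `PD` -/
def PS (c F P Dm : ℕ) : Finset ℕ := (PD c F P Dm).image Prod.fst

/-- `p` is the largest prime factor of `n` -/
def IsP (n p : ℕ) : Prop := p ∈ n.primeFactors ∧ ∀ q ∈ n.primeFactors, q ≤ p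

end Pool.Agent.Helper6.PW
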