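import Mathlib
import Pool.Agent.Helper6.PW.Defs

/-!
# PW-11 Group: grouping factors

Weights `1 ≤ w i ≤ Y`, `(∏ w)^2 ≤ Y^L`, `L ≥ 1`: the index set can be split into `L` (possibly empty) groups
each of product `≤ Y`.  Proof: induction on `L`.  If some `(w i)^2 ≥ Y`, take `G = {i}`; otherwise let `G` be a
maximal subset of product `≤ Y`: if `G ≠ s` then `(∏_G w)^2 > Y`.  In both cases the rest satisfies the
hypothesis with `L - 1`.
-/

namespace Pool.Agent.Helper6.PW

open Finset

theorem group {ι : Type*} [DecidableEq ι] (s : Finset ι) (w : ι → ℕ) (Y L : ℕ) (hY : 1 ≤ Y)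
    (hL : 1 ≤ L) (hw : ∀ i ∈ s, 1 ≤ w i ∧ w i ≤ Y) (hprod : (∏ i ∈ s, w i) ^ 2 ≤ Y ^ L) :
    ∃ g : ι → Fin L, ∀ j, ∏ i ∈ s with g i = j, w i ≤ Y := by
  induction L, hL using Nat.le_induction generalizing s with
  | base =>
    refine ⟨fun _ => 0, fun j => ?_⟩
    have h1 : s.filter (fun _ => (0 : Fin 1) = j) = s :=
      Finset.filter_true_of_mem fun _ _ => Subsingleton.elim _ _
    rw [h1]
    rw [pow_one] at hprod
    have h2 : 1 ≤ ∏ i ∈ s, w i := Finset.one_le_prod' fun i hi => (hw i hi).1
    nlinarith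
  | succ L hL ih =>
    -- the key: a subset `G` of product `≤ Y` which is all of `s` or has `(∏ w)^2 ≥ Y`
    have key : ∃ G ⊆ s, ∏ i ∈ G, w i ≤ Y ∧ (G = s ∨ Y ≤ (∏ i ∈ G, w i) ^ 2) := by
      by_cases hA : ∃ i ∈ s, Y ≤ w i ^ 2
      · obtain ⟨i, hi, hYi⟩ := hA
        refine ⟨{i}, Finset.singleton_subset_iff.2 hi, ?_, Or.inr ?_⟩
        · rw [Finset.prod_singleton]
          exact (hw i hi).2
        · rw [Finset.prod_singleton]
          exact hYi
      · push Not at hA
        obtain ⟨G, hG, hmax⟩ := Finset.exists_max_image (s.powerset.filter (fun G => ∏ i ∈ G, w i ≤ Y))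
          (fun G => G.card) ⟨∅, by
            rw [Finset.mem_filter]
            exact ⟨Finset.empty_mem_powerset _, by rw [Finset.prod_empty]; exact hY⟩⟩
        rw [Finset.mem_filter, Finset.mem_powerset] at hG
        refine ⟨G, hG.1, hG.2, ?_⟩
        by_cases hGs : G = s
        · exact Or.inl hGs
        · right
          obtain ⟨i, hi, hiG⟩ : ∃ i ∈ s, i ∉ G := by
            by_contra hcon
            push Not at hcon
            exact hGs (Finset.Subset.antisymm hG.1 hcon)
          have h1 : Y < ∏ j ∈ insert i G, w j := by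
            by_contra hcon
            have h2 := hmax (insert i G) (by
              rw [Finset.mem_filter, Finset.mem_powerset]
              exact ⟨Finset.insert_subset hi hG.1, not_lt.1 hcon⟩)
            rw [Finset.card_insert_of_notMem hiG] at h2
            omega
          rw [Finset.prod_insert hiG] at h1
          have h3 := hA i hi
          by_contra hcon
          rw [not_le] at hcon
          have h4 : (w i * ∏ j ∈ G, w j) ^ 2 < Y ^ 2 := by
            rw [mul_pow, pow_two Y]
            exact Nat.mul_lt_mul'' h3 hcon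
          have h5 := Nat.pow_lt_pow_left h1 (by norm_num : (2 : ℕ) ≠ 0)
          omega
    obtain ⟨G, hGs, hGY, hG⟩ := key
    rcases hG with hG | hG
    · refine ⟨fun _ => 0, fun j => ?_⟩
      rw [hG] at hGY
      refine le_trans ?_ hGY
      exact Finset.prod_le_prod_of_subset_of_one_le' (Finset.filter_subset _ _) fun i hi _ => (hw i hi).1
    · have h1 : (∏ i ∈ s \ G, w i) ^ 2 ≤ Y ^ L := by
        have h2 : (∏ i ∈ s \ G, w i) ^ 2 * Y ≤ Y ^ L * Y := by
          calc (∏ i ∈ s \ G, w i) ^ 2 * Y ≤ (∏ i ∈ s \ G, w i) ^ 2 * (∏ i ∈ G, w i) ^ 2 :=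
                Nat.mul_le_mul_left _ hG
            _ = (∏ i ∈ s, w i) ^ 2 := by rw [← mul_pow, Finset.prod_sdiff hGs]
            _ ≤ Y ^ (L + 1) := hprod
            _ = _ := pow_succ _ _
        exact Nat.le_of_mul_le_mul_right h2 hY
      obtain ⟨g, hg⟩ := ih (s \ G) (fun i hi => hw i (Finset.mem_sdiff.1 hi).1) h1
      refine ⟨fun i => if i ∈ G then Fin.last L else (g i).castSucc, fun j => ?_⟩
      refine Fin.lastCases ?_ (fun j => ?_) j
      · refine le_trans ?_ hGY
        refine Finset.prod_le_prod_of_subset_of_one_le' ?_ fun i hi _ => (hw i (hGs hi)).1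
        intro i hi
        have h2 := (Finset.mem_filter.1 hi).2
        by_contra hiG
        simp only [if_neg hiG] at h2
        exact (Fin.castSucc_lt_last (g i)).ne h2
      · refine le_trans ?_ (hg j)
        refine Finset.prod_le_prod_of_subset_of_one_le' ?_ fun i hi _ =>
          (hw i (Finset.mem_sdiff.1 (Finset.mem_filter.1 hi).1).1).1
        intro i hi
        have h2 := (Finset.mem_filter.1 hi).2
        have h3 := (Finset.mem_filter.1 hi).1
        rw [Finset.mem_filter]
        by_cases hiG : i ∈ G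
        · simp only [if_pos hiG] at h2
          exact absurd h2.symm (Fin.castSucc_lt_last j).ne
        · simp only [if_neg hiG] at h2
          exact ⟨Finset.mem_sdiff.2 ⟨h3, hiG⟩, Fin.castSucc_injective _ h2⟩

end Pool.Agent.Helper6.PW
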