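import Mathlib
import Pool.Agent.Helper6.PW.Defs

/-!
# Project PW: basic facts on `ex`, `Per`, `dl`, `Gz` (all proved)
-/

namespace Pool.Agent.Helper6.PW

open Finset

theorem norm_ex (t : ℝ) : ‖ex t‖ = 1 := by
  unfold ex
  have : (2 * (Real.pi : ℂ) * (t : ℂ) * Complex.I) = ((2 * Real.pi * t : ℝ) : ℂ) * Complex.I := by
    push_cast; ring
  rw [this, Complex.norm_exp_ofReal_mul_I]

theorem ex_zero : ex 0 = 1 := by
  unfold ex; simp

theorem ex_add (s t : ℝ) : ex (s + t) = ex s * ex t := by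
  unfold ex
  rw [← Complex.exp_add]
  congr 1
  push_cast
  ring

theorem ex_int (m : ℤ) : ex (m : ℝ) = 1 := by
  unfold ex
  have : (2 * (Real.pi : ℂ) * ((m : ℝ) : ℂ) * Complex.I) = (m : ℂ) * (2 * Real.pi * Complex.I) := by
    push_cast; ring
  rw [this, Complex.exp_int_mul_two_pi_mul_I]

theorem ex_add_int (s : ℝ) (m : ℤ) : ex (s + m) = ex s := by
  rw [ex_add, ex_int, mul_one]

theorem conj_ex (t : ℝ) : (starRingEnd ℂ) (ex t) = ex (-t) := by
  unfold ex
  rw [← Complex.exp_conj]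
  congr 1
  simp only [map_mul, Complex.conj_ofReal, Complex.conj_I, map_ofNat]
  push_cast
  ring

theorem ex_sum {ι : Type*} (s : Finset ι) (f : ι → ℝ) : ex (∑ i ∈ s, f i) = ∏ i ∈ s, ex (f i) := by
  classical
  induction s using Finset.induction_on with
  | empty => simp [ex_zero]
  | insert a s ha ih => rw [sum_insert ha, prod_insert ha, ex_add, ih]

theorem Per.add_mul {q : ℕ} {f : ℤ → ℂ} (hf : Per q f) (a m : ℤ) : f (a + q * m) = f a := by
  induction m using Int.induction_on with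
  | zero => simp
  | succ i ih =>
    have := hf (a + q * i)
    rw [ih] at this
    rw [← this]
    congr 1
    ring
  | pred i ih =>
    have := hf (a + q * (-(i : ℤ) - 1))
    rw [← this, ← ih]
    congr 1
    ring

theorem Per.congr {q : ℕ} {f : ℤ → ℂ} (hf : Per q f) {a b : ℤ} (h : (q : ℤ) ∣ a - b) : f a = f b := by
  obtain ⟨m, hm⟩ := h
  have : a = b + q * m := by linarith
  rw [this, hf.add_mul]

theorem Per.emod {q : ℕ} {f : ℤ → ℂ} (hf : Per q f) (a : ℤ) : f (a % q) = f a := by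
  apply hf.congr
  have := Int.emod_add_mul_ediv a q
  exact ⟨-(a / q), by linarith⟩

theorem Per.mul {q : ℕ} {f g : ℤ → ℂ} (hf : Per q f) (hg : Per q g) :
    Per q (fun a => f a * g a) := fun a => by
  change f (a + q) * g (a + q) = f a * g a
  rw [hf a, hg a]

theorem Per.of_dvd {q r : ℕ} {f : ℤ → ℂ} (hf : Per q f) (h : q ∣ r) : Per r f := fun a => by
  apply hf.congr
  obtain ⟨m, hm⟩ := h
  exact ⟨m, by rw [hm]; push_cast; ring⟩

theorem Per.shift {q : ℕ} {f : ℤ → ℂ} (hf : Per q f) (t : ℤ) : Per q (fun a => f (a + t)) := fun a => by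
  change f (a + q + t) = f (a + t)
  rw [← hf (a + t)]
  congr 1
  ring

theorem Per.dl {q : ℕ} {f : ℤ → ℂ} (hf : Per q f) (t : ℤ) : Per q (dl t f) := fun a => by
  unfold PW.dl
  rw [hf a]
  congr 1
  exact hf.shift t a

theorem Per.prod {ι : Type*} {q : ℕ} (s : Finset ι) (f : ι → ℤ → ℂ) (hf : ∀ i ∈ s, Per q (f i)) :
    Per q (fun a => ∏ i ∈ s, f i a) := fun a => by
  apply Finset.prod_congr rfl
  intro i hi
  exact hf i hi a

theorem norm_dl_le {f : ℤ → ℂ} (hf : ∀ a, ‖f a‖ ≤ 1) (t a : ℤ) : ‖dl t f a‖ ≤ 1 := by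
  unfold dl
  rw [norm_mul, RCLike.norm_conj]
  have h1 := hf (a + t)
  have h2 := hf a
  calc ‖f (a + t)‖ * ‖f a‖ ≤ 1 * 1 := mul_le_mul h1 h2 (norm_nonneg _) zero_le_one
    _ = 1 := by ring

theorem dl_mul (t : ℤ) (f g : ℤ → ℂ) : dl t (fun a => f a * g a) = fun a => dl t f a * dl t g a := by
  funext a
  unfold dl
  rw [map_mul]
  ring

theorem dl_prod {ι : Type*} (t : ℤ) (s : Finset ι) (f : ι → ℤ → ℂ) :
    dl t (fun a => ∏ i ∈ s, f i a) = fun a => ∏ i ∈ s, dl t (f i) a := by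
  funext a
  unfold dl
  rw [map_prod, ← Finset.prod_mul_distrib]

theorem dl_congr {q : ℕ} {f : ℤ → ℂ} (hf : Per q f) {s t : ℤ} (h : (q : ℤ) ∣ s - t) :
    dl s f = dl t f := by
  funext a
  unfold dl
  rw [hf.congr (a := a + s) (b := a + t) (by rw [add_sub_add_left_eq_sub]; exact h)]

theorem Gz_nonneg (l q : ℕ) (f : ℤ → ℂ) : 0 ≤ Gz l q f := by
  induction l generalizing f with
  | zero => unfold Gz; positivity
  | succ l ih =>
    unfold Gz
    exact div_nonneg (Finset.sum_nonneg (fun t _ => ih _)) (Nat.cast_nonneg q)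

theorem Gz_le_one (l : ℕ) {q : ℕ} (hq : 1 ≤ q) {f : ℤ → ℂ} (hf : ∀ a, ‖f a‖ ≤ 1) :
    Gz l q f ≤ 1 := by
  have hqR : (0 : ℝ) < q := by exact_mod_cast hq
  induction l generalizing f with
  | zero =>
    unfold Gz
    have h1 : ‖(∑ a ∈ Finset.range q, f (a : ℤ)) / (q : ℂ)‖ ≤ 1 := by
      rw [norm_div, Complex.norm_natCast, div_le_one hqR]
      calc ‖∑ a ∈ Finset.range q, f (a : ℤ)‖ ≤ ∑ a ∈ Finset.range q, ‖f (a : ℤ)‖ := norm_sum_le _ _
        _ ≤ ∑ _a ∈ Finset.range q, (1 : ℝ) := Finset.sum_le_sum (fun a _ => hf a)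
        _ = q := by simp
    exact pow_le_one₀ (norm_nonneg _) h1
  | succ l ih =>
    unfold Gz
    rw [div_le_one hqR]
    calc ∑ t ∈ Finset.range q, Gz l q (dl (t : ℤ) f) ≤ ∑ _t ∈ Finset.range q, (1 : ℝ) :=
          Finset.sum_le_sum (fun t _ => ih (fun a => norm_dl_le hf _ a))
      _ = q := by simp

end Pool.Agent.Helper6.PW
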