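import Mathlib
import Pool.Agent.Helper6.PW.Defs

/-!
# PW-02 Frac: fibres of a sum of simple fractions

`F` a finite field, `S` a nonempty finite set, `c s ≠ 0`.  The function `R b = ∑_{s ∈ S} c s (b + s)⁻¹`
takes each value `v` at most `2 #S` times (with the convention `0⁻¹ = 0`).  Proof: at most `#S` of the `b`
satisfy `b = - s` for some `s ∈ S`.  For the other `b`, multiply by `∏_{s ∈ S} (b + s) ≠ 0`: `b` is a root of
`Q = C v * ∏_{s ∈ S} (X + C s) - ∑_{s ∈ S} C (c s) * ∏_{s' ∈ S \ {s}} (X + C s')`, a polynomial of degree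
`≤ #S`.  `Q ≠ 0`, because for `s₀ ∈ S`: `Q(-s₀) = - c s₀ ∏_{s' ≠ s₀} (s' - s₀) ≠ 0`.  So at most `#S` such
`b` (`Polynomial.card_roots'`).
-/

namespace Pool.Agent.Helper6.PW

open Finset

theorem frac_fiber {F : Type*} [Field F] [Fintype F] [DecidableEq F] (S : Finset F)
    (hS : S.Nonempty) (c : F → F) (hc : ∀ s ∈ S, c s ≠ 0) (v : F) :
    #{b : F | ∑ s ∈ S, c s * (b + s)⁻¹ = v} ≤ 2 * #S := by
  classical
  set Q : Polynomial F := Polynomial.C v * ∏ s ∈ S, (Polynomial.X + Polynomial.C s) -
    ∑ s ∈ S, Polynomial.C (c s) * ∏ s' ∈ S.erase s, (Polynomial.X + Polynomial.C s') with hQ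
  have hprod : ∀ T : Finset F, (∏ s ∈ T, (Polynomial.X + Polynomial.C s)).natDegree ≤ #T := by
    intro T
    refine (Polynomial.natDegree_prod_le _ _).trans ?_
    rw [Finset.card_eq_sum_ones]
    exact Finset.sum_le_sum fun s _ => (Polynomial.natDegree_X_add_C s).le
  have hdeg : Q.natDegree ≤ #S := by
    rw [hQ]
    refine (Polynomial.natDegree_sub_le _ _).trans (max_le ?_ ?_)
    · exact (Polynomial.natDegree_C_mul_le _ _).trans (hprod S)
    · refine Polynomial.natDegree_sum_le_of_forall_le _ _ fun s _ => ?_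
      exact (Polynomial.natDegree_C_mul_le _ _).trans
        ((hprod _).trans (Finset.card_le_card (Finset.erase_subset s S)))
  have heval : ∀ b : F, Q.eval b = v * ∏ s ∈ S, (b + s) -
      ∑ s ∈ S, c s * ∏ s' ∈ S.erase s, (b + s') := by
    intro b
    rw [hQ, Polynomial.eval_sub, Polynomial.eval_mul, Polynomial.eval_C, Polynomial.eval_prod,
      Polynomial.eval_finsetSum]
    congr 1
    · congr 1
      refine Finset.prod_congr rfl fun s _ => ?_
      rw [Polynomial.eval_add, Polynomial.eval_X, Polynomial.eval_C]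
    · refine Finset.sum_congr rfl fun s _ => ?_
      rw [Polynomial.eval_mul, Polynomial.eval_C, Polynomial.eval_prod]
      congr 1
      refine Finset.prod_congr rfl fun s' _ => ?_
      rw [Polynomial.eval_add, Polynomial.eval_X, Polynomial.eval_C]
  have hne : Q ≠ 0 := by
    obtain ⟨s₀, hs₀⟩ := hS
    intro h0
    have h1 := heval (-s₀)
    rw [h0, Polynomial.eval_zero, Finset.prod_eq_zero hs₀ (by ring), mul_zero, zero_sub,
      Finset.sum_eq_single s₀] at h1
    · have h2 : c s₀ * ∏ s' ∈ S.erase s₀, (-s₀ + s') ≠ 0 := by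
        refine mul_ne_zero (hc s₀ hs₀) (Finset.prod_ne_zero_iff.2 fun s' hs' => ?_)
        intro h3
        exact Finset.ne_of_mem_erase hs' (by linear_combination h3)
      exact h2 (neg_eq_zero.1 h1.symm)
    · intro s hs hss
      rw [Finset.prod_eq_zero (Finset.mem_erase.2 ⟨Ne.symm hss, hs₀⟩) (by ring), mul_zero]
    · intro h
      exact absurd hs₀ h
  have hsub : ({b : F | ∑ s ∈ S, c s * (b + s)⁻¹ = v} : Finset F) ⊆
      S.image (fun s => -s) ∪ Q.roots.toFinset := by
    intro b hb
    rw [Finset.mem_filter] at hb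
    rw [Finset.mem_union]
    by_cases hbs : ∃ s ∈ S, b + s = 0
    · left
      obtain ⟨s, hs, h⟩ := hbs
      rw [Finset.mem_image]
      exact ⟨s, hs, by linear_combination -h⟩
    · right
      push Not at hbs
      rw [Multiset.mem_toFinset, Polynomial.mem_roots hne, Polynomial.IsRoot.def, heval]
      have h1 : ∑ s ∈ S, c s * ∏ s' ∈ S.erase s, (b + s') =
          (∑ s ∈ S, c s * (b + s)⁻¹) * ∏ s ∈ S, (b + s) := by
        rw [Finset.sum_mul]
        refine Finset.sum_congr rfl fun s hs => ?_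
        rw [← Finset.mul_prod_erase S _ hs, mul_assoc, inv_mul_cancel_left₀ (hbs s hs)]
      rw [h1, hb.2, sub_self]
  calc #{b : F | ∑ s ∈ S, c s * (b + s)⁻¹ = v}
      ≤ #(S.image (fun s => -s) ∪ Q.roots.toFinset) := Finset.card_le_card hsub
    _ ≤ #(S.image (fun s => -s)) + #(Q.roots.toFinset) := Finset.card_union_le _ _
    _ ≤ #S + #S := by
        refine add_le_add Finset.card_image_le ?_
        exact (Multiset.toFinset_card_le _).trans ((Polynomial.card_roots' Q).trans hdeg)
    _ = 2 * #S := by ring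

end Pool.Agent.Helper6.PW
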