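import Mathlib
import Pool.Agent.Helper6.PW.Defs

/-!
# PW-03 SubSum: tuples with two equal subset sums are rare

If `t ∈ (ZMod ℓ)^l` and two different sets `S ≠ S'` have `∑_{i ∈ S} t i = ∑_{i ∈ S'} t i`, pick `i₀` in the
symmetric difference: `t i₀ = ± (∑_{i ∈ S \ S'..} - ...)` is determined by the other coordinates (`i₀`
belongs to exactly one of `S, S'`), so for each ordered pair `(S, S')` there are at most `ℓ^(l-1)` tuples,
and there are `4^l` pairs.  (If `l = 0` there is only one subset, so no bad tuple.)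
-/

namespace Pool.Agent.Helper6.PW

open Finset

open scoped Classical in
private theorem ss_pair (ℓ : ℕ) [Fact ℓ.Prime] (l : ℕ) (S S' : Finset (Fin l)) (h : S ≠ S') :
    #{t : Fin l → ZMod ℓ | ∑ i ∈ S, t i = ∑ i ∈ S', t i} * ℓ ≤ ℓ ^ l := by
  obtain ⟨i₀, hi⟩ : ∃ i₀, ¬ (i₀ ∈ S ↔ i₀ ∈ S') := by
    by_contra hcon
    push Not at hcon
    exact h (Finset.ext hcon)
  have hsum : ∀ (T : Finset (Fin l)) (a : ZMod ℓ),
      ∑ i ∈ T, (Pi.single i₀ a : Fin l → ZMod ℓ) i = if i₀ ∈ T then a else 0 := by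
    intro T a
    by_cases h1 : i₀ ∈ T
    · rw [if_pos h1, Finset.sum_eq_single i₀]
      · rw [Pi.single_eq_same]
      · intro i _ hii
        rw [Pi.single_eq_of_ne hii]
      · intro h2
        exact absurd h1 h2
    · rw [if_neg h1]
      refine Finset.sum_eq_zero fun i hii => ?_
      rw [Pi.single_eq_of_ne]
      rintro rfl
      exact h1 hii
  have hdet : ∀ a : ZMod ℓ, ∑ i ∈ S, (Pi.single i₀ a : Fin l → ZMod ℓ) i =
      ∑ i ∈ S', (Pi.single i₀ a : Fin l → ZMod ℓ) i → a = 0 := by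
    intro a ha
    rw [hsum, hsum] at ha
    by_cases h1 : i₀ ∈ S
    · have h2 : i₀ ∉ S' := fun h3 => hi ⟨fun _ => h3, fun _ => h1⟩
      rw [if_pos h1, if_neg h2] at ha
      exact ha
    · have h2 : i₀ ∈ S' := by
        by_contra h3
        exact hi ⟨fun h4 => absurd h4 h1, fun h4 => absurd h4 h3⟩
      rw [if_neg h1, if_pos h2] at ha
      exact ha.symm
  have hcard : #((({t : Fin l → ZMod ℓ | ∑ i ∈ S, t i = ∑ i ∈ S', t i} : Finset _)) ×ˢ
      (Finset.univ : Finset (ZMod ℓ))) ≤ #(Finset.univ : Finset (Fin l → ZMod ℓ)) := by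
    refine Finset.card_le_card_of_injOn (fun x => x.1 + Pi.single i₀ x.2)
      (fun x _ => Finset.mem_coe.2 (Finset.mem_univ _)) ?_
    rintro ⟨t, a⟩ hx ⟨t', a'⟩ hx' hxx
    rw [Finset.mem_coe, Finset.mem_product, Finset.mem_filter] at hx hx'
    have ht := hx.1.2
    have ht' := hx'.1.2
    have hxx' : t + Pi.single i₀ a = t' + Pi.single i₀ a' := hxx
    have h1 : (Pi.single i₀ (a - a') : Fin l → ZMod ℓ) = t' - t := by
      rw [Pi.single_sub]
      linear_combination (exp := 1) hxx'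
    have h2 : a - a' = 0 := by
      apply hdet
      rw [h1]
      simp only [Pi.sub_apply, Finset.sum_sub_distrib]
      simp only at ht ht'
      rw [ht, ht']
    have h3 : a = a' := sub_eq_zero.1 h2
    rw [h3] at hxx'
    have h4 : t = t' := add_right_cancel hxx'
    rw [h3, h4]
  rw [Finset.card_product, Finset.card_univ, Finset.card_univ, ZMod.card, Fintype.card_fun,
    ZMod.card, Fintype.card_fin] at hcard
  exact hcard

open scoped Classical in
theorem bad_tuples (ℓ : ℕ) [Fact ℓ.Prime] (l : ℕ) :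
    (#{t : Fin l → ZMod ℓ | ¬ Function.Injective (fun S : Finset (Fin l) => ∑ i ∈ S, t i)} : ℝ) *
      ℓ ≤ 4 ^ l * (ℓ : ℝ) ^ l := by
  set P : Finset (Finset (Fin l) × Finset (Fin l)) := Finset.univ.filter fun x => x.1 ≠ x.2 with hP
  have hsub : ({t : Fin l → ZMod ℓ | ¬ Function.Injective
      (fun S : Finset (Fin l) => ∑ i ∈ S, t i)} : Finset _) ⊆
      P.biUnion fun x => ({t : Fin l → ZMod ℓ | ∑ i ∈ x.1, t i = ∑ i ∈ x.2, t i} : Finset _) := by
    intro t ht
    rw [Finset.mem_filter, Function.Injective] at ht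
    have h1 := ht.2
    push Not at h1
    obtain ⟨S, S', h2, h3⟩ := h1
    rw [Finset.mem_biUnion]
    refine ⟨(S, S'), ?_, ?_⟩
    · rw [hP, Finset.mem_filter]
      exact ⟨Finset.mem_univ _, h3⟩
    · rw [Finset.mem_filter]
      exact ⟨Finset.mem_univ _, h2⟩
  have h1 : #({t : Fin l → ZMod ℓ | ¬ Function.Injective
      (fun S : Finset (Fin l) => ∑ i ∈ S, t i)} : Finset _) * ℓ ≤ 4 ^ l * ℓ ^ l := by
    calc #({t : Fin l → ZMod ℓ | ¬ Function.Injective
          (fun S : Finset (Fin l) => ∑ i ∈ S, t i)} : Finset _) * ℓ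
        ≤ (∑ x ∈ P, #{t : Fin l → ZMod ℓ | ∑ i ∈ x.1, t i = ∑ i ∈ x.2, t i}) * ℓ :=
          Nat.mul_le_mul_right _ ((Finset.card_le_card hsub).trans Finset.card_biUnion_le)
      _ = ∑ x ∈ P, #{t : Fin l → ZMod ℓ | ∑ i ∈ x.1, t i = ∑ i ∈ x.2, t i} * ℓ :=
          Finset.sum_mul _ _ _
      _ ≤ ∑ _x ∈ P, ℓ ^ l := by
          refine Finset.sum_le_sum fun x hx => ?_
          rw [hP, Finset.mem_filter] at hx
          exact ss_pair ℓ l x.1 x.2 hx.2
      _ = #P * ℓ ^ l := by rw [Finset.sum_const, smul_eq_mul]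
      _ ≤ 4 ^ l * ℓ ^ l := by
          refine Nat.mul_le_mul_right _ ?_
          have h2 : #P ≤ Fintype.card (Finset (Fin l) × Finset (Fin l)) :=
            Finset.card_le_univ P
          rw [Fintype.card_prod, Fintype.card_finset, Fintype.card_fin, ← mul_pow] at h2
          exact h2
  exact_mod_cast h1

end Pool.Agent.Helper6.PW
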