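import Mathlib
import Pool.Agent.Helper6.PW.Defs

/-!
# PW-04 Unroll: `GF` of `ψ ∘ g` as an average over tuples

`DD g t a = ∑_{S ⊆ Fin l} (-1)^(l - #S) g(a + ∑_{i ∈ S} t i)`.
Claim: `GF l (ψ ∘ g) = (∑_{t : Fin l → ZMod ℓ} |(∑_a ψ(DD g t a)) / ℓ|^2) / ℓ^l`.
Induction on `l` for all `g`.  `l = 0`: `DD g t a = g a`.  `l + 1`: with `g₁ a = g(a + t₀) - g(a)`,
`(ψ ∘ g)(a + t₀) * conj ((ψ ∘ g) a) = ψ (g₁ a)` (`AddChar.map_sub_eq_div`, `AddChar.starComp_apply`/
`ψ(-x) = conj ψ(x)` as `‖ψ x‖ = 1`, the group is finite: `AddChar.norm_apply`), and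
`DD g (Fin.cons t₀ t) a = DD g₁ t a` (`DD_cons`): split the subsets `S` of `Fin (l+1)` according to
`0 ∈ S`.  The sum over `Fin (l+1) → ZMod ℓ` is the double sum over `t₀` and `t` (`Fin.consEquiv` /
`Fintype.sum_equiv (Fin.consEquiv _)`).
-/

namespace Pool.Agent.Helper6.PW

open Finset

private theorem sum_fin_succ_unr {M : Type*} [AddCommMonoid M] (l : ℕ) (F : Finset (Fin (l + 1)) → M) :
    ∑ S, F S = ∑ S : Finset (Fin l), F (S.map (Fin.succEmb l)) +
      ∑ S : Finset (Fin l), F (insert 0 (S.map (Fin.succEmb l))) := by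
  rw [← Finset.sum_filter_add_sum_filter_not univ (fun S : Finset (Fin (l + 1)) => (0 : Fin (l + 1)) ∉ S)]
  congr 1
  · refine Finset.sum_nbij' (fun S => univ.filter (fun i : Fin l => i.succ ∈ S))
      (fun S => S.map (Fin.succEmb l)) ?_ ?_ ?_ ?_ ?_
    · intro S _
      exact mem_univ _
    · intro S _
      simp
    · intro S hS
      simp only [mem_filter, mem_univ, true_and] at hS
      ext x
      refine Fin.cases ?_ (fun i => ?_) x
      · simp [hS]
      · simp
    · intro S _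
      ext i
      simp
    · intro S hS
      simp only [mem_filter, mem_univ, true_and] at hS
      congr 1
      ext x
      refine Fin.cases ?_ (fun i => ?_) x
      · simp [hS]
      · simp
  · refine Finset.sum_nbij' (fun S => univ.filter (fun i : Fin l => i.succ ∈ S))
      (fun S => insert 0 (S.map (Fin.succEmb l))) ?_ ?_ ?_ ?_ ?_
    · intro S _
      exact mem_univ _
    · intro S _
      simp
    · intro S hS
      simp only [mem_filter, mem_univ, true_and, not_not] at hS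
      ext x
      refine Fin.cases ?_ (fun i => ?_) x
      · simp [hS]
      · simp
    · intro S _
      ext i
      simp [Fin.succ_ne_zero]
    · intro S hS
      simp only [mem_filter, mem_univ, true_and, not_not] at hS
      congr 1
      ext x
      refine Fin.cases ?_ (fun i => ?_) x
      · simp [hS]
      · simp

theorem DD_cons {l ℓ : ℕ} (g : ZMod ℓ → ZMod ℓ) (t₀ : ZMod ℓ) (t : Fin l → ZMod ℓ) (a : ZMod ℓ) :
    DD g (Fin.cons t₀ t : Fin (l + 1) → ZMod ℓ) a = DD (fun a => g (a + t₀) - g a) t a := by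
  unfold DD
  rw [sum_fin_succ_unr, ← Finset.sum_add_distrib]
  refine Finset.sum_congr rfl fun S _ => ?_
  have h0 : (0 : Fin (l + 1)) ∉ S.map (Fin.succEmb l) := by simp
  have hS : S.card ≤ l := by
    calc S.card ≤ (univ : Finset (Fin l)).card := Finset.card_le_card (subset_univ _)
      _ = l := by simp
  rw [Finset.card_insert_of_notMem h0, Finset.card_map, Finset.sum_insert h0, Finset.sum_map]
  have h1 : l + 1 - S.card = (l - S.card) + 1 := by omega
  have h2 : l + 1 - (S.card + 1) = l - S.card := by omega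
  rw [h1, h2, pow_succ]
  simp only [Fin.coe_succEmb, Fin.cons_succ, Fin.cons_zero]
  have h3 : a + (t₀ + ∑ i ∈ S, t i) = a + ∑ i ∈ S, t i + t₀ := by ring
  rw [h3]
  ring

theorem GF_unroll (l ℓ : ℕ) [NeZero ℓ] (g : ZMod ℓ → ZMod ℓ) (ψ : AddChar (ZMod ℓ) ℂ) :
    GF l (fun a => ψ (g a)) =
      (∑ t : Fin l → ZMod ℓ, ‖(∑ a, ψ (DD g t a)) / (ℓ : ℂ)‖ ^ 2) / (ℓ : ℝ) ^ l := by
  induction l generalizing g with
  | zero =>
    have h1 : ∀ (t : Fin 0 → ZMod ℓ) (a : ZMod ℓ), DD g t a = g a := by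
      intro t a
      unfold DD
      rw [Fintype.sum_unique, Finset.sum_of_isEmpty, add_zero, Nat.zero_sub, pow_zero, one_mul]
    rw [Fintype.sum_unique]
    simp only [h1, GF, ZMod.card, pow_zero, div_one]
  | succ l ih =>
    have h1 : ∀ t₀ a : ZMod ℓ, ψ (g (a + t₀)) * (starRingEnd ℂ) (ψ (g a)) =
        ψ ((fun a => g (a + t₀) - g a) a) := by
      intro t₀ a
      rw [AddChar.map_sub_eq_div, ← AddChar.map_neg_eq_conj, AddChar.map_neg_eq_inv, div_eq_mul_inv]
    have h2 : GF (l + 1) (fun a => ψ (g a)) =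
        (∑ t₀ : ZMod ℓ, GF l (fun a => ψ ((fun a => g (a + t₀) - g a) a))) / (ℓ : ℝ) := by
      simp only [GF, ZMod.card]
      simp only [h1]
    rw [h2, Finset.sum_congr rfl fun t₀ _ => ih (fun a => g (a + t₀) - g a), ← Finset.sum_div,
      div_div, ← pow_succ]
    congr 1
    rw [← (Fin.consEquiv (fun _ : Fin (l + 1) => ZMod ℓ)).sum_comp, Fintype.sum_prod_type]
    refine Finset.sum_congr rfl fun t₀ _ => Finset.sum_congr rfl fun t _ => ?_
    have h3 : ∀ a, DD g ((Fin.consEquiv (fun _ : Fin (l + 1) => ZMod ℓ)) (t₀, t)) a =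
        DD (fun a => g (a + t₀) - g a) t a := fun a => DD_cons g t₀ t a
    simp only [h3]

end Pool.Agent.Helper6.PW
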