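import Mathlib
import Pool.Agent.Helper6.PW.Frac
import Pool.Agent.Helper6.PW.SubSum
import Pool.Agent.Helper6.PW.Unroll

/-!
# PW-05 PrimeB: the Gowers type average of the inversion phase modulo a prime

`GF_equiv`: `GF l (f ∘ e) = GF l f` for an additive equivalence `e` (induction on `l`; reindex the sums over
`a` and over `t` by `e`).  `GF_shift`: `GF l (fun a => f (a + s)) = GF l f` (induction on `l`).

`GF_inv_le`: `F = ZMod ℓ`, `ψ` a nontrivial additive character; put `f_α(a) = ψ(α a⁻¹)`, `α ∈ F`.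
(1) For `α ≠ 0`, `f_α(a) = f_1(α⁻¹ a)`, so `GF l f_α = GF l f_1` (`GF_equiv` with the dilation by `α⁻¹`).
Hence `(ℓ - 1) GF l f_1 ≤ ∑_{α ∈ F} GF l f_α`.
(2) By `GF_unroll` with `g a = α a⁻¹`, `DD g t a = α R_t(a)`, `R_t(a) = DD (·)⁻¹ t a`, so
`∑_α GF l f_α = ℓ^(-l) ∑_t ℓ^(-2) ∑_α |∑_a ψ(α R_t(a))|^2 = ℓ^(-l) ∑_t ℓ^(-1) #{(a, a') : R_t(a) = R_t(a')}`
(orthogonality: `∑_α ψ(α x) = ℓ` if `x = 0` and `0` otherwise, `AddChar.sum_eq_ite`/`AddChar.sum_mulShift`).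
(3) If the `2^l` subset sums of `t` are distinct, `R_t(a) = ∑_{s ∈ T} ε_s (a + s)⁻¹` with `T` the set of the
subset sums, `#T = 2^l`, `ε_s = ±1`, and by `frac_fiber` the number of pairs is `≤ 2 * 2^l * ℓ`.
Otherwise it is `≤ ℓ^2`, and by `bad_tuples` there are at most `4^l ℓ^l / ℓ` such `t`.
So `∑_α GF l f_α ≤ 2^(l+1) + 4^l`, and `GF l f_1 ≤ (2^(l+1) + 4^l)/(ℓ - 1) ≤ 2 (2^(l+1) + 4^l)/ℓ`.
-/

namespace Pool.Agent.Helper6.PW

open Finset

theorem GF_equiv {A B : Type*} [AddCommGroup A] [Fintype A] [AddCommGroup B] [Fintype B] (l : ℕ)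
    (e : A ≃+ B) (f : B → ℂ) : GF l (fun a => f (e a)) = GF l f := by
  induction l generalizing f with
  | zero =>
    show ‖(∑ a, f (e a)) / (Fintype.card A : ℂ)‖ ^ 2 = ‖(∑ b, f b) / (Fintype.card B : ℂ)‖ ^ 2
    rw [Fintype.card_congr e.toEquiv, ← Equiv.sum_comp e.toEquiv f]
    rfl
  | succ l ih =>
    show (∑ t, GF l (fun a => f (e (a + t)) * (starRingEnd ℂ) (f (e a)))) / (Fintype.card A : ℝ) =
      (∑ t, GF l (fun a => f (a + t) * (starRingEnd ℂ) (f a))) / (Fintype.card B : ℝ)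
    rw [Fintype.card_congr e.toEquiv,
      ← Equiv.sum_comp e.toEquiv (fun t => GF l (fun a => f (a + t) * (starRingEnd ℂ) (f a)))]
    congr 1
    refine sum_congr rfl fun t _ => ?_
    have h := ih (fun b => f (b + e t) * (starRingEnd ℂ) (f b))
    rw [show e.toEquiv t = e t from rfl, ← h]
    congr 1
    funext a
    rw [map_add]

theorem GF_shift {A : Type*} [AddCommGroup A] [Fintype A] (l : ℕ) (s : A) (f : A → ℂ) :
    GF l (fun a => f (a + s)) = GF l f := by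
  induction l generalizing f with
  | zero =>
    show ‖(∑ a, f (a + s)) / (Fintype.card A : ℂ)‖ ^ 2 = ‖(∑ b, f b) / (Fintype.card A : ℂ)‖ ^ 2
    rw [← Equiv.sum_comp (Equiv.addRight s) f]
    rfl
  | succ l ih =>
    show (∑ t, GF l (fun a => f (a + t + s) * (starRingEnd ℂ) (f (a + s)))) / (Fintype.card A : ℝ) =
      (∑ t, GF l (fun a => f (a + t) * (starRingEnd ℂ) (f a))) / (Fintype.card A : ℝ)
    congr 1
    refine sum_congr rfl fun t _ => ?_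
    rw [← ih (fun b => f (b + t) * (starRingEnd ℂ) (f b))]
    congr 1
    funext a
    rw [add_right_comm]

private lemma GF_nonneg {A : Type*} [AddCommGroup A] [Fintype A] (l : ℕ) (f : A → ℂ) : 0 ≤ GF l f := by
  induction l generalizing f with
  | zero =>
    show 0 ≤ ‖(∑ a, f a) / (Fintype.card A : ℂ)‖ ^ 2
    positivity
  | succ l ih =>
    show 0 ≤ (∑ t, GF l (fun a => f (a + t) * (starRingEnd ℂ) (f a))) / (Fintype.card A : ℝ)
    exact div_nonneg (sum_nonneg fun t _ => ih _) (Nat.cast_nonneg _)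

private lemma GF_scale (l ℓ : ℕ) [Fact ℓ.Prime] (ψ : AddChar (ZMod ℓ) ℂ) (α : ZMod ℓ) (hα : α ≠ 0) :
    GF l (fun a => ψ (α * a⁻¹)) = GF l (fun a => ψ a⁻¹) := by
  have hα' : α⁻¹ ≠ 0 := inv_ne_zero hα
  let e : ZMod ℓ ≃+ ZMod ℓ :=
    { toFun := fun a => α⁻¹ * a
      invFun := fun a => α * a
      left_inv := fun a => by
        show α * (α⁻¹ * a) = a
        rw [← mul_assoc, mul_inv_cancel₀ hα, one_mul]
      right_inv := fun a => by
        show α⁻¹ * (α * a) = a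
        rw [← mul_assoc, inv_mul_cancel₀ hα, one_mul]
      map_add' := fun a b => mul_add _ _ _ }
  have h := GF_equiv l e (fun a => ψ a⁻¹)
  rw [← h]
  congr 1
  funext a
  show ψ (α * a⁻¹) = ψ (α⁻¹ * a)⁻¹
  rw [mul_inv, inv_inv]

open scoped Classical in
private lemma orth (ℓ : ℕ) [Fact ℓ.Prime] (ψ : AddChar (ZMod ℓ) ℂ) (hψ : ∃ a, ψ a ≠ 1)
    (R : ZMod ℓ → ZMod ℓ) :
    ∑ α : ZMod ℓ, ‖∑ a, ψ (α * R a)‖ ^ 2 = ℓ * (#{q : ZMod ℓ × ZMod ℓ | R q.1 = R q.2} : ℝ) := by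
  have hprim : ψ.IsPrimitive := by
    apply AddChar.IsPrimitive.of_ne_one
    rintro rfl
    obtain ⟨a, ha⟩ := hψ
    exact ha (AddChar.one_apply a)
  have hC : ((∑ α : ZMod ℓ, ‖∑ a, ψ (α * R a)‖ ^ 2 : ℝ) : ℂ) =
      ((ℓ * (#{q : ZMod ℓ × ZMod ℓ | R q.1 = R q.2} : ℝ) : ℝ) : ℂ) := by
    push_cast
    have h1 : ∀ α : ZMod ℓ, ((‖∑ a, ψ (α * R a)‖ : ℝ) : ℂ) ^ 2 =
        ∑ q : ZMod ℓ × ZMod ℓ, ψ (α * (R q.1 - R q.2)) := by
      intro α
      rw [← Complex.mul_conj', map_sum, sum_mul_sum, Fintype.sum_prod_type]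
      refine sum_congr rfl fun a _ => sum_congr rfl fun b _ => ?_
      rw [mul_sub, sub_eq_add_neg, AddChar.map_add_eq_mul]
      congr 1
      rw [AddChar.map_neg_eq_conj]
    rw [sum_congr rfl fun α _ => h1 α, sum_comm]
    have h2 : ∀ q : ZMod ℓ × ZMod ℓ, ∑ α : ZMod ℓ, ψ (α * (R q.1 - R q.2)) =
        if R q.1 = R q.2 then (ℓ : ℂ) else 0 := by
      intro q
      rw [AddChar.sum_mulShift _ hprim]
      simp only [sub_eq_zero, ZMod.card]
      split_ifs <;> simp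
    rw [sum_congr rfl fun q _ => h2 q, ← sum_filter, sum_const, nsmul_eq_mul, mul_comm]
  exact_mod_cast hC

private lemma DD_scale {l ℓ : ℕ} (α : ZMod ℓ) (g : ZMod ℓ → ZMod ℓ) (t : Fin l → ZMod ℓ) (a : ZMod ℓ) :
    DD (fun a => α * g a) t a = α * DD g t a := by
  unfold DD
  rw [mul_sum]
  exact sum_congr rfl fun S _ => by ring

open scoped Classical in
private lemma pairs_good {l ℓ : ℕ} [Fact ℓ.Prime] (t : Fin l → ZMod ℓ)
    (ht : Function.Injective (fun S : Finset (Fin l) => ∑ i ∈ S, t i)) :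
    (#{q : ZMod ℓ × ZMod ℓ | DD (fun a => a⁻¹) t q.1 = DD (fun a => a⁻¹) t q.2} : ℝ) ≤
      2 * 2 ^ l * ℓ := by
  obtain ⟨sub, hsub⟩ : ∃ sub : Finset (Fin l) → ZMod ℓ, sub = fun S => ∑ i ∈ S, t i := ⟨_, rfl⟩
  rw [← hsub] at ht
  obtain ⟨c, hc⟩ : ∃ c : ZMod ℓ → ZMod ℓ,
    c = fun s => (-1 : ZMod ℓ) ^ (l - (Function.invFun sub s).card) := ⟨_, rfl⟩
  have hDD : ∀ a, DD (fun a => a⁻¹) t a = ∑ s ∈ univ.image sub, c s * (a + s)⁻¹ := by
    intro a
    rw [sum_image fun x _ y _ h => ht h]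
    unfold DD
    refine sum_congr rfl fun S _ => ?_
    have h1 : Function.invFun sub (sub S) = S := Function.leftInverse_invFun ht S
    rw [hc]
    simp only [h1]
    rw [hsub]
  have hfib : ∀ v, #{b : ZMod ℓ | DD (fun a => a⁻¹) t b = v} ≤ 2 * 2 ^ l := by
    intro v
    have h1 := frac_fiber (univ.image sub) (univ_nonempty.image sub) c (fun s _ => by
      rw [hc]
      exact pow_ne_zero _ (neg_ne_zero.2 one_ne_zero)) v
    rw [card_image_of_injective _ ht, card_univ, Fintype.card_finset, Fintype.card_fin] at h1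
    refine le_trans (le_of_eq ?_) h1
    congr 1
    ext b
    simp only [mem_filter, mem_univ, true_and]
    rw [hDD]
  have hcard : #{q : ZMod ℓ × ZMod ℓ | DD (fun a => a⁻¹) t q.1 = DD (fun a => a⁻¹) t q.2} ≤
      2 * 2 ^ l * ℓ := by
    have h1 : #{q : ZMod ℓ × ZMod ℓ | DD (fun a => a⁻¹) t q.1 = DD (fun a => a⁻¹) t q.2} =
        ∑ b : ZMod ℓ, #{q ∈ ({q : ZMod ℓ × ZMod ℓ | DD (fun a => a⁻¹) t q.1 =
          DD (fun a => a⁻¹) t q.2} : Finset (ZMod ℓ × ZMod ℓ)) | q.2 = b} :=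
      card_eq_sum_card_fiberwise fun q _ => mem_univ _
    rw [h1]
    calc _ ≤ ∑ _b : ZMod ℓ, 2 * 2 ^ l := by
          refine sum_le_sum fun b _ => ?_
          refine le_trans ?_ (hfib (DD (fun a => a⁻¹) t b))
          refine card_le_card_of_injOn (fun q => q.1) ?_ ?_
          · intro q hq
            have hq' := mem_filter.1 (mem_coe.1 hq)
            have hq1 := (mem_filter.1 hq'.1).2
            rw [hq'.2] at hq1
            exact mem_coe.2 (mem_filter.2 ⟨mem_univ _, hq1⟩)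
          · intro q hq q' hq' h
            have h1 := (mem_filter.1 (mem_coe.1 hq)).2
            have h2 := (mem_filter.1 (mem_coe.1 hq')).2
            exact Prod.ext h (h1.trans h2.symm)
      _ = 2 * 2 ^ l * ℓ := by
          rw [sum_const, card_univ, ZMod.card, smul_eq_mul, mul_comm]
  exact_mod_cast hcard

open scoped Classical in
private lemma pairs_all {ℓ : ℕ} [Fact ℓ.Prime] (R : ZMod ℓ → ZMod ℓ) :
    (#{q : ZMod ℓ × ZMod ℓ | R q.1 = R q.2} : ℝ) ≤ ℓ * ℓ := by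
  have h := card_filter_le (univ : Finset (ZMod ℓ × ZMod ℓ)) (fun q => R q.1 = R q.2)
  rw [card_univ, Fintype.card_prod, ZMod.card] at h
  exact_mod_cast h

theorem GF_inv_le (l ℓ : ℕ) [Fact ℓ.Prime] (ψ : AddChar (ZMod ℓ) ℂ) (hψ : ∃ a, ψ a ≠ 1) :
    GF l (fun a => ψ a⁻¹) ≤ 2 * (2 ^ (l + 1) + 4 ^ l) / ℓ := by
  classical
  have hℓp : ℓ.Prime := Fact.out
  have hℓ0 : (0 : ℝ) < ℓ := by exact_mod_cast hℓp.pos
  have hℓ2 : (2 : ℝ) ≤ ℓ := by exact_mod_cast hℓp.two_le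
  obtain ⟨G, hG⟩ : ∃ G, G = GF l (fun a : ZMod ℓ => ψ a⁻¹) := ⟨_, rfl⟩
  rw [← hG]
  -- lower bound
  have hlow : ((ℓ : ℝ) - 1) * G ≤ ∑ α : ZMod ℓ, GF l (fun a => ψ (α * a⁻¹)) := by
    rw [← add_sum_erase univ _ (mem_univ (0 : ZMod ℓ))]
    have h1 : ∑ α ∈ univ.erase (0 : ZMod ℓ), GF l (fun a => ψ (α * a⁻¹)) = ((ℓ : ℝ) - 1) * G := by
      rw [sum_congr rfl fun α hα => GF_scale l ℓ ψ α (ne_of_mem_erase hα), sum_const,
        card_erase_of_mem (mem_univ _), card_univ, ZMod.card, nsmul_eq_mul, ← hG,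
        Nat.cast_sub hℓp.one_lt.le, Nat.cast_one]
    rw [h1]
    have h2 := GF_nonneg l (fun a : ZMod ℓ => ψ (0 * a⁻¹))
    linarith
  -- upper bound
  have hpair : ∀ t : Fin l → ZMod ℓ, ∑ α : ZMod ℓ, ‖(∑ a, ψ (DD (fun a => α * a⁻¹) t a)) / (ℓ : ℂ)‖ ^ 2 =
      (#{q : ZMod ℓ × ZMod ℓ | DD (fun a => a⁻¹) t q.1 = DD (fun a => a⁻¹) t q.2} : ℝ) / ℓ := by
    intro t
    have h1 := orth ℓ ψ hψ (DD (fun a => a⁻¹) t)
    have h2 : ∀ α : ZMod ℓ, ‖(∑ a, ψ (DD (fun a => α * a⁻¹) t a)) / (ℓ : ℂ)‖ ^ 2 =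
        ‖∑ a, ψ (α * DD (fun a => a⁻¹) t a)‖ ^ 2 / (ℓ : ℝ) ^ 2 := by
      intro α
      rw [norm_div, div_pow, Complex.norm_natCast]
      simp only [DD_scale]
    rw [sum_congr rfl fun α _ => h2 α, ← sum_div, h1]
    field_simp
  have hup : ∑ α : ZMod ℓ, GF l (fun a => ψ (α * a⁻¹)) ≤ 2 ^ (l + 1) + 4 ^ l := by
    have h1 : ∀ α : ZMod ℓ, GF l (fun a => ψ (α * a⁻¹)) =
        (∑ t : Fin l → ZMod ℓ, ‖(∑ a, ψ (DD (fun a => α * a⁻¹) t a)) / (ℓ : ℂ)‖ ^ 2) / (ℓ : ℝ) ^ l :=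
      fun α => GF_unroll l ℓ (fun a => α * a⁻¹) ψ
    rw [sum_congr rfl fun α _ => h1 α, ← sum_div, sum_comm, sum_congr rfl fun t _ => hpair t,
      div_le_iff₀ (by positivity)]
    have hbad := bad_tuples ℓ l
    rw [← sum_filter_add_sum_filter_not univ
      (fun t : Fin l → ZMod ℓ => ¬ Function.Injective (fun S : Finset (Fin l) => ∑ i ∈ S, t i))]
    have h2 : ∑ t ∈ univ.filter (fun t : Fin l → ZMod ℓ =>
        ¬ Function.Injective (fun S : Finset (Fin l) => ∑ i ∈ S, t i)),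
        (#{q : ZMod ℓ × ZMod ℓ | DD (fun a => a⁻¹) t q.1 = DD (fun a => a⁻¹) t q.2} : ℝ) / ℓ ≤
        4 ^ l * (ℓ : ℝ) ^ l := by
      refine le_trans (sum_le_sum (g := fun _ => (ℓ : ℝ)) fun t _ => ?_) ?_
      · rw [div_le_iff₀ hℓ0]
        exact pairs_all _
      · rw [sum_const, nsmul_eq_mul]
        exact hbad
    have h3 : ∑ t ∈ univ.filter (fun t : Fin l → ZMod ℓ =>
        ¬ ¬ Function.Injective (fun S : Finset (Fin l) => ∑ i ∈ S, t i)),
        (#{q : ZMod ℓ × ZMod ℓ | DD (fun a => a⁻¹) t q.1 = DD (fun a => a⁻¹) t q.2} : ℝ) / ℓ ≤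
        2 ^ (l + 1) * (ℓ : ℝ) ^ l := by
      refine le_trans (sum_le_sum (g := fun _ => (2 : ℝ) ^ (l + 1)) fun t ht => ?_) ?_
      · rw [div_le_iff₀ hℓ0]
        have ht' := not_not.1 (mem_filter.1 ht).2
        refine (pairs_good t ht').trans (le_of_eq ?_)
        ring
      · rw [sum_const, nsmul_eq_mul, mul_comm]
        refine mul_le_mul_of_nonneg_left ?_ (by positivity)
        have h4 := card_filter_le (univ : Finset (Fin l → ZMod ℓ)) (fun t : Fin l → ZMod ℓ =>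
          ¬ ¬ Function.Injective (fun S : Finset (Fin l) => ∑ i ∈ S, t i))
        rw [card_univ, Fintype.card_fun, ZMod.card, Fintype.card_fin] at h4
        exact_mod_cast h4
    calc _ ≤ 4 ^ l * (ℓ : ℝ) ^ l + 2 ^ (l + 1) * (ℓ : ℝ) ^ l := add_le_add h2 h3
      _ = _ := by ring
  have hG0 : 0 ≤ G := by rw [hG]; exact GF_nonneg l _
  rw [le_div_iff₀ hℓ0]
  have h5 := hlow.trans hup
  nlinarith

end Pool.Agent.Helper6.PW
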