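import Mathlib
import Pool.Agent.Helper6.PW.Basic
import Pool.Agent.Helper6.PW.PrimeB

/-!
# PW-06 GzBridge: `Gz` of a function on `ZMod q` is its `GF`; the bound for `ph ℓ v`

`Gz_eq_GF`: induction on `l`; `∑_{a ∈ range q} f((a : ℤ) : ZMod q) = ∑_{x : ZMod q} f x` (bijection
`range q → ZMod q`, e.g. `Finset.sum_bij`/`Fin.sum_univ_eq_sum_range`, `ZMod.natCast_self_eq_zero`,
`ZMod.val`), and `dl t (fun a => f a) = fun a => (fun x => f (x + t) * conj (f x)) a`.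

`primeBound`: for `ℓ` prime and `ℓ ∤ v`, `ph ℓ v a = ψ ((a - 1)⁻¹)` with the character
`ψ x = e(v x.val / ℓ)`; e.g. `ψ = AddChar.mulShift ZMod.stdAddChar v`, nontrivial because `ℓ ∤ v`
(`ZMod.stdAddChar_coe`, `ZMod.toCircle_intCast`, `ZMod.isPrimitive_stdAddChar`).  Then `Gz_eq_GF`, `GF_shift`
(shift by `-1`) and `GF_inv_le` with `C = 2 (2^(L+1) + 4^L)`.
`Per_ph`: `ph ℓ v` has period `ℓ`.  `norm_ph`: `‖ph ℓ v a‖ = 1` (`norm_ex`).
-/

namespace Pool.Agent.Helper6.PW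

open Finset

private theorem sum_range_zmod (q : ℕ) [NeZero q] {M : Type*} [AddCommMonoid M] (f : ZMod q → M) :
    ∑ a ∈ Finset.range q, f (((a : ℕ) : ℤ) : ZMod q) = ∑ x : ZMod q, f x := by
  refine Finset.sum_bij (fun a _ => ((a : ℕ) : ZMod q)) (fun a _ => Finset.mem_univ _) ?_ ?_ ?_
  · intro a ha b hb hab
    rw [ZMod.natCast_eq_natCast_iff'] at hab
    rwa [Nat.mod_eq_of_lt (Finset.mem_range.1 ha), Nat.mod_eq_of_lt (Finset.mem_range.1 hb)] at hab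
  · intro x _
    exact ⟨x.val, Finset.mem_range.2 (ZMod.val_lt x), ZMod.natCast_zmod_val x⟩
  · intro a _
    rw [Int.cast_natCast]

theorem Gz_eq_GF (l q : ℕ) [NeZero q] (f : ZMod q → ℂ) :
    Gz l q (fun a : ℤ => f (a : ZMod q)) = GF l f := by
  induction l generalizing f with
  | zero =>
    unfold Gz GF
    rw [sum_range_zmod q f, ZMod.card]
  | succ l ih =>
    unfold Gz GF
    rw [ZMod.card]
    congr 1
    rw [← sum_range_zmod q (fun t => GF l (fun a => f (a + t) * (starRingEnd ℂ) (f a)))]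
    refine Finset.sum_congr rfl fun t _ => ?_
    rw [← ih]
    congr 1
    funext a
    change f (((a + ((t : ℕ) : ℤ) : ℤ)) : ZMod q) * _ = _
    rw [Int.cast_add]

theorem Per_ph (ℓ : ℕ) (v : ℤ) : Per ℓ (ph ℓ v) := by
  intro a
  unfold ph
  rw [Int.cast_add, Int.cast_natCast, ZMod.natCast_self, add_zero]

theorem norm_ph (ℓ : ℕ) (v a : ℤ) : ‖ph ℓ v a‖ = 1 := by
  exact norm_ex _

theorem primeBound (L : ℕ) : ∃ C : ℝ, 1 ≤ C ∧ ∀ (ℓ : ℕ) (v : ℤ), ℓ.Prime → ¬ (ℓ : ℤ) ∣ v →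
    Gz L ℓ (ph ℓ v) ≤ C / ℓ := by
  refine ⟨2 * (2 ^ (L + 1) + 4 ^ L), ?_, ?_⟩
  · have h1 : (1 : ℝ) ≤ 2 ^ (L + 1) := one_le_pow₀ (by norm_num)
    have h2 : (0 : ℝ) ≤ 4 ^ L := by positivity
    linarith
  intro ℓ v hℓ hv
  have : Fact ℓ.Prime := ⟨hℓ⟩
  set ψ : AddChar (ZMod ℓ) ℂ := (ZMod.stdAddChar (N := ℓ)).mulShift (v : ZMod ℓ) with hψ
  have hψ1 : ∃ a, ψ a ≠ 1 := by
    refine ⟨1, fun h => hv ?_⟩
    rw [hψ, AddChar.mulShift_apply, mul_one, ← AddChar.map_zero_eq_one (ZMod.stdAddChar (N := ℓ))] at h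
    exact (ZMod.intCast_zmod_eq_zero_iff_dvd v ℓ).1 (ZMod.injective_stdAddChar h)
  have hph : ph ℓ v = fun a : ℤ => (fun x : ZMod ℓ => (fun y : ZMod ℓ => ψ y⁻¹) (x + (-1))) (a : ZMod ℓ) := by
    funext a
    have hx : ∀ x : ZMod ℓ, ψ x = ex ((v : ℝ) * ((x.val : ℕ) : ℝ) / (ℓ : ℝ)) := by
      intro x
      have h1 : (v : ZMod ℓ) * x = ((v * (x.val : ℤ) : ℤ) : ZMod ℓ) := by
        rw [Int.cast_mul, Int.cast_natCast, ZMod.natCast_zmod_val]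
      rw [hψ, AddChar.mulShift_apply, h1, ZMod.stdAddChar_coe]
      unfold ex
      congr 1
      push_cast
      ring
    change ph ℓ v a = ψ (((a : ZMod ℓ) + (-1))⁻¹)
    rw [hx, ← sub_eq_add_neg]
    rfl
  rw [hph, Gz_eq_GF L ℓ (fun x : ZMod ℓ => (fun y : ZMod ℓ => ψ y⁻¹) (x + (-1))),
    GF_shift L (-1) (fun y : ZMod ℓ => ψ y⁻¹)]
  exact GF_inv_le L ℓ ψ hψ1

end Pool.Agent.Helper6.PW
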