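import Mathlib
import Pool.Agent.Helper6.PW.Basic

/-!
# PW-01 GzMul: multiplicativity of `Gz`

Chinese remainder: for coprime `q, r ≥ 1` and `u` depending only on `a mod q`, `v` only on `a mod r`,
`∑_{a < qr} u(a) v(a) = (∑_{a < q} u(a)) (∑_{b < r} v(b))` (the map `a ↦ (a mod q, a mod r)` is a
bijection of `range (q r)` onto `range q ×ˢ range r`; `Nat.chineseRemainder`, or
`Nat.coprime.. injectivity + card`).

`Gz_mul` by induction on `l`, for all `f, g`.  `l = 0`: the identity for `f, g`, norms are multiplicative.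
`l + 1`: `dl t (f g) = dl t f * dl t g` (`dl_mul`), so by induction
`Gz l (q r) (dl t (f g)) = Gz l q (dl t f) * Gz l r (dl t g)` (`Per.dl`), and `t ↦ Gz l q (dl t f)` depends only
on `t mod q` (`dl_congr`), `t ↦ Gz l r (dl t g)` only on `t mod r`; apply the identity for real functions.

`Gz_prod` by induction on `S` (`∏_{ℓ ∈ S} ℓ` is coprime to a new prime; `Per ℓ f` gives
`Per (∏ ..)` of the product by `Per.of_dvd`, `Per.prod`); for `S = ∅`: `Gz l 1 (fun _ => 1) = 1` by induction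
(`dl t 1 = 1`).
-/

namespace Pool.Agent.Helper6.PW

open Finset

private theorem gzm_crt {R : Type*} [CommSemiring R] {q r : ℕ} (hq : 1 ≤ q) (hr : 1 ≤ r)
    (hc : q.Coprime r) (u v : ℕ → R) (hu : ∀ a, u (a % q) = u a) (hv : ∀ a, v (a % r) = v a) :
    ∑ a ∈ range (q * r), u a * v a = (∑ a ∈ range q, u a) * ∑ b ∈ range r, v b := by
  rw [Finset.sum_mul_sum, ← Finset.sum_product']
  refine Finset.sum_nbij' (fun a => (a % q, a % r))
    (fun p => (Nat.chineseRemainder hc p.1 p.2 : ℕ)) ?_ ?_ ?_ ?_ ?_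
  · intro a _
    rw [mem_product, mem_range, mem_range]
    exact ⟨Nat.mod_lt _ hq, Nat.mod_lt _ hr⟩
  · intro p _
    rw [mem_range]
    exact Nat.chineseRemainder_lt_mul hc p.1 p.2 (by omega) (by omega)
  · intro a ha
    rw [mem_range] at ha
    have h1 := Nat.chineseRemainder_modEq_unique hc (a := a % q) (b := a % r) (z := a)
      (Nat.mod_modEq a q).symm (Nat.mod_modEq a r).symm
    exact (Nat.ModEq.eq_of_lt_of_lt h1 ha
      (Nat.chineseRemainder_lt_mul hc _ _ (by omega) (by omega))).symm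
  · intro p hp
    rw [mem_product, mem_range, mem_range] at hp
    have h1 := (Nat.chineseRemainder hc p.1 p.2).2
    have h2 : (Nat.chineseRemainder hc p.1 p.2 : ℕ) % q = p.1 := by
      have := h1.1
      unfold Nat.ModEq at this
      rw [this, Nat.mod_eq_of_lt hp.1]
    have h3 : (Nat.chineseRemainder hc p.1 p.2 : ℕ) % r = p.2 := by
      have := h1.2
      unfold Nat.ModEq at this
      rw [this, Nat.mod_eq_of_lt hp.2]
    exact Prod.ext h2 h3
  · intro a _
    rw [hu, hv]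

private theorem gzm_dvd (q t : ℕ) : (q : ℤ) ∣ ((t % q : ℕ) : ℤ) - (t : ℤ) := by
  refine ⟨-((t / q : ℕ) : ℤ), ?_⟩
  have h1 : ((t % q : ℕ) : ℤ) + (q : ℤ) * ((t / q : ℕ) : ℤ) = (t : ℤ) := by
    exact_mod_cast Nat.mod_add_div t q
  linarith

private theorem gzm_one (l : ℕ) : Gz l 1 (fun _ => 1) = 1 := by
  induction l with
  | zero =>
    unfold Gz
    simp
  | succ l ih =>
    unfold Gz
    have h1 : ∀ t : ℤ, dl t (fun _ => (1 : ℂ)) = fun _ => 1 := by
      intro t
      funext a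
      unfold dl
      simp
    simp only [h1, ih]
    simp

theorem Gz_mul (l q r : ℕ) (hq : 1 ≤ q) (hr : 1 ≤ r) (hc : q.Coprime r) (f g : ℤ → ℂ)
    (hf : Per q f) (hg : Per r g) :
    Gz l (q * r) (fun a => f a * g a) = Gz l q f * Gz l r g := by
  have hqR : (q : ℝ) ≠ 0 := by
    have : (0 : ℝ) < q := by exact_mod_cast hq
    exact this.ne'
  induction l generalizing f g with
  | zero =>
    unfold Gz
    have h1 := gzm_crt hq hr hc (fun a : ℕ => f (a : ℤ)) (fun a : ℕ => g (a : ℤ))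
      (fun a => hf.congr (gzm_dvd q a)) (fun a => hg.congr (gzm_dvd r a))
    rw [h1, ← mul_pow, ← norm_mul]
    congr 2
    push_cast
    rw [mul_div_mul_comm]
  | succ l ih =>
    have h1 : ∀ t : ℕ, Gz l (q * r) (dl (t : ℤ) (fun a => f a * g a)) =
        Gz l q (dl (t : ℤ) f) * Gz l r (dl (t : ℤ) g) := by
      intro t
      rw [dl_mul]
      exact ih _ _ (hf.dl _) (hg.dl _)
    have h2 := gzm_crt hq hr hc (fun t : ℕ => Gz l q (dl (t : ℤ) f))
      (fun t : ℕ => Gz l r (dl (t : ℤ) g))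
      (fun a => congrArg (Gz l q) (dl_congr hf (gzm_dvd q a)))
      (fun a => congrArg (Gz l r) (dl_congr hg (gzm_dvd r a)))
    unfold Gz
    rw [Finset.sum_congr rfl fun t _ => h1 t, h2]
    push_cast
    rw [mul_div_mul_comm]

theorem Gz_prod (l : ℕ) (S : Finset ℕ) (hS : ∀ ℓ ∈ S, ℓ.Prime) (f : ℕ → ℤ → ℂ)
    (hf : ∀ ℓ ∈ S, Per ℓ (f ℓ)) :
    Gz l (∏ ℓ ∈ S, ℓ) (fun a => ∏ ℓ ∈ S, f ℓ a) = ∏ ℓ ∈ S, Gz l ℓ (f ℓ) := by
  classical
  induction S using Finset.induction_on with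
  | empty =>
    rw [Finset.prod_empty, Finset.prod_empty]
    simp only [Finset.prod_empty]
    exact gzm_one l
  | insert p S hp ih =>
    have ih' := ih (fun ℓ hℓ => hS ℓ (mem_insert_of_mem hℓ)) (fun ℓ hℓ => hf ℓ (mem_insert_of_mem hℓ))
    have hpp := hS p (mem_insert_self p S)
    have hSp : 1 ≤ ∏ ℓ ∈ S, ℓ :=
      Nat.one_le_iff_ne_zero.2 (Finset.prod_ne_zero_iff.2 fun ℓ hℓ =>
        (hS ℓ (mem_insert_of_mem hℓ)).ne_zero)
    have hcop : p.Coprime (∏ ℓ ∈ S, ℓ) := by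
      refine Nat.Coprime.prod_right fun ℓ hℓ => ?_
      rw [Nat.coprime_primes hpp (hS ℓ (mem_insert_of_mem hℓ))]
      rintro rfl
      exact hp hℓ
    have hper : Per (∏ ℓ ∈ S, ℓ) (fun a => ∏ ℓ ∈ S, f ℓ a) :=
      Per.prod S f fun ℓ hℓ => (hf ℓ (mem_insert_of_mem hℓ)).of_dvd (Finset.dvd_prod_of_mem _ hℓ)
    have h1 := Gz_mul l p (∏ ℓ ∈ S, ℓ) hpp.one_lt.le hSp hcop (f p) (fun a => ∏ ℓ ∈ S, f ℓ a)
      (hf p (mem_insert_self p S)) hper
    rw [Finset.prod_insert hp, Finset.prod_insert hp, ← ih', ← h1]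
    congr 1
    funext a
    rw [Finset.prod_insert hp]

end Pool.Agent.Helper6.PW
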