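import Mathlib
import Pool.Agent.Helper6.PW.GzMul
import Pool.Agent.Helper6.PW.GzBridge

/-!
# PW-07 PrimeProd: the product over the primes of the smooth modulus

`q₀` squarefree, so `q₀ = ∏_{ℓ ∣ q₀} ℓ` and by `Gz_prod`, `Gz L q₀ (∏ ph) = ∏_{ℓ ∣ q₀} Gz L ℓ (ph ℓ (h u_ℓ))`.
Let `C ≥ 1` be the constant of `primeBound`.  Each factor is `≤ 1` (`Gz_le_one`, `norm_ph`) and `≥ 0`.  If
`ℓ ∤ h` and `ℓ ≥ C^2` then `ℓ ∤ h u_ℓ` and the factor is `≤ C/ℓ ≤ ℓ^(-1/2)`.  So the product is at most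
`(∏_{ℓ ∣ q₀, ℓ ∤ h, ℓ ≥ C^2} ℓ)^(-1/2)`, and `q₀ = ∏_{ℓ ∣ q₀} ℓ ≤ (∏_{those}) * (∏_{ℓ ∣ h, ℓ ∣ q₀} ℓ) *
(∏_{ℓ < C^2} ℓ) ≤ (∏_{those}) * h * B` with `B = ∏_{ℓ < C^2, ℓ prime} ℓ` (or `B = ⌈C^2⌉!`), a constant.
(`∏_{ℓ ∣ h, ℓ ∣ q₀} ℓ` divides `h`.)  `q₀ ≥ 1` as `q₀` is squarefree.
-/

namespace Pool.Agent.Helper6.PW

open Finset

private theorem pp_icc_fact (n : ℕ) : ∏ x ∈ Finset.Icc 1 n, x = n.factorial := by
  induction n with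
  | zero => simp
  | succ n ih => rw [Finset.prod_Icc_succ_top (by omega), ih, Nat.factorial_succ, mul_comm]

theorem primeProd (L : ℕ) : ∃ B : ℝ, 1 ≤ B ∧ ∀ (q₀ h : ℕ) (u : ℕ → ℤ), Squarefree q₀ → 1 ≤ h →
    (∀ ℓ ∈ q₀.primeFactors, ¬ (ℓ : ℤ) ∣ u ℓ) →
    Gz L q₀ (fun a => ∏ ℓ ∈ q₀.primeFactors, ph ℓ ((h : ℤ) * u ℓ) a) ≤
      ((h : ℝ) * B / q₀) ^ ((1 : ℝ) / 2) := by
  obtain ⟨C, hC1, hC⟩ := primeBound L
  set M : ℕ := ⌈C ^ 2⌉₊ with hM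
  have hCM : C ^ 2 ≤ M := Nat.le_ceil _
  have hC0 : 0 < C := by linarith
  refine ⟨(M.factorial : ℝ), by exact_mod_cast Nat.one_le_iff_ne_zero.mpr (Nat.factorial_ne_zero M), ?_⟩
  intro q₀ h u hsq hh hu
  have hq0 : q₀ ≠ 0 := hsq.ne_zero
  have hqR : (0 : ℝ) < q₀ := by exact_mod_cast Nat.pos_of_ne_zero hq0
  have hprod : ∏ ℓ ∈ q₀.primeFactors, ℓ = q₀ := Nat.prod_primeFactors_of_squarefree hsq
  have hpr : ∀ ℓ ∈ q₀.primeFactors, ℓ.Prime := fun ℓ hℓ => Nat.prime_of_mem_primeFactors hℓ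
  set G : ℕ → ℝ := fun ℓ => Gz L ℓ (ph ℓ ((h : ℤ) * u ℓ)) with hG
  have h1 : Gz L q₀ (fun a => ∏ ℓ ∈ q₀.primeFactors, ph ℓ ((h : ℤ) * u ℓ) a) =
      ∏ ℓ ∈ q₀.primeFactors, G ℓ := by
    have h2 := Gz_prod L q₀.primeFactors hpr (fun ℓ => ph ℓ ((h : ℤ) * u ℓ)) (fun ℓ _ => Per_ph _ _)
    rw [hprod] at h2
    exact h2
  have hG0 : ∀ ℓ, 0 ≤ G ℓ := fun ℓ => Gz_nonneg _ _ _
  have hG1 : ∀ ℓ ∈ q₀.primeFactors, G ℓ ≤ 1 := fun ℓ hℓ =>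
    Gz_le_one L (hpr ℓ hℓ).one_lt.le (fun a => (norm_ph _ _ _).le)
  set A : ℕ → ℕ := fun ℓ => if ¬ ℓ ∣ h ∧ M ≤ ℓ then ℓ else 1 with hA
  -- squares of the factors
  have hsqf : ∀ ℓ ∈ q₀.primeFactors, G ℓ ^ 2 ≤ 1 / (A ℓ : ℝ) := by
    intro ℓ hℓ
    by_cases hc : ¬ ℓ ∣ h ∧ M ≤ ℓ
    · have hAl : A ℓ = ℓ := by rw [hA]; simp only [if_pos hc]
      rw [hAl]
      have hp := hpr ℓ hℓ
      have hl0 : (0 : ℝ) < ℓ := by exact_mod_cast hp.pos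
      have hnd : ¬ (ℓ : ℤ) ∣ (h : ℤ) * u ℓ := by
        intro hd
        rcases (Nat.prime_iff_prime_int.mp hp).dvd_or_dvd hd with h3 | h3
        · exact hc.1 (by exact_mod_cast h3)
        · exact hu ℓ hℓ h3
      have h3 : G ℓ ≤ C / ℓ := hC ℓ _ hp hnd
      have h4 : C ^ 2 ≤ ℓ := hCM.trans (by exact_mod_cast hc.2)
      calc G ℓ ^ 2 ≤ (C / ℓ) ^ 2 := pow_le_pow_left₀ (hG0 ℓ) h3 2
        _ = C ^ 2 / ℓ ^ 2 := div_pow _ _ _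
        _ ≤ ℓ / ℓ ^ 2 := div_le_div_of_nonneg_right h4 (by positivity)
        _ = 1 / (ℓ : ℝ) := by field_simp
    · have hAl : A ℓ = 1 := by rw [hA]; simp only [if_neg hc]
      rw [hAl]
      have := hG1 ℓ hℓ
      have := hG0 ℓ
      simp only [Nat.cast_one, div_one]
      nlinarith
  have hApos : ∀ ℓ ∈ q₀.primeFactors, 0 < A ℓ := by
    intro ℓ hℓ
    rw [hA]
    simp only
    split_ifs
    · exact (hpr ℓ hℓ).pos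
    · exact Nat.one_pos
  have hle : q₀ ≤ h * M.factorial * ∏ ℓ ∈ q₀.primeFactors, A ℓ := by
    have h2 : ∏ ℓ ∈ q₀.primeFactors, ℓ ≤ ∏ ℓ ∈ q₀.primeFactors,
        ((if ℓ ∣ h then ℓ else 1) * (if ℓ < M then ℓ else 1) * A ℓ) := by
      refine Finset.prod_le_prod' fun ℓ hℓ => ?_
      have hp := (hpr ℓ hℓ).pos
      by_cases h3 : ℓ ∣ h
      · by_cases h4 : ℓ < M
        · rw [if_pos h3, if_pos h4]
          have := hApos ℓ hℓ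
          calc ℓ = ℓ * 1 * 1 := by ring
            _ ≤ ℓ * ℓ * A ℓ := Nat.mul_le_mul (Nat.mul_le_mul_left _ hp) this
        · rw [if_pos h3, if_neg h4]
          have := hApos ℓ hℓ
          calc ℓ = ℓ * 1 * 1 := by ring
            _ ≤ ℓ * 1 * A ℓ := Nat.mul_le_mul_left _ this
      · by_cases h4 : ℓ < M
        · rw [if_neg h3, if_pos h4]
          have := hApos ℓ hℓ
          calc ℓ = 1 * ℓ * 1 := by ring
            _ ≤ 1 * ℓ * A ℓ := Nat.mul_le_mul_left _ this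
        · rw [if_neg h3, if_neg h4]
          have : A ℓ = ℓ := by rw [hA]; simp only [if_pos (show ¬ ℓ ∣ h ∧ M ≤ ℓ from ⟨h3, by omega⟩)]
          rw [this]
          simp
    rw [hprod, Finset.prod_mul_distrib, Finset.prod_mul_distrib, ← Finset.prod_filter, ← Finset.prod_filter] at h2
    refine h2.trans (Nat.mul_le_mul_right _ (Nat.mul_le_mul ?_ ?_))
    · refine Nat.le_of_dvd hh ?_
      refine Finset.prod_primes_dvd h (fun ℓ hℓ => ?_) (fun ℓ hℓ => ?_)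
      · exact (hpr ℓ (Finset.mem_filter.mp hℓ).1).prime
      · exact (Finset.mem_filter.mp hℓ).2
    · rw [← pp_icc_fact]
      refine Finset.prod_le_prod_of_subset_of_one_le' (fun ℓ hℓ => ?_) (fun ℓ hℓ _ => ?_)
      · rw [Finset.mem_filter] at hℓ
        rw [Finset.mem_Icc]
        exact ⟨(hpr ℓ hℓ.1).pos, hℓ.2.le⟩
      · exact (Finset.mem_Icc.mp hℓ).1
  have hAprod : (0 : ℝ) < ((∏ ℓ ∈ q₀.primeFactors, A ℓ : ℕ) : ℝ) := by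
    exact_mod_cast Finset.prod_pos hApos
  have h5 : (∏ ℓ ∈ q₀.primeFactors, G ℓ) ^ 2 ≤ (h : ℝ) * M.factorial / q₀ := by
    calc (∏ ℓ ∈ q₀.primeFactors, G ℓ) ^ 2 = ∏ ℓ ∈ q₀.primeFactors, G ℓ ^ 2 := by
          rw [Finset.prod_pow]
      _ ≤ ∏ ℓ ∈ q₀.primeFactors, 1 / (A ℓ : ℝ) :=
          Finset.prod_le_prod (fun ℓ _ => by positivity) hsqf
      _ = 1 / ((∏ ℓ ∈ q₀.primeFactors, A ℓ : ℕ) : ℝ) := by
          rw [Finset.prod_div_distrib]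
          push_cast
          simp
      _ ≤ (h : ℝ) * M.factorial / q₀ := by
          rw [div_le_div_iff₀ hAprod hqR, one_mul]
          exact_mod_cast hle
  rw [h1, ← Real.sqrt_eq_rpow]
  exact Real.le_sqrt_of_sq_le h5

end Pool.Agent.Helper6.PW
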