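import Mathlib
import Pool.Agent.Helper6.PW.Defs

/-!
# PW-10 Theta: the phase `D / (c F)` as a sum of periodic functions of `p`

`M = c F`; `c` squarefree, `c, F` coprime, `q₀ ∣ c`, `(c / q₀) F = ∏_j q_j` with pairwise coprime `q_j`.
So `M` is the product of the pairwise coprime moduli `ℓ` (`ℓ` prime, `ℓ ∣ q₀`) and `q_j`.
(1) For a modulus `m` of this list let `w_m` be an integer with `w_m (M/m) ≡ 1 mod m`.  Then
`∑_m w_m (M/m) ≡ 1 mod M` (modulo each `m`: the other terms are divisible by `m`).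
(2) Local residues.  For `ℓ ∣ q₀` put `r_ℓ(a) = (((a : ZMod ℓ) - 1)⁻¹).val`.  If `c ∣ (a-1) D + 1` then
`(a - 1) D = -1` in `ZMod ℓ`, so `D = - (a-1)⁻¹`, i.e. `D ≡ - r_ℓ(a) mod ℓ`.
For `q_j`: let `c_j = gcd (q_j, c)`, `F_j = gcd (q_j, F)`, so `q_j = c_j F_j`, coprime (as `q_j ∣ c F`).  Let
`Q_j(a, D)` be the statement `c_j ∣ (a-1) D + 1 ∧ F_j ∣ a D + 1`; it depends on `a` only modulo `q_j` and two
solutions `D, D'` for the same `a` are congruent modulo `q_j` (`a - 1` is invertible mod `c_j`, `a` mod `F_j`).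
Put `ρ_j(a) = ` a chosen solution `D` of `Q_j(a % q_j, D)` if there is one and `0` otherwise (`Classical.choose`
on `∃ D, Q_j (a % q_j) D`), a function of `a % q_j`, hence of period `q_j`.  If `c ∣ (a-1) D + 1` and
`F ∣ a D + 1` then `D ≡ ρ_j(a) mod q_j`.
(3) `u ℓ = - w_ℓ` (so `ℓ ∤ u ℓ`, as `w_ℓ` is invertible mod `ℓ`), `f_j(a) = w_{q_j} ρ_j(a) / q_j`.  Then
`∑_ℓ u_ℓ r_ℓ(a)/ℓ + ∑_j f_j(a) - D/M = (∑_m w_m (M/m) D_m - D)/M` with `D_m ≡ D mod m`, and
`∑_m w_m (M/m) D_m ≡ ∑_m w_m (M/m) D ≡ D mod M` (note `m (M/m) = M`), so this is an integer.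
-/

namespace Pool.Agent.Helper6.PW

open Finset

/-- Chinese remaindering for fractions. -/
private theorem theta_crt {ι : Type} [DecidableEq ι] (s : Finset ι) (m : ι → ℕ)
    (hpos : ∀ i ∈ s, 0 < m i)
    (hc : ∀ i ∈ s, ∀ j ∈ s, i ≠ j → (m i).Coprime (m j)) :
    ∃ w : ι → ℤ, (∀ i ∈ s, IsCoprime (w i) (m i : ℤ)) ∧
      ∀ (D : ℤ) (E : ι → ℤ), (∀ i ∈ s, (m i : ℤ) ∣ E i - D) → ∃ t : ℤ,
        ∑ i ∈ s, (w i : ℝ) * (E i : ℝ) / (m i : ℝ) = (D : ℝ) / ((∏ i ∈ s, m i : ℕ) : ℝ) + t := by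
  induction s using Finset.induction_on with
  | empty =>
    refine ⟨fun _ => 1, fun i hi => absurd hi (Finset.notMem_empty i), fun D E _ => ⟨-D, ?_⟩⟩
    simp
  | insert a s ha ih =>
    obtain ⟨w, hw1, hw2⟩ := ih (fun i hi => hpos i (Finset.mem_insert_of_mem hi))
      (fun i hi j hj hij => hc i (Finset.mem_insert_of_mem hi) j (Finset.mem_insert_of_mem hj) hij)
    have hcop : (∏ i ∈ s, m i).Coprime (m a) := by
      refine Nat.Coprime.prod_left fun i hi => ?_
      refine hc i (Finset.mem_insert_of_mem hi) a (Finset.mem_insert_self a s) ?_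
      rintro rfl
      exact ha hi
    have hM : 0 < ∏ i ∈ s, m i :=
      Finset.prod_pos fun i hi => hpos i (Finset.mem_insert_of_mem hi)
    have hma : 0 < m a := hpos a (Finset.mem_insert_self a s)
    obtain ⟨x, y, hxy⟩ := Nat.isCoprime_iff_coprime.mpr hcop
    have hxa : IsCoprime x (m a : ℤ) := ⟨((∏ i ∈ s, m i : ℕ) : ℤ), y, by rw [mul_comm]; exact hxy⟩
    have hyM : IsCoprime y ((∏ i ∈ s, m i : ℕ) : ℤ) := ⟨(m a : ℤ), x, by
      rw [mul_comm, add_comm]; exact hxy⟩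
    refine ⟨fun i => if i = a then x else y * w i, ?_, ?_⟩
    · intro i hi
      by_cases h : i = a
      · subst h
        simpa using hxa
      · have his : i ∈ s := (Finset.mem_insert.mp hi).resolve_left h
        simp only [if_neg h]
        refine IsCoprime.mul_left ?_ (hw1 i his)
        refine IsCoprime.of_isCoprime_of_dvd_right hyM ?_
        exact Int.natCast_dvd_natCast.mpr (Finset.dvd_prod_of_mem m his)
    · intro D E hE
      obtain ⟨t, ht⟩ := hw2 (y * D) (fun i => y * E i) (fun i hi => by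
        rw [← mul_sub]
        exact Dvd.dvd.mul_left (hE i (Finset.mem_insert_of_mem hi)) y)
      obtain ⟨e, he⟩ := hE a (Finset.mem_insert_self a s)
      refine ⟨x * e + t, ?_⟩
      rw [Finset.sum_insert ha, Finset.prod_insert ha]
      have h1 : ∑ i ∈ s, ((if i = a then x else y * w i : ℤ) : ℝ) * (E i : ℝ) / (m i : ℝ) =
          ∑ i ∈ s, (w i : ℝ) * ((y * E i : ℤ) : ℝ) / (m i : ℝ) := by
        refine Finset.sum_congr rfl fun i hi => ?_
        have h : i ≠ a := by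
          rintro rfl
          exact ha hi
        rw [if_neg h]
        push_cast
        ring
      rw [h1, ht]
      beta_reduce
      rw [if_pos rfl]
      have hMr : ((∏ i ∈ s, m i : ℕ) : ℝ) ≠ 0 := by exact_mod_cast hM.ne'
      have hmr : (m a : ℝ) ≠ 0 := by exact_mod_cast hma.ne'
      have hxyr : (x : ℝ) * ((∏ i ∈ s, m i : ℕ) : ℝ) + (y : ℝ) * (m a : ℝ) = 1 := by
        exact_mod_cast hxy
      have her : (E a : ℝ) = D + m a * e := by
        have : E a = D + m a * e := by linarith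
        exact_mod_cast this
      rw [her]
      push_cast
      push_cast at hMr hxyr
      set P : ℝ := ∏ i ∈ s, (m i : ℝ) with hP
      have h2 : (D : ℝ) / ((m a : ℝ) * P) = (x : ℝ) * D / m a + y * D / P := by
        rw [div_add_div _ _ hmr hMr]
        congr 1
        calc (D : ℝ) = (x * P + y * m a) * D := by rw [hxyr, one_mul]
          _ = x * D * P + m a * (y * D) := by ring
      rw [h2]
      field_simp
      ring

/-- The local congruences at a modulus of the second kind. -/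
private def thetaQ (c' F' : ℕ) (a D : ℤ) : Prop :=
  (c' : ℤ) ∣ (a - 1) * D + 1 ∧ (F' : ℤ) ∣ a * D + 1

open Classical in
/-- A solution of the local congruences. -/
private noncomputable def thetaR (c' F' n : ℕ) (a : ℤ) : ℤ :=
  if h : ∃ D : ℤ, thetaQ c' F' (a % (n : ℤ)) D then h.choose else 0

private theorem thetaR_period (c' F' n : ℕ) (a : ℤ) :
    thetaR c' F' n (a + n) = thetaR c' F' n a := by
  unfold thetaR
  rw [Int.add_emod_right]

private theorem thetaR_spec (c' F' n : ℕ) (hn : c' * F' = n) (hcop : c'.Coprime F') (a D : ℤ)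
    (h1 : (c' : ℤ) ∣ (a - 1) * D + 1) (h2 : (F' : ℤ) ∣ a * D + 1) :
    (n : ℤ) ∣ thetaR c' F' n a - D := by
  have hdn : (n : ℤ) ∣ a - a % (n : ℤ) := Int.dvd_self_sub_emod
  have hcn : (c' : ℤ) ∣ (n : ℤ) := by
    rw [← hn]
    push_cast
    exact dvd_mul_right _ _
  have hFn : (F' : ℤ) ∣ (n : ℤ) := by
    rw [← hn]
    push_cast
    exact dvd_mul_left _ _
  have hex : ∃ D : ℤ, thetaQ c' F' (a % (n : ℤ)) D := by
    refine ⟨D, ?_, ?_⟩
    · have e : (a % (n : ℤ) - 1) * D + 1 = ((a - 1) * D + 1) - (a - a % (n : ℤ)) * D := by ring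
      rw [e]
      exact dvd_sub h1 (Dvd.dvd.mul_right (hcn.trans hdn) D)
    · have e : (a % (n : ℤ)) * D + 1 = (a * D + 1) - (a - a % (n : ℤ)) * D := by ring
      rw [e]
      exact dvd_sub h2 (Dvd.dvd.mul_right (hFn.trans hdn) D)
  have hR : thetaR c' F' n a = hex.choose := by
    unfold thetaR
    rw [dif_pos hex]
  obtain ⟨g1, g2⟩ := hex.choose_spec
  rw [hR]
  set R := hex.choose with hRdef
  have k1 : (c' : ℤ) ∣ (a - 1) * R + 1 := by
    have e : (a - 1) * R + 1 = ((a % (n : ℤ) - 1) * R + 1) + (a - a % (n : ℤ)) * R := by ring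
    rw [e]
    exact dvd_add g1 (Dvd.dvd.mul_right (hcn.trans hdn) R)
  have k2 : (F' : ℤ) ∣ a * R + 1 := by
    have e : a * R + 1 = ((a % (n : ℤ)) * R + 1) + (a - a % (n : ℤ)) * R := by ring
    rw [e]
    exact dvd_add g2 (Dvd.dvd.mul_right (hFn.trans hdn) R)
  have l1 : (c' : ℤ) ∣ R - D := by
    obtain ⟨u, hu⟩ := h1
    obtain ⟨v, hv⟩ := k1
    refine ⟨u * R - v * D, ?_⟩
    have hh : ((a - 1) * D + 1) * R - ((a - 1) * R + 1) * D = R - D := by ring
    rw [hu, hv] at hh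
    linarith [hh, show (c' : ℤ) * (u * R - v * D) = (c' : ℤ) * u * R - c' * v * D from by ring]
  have l2 : (F' : ℤ) ∣ R - D := by
    obtain ⟨u, hu⟩ := h2
    obtain ⟨v, hv⟩ := k2
    refine ⟨u * R - v * D, ?_⟩
    have hh : (a * D + 1) * R - (a * R + 1) * D = R - D := by ring
    rw [hu, hv] at hh
    linarith [hh, show (F' : ℤ) * (u * R - v * D) = (F' : ℤ) * u * R - F' * v * D from by ring]
  rw [← hn]
  push_cast
  exact (Nat.isCoprime_iff_coprime.mpr hcop).mul_dvd l1 l2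

theorem theta (c F q₀ L : ℕ) (q : Fin L → ℕ) (hsq : Squarefree c) (hF : 0 < F)
    (hcop : c.Coprime F) (hq₀ : q₀ ∣ c) (hq : ∀ j, 1 ≤ q j) (hprod : ∏ j, q j = (c / q₀) * F)
    (hpair : ∀ i j, i ≠ j → (q i).Coprime (q j)) :
    ∃ (u : ℕ → ℤ) (f : Fin L → ℤ → ℝ), (∀ ℓ ∈ q₀.primeFactors, ¬ (ℓ : ℤ) ∣ u ℓ) ∧
      (∀ (j : Fin L) (a : ℤ), f j (a + q j) = f j a) ∧
      ∀ a D : ℤ, (c : ℤ) ∣ (a - 1) * D + 1 → (F : ℤ) ∣ a * D + 1 → ∃ m : ℤ,
        ∑ ℓ ∈ q₀.primeFactors, (u ℓ : ℝ) * ((((a : ZMod ℓ) - 1)⁻¹).val : ℝ) / (ℓ : ℝ) + ∑ j, f j a =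
          (D : ℝ) / ((c : ℝ) * F) + m := by
  classical
  have hc0 : c ≠ 0 := hsq.ne_zero
  have hq0 : q₀ ≠ 0 := fun h => hc0 (by rw [h] at hq₀; exact Nat.eq_zero_of_zero_dvd hq₀)
  have hq₀sq : Squarefree q₀ := hsq.squarefree_of_dvd hq₀
  obtain ⟨c₁, hc₁⟩ := hq₀
  have hdiv : c / q₀ = c₁ := by
    rw [hc₁]
    exact Nat.mul_div_cancel_left _ (Nat.pos_of_ne_zero hq0)
  rw [hdiv] at hprod
  have hcop01 : q₀.Coprime c₁ := by
    rw [hc₁] at hsq
    exact Nat.coprime_of_squarefree_mul hsq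
  have hcop0F : q₀.Coprime F := Nat.Coprime.coprime_dvd_left ⟨c₁, hc₁⟩ hcop
  have hqd : ∀ j, q j ∣ c₁ * F := fun j => by
    rw [← hprod]
    exact Finset.dvd_prod_of_mem q (Finset.mem_univ j)
  have hlq : ∀ ℓ ∈ q₀.primeFactors, ∀ j, ℓ.Coprime (q j) := fun ℓ hℓ j => by
    have h1 : q₀.Coprime (c₁ * F) := Nat.Coprime.mul_right hcop01 hcop0F
    exact Nat.Coprime.coprime_dvd_left (Nat.dvd_of_mem_primeFactors hℓ)
      (Nat.Coprime.coprime_dvd_right (hqd j) h1)
  set s : Finset (ℕ ⊕ Fin L) := q₀.primeFactors.disjSum Finset.univ with hs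
  set m : ℕ ⊕ Fin L → ℕ := Sum.elim (fun ℓ => ℓ) q with hm
  obtain ⟨w, hw1, hw2⟩ := theta_crt s m
    (by
      intro i hi
      rcases i with ℓ | j
      · rw [hs, Finset.inl_mem_disjSum] at hi
        exact (Nat.prime_of_mem_primeFactors hi).pos
      · exact hq j)
    (by
      intro i hi j hj hij
      rcases i with ℓ | i <;> rcases j with ℓ' | j
      · rw [hs, Finset.inl_mem_disjSum] at hi hj
        have hne : ℓ ≠ ℓ' := fun h => hij (by rw [h])
        exact (Nat.coprime_primes (Nat.prime_of_mem_primeFactors hi)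
          (Nat.prime_of_mem_primeFactors hj)).mpr hne
      · rw [hs, Finset.inl_mem_disjSum] at hi
        exact hlq ℓ hi j
      · rw [hs, Finset.inl_mem_disjSum] at hj
        exact (hlq ℓ' hj i).symm
      · exact hpair i j fun h => hij (by rw [h]))
  have hprodm : ∏ i ∈ s, m i = c * F := by
    rw [hs, Finset.prod_disjSum]
    change (∏ ℓ ∈ q₀.primeFactors, ℓ) * ∏ j, q j = c * F
    rw [Nat.prod_primeFactors_of_squarefree hq₀sq, hprod, hc₁, mul_assoc]
  refine ⟨fun ℓ => -w (Sum.inl ℓ), fun j a => (w (Sum.inr j) : ℝ) *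
    ((thetaR (Nat.gcd (q j) c) (Nat.gcd (q j) F) (q j) a : ℤ) : ℝ) / (q j : ℝ), ?_, ?_, ?_⟩
  · intro ℓ hℓ hd
    have hp := Nat.prime_of_mem_primeFactors hℓ
    have h1 : IsCoprime (w (Sum.inl ℓ)) (ℓ : ℤ) :=
      hw1 (Sum.inl ℓ) (by rw [hs, Finset.inl_mem_disjSum]; exact hℓ)
    have h2 : (ℓ : ℤ) ∣ w (Sum.inl ℓ) := (dvd_neg).mp hd
    have h3 : IsUnit (ℓ : ℤ) := h1.isUnit_of_dvd' h2 dvd_rfl
    rw [Int.isUnit_iff_natAbs_eq, Int.natAbs_natCast] at h3
    exact hp.one_lt.ne' h3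
  · intro j a
    simp only [thetaR_period]
  · intro a D hcD hFD
    obtain ⟨t, ht⟩ := hw2 D (Sum.elim (fun ℓ => -((((a : ZMod ℓ) - 1)⁻¹).val : ℤ))
      (fun j => thetaR (Nat.gcd (q j) c) (Nat.gcd (q j) F) (q j) a)) (by
        intro i hi
        rcases i with ℓ | j
        · rw [hs, Finset.inl_mem_disjSum] at hi
          have hp := Nat.prime_of_mem_primeFactors hi
          haveI : Fact ℓ.Prime := ⟨hp⟩
          change (ℓ : ℤ) ∣ -((((a : ZMod ℓ) - 1)⁻¹).val : ℤ) - D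
          have hℓc : (ℓ : ℤ) ∣ (c : ℤ) :=
            Int.natCast_dvd_natCast.mpr ((Nat.dvd_of_mem_primeFactors hi).trans ⟨c₁, hc₁⟩)
          have h1 : (ℓ : ℤ) ∣ (a - 1) * D + 1 := hℓc.trans hcD
          have h2 : ((a : ZMod ℓ) - 1) * (D : ZMod ℓ) + 1 = 0 := by
            have := (ZMod.intCast_zmod_eq_zero_iff_dvd _ ℓ).mpr h1
            push_cast at this
            exact this
          have h3 : ((a : ZMod ℓ) - 1) ≠ 0 := by
            intro h0
            rw [h0, zero_mul, zero_add] at h2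
            exact one_ne_zero h2
          rw [← ZMod.intCast_zmod_eq_zero_iff_dvd]
          push_cast
          rw [ZMod.natCast_zmod_val]
          have h4 : (D : ZMod ℓ) = -((a : ZMod ℓ) - 1)⁻¹ := by
            have h5 : ((a : ZMod ℓ) - 1) * (D : ZMod ℓ) = -1 := by
              rw [eq_neg_iff_add_eq_zero]
              exact h2
            calc (D : ZMod ℓ) = ((a : ZMod ℓ) - 1)⁻¹ * (((a : ZMod ℓ) - 1) * (D : ZMod ℓ)) := by
                  rw [← mul_assoc, inv_mul_cancel₀ h3, one_mul]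
              _ = -((a : ZMod ℓ) - 1)⁻¹ := by rw [h5]; ring
          rw [h4]
          ring
        · change ((q j : ℕ) : ℤ) ∣ thetaR (Nat.gcd (q j) c) (Nat.gcd (q j) F) (q j) a - D
          have hqcF : q j ∣ c * F := by
            refine (hqd j).trans ?_
            rw [hc₁, mul_assoc]
            exact dvd_mul_left _ _
          have hmul : Nat.gcd (q j) c * Nat.gcd (q j) F = q j := by
            rw [← Nat.Coprime.gcd_mul (q j) hcop]
            exact Nat.gcd_eq_left hqcF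
          refine thetaR_spec _ _ _ hmul ?_ a D ?_ ?_
          · exact Nat.Coprime.coprime_dvd_left (Nat.gcd_dvd_right _ _)
              (Nat.Coprime.coprime_dvd_right (Nat.gcd_dvd_right _ _) hcop)
          · exact (Int.natCast_dvd_natCast.mpr (Nat.gcd_dvd_right _ _)).trans hcD
          · exact (Int.natCast_dvd_natCast.mpr (Nat.gcd_dvd_right _ _)).trans hFD)
    refine ⟨t, ?_⟩
    rw [hprodm, hs, Finset.sum_disjSum] at ht
    simp only [hm, Sum.elim_inl, Sum.elim_inr] at ht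
    push_cast at ht
    rw [← ht]
    congr 1
    refine Finset.sum_congr rfl fun ℓ _ => ?_
    push_cast
    ring

end Pool.Agent.Helper6.PW
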