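import Mathlib
import Pool.Agent.Helper6.PW.Basic

/-!
# PW-08 VdcStep: one step of the q-van der Corput process

`I = Ico A (A + N)`, `S = ∑_{a ∈ I} g(a) f(a)`, `f` of period `q`, `|f|, |g| ≤ 1`, `q T ≤ N`.
(1) For `0 ≤ t < T` the sums of `g f` over `I` and over `I + q t` differ by at most `2 q T` in absolute value,
so `|S| ≤ |T⁻¹ ∑_{t < T} ∑_{a ∈ I} g(a + q t) f(a + q t)| + 2 q T`, and `f(a + q t) = f(a)`, so
`|S| ≤ U + 2 q T`, `U = ∑_{a ∈ I} |T⁻¹ ∑_t g(a + q t)|`.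
(2) Cauchy-Schwarz: `U^2 ≤ N ∑_{a ∈ I} |T⁻¹ ∑_t g(a + q t)|^2 = N T⁻² ∑_{t,t'} ∑_{a ∈ I} g(a + q t) conj g(a + q t')`.
(3) Shift `a` by `q t'`: `∑_{a ∈ I} g(a + q t) conj g(a + q t') = ∑_{b ∈ I + q t'} dl (q (t - t')) g b`, which
differs from the sum over `I` by at most `2 q T`.
(4) `|S|^2 ≤ 2 U^2 + 8 q^2 T^2 ≤ 2 N T⁻² ∑_{t,t'} |∑_{a ∈ I} dl (q(t - t')) g a| + 4 N q T + 8 q^2 T^2`, and
`q T ≤ N`.
-/

namespace Pool.Agent.Helper6.PW

open Finset

private theorem vs_sI {M : Type*} [AddCommMonoid M] (A : ℤ) (N : ℕ) (F : ℤ → M) :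
    ∑ a ∈ Ico A (A + N), F a = ∑ i ∈ range N, F (A + i) := by
  refine Finset.sum_nbij' (fun a => (a - A).toNat) (fun i => A + i) ?_ ?_ ?_ ?_ ?_
  · intro a ha
    simp only [mem_Ico, mem_range] at *
    omega
  · intro i hi
    simp only [mem_Ico, mem_range] at *
    omega
  · intro a ha
    simp only [mem_Ico] at ha
    omega
  · intro i hi
    simp
  · intro a ha
    simp only [mem_Ico] at ha
    congr 1
    omega

private theorem vs_shift (A : ℤ) (N : ℕ) (F : ℤ → ℂ) (hF : ∀ a, ‖F a‖ ≤ 1) (s : ℕ) :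
    ‖∑ i ∈ range N, F (A + s + i) - ∑ i ∈ range N, F (A + i)‖ ≤ 2 * s := by
  induction s with
  | zero => simp
  | succ s ih =>
    have h1 : ∑ i ∈ range N, F (A + (s + 1 : ℕ) + i) + F (A + s) =
        ∑ i ∈ range N, F (A + s + i) + F (A + s + N) := by
      have e1 := Finset.sum_range_succ (fun i : ℕ => F (A + s + i)) N
      have e2 := Finset.sum_range_succ' (fun i : ℕ => F (A + s + i)) N
      rw [e1] at e2
      rw [e2]
      congr 1
      · refine Finset.sum_congr rfl fun i _ => ?_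
        congr 1
        push_cast
        ring
      · simp
    have h2 : ∑ i ∈ range N, F (A + (s + 1 : ℕ) + i) - ∑ i ∈ range N, F (A + i) =
        (∑ i ∈ range N, F (A + s + i) - ∑ i ∈ range N, F (A + i)) +
          (F (A + s + N) - F (A + s)) := by
      linear_combination h1
    rw [h2]
    refine (norm_add_le _ _).trans ?_
    have h3 : ‖F (A + s + N) - F (A + s)‖ ≤ 2 := by
      refine (norm_sub_le _ _).trans ?_
      have := hF (A + s + N)
      have := hF (A + s)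
      linarith
    push_cast
    linarith

theorem vdc_step (q T N : ℕ) (A : ℤ) (f g : ℤ → ℂ) (hq : 1 ≤ q) (hT : 1 ≤ T) (hN : 1 ≤ N)
    (hf : Per q f) (hf1 : ∀ a, ‖f a‖ ≤ 1) (hg : ∀ a, ‖g a‖ ≤ 1) (hTN : q * T ≤ N) :
    ‖∑ a ∈ Ico A (A + N), g a * f a‖ ^ 2 ≤
      2 * N * ((∑ t ∈ range T, ∑ t' ∈ range T,
        ‖∑ a ∈ Ico A (A + N), dl ((q : ℤ) * ((t : ℤ) - t')) g a‖) / (T : ℝ) ^ 2) + 12 * N * (q * T) := by
  have hTR : (1 : ℝ) ≤ T := by exact_mod_cast hT
  have hT0 : (0 : ℝ) < T := by linarith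
  have hqR : (1 : ℝ) ≤ q := by exact_mod_cast hq
  have hNR : (1 : ℝ) ≤ N := by exact_mod_cast hN
  have hTNR : (q : ℝ) * T ≤ N := by exact_mod_cast hTN
  set S : ℂ := ∑ a ∈ Ico A (A + N), g a * f a with hS
  have hS' : S = ∑ i ∈ range N, g (A + i) * f (A + i) := vs_sI A N (fun a => g a * f a)
  set V : ℝ := ∑ i ∈ range N, ‖∑ t ∈ range T, g (A + i + q * t)‖ with hV
  set D : ℝ := ∑ t ∈ range T, ∑ t' ∈ range T,
        ‖∑ a ∈ Ico A (A + N), dl ((q : ℤ) * ((t : ℤ) - t')) g a‖ with hD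
  have hV0 : 0 ≤ V := Finset.sum_nonneg fun _ _ => norm_nonneg _
  -- step 1
  have hgf : ∀ a, ‖g a * f a‖ ≤ 1 := fun a => by
    rw [norm_mul]
    exact mul_le_one₀ (hg a) (norm_nonneg _) (hf1 a)
  have hSt : ∀ t ∈ range T, ‖S - ∑ i ∈ range N, g (A + i + q * t) * f (A + i)‖ ≤
      2 * (q * T) := by
    intro t ht
    have ht' : t < T := mem_range.1 ht
    have h1 := vs_shift A N (fun a => g a * f a) hgf (q * t)
    have h2 : ∑ i ∈ range N, g (A + i + q * t) * f (A + i) =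
        ∑ i ∈ range N, (fun a => g a * f a) (A + (q * t : ℕ) + i) := by
      refine Finset.sum_congr rfl fun i _ => ?_
      have e1 : A + ((q * t : ℕ) : ℤ) + i = A + i + q * t := by
        push_cast
        ring
      rw [e1]
      change _ = g (A + i + q * t) * f (A + i + q * t)
      rw [hf.add_mul]
    rw [h2, hS', norm_sub_rev]
    refine h1.trans ?_
    have h3 : (t : ℝ) ≤ T := by exact_mod_cast ht'.le
    push_cast
    have h4 : (q : ℝ) * t ≤ q * T := mul_le_mul_of_nonneg_left h3 (by linarith)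
    linarith
  have h5 : (T : ℂ) * S = ∑ t ∈ range T, (S - ∑ i ∈ range N, g (A + i + q * t) * f (A + i)) +
      ∑ i ∈ range N, f (A + i) * ∑ t ∈ range T, g (A + i + q * t) := by
    have e1 : ∑ i ∈ range N, f (A + i) * ∑ t ∈ range T, g (A + i + q * t) =
        ∑ t ∈ range T, ∑ i ∈ range N, g (A + i + q * t) * f (A + i) := by
      rw [Finset.sum_comm]
      refine Finset.sum_congr rfl fun i _ => ?_
      rw [Finset.mul_sum]
      exact Finset.sum_congr rfl fun t _ => mul_comm _ _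
    rw [e1, ← Finset.sum_add_distrib]
    simp
  have h6 : T * ‖S‖ ≤ V + 2 * q * T ^ 2 := by
    have e1 : T * ‖S‖ = ‖(T : ℂ) * S‖ := by
      rw [norm_mul, Complex.norm_natCast]
    rw [e1, h5]
    refine (norm_add_le _ _).trans ?_
    have e2 : ‖∑ t ∈ range T, (S - ∑ i ∈ range N, g (A + i + q * t) * f (A + i))‖ ≤
        2 * q * T ^ 2 := by
      refine (norm_sum_le _ _).trans ((Finset.sum_le_sum hSt).trans (le_of_eq ?_))
      rw [Finset.sum_const, card_range, nsmul_eq_mul]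
      ring
    have e3 : ‖∑ i ∈ range N, f (A + i) * ∑ t ∈ range T, g (A + i + q * t)‖ ≤ V := by
      refine (norm_sum_le _ _).trans (Finset.sum_le_sum fun i _ => ?_)
      rw [norm_mul]
      exact mul_le_of_le_one_left (norm_nonneg _) (hf1 _)
    linarith
  -- step 2
  have h7 : V ^ 2 ≤ N * ∑ i ∈ range N, ‖∑ t ∈ range T, g (A + i + q * t)‖ ^ 2 := by
    have := sq_sum_le_card_mul_sum_sq (s := range N)
      (f := fun i : ℕ => ‖∑ t ∈ range T, g (A + i + q * t)‖)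
    rwa [card_range] at this
  have h8 : ∑ i ∈ range N, ‖∑ t ∈ range T, g (A + i + q * t)‖ ^ 2 ≤
      ∑ t ∈ range T, ∑ t' ∈ range T,
        ‖∑ i ∈ range N, g (A + i + q * t) * (starRingEnd ℂ) (g (A + i + q * t'))‖ := by
    have e1 : ((∑ i ∈ range N, ‖∑ t ∈ range T, g (A + i + q * t)‖ ^ 2 : ℝ) : ℂ) =
        ∑ t ∈ range T, ∑ t' ∈ range T,
          ∑ i ∈ range N, g (A + i + q * t) * (starRingEnd ℂ) (g (A + i + q * t')) := by
      push_cast
      have e2 : ∀ i ∈ range N, ((‖∑ t ∈ range T, g (A + i + q * t)‖ : ℝ) : ℂ) ^ 2 =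
          ∑ t ∈ range T, ∑ t' ∈ range T,
            g (A + i + q * t) * (starRingEnd ℂ) (g (A + i + q * t')) := by
        intro i _
        rw [← Complex.mul_conj', map_sum, Finset.sum_mul_sum]
      rw [Finset.sum_congr rfl e2, Finset.sum_comm]
      refine Finset.sum_congr rfl fun t _ => ?_
      rw [Finset.sum_comm]
    have e3 : (0 : ℝ) ≤ ∑ i ∈ range N, ‖∑ t ∈ range T, g (A + i + q * t)‖ ^ 2 :=
      Finset.sum_nonneg fun _ _ => by positivity
    calc ∑ i ∈ range N, ‖∑ t ∈ range T, g (A + i + q * t)‖ ^ 2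
        = ‖((∑ i ∈ range N, ‖∑ t ∈ range T, g (A + i + q * t)‖ ^ 2 : ℝ) : ℂ)‖ := by
          rw [Complex.norm_real, Real.norm_of_nonneg e3]
      _ ≤ _ := by
          rw [e1]
          refine (norm_sum_le _ _).trans (Finset.sum_le_sum fun t _ => ?_)
          exact norm_sum_le _ _
  -- step 3
  have h9 : ∀ t ∈ range T, ∀ t' ∈ range T,
      ‖∑ i ∈ range N, g (A + i + q * t) * (starRingEnd ℂ) (g (A + i + q * t'))‖ ≤
        ‖∑ a ∈ Ico A (A + N), dl ((q : ℤ) * ((t : ℤ) - t')) g a‖ + 2 * (q * T) := by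
    intro t _ t' ht'
    have ht2 : t' < T := mem_range.1 ht'
    have h1 := vs_shift A N (dl ((q : ℤ) * ((t : ℤ) - t')) g) (norm_dl_le hg _) (q * t')
    have h2 : ∑ i ∈ range N, g (A + i + q * t) * (starRingEnd ℂ) (g (A + i + q * t')) =
        ∑ i ∈ range N, dl ((q : ℤ) * ((t : ℤ) - t')) g (A + (q * t' : ℕ) + i) := by
      refine Finset.sum_congr rfl fun i _ => ?_
      unfold dl
      have e1 : A + ((q * t' : ℕ) : ℤ) + i + (q : ℤ) * ((t : ℤ) - t') = A + i + q * t := by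
        push_cast
        ring
      have e2 : A + ((q * t' : ℕ) : ℤ) + i = A + i + q * t' := by
        push_cast
        ring
      rw [e1, e2]
    rw [h2, vs_sI]
    have h3 : (t' : ℝ) ≤ T := by exact_mod_cast ht2.le
    have h4 : (q : ℝ) * t' ≤ q * T := mul_le_mul_of_nonneg_left h3 (by linarith)
    have h5' := norm_sub_norm_le
      (∑ i ∈ range N, dl ((q : ℤ) * ((t : ℤ) - t')) g (A + (q * t' : ℕ) + i))
      (∑ i ∈ range N, dl ((q : ℤ) * ((t : ℤ) - t')) g (A + i))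
    push_cast at h1 h5' ⊢
    linarith
  have h10 : ∑ t ∈ range T, ∑ t' ∈ range T,
        ‖∑ i ∈ range N, g (A + i + q * t) * (starRingEnd ℂ) (g (A + i + q * t'))‖ ≤
      D + 2 * q * T ^ 3 := by
    have e1 : D + 2 * q * T ^ 3 = ∑ t ∈ range T, ∑ t' ∈ range T,
        (‖∑ a ∈ Ico A (A + N), dl ((q : ℤ) * ((t : ℤ) - t')) g a‖ + 2 * (q * T)) := by
      simp only [Finset.sum_add_distrib, Finset.sum_const, card_range, nsmul_eq_mul]
      rw [hD]
      ring
    rw [e1]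
    exact Finset.sum_le_sum fun t ht => Finset.sum_le_sum fun t' ht' => h9 t ht t' ht'
  have h11 : V ^ 2 ≤ N * (D + 2 * q * T ^ 3) :=
    h7.trans (mul_le_mul_of_nonneg_left (h8.trans h10) (by linarith))
  -- step 4
  have h12 : (T * ‖S‖) ^ 2 ≤ 2 * (N * (D + 2 * q * T ^ 3)) + 8 * q ^ 2 * T ^ 4 := by
    have e0 : 0 ≤ T * ‖S‖ := by positivity
    have e1 : (T * ‖S‖) ^ 2 ≤ (V + 2 * q * T ^ 2) ^ 2 := pow_le_pow_left₀ e0 h6 2
    have e2 : (V + 2 * q * T ^ 2) ^ 2 ≤ 2 * V ^ 2 + 2 * (2 * q * T ^ 2) ^ 2 := by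
      nlinarith [sq_nonneg (V - 2 * q * T ^ 2)]
    nlinarith
  have hT2 : (0 : ℝ) < (T : ℝ) ^ 2 := by positivity
  have h13 : ‖S‖ ^ 2 * T ^ 2 ≤
      (2 * N * (D / (T : ℝ) ^ 2) + 12 * N * (q * T)) * T ^ 2 := by
    have e1 : (2 * N * (D / (T : ℝ) ^ 2) + 12 * N * (q * T)) * T ^ 2 =
        2 * N * D + 12 * N * (q * T) * T ^ 2 := by
      field_simp
    rw [e1]
    have e2 : 8 * (q : ℝ) ^ 2 * T ^ 4 ≤ 8 * N * (q * T) * T ^ 2 := by
      have e3 : (q : ℝ) * T * ((q : ℝ) * T * T ^ 2) ≤ N * ((q : ℝ) * T * T ^ 2) :=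
        mul_le_mul_of_nonneg_right hTNR (by positivity)
      nlinarith
    nlinarith
  exact le_of_mul_le_mul_right h13 hT2

end Pool.Agent.Helper6.PW
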