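import Mathlib
import Pool.Agent.Helper6.PW.VdcStep

/-!
# PW-09 Vdc: the q-van der Corput inequality with a complete range of shifts modulo `q₀`

Induction on `L`.  Write `e = q₀ Y / N`, `S = ∑_{a ∈ Ico A (A+N)}`.
`L = 0`: `N = q₀ m + r`, `r < q₀`; the sum over each block of `q₀` consecutive integers is
`∑_{a < q₀} g a` (periodicity), so `|S| ≤ m |∑_{a<q₀} g a| + q₀ ≤ N √(Gz 0 q₀ g) + q₀`, `q₀ ≤ q₀ Y`.
`L + 1`: if `e ≥ 1` the claim is trivial for `C ≥ 1` (`|S| ≤ N`).  Let `e ≤ 1` and separate the last function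
`f_L` of period `q = q_L`; `g' = g ∏_{i < L} f_i`; `vdc_step` with `T = q₀` (`q q₀ ≤ Y q₀ ≤ N`) gives
`|S|^2 ≤ 2 N E_{t,t'} |S_{t,t'}| + 12 N q q₀`, so `|S/N|^2 ≤ 2 E_{t,t'} |S_{t,t'}/N| + 12 e`, where
`S_{t,t'} = ∑_a dl s g' a = ∑_a dl s g a ∏_{i<L} dl s f_i a`, `s = q (t - t')` (`dl_mul`, `dl_prod`).  Raise to the power `2^L`:
`(x + y)^m ≤ 2^m (x^m + y^m)`, `(E x)^m ≤ E x^m` (Jensen, `inner`: `Real.pow_arith_mean_le_arith_mean_pow`,
`(∑ w_i z_i)^n ≤ ∑ w_i z_i^n`), `e^m ≤ e`, and the induction hypothesis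
`|S_{t,t'}/N|^(2^L) ≤ C (√(Gz L q₀ (dl s g)) + e)`.  Finally
`E_{t,t'} √(Gz L q₀ (dl (q(t-t')) g)) ≤ √(E_{t,t'} Gz L q₀ (dl (q(t-t')) g)) = √(Gz (L+1) q₀ g)`, because for every
fixed `t'` the numbers `q (t - t')`, `t < q₀`, run through the residues mod `q₀` exactly once
(`q` and `q₀` coprime) and `Gz L q₀ (dl s g)` depends only on `s mod q₀` (`dl_congr`).
All functions `dl s f_i` are again bounded by 1 and of period `q_i` (`Per.dl`, `norm_dl_le`).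
-/

namespace Pool.Agent.Helper6.PW

open Finset

private theorem sum_ico (A : ℤ) (N : ℕ) (F : ℤ → ℂ) :
    ∑ a ∈ Ico A (A + N), F a = ∑ i ∈ range N, F (A + (i : ℤ)) := by
  symm
  refine Finset.sum_bij (fun (i : ℕ) _ => A + (i : ℤ)) ?_ ?_ ?_ ?_
  · intro i hi
    rw [Finset.mem_range] at hi
    rw [Finset.mem_Ico]
    omega
  · intro i _ j _ h
    have h1 : A + (i : ℤ) = A + (j : ℤ) := h
    omega
  · intro b hb
    rw [Finset.mem_Ico] at hb
    refine ⟨(b - A).toNat, ?_, ?_⟩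
    · rw [Finset.mem_range]
      omega
    · omega
  · intro i _
    rfl

private theorem sum_shift {q : ℕ} {g : ℤ → ℂ} (hg : Per q g) (B : ℤ) :
    ∑ i ∈ range q, g (B + (i : ℤ)) = ∑ i ∈ range q, g (i : ℤ) := by
  have hs : ∀ B : ℤ, ∑ i ∈ range q, g (B + 1 + (i : ℤ)) = ∑ i ∈ range q, g (B + (i : ℤ)) := by
    intro B
    have h1 := Finset.sum_range_succ (fun i : ℕ => g (B + (i : ℤ))) q
    have h2 := Finset.sum_range_succ' (fun i : ℕ => g (B + (i : ℤ))) q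
    have h3 : ∑ i ∈ range q, g (B + ((i + 1 : ℕ) : ℤ)) = ∑ i ∈ range q, g (B + 1 + (i : ℤ)) := by
      refine Finset.sum_congr rfl fun i _ => ?_
      congr 1
      push_cast
      ring
    have h4 : g (B + ((0 : ℕ) : ℤ)) = g B := by
      congr 1
      simp
    have h5 : g (B + (q : ℤ)) = g B := hg B
    rw [h3, h4] at h2
    rw [h5] at h1
    have h6 := h2.symm.trans h1
    exact add_right_cancel h6
  induction B using Int.induction_on with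
  | zero =>
    refine Finset.sum_congr rfl fun i _ => ?_
    congr 1
    ring
  | succ n ih => rw [hs, ih]
  | pred n ih =>
    have h := hs (-(n : ℤ) - 1)
    rw [show -(n : ℤ) - 1 + 1 = -(n : ℤ) by ring] at h
    rw [← h, ih]

private theorem sum_blocks {q : ℕ} {g : ℤ → ℂ} (hg : Per q g) (A : ℤ) (m : ℕ) :
    ∑ i ∈ range (q * m), g (A + (i : ℤ)) = (m : ℂ) * ∑ i ∈ range q, g (i : ℤ) := by
  induction m with
  | zero => simp
  | succ m ih =>
    rw [show q * (m + 1) = q * m + q by ring, Finset.sum_range_add, ih]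
    have h1 : ∑ x ∈ range q, g (A + ((q * m + x : ℕ) : ℤ)) =
        ∑ x ∈ range q, g (A + (q : ℤ) * m + (x : ℤ)) := by
      refine Finset.sum_congr rfl fun i _ => ?_
      congr 1
      push_cast
      ring
    rw [h1, sum_shift hg]
    push_cast
    ring

private theorem base {q N : ℕ} {g : ℤ → ℂ} (hq : 1 ≤ q) (hg : Per q g) (hg1 : ∀ a, ‖g a‖ ≤ 1)
    (A : ℤ) :
    ‖∑ a ∈ Ico A (A + N), g a‖ ≤ (N : ℝ) * ‖(∑ a ∈ range q, g (a : ℤ)) / (q : ℂ)‖ + q := by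
  have hq0 : (0 : ℝ) < q := by exact_mod_cast hq
  rw [sum_ico]
  have h1 : N = q * (N / q) + N % q := (Nat.div_add_mod N q).symm
  have h2 : ∑ i ∈ range N, g (A + (i : ℤ)) = ((N / q : ℕ) : ℂ) * ∑ i ∈ range q, g (i : ℤ) +
      ∑ x ∈ range (N % q), g (A + ((q * (N / q) + x : ℕ) : ℤ)) := by
    conv_lhs => rw [h1]
    rw [Finset.sum_range_add, sum_blocks hg]
  rw [h2]
  refine (norm_add_le _ _).trans (add_le_add ?_ ?_)
  · rw [norm_mul, norm_div, Complex.norm_natCast, Complex.norm_natCast, mul_div_assoc',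
      le_div_iff₀ hq0]
    have h3 : ((N / q : ℕ) : ℝ) * q ≤ N := by exact_mod_cast Nat.div_mul_le_self N q
    calc ((N / q : ℕ) : ℝ) * ‖∑ i ∈ range q, g (i : ℤ)‖ * q
        = ((N / q : ℕ) : ℝ) * q * ‖∑ i ∈ range q, g (i : ℤ)‖ := by ring
      _ ≤ (N : ℝ) * ‖∑ i ∈ range q, g (i : ℤ)‖ :=
          mul_le_mul_of_nonneg_right h3 (norm_nonneg _)
  · refine (norm_sum_le _ _).trans ?_
    refine (Finset.sum_le_card_nsmul _ _ 1 fun x _ => hg1 _).trans ?_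
    rw [Finset.card_range, nsmul_eq_mul, mul_one]
    exact_mod_cast (Nat.mod_lt N hq).le

private theorem sum_res {q₀ q : ℕ} (hq₀ : 1 ≤ q₀) (hc : q.Coprime q₀) (F : ℤ → ℝ)
    (hF : ∀ a b : ℤ, (q₀ : ℤ) ∣ a - b → F a = F b) (c : ℤ) :
    ∑ t ∈ range q₀, F ((q : ℤ) * ((t : ℤ) - c)) = ∑ s ∈ range q₀, F (s : ℤ) := by
  have hq0 : (0 : ℤ) < q₀ := by exact_mod_cast hq₀
  have hm : ∀ t ∈ range q₀, ((q : ℤ) * ((t : ℤ) - c) % q₀).toNat ∈ range q₀ := by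
    intro t _
    rw [Finset.mem_range]
    have h1 := Int.emod_nonneg ((q : ℤ) * ((t : ℤ) - c)) hq0.ne'
    have h2 := Int.emod_lt_of_pos ((q : ℤ) * ((t : ℤ) - c)) hq0
    omega
  have hi : Set.InjOn (fun t : ℕ => ((q : ℤ) * ((t : ℤ) - c) % q₀).toNat) (range q₀) := by
    intro t ht s hs h
    rw [Finset.mem_coe, Finset.mem_range] at ht hs
    have h1 := Int.emod_nonneg ((q : ℤ) * ((t : ℤ) - c)) hq0.ne'
    have h2 := Int.emod_nonneg ((q : ℤ) * ((s : ℤ) - c)) hq0.ne'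
    have h3 : (q : ℤ) * ((t : ℤ) - c) % q₀ = (q : ℤ) * ((s : ℤ) - c) % q₀ := by
      have h : ((q : ℤ) * ((t : ℤ) - c) % q₀).toNat = ((q : ℤ) * ((s : ℤ) - c) % q₀).toNat := h
      omega
    have h4 : (q₀ : ℤ) ∣ (q : ℤ) * ((t : ℤ) - c) - (q : ℤ) * ((s : ℤ) - c) :=
      Int.ModEq.dvd (show (q : ℤ) * ((s : ℤ) - c) ≡ (q : ℤ) * ((t : ℤ) - c) [ZMOD q₀] from h3.symm)
    have h5 : (q₀ : ℤ) ∣ (q : ℤ) * ((t : ℤ) - s) := by
      have : (q : ℤ) * ((t : ℤ) - c) - (q : ℤ) * ((s : ℤ) - c) = (q : ℤ) * ((t : ℤ) - s) := by ring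
      rwa [this] at h4
    have h6 : (q₀ : ℤ) ∣ (t : ℤ) - s :=
      (Int.isCoprime_iff_gcd_eq_one.2 (by
        rw [Int.gcd_natCast_natCast]
        exact hc.symm)).dvd_of_dvd_mul_left h5
    have h7 : ((t : ℤ) - s) = 0 := by
      apply Int.eq_zero_of_abs_lt_dvd h6
      rw [abs_lt]
      omega
    omega
  refine Finset.sum_nbij (fun t : ℕ => ((q : ℤ) * ((t : ℤ) - c) % q₀).toNat) hm hi ?_ ?_
  · exact Finset.surjOn_of_injOn_of_card_le _ hm hi le_rfl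
  · intro t _
    apply hF
    have h1 := Int.emod_nonneg ((q : ℤ) * ((t : ℤ) - c)) hq0.ne'
    change (q₀ : ℤ) ∣ (q : ℤ) * ((t : ℤ) - c) -
      ((((q : ℤ) * ((t : ℤ) - c) % q₀).toNat : ℕ) : ℤ)
    rw [Int.toNat_of_nonneg h1]
    exact Int.dvd_self_sub_emod

private theorem avg_sqrt {q₀ q : ℕ} (hq₀ : 1 ≤ q₀) (hc : q.Coprime q₀) (L : ℕ) {g : ℤ → ℂ}
    (hg : Per q₀ g) :
    ∑ x ∈ range q₀ ×ˢ range q₀, (1 / (q₀ : ℝ) ^ 2) *
      Real.sqrt (Gz L q₀ (dl ((q : ℤ) * ((x.1 : ℤ) - x.2)) g)) ≤ Real.sqrt (Gz (L + 1) q₀ g) := by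
  have hq0 : (0 : ℝ) < q₀ := by exact_mod_cast hq₀
  have hw : ∑ x ∈ range q₀ ×ˢ range q₀, (1 / (q₀ : ℝ) ^ 2) = 1 := by
    rw [Finset.sum_const, Finset.card_product, Finset.card_range, nsmul_eq_mul]
    push_cast
    field_simp
  have h1 := Real.pow_arith_mean_le_arith_mean_pow (range q₀ ×ˢ range q₀)
    (fun _ => 1 / (q₀ : ℝ) ^ 2)
    (fun x => Real.sqrt (Gz L q₀ (dl ((q : ℤ) * ((x.1 : ℤ) - x.2)) g)))
    (fun _ _ => by positivity) hw (fun _ _ => Real.sqrt_nonneg _) 2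
  apply Real.le_sqrt_of_sq_le
  refine h1.trans (le_of_eq ?_)
  have h2 : ∀ x ∈ range q₀ ×ˢ range q₀, (1 / (q₀ : ℝ) ^ 2) *
      Real.sqrt (Gz L q₀ (dl ((q : ℤ) * ((x.1 : ℤ) - x.2)) g)) ^ 2 =
      (1 / (q₀ : ℝ) ^ 2) * Gz L q₀ (dl ((q : ℤ) * ((x.1 : ℤ) - x.2)) g) := by
    intro x _
    rw [Real.sq_sqrt (Gz_nonneg _ _ _)]
  rw [Finset.sum_congr rfl h2, ← Finset.mul_sum, Finset.sum_product_right]
  have h3 : ∀ y ∈ range q₀, ∑ x ∈ range q₀, Gz L q₀ (dl ((q : ℤ) * ((x : ℤ) - y)) g) =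
      ∑ s ∈ range q₀, Gz L q₀ (dl (s : ℤ) g) := by
    intro y _
    exact sum_res hq₀ hc (fun s => Gz L q₀ (dl s g)) (fun a b h => by
      change Gz L q₀ (dl a g) = Gz L q₀ (dl b g)
      rw [dl_congr hg h]) y
  have h4 : ∑ y ∈ range q₀, ∑ x ∈ range q₀, Gz L q₀ (dl ((q : ℤ) * ((x : ℤ) - y)) g) =
      (q₀ : ℝ) * ∑ s ∈ range q₀, Gz L q₀ (dl (s : ℤ) g) := by
    rw [Finset.sum_congr rfl h3, Finset.sum_const, Finset.card_range, nsmul_eq_mul]
  have h5 : Gz (L + 1) q₀ g = (∑ t ∈ Finset.range q₀, Gz L q₀ (dl (t : ℤ) g)) / (q₀ : ℝ) := rfl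
  rw [h5]
  refine (congrArg (fun z => 1 / (q₀ : ℝ) ^ 2 * z) h4).trans ?_
  field_simp

private theorem add_pow_le2 {x y : ℝ} (hx : 0 ≤ x) (hy : 0 ≤ y) (m : ℕ) :
    (x + y) ^ m ≤ 2 ^ m * (x ^ m + y ^ m) := by
  rcases le_total x y with h | h
  · calc (x + y) ^ m ≤ (2 * y) ^ m := pow_le_pow_left₀ (by positivity) (by linarith) m
      _ = 2 ^ m * y ^ m := mul_pow _ _ _
      _ ≤ 2 ^ m * (x ^ m + y ^ m) :=
          mul_le_mul_of_nonneg_left (by linarith [pow_nonneg hx m]) (by positivity)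
  · calc (x + y) ^ m ≤ (2 * x) ^ m := pow_le_pow_left₀ (by positivity) (by linarith) m
      _ = 2 ^ m * x ^ m := mul_pow _ _ _
      _ ≤ 2 ^ m * (x ^ m + y ^ m) :=
          mul_le_mul_of_nonneg_left (by linarith [pow_nonneg hy m]) (by positivity)

private theorem final_alg {S X Z G e N C : ℝ} (m : ℕ) (hX : 0 ≤ X) (hZ : 0 ≤ Z)
    (hN : 0 ≤ N) (h : S ^ 2 ≤ 2 * N * X + Z)
    (hx : X ^ m ≤ C * N ^ m * (G + e)) (hy : Z ^ m ≤ 12 ^ m * (N ^ 2) ^ m * (G + e)) :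
    (S ^ 2) ^ m ≤ 2 ^ m * (2 ^ m * C + 12 ^ m) * (N ^ 2) ^ m * (G + e) := by
  have h1 : (S ^ 2) ^ m ≤ (2 * N * X + Z) ^ m := pow_le_pow_left₀ (sq_nonneg S) h m
  have h2 := add_pow_le2 (mul_nonneg (mul_nonneg zero_le_two hN) hX) hZ m
  have h3 : (2 * N * X) ^ m ≤ 2 ^ m * N ^ m * (C * N ^ m * (G + e)) := by
    rw [mul_pow, mul_pow]
    exact mul_le_mul_of_nonneg_left hx (by positivity)
  have h4 : (2 : ℝ) ^ m * ((2 * N * X) ^ m + Z ^ m) ≤ 2 ^ m * (2 ^ m * N ^ m *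
      (C * N ^ m * (G + e)) + 12 ^ m * (N ^ 2) ^ m * (G + e)) :=
    mul_le_mul_of_nonneg_left (add_le_add h3 hy) (by positivity)
  refine (h1.trans (h2.trans h4)).trans (le_of_eq ?_)
  have h5 : (N ^ 2) ^ m = N ^ m * N ^ m := by rw [← pow_mul, two_mul, pow_add]
  rw [h5]
  ring

private theorem norm_le_N {N : ℕ} {A : ℤ} {F : ℤ → ℂ} (hF : ∀ a, ‖F a‖ ≤ 1) :
    ‖∑ a ∈ Ico A (A + N), F a‖ ≤ N := by
  rw [sum_ico]
  refine (norm_sum_le _ _).trans ?_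
  refine (Finset.sum_le_card_nsmul _ _ 1 fun x _ => hF _).trans ?_
  rw [Finset.card_range, nsmul_eq_mul, mul_one]

private theorem prod_norm_le {ι : Type*} (s : Finset ι) (f : ι → ℂ) (h : ∀ i ∈ s, ‖f i‖ ≤ 1) :
    ‖∏ i ∈ s, f i‖ ≤ 1 := by
  rw [norm_prod]
  exact Finset.prod_le_one (fun i _ => norm_nonneg _) h

theorem vdc (L : ℕ) : ∃ C : ℝ, 1 ≤ C ∧ ∀ (q₀ Y N : ℕ) (A : ℤ) (g : ℤ → ℂ) (q : Fin L → ℕ)
    (f : Fin L → ℤ → ℂ), 1 ≤ q₀ → 1 ≤ Y → 1 ≤ N → Per q₀ g → (∀ a, ‖g a‖ ≤ 1) →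
    (∀ i, 1 ≤ q i ∧ q i ≤ Y ∧ (q i).Coprime q₀ ∧ Per (q i) (f i) ∧ ∀ a, ‖f i a‖ ≤ 1) →
    ‖∑ a ∈ Ico A (A + N), g a * ∏ i, f i a‖ ^ (2 ^ L) ≤
      C * (N : ℝ) ^ (2 ^ L) * (Real.sqrt (Gz L q₀ g) + (q₀ : ℝ) * Y / N) := by
  induction L with
  | zero =>
    refine ⟨1, le_rfl, ?_⟩
    intro q₀ Y N A g q f hq₀ hY hN hg hg1 _
    have hN0 : (0 : ℝ) < N := by exact_mod_cast hN
    have h1 : ∑ a ∈ Ico A (A + N), g a * ∏ i, f i a = ∑ a ∈ Ico A (A + N), g a := by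
      refine Finset.sum_congr rfl fun a _ => ?_
      rw [Finset.univ_eq_empty, Finset.prod_empty, mul_one]
    have h2 : Real.sqrt (Gz 0 q₀ g) = ‖(∑ a ∈ range q₀, g (a : ℤ)) / (q₀ : ℂ)‖ := by
      change Real.sqrt (‖(∑ a ∈ Finset.range q₀, g (a : ℤ)) / (q₀ : ℂ)‖ ^ 2) = _
      exact Real.sqrt_sq (norm_nonneg _)
    rw [h1, h2, pow_zero, pow_one, pow_one, one_mul]
    refine (base hq₀ hg hg1 A).trans ?_
    rw [mul_add]
    refine add_le_add le_rfl ?_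
    have hY1 : (1 : ℝ) ≤ Y := by exact_mod_cast hY
    have h3 : (N : ℝ) * ((q₀ : ℝ) * Y / N) = (q₀ : ℝ) * Y := by field_simp
    rw [h3]
    nlinarith [Nat.cast_nonneg (α := ℝ) q₀]
  | succ L ih =>
    obtain ⟨C, hC, ih⟩ := ih
    set m : ℕ := 2 ^ L with hm
    refine ⟨2 ^ m * (2 ^ m * C + 12 ^ m), ?_, ?_⟩
    · have h1 : (1 : ℝ) ≤ 2 ^ m := one_le_pow₀ (by norm_num)
      have h2 : (1 : ℝ) ≤ 12 ^ m := one_le_pow₀ (by norm_num)
      nlinarith [mul_nonneg (by linarith : (0 : ℝ) ≤ 2 ^ m) (by linarith : (0 : ℝ) ≤ C)]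
    intro q₀ Y N A g q f hq₀ hY hN hg hg1 hf
    have hN0 : (0 : ℝ) < N := by exact_mod_cast hN
    have hq00 : (0 : ℝ) < q₀ := by exact_mod_cast hq₀
    have hY0 : (0 : ℝ) < Y := by exact_mod_cast hY
    set e : ℝ := (q₀ : ℝ) * Y / N with he
    have he0 : 0 ≤ e := by positivity
    have hpow : ∀ x : ℝ, x ^ (2 ^ (L + 1)) = (x ^ 2) ^ m := by
      intro x
      rw [← pow_mul, hm, pow_succ]
      congr 1
      ring
    have h2m : (1 : ℝ) ≤ 2 ^ m := one_le_pow₀ (by norm_num)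
    have h12m : (1 : ℝ) ≤ 12 ^ m := one_le_pow₀ (by norm_num)
    have hCC : (1 : ℝ) ≤ 2 ^ m * (2 ^ m * C + 12 ^ m) := by
      nlinarith [mul_nonneg (by linarith : (0 : ℝ) ≤ 2 ^ m) (by linarith : (0 : ℝ) ≤ C)]
    have hs0 : 0 ≤ Real.sqrt (Gz (L + 1) q₀ g) := Real.sqrt_nonneg _
    have hpr : ∀ a, ‖∏ i, f i a‖ ≤ 1 := fun a =>
      prod_norm_le _ _ fun i _ => (hf i).2.2.2.2 a
    rcases le_total 1 e with h1 | h1
    · have h3 : ‖∑ a ∈ Ico A (A + N), g a * ∏ i, f i a‖ ≤ N := norm_le_N fun a => by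
        rw [norm_mul]
        exact mul_le_one₀ (hg1 a) (norm_nonneg _) (hpr a)
      calc ‖∑ a ∈ Ico A (A + N), g a * ∏ i, f i a‖ ^ (2 ^ (L + 1))
          ≤ (N : ℝ) ^ (2 ^ (L + 1)) := pow_le_pow_left₀ (norm_nonneg _) h3 _
        _ = 1 * (N : ℝ) ^ (2 ^ (L + 1)) * 1 := by ring
        _ ≤ 2 ^ m * (2 ^ m * C + 12 ^ m) * (N : ℝ) ^ (2 ^ (L + 1)) *
            (Real.sqrt (Gz (L + 1) q₀ g) + e) := by
          refine mul_le_mul (mul_le_mul_of_nonneg_right hCC (by positivity)) (by linarith)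
            zero_le_one (by positivity)
    · have hqN : q (Fin.last L) * q₀ ≤ N := by
        have h3 : (q₀ : ℝ) * Y ≤ N := by
          rw [he, div_le_one hN0] at h1
          exact h1
        have h4 : q₀ * Y ≤ N := by exact_mod_cast h3
        calc q (Fin.last L) * q₀ ≤ Y * q₀ := Nat.mul_le_mul_right _ (hf (Fin.last L)).2.1
          _ = q₀ * Y := mul_comm _ _
          _ ≤ N := h4
      have hstep := vdc_step (q (Fin.last L)) q₀ N A (f (Fin.last L))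
        (fun a => g a * ∏ i : Fin L, f i.castSucc a) (hf (Fin.last L)).1 hq₀ hN
        (hf (Fin.last L)).2.2.2.1 (hf (Fin.last L)).2.2.2.2
        (fun a => by
          rw [norm_mul]
          exact mul_le_one₀ (hg1 a) (norm_nonneg _)
            (prod_norm_le _ _ fun i _ => (hf i.castSucc).2.2.2.2 a)) hqN
      have hS : ∑ a ∈ Ico A (A + N), g a * ∏ i, f i a =
          ∑ a ∈ Ico A (A + N), (g a * ∏ i : Fin L, f i.castSucc a) * f (Fin.last L) a := by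
        refine Finset.sum_congr rfl fun a _ => ?_
        rw [Fin.prod_univ_castSucc, mul_assoc]
      rw [hS, hpow]
      set S : ℝ := ‖∑ a ∈ Ico A (A + N),
        (g a * ∏ i : Fin L, f i.castSucc a) * f (Fin.last L) a‖ with hSdef
      have hdl : ∀ s a : ℤ, dl s (fun a => g a * ∏ i : Fin L, f i.castSucc a) a =
          dl s g a * ∏ i : Fin L, dl s (f i.castSucc) a := by
        intro s a
        have h3 := congrFun (dl_mul s g (fun a => ∏ i : Fin L, f i.castSucc a)) a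
        have h4 := congrFun (dl_prod s (Finset.univ : Finset (Fin L))
          (fun i => f i.castSucc)) a
        rw [h3, h4]
      set W : ℕ → ℕ → ℝ := fun t t' => ‖∑ a ∈ Ico A (A + N),
        dl ((q (Fin.last L) : ℤ) * ((t : ℤ) - t')) g a *
          ∏ i : Fin L, dl ((q (Fin.last L) : ℤ) * ((t : ℤ) - t')) (f i.castSucc) a‖ with hW
      have hstep2 : S ^ 2 ≤ 2 * N * ((∑ t ∈ range q₀, ∑ t' ∈ range q₀, W t t') / (q₀ : ℝ) ^ 2) +
          12 * N * (q (Fin.last L) * q₀) := by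
        refine hstep.trans (le_of_eq ?_)
        congr 3
        refine Finset.sum_congr rfl fun t _ => Finset.sum_congr rfl fun t' _ => ?_
        rw [hW]
        congr 1
        exact Finset.sum_congr rfl fun a _ => hdl _ a
      have hind : ∀ t t' : ℕ, W t t' ^ m ≤ C * (N : ℝ) ^ m *
          (Real.sqrt (Gz L q₀ (dl ((q (Fin.last L) : ℤ) * ((t : ℤ) - t')) g)) + e) := by
        intro t t'
        exact ih q₀ Y N A _ (fun i => q i.castSucc) (fun i => dl _ (f i.castSucc)) hq₀ hY hN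
          (hg.dl _) (fun a => norm_dl_le hg1 _ a) (fun i => ⟨(hf i.castSucc).1,
            (hf i.castSucc).2.1, (hf i.castSucc).2.2.1, (hf i.castSucc).2.2.2.1.dl _,
            fun a => norm_dl_le (hf i.castSucc).2.2.2.2 _ a⟩)
      have hw : ∑ x ∈ range q₀ ×ˢ range q₀, (1 / (q₀ : ℝ) ^ 2) = 1 := by
        rw [Finset.sum_const, Finset.card_product, Finset.card_range, nsmul_eq_mul]
        push_cast
        field_simp
      have hav : (∑ t ∈ range q₀, ∑ t' ∈ range q₀, W t t') / (q₀ : ℝ) ^ 2 =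
          ∑ x ∈ range q₀ ×ˢ range q₀, (1 / (q₀ : ℝ) ^ 2) * W x.1 x.2 := by
        rw [← Finset.mul_sum, Finset.sum_product]
        ring
      have hj := Real.pow_arith_mean_le_arith_mean_pow (range q₀ ×ˢ range q₀)
        (fun _ => 1 / (q₀ : ℝ) ^ 2) (fun x => W x.1 x.2)
        (fun _ _ => by positivity) hw (fun _ _ => norm_nonneg _) m
      have hx : ((∑ t ∈ range q₀, ∑ t' ∈ range q₀, W t t') / (q₀ : ℝ) ^ 2) ^ m ≤
          C * (N : ℝ) ^ m * (Real.sqrt (Gz (L + 1) q₀ g) + e) := by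
        rw [hav]
        refine hj.trans ?_
        calc ∑ x ∈ range q₀ ×ˢ range q₀, (1 / (q₀ : ℝ) ^ 2) * W x.1 x.2 ^ m
            ≤ ∑ x ∈ range q₀ ×ˢ range q₀, (1 / (q₀ : ℝ) ^ 2) * (C * (N : ℝ) ^ m *
              (Real.sqrt (Gz L q₀ (dl ((q (Fin.last L) : ℤ) * ((x.1 : ℤ) - x.2)) g)) + e)) :=
              Finset.sum_le_sum fun x _ =>
                mul_le_mul_of_nonneg_left (hind x.1 x.2) (by positivity)
          _ = C * (N : ℝ) ^ m * (∑ x ∈ range q₀ ×ˢ range q₀, (1 / (q₀ : ℝ) ^ 2) *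
              Real.sqrt (Gz L q₀ (dl ((q (Fin.last L) : ℤ) * ((x.1 : ℤ) - x.2)) g)) +
              e * ∑ x ∈ range q₀ ×ˢ range q₀, (1 / (q₀ : ℝ) ^ 2)) := by
              rw [Finset.mul_sum (range q₀ ×ˢ range q₀) (fun _ => (1 / (q₀ : ℝ) ^ 2)) e,
                ← Finset.sum_add_distrib, Finset.mul_sum]
              refine Finset.sum_congr rfl fun x _ => ?_
              ring
          _ ≤ C * (N : ℝ) ^ m * (Real.sqrt (Gz (L + 1) q₀ g) + e) := by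
              refine mul_le_mul_of_nonneg_left ?_ (by positivity)
              rw [hw, mul_one]
              exact add_le_add (avg_sqrt hq₀ (hf (Fin.last L)).2.2.1 L hg) le_rfl
      have hy : (12 * (N : ℝ) * (q (Fin.last L) * q₀)) ^ m ≤
          12 ^ m * ((N : ℝ) ^ 2) ^ m * (Real.sqrt (Gz (L + 1) q₀ g) + e) := by
        have h3 : (12 * (N : ℝ) * (q (Fin.last L) * q₀)) ≤ 12 * (N : ℝ) ^ 2 * e := by
          have h4 : ((q (Fin.last L) : ℕ) : ℝ) ≤ Y := by exact_mod_cast (hf (Fin.last L)).2.1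
          have h5 : 12 * (N : ℝ) ^ 2 * e = 12 * (N : ℝ) * (Y * q₀) := by
            rw [he]
            field_simp
          rw [h5]
          have h6 : ((q (Fin.last L) : ℕ) : ℝ) * q₀ ≤ Y * q₀ :=
            mul_le_mul_of_nonneg_right h4 hq00.le
          exact mul_le_mul_of_nonneg_left h6 (by positivity)
        have hm1 : m ≠ 0 := by
          rw [hm]
          positivity
        calc (12 * (N : ℝ) * (q (Fin.last L) * q₀)) ^ m ≤ (12 * (N : ℝ) ^ 2 * e) ^ m :=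
              pow_le_pow_left₀ (by positivity) h3 m
          _ = 12 ^ m * ((N : ℝ) ^ 2) ^ m * e ^ m := by rw [mul_pow, mul_pow]
          _ ≤ 12 ^ m * ((N : ℝ) ^ 2) ^ m * (Real.sqrt (Gz (L + 1) q₀ g) + e) := by
              refine mul_le_mul_of_nonneg_left ?_ (by positivity)
              have h7 : e ^ m ≤ e := pow_le_of_le_one he0 h1 hm1
              linarith
      have hW0 : 0 ≤ (∑ t ∈ range q₀, ∑ t' ∈ range q₀, W t t') / (q₀ : ℝ) ^ 2 := by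
        refine div_nonneg (Finset.sum_nonneg fun t _ => Finset.sum_nonneg fun t' _ =>
          norm_nonneg _) (by positivity)
      have hfin := final_alg m hW0 (show (0 : ℝ) ≤ 12 * N * (q (Fin.last L) * q₀) by positivity)
        hN0.le hstep2 hx hy
      have hNp : (N : ℝ) ^ (2 ^ (L + 1)) = ((N : ℝ) ^ 2) ^ m := hpow N
      rw [hNp]
      exact hfin

end Pool.Agent.Helper6.PW
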