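import Mathlib
import Pool.Agent.Helper6.PW.Vdc
import Pool.Agent.Helper6.PW.PrimeProd
import Pool.Agent.Helper6.PW.Theta
import Pool.Agent.Helper6.PW.Group

/-!
# PW-12 ESum: the exponential sum

`M' = (c / q₀) F`.  `group` for `ι = ℕ`, `s = M'.primeFactors`, `w ℓ = ℓ ^ (M'.factorization ℓ)` (product `M'`,
`Nat.factorization_prod_pow_eq_self`) gives `g : ℕ → Fin L`; `q_j = ∏_{ℓ ∈ s, g ℓ = j} w ℓ ≤ Y`, pairwise
coprime, product `M'`, each coprime to `q₀` (`q₀` is coprime to `c / q₀` as `c` is squarefree, and to `F`).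
`theta` gives `u`, `f`; put `θ a = ∑_ℓ u_ℓ r_ℓ(a)/ℓ + ∑_j f_j a`.  The first claim is the last clause of
`theta`.  Second: `ex (h θ a) = (∏_{ℓ ∣ q₀} ph ℓ (h u_ℓ) a) * ∏_j ex (h f_j a)` (`ex_add`, `ex_sum`); the functions
`a ↦ ex (h f_j a)` have period `q_j` and norm 1, `g₀ = ∏_{ℓ ∣ q₀} ph ℓ (h u_ℓ)` has period `q₀` (`Per_ph`,
`Per.of_dvd`, `Per.prod`) and norm 1.  `vdc L` and `primeProd L` give
`|∑|^(2^L) ≤ C N^(2^L) ((h B / q₀)^(1/4) + q₀ Y / N) ≤ C B N^(2^L) ((h/q₀)^(1/4) + q₀ Y/N)`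
(`√(x^(1/2)) = x^(1/4)`, `B ≥ 1`); take `2^L`-th roots (`Real.rpow`): `|∑| ≤ (C B)^(1/2^L) N (…)^(1/2^L)`, and
`(C B)^(1/2^L) ≤ C B` as `C B ≥ 1`.
-/

namespace Pool.Agent.Helper6.PW

open Finset

/-- the `2^L`-th root -/
private theorem root_step {S K N E : ℝ} {L : ℕ} (hK : 1 ≤ K) (hN : 0 ≤ N) (hE : 0 ≤ E)
    (h : S ^ (2 ^ L) ≤ K * N ^ (2 ^ L) * E) :
    S ≤ K * N * E ^ ((1 : ℝ) / 2 ^ L) := by
  have hm : (2 ^ L : ℕ) ≠ 0 := by positivity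
  have hE' : (E ^ ((1 : ℝ) / 2 ^ L)) ^ (2 ^ L) = E := by
    rw [← Real.rpow_natCast, ← Real.rpow_mul hE]
    push_cast
    rw [one_div, inv_mul_cancel₀ (by positivity), Real.rpow_one]
  have hK' : K ≤ K ^ (2 ^ L) := le_self_pow₀ hK hm
  refine le_of_pow_le_pow_left₀ hm (by positivity) ?_
  rw [mul_pow, mul_pow, hE']
  refine h.trans ?_
  gcongr

theorem esum (L : ℕ) : ∃ C : ℝ, 1 ≤ C ∧ ∀ c F q₀ Y : ℕ, 1 ≤ L → 1 ≤ Y → Squarefree c → 0 < F →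
    c.Coprime F → q₀ ∣ c →
    (∀ ℓ : ℕ, ℓ.Prime → ℓ ^ (((c / q₀) * F).factorization ℓ) ≤ Y) →
    ((c / q₀) * F) ^ 2 ≤ Y ^ L →
    ∃ θ : ℤ → ℝ, (∀ a D : ℤ, (c : ℤ) ∣ (a - 1) * D + 1 → (F : ℤ) ∣ a * D + 1 →
        ∃ m : ℤ, θ a = (D : ℝ) / ((c : ℝ) * F) + m) ∧
      ∀ (h N : ℕ) (A : ℤ), 1 ≤ h → 1 ≤ N →
        ‖∑ a ∈ Ico A (A + N), ex (h * θ a)‖ ≤
          C * N * (((h : ℝ) / q₀) ^ ((1 : ℝ) / 4) + (q₀ : ℝ) * Y / N) ^ ((1 : ℝ) / 2 ^ L) := by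
  classical
  obtain ⟨C, hC1, hC⟩ := vdc L
  obtain ⟨B, hB1, hB⟩ := primeProd L
  refine ⟨C * B, by nlinarith, ?_⟩
  intro c F q₀ Y hL hY hsq hF hcop hq₀ hw hM
  have hc0 : c ≠ 0 := hsq.ne_zero
  have hq0 : q₀ ≠ 0 := fun h => hc0 (by rw [h] at hq₀; exact Nat.eq_zero_of_zero_dvd hq₀)
  have hq₀sq : Squarefree q₀ := hsq.squarefree_of_dvd hq₀
  have hcq : c / q₀ ≠ 0 := by
    rw [Ne, Nat.div_eq_zero_iff]
    push Not
    exact ⟨hq0, Nat.le_of_dvd (Nat.pos_of_ne_zero hc0) hq₀⟩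
  set M' := (c / q₀) * F with hM'
  have hM'0 : M' ≠ 0 := mul_ne_zero hcq hF.ne'
  have hprodM : ∏ ℓ ∈ M'.primeFactors, ℓ ^ (M'.factorization ℓ) = M' := by
    conv_rhs => rw [← Nat.prod_factorization_pow_eq_self hM'0]
    rfl
  obtain ⟨g, hg⟩ := group M'.primeFactors (fun ℓ => ℓ ^ (M'.factorization ℓ)) Y L hY hL
    (fun ℓ hℓ => ⟨Nat.one_le_pow _ _ (Nat.prime_of_mem_primeFactors hℓ).pos,
      hw ℓ (Nat.prime_of_mem_primeFactors hℓ)⟩) (by rw [hprodM]; exact hM)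
  set q : Fin L → ℕ := fun j => ∏ ℓ ∈ M'.primeFactors with g ℓ = j, ℓ ^ (M'.factorization ℓ) with hq
  have hq1 : ∀ j, 1 ≤ q j := fun j => Finset.one_le_prod' fun ℓ hℓ =>
    Nat.one_le_pow _ _ (Nat.prime_of_mem_primeFactors (Finset.mem_filter.1 hℓ).1).pos
  have hqprod : ∏ j, q j = M' := by
    rw [hq, Finset.prod_fiberwise_of_maps_to (fun ℓ _ => Finset.mem_univ (g ℓ))]
    exact hprodM
  have hqpair : ∀ i j, i ≠ j → (q i).Coprime (q j) := by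
    intro i j hij
    refine Nat.Coprime.prod_left fun ℓ hℓ => Nat.Coprime.prod_right fun ℓ' hℓ' => ?_
    have h1 := (Finset.mem_filter.1 hℓ)
    have h2 := (Finset.mem_filter.1 hℓ')
    have hne : ℓ ≠ ℓ' := by
      rintro rfl
      exact hij (h1.2.symm.trans h2.2)
    exact Nat.coprime_pow_primes _ _ (Nat.prime_of_mem_primeFactors h1.1)
      (Nat.prime_of_mem_primeFactors h2.1) hne
  have hqcop : ∀ j, (q j).Coprime q₀ := by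
    intro j
    have h1 : (M').Coprime q₀ := by
      have h2 : (c / q₀).Coprime q₀ := by
        have h3 : c = q₀ * (c / q₀) := (Nat.mul_div_cancel' hq₀).symm
        rw [h3] at hsq
        exact (Nat.coprime_of_squarefree_mul hsq).symm
      exact Nat.Coprime.mul_left h2 (Nat.Coprime.coprime_dvd_left hq₀ hcop).symm
    refine Nat.Coprime.coprime_dvd_left ?_ h1
    rw [← hqprod]
    exact Finset.dvd_prod_of_mem q (Finset.mem_univ j)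
  obtain ⟨u, f, hu, hf, hth⟩ := theta c F q₀ L q hsq hF hcop hq₀ hq1 hqprod hqpair
  refine ⟨fun a => ∑ ℓ ∈ q₀.primeFactors, (u ℓ : ℝ) * ((((a : ZMod ℓ) - 1)⁻¹).val : ℝ) / (ℓ : ℝ) +
    ∑ j, f j a, hth, ?_⟩
  intro h N A hh hN
  have hq₀R : (0 : ℝ) < q₀ := by exact_mod_cast Nat.pos_of_ne_zero hq0
  have hNR : (0 : ℝ) < N := by exact_mod_cast hN
  have hhR : (0 : ℝ) < h := by exact_mod_cast hh
  set g₀ : ℤ → ℂ := fun a => ∏ ℓ ∈ q₀.primeFactors, ph ℓ ((h : ℤ) * u ℓ) a with hg₀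
  have hex : ∀ a : ℤ, ex ((h : ℝ) * (∑ ℓ ∈ q₀.primeFactors, (u ℓ : ℝ) *
      ((((a : ZMod ℓ) - 1)⁻¹).val : ℝ) / (ℓ : ℝ) + ∑ j, f j a)) =
      g₀ a * ∏ j, ex ((h : ℝ) * f j a) := by
    intro a
    rw [mul_add, ex_add, Finset.mul_sum, Finset.mul_sum, ex_sum, ex_sum]
    congr 1
    refine Finset.prod_congr rfl fun ℓ _ => ?_
    unfold ph
    congr 1
    push_cast
    ring
  have hsum : ∑ a ∈ Ico A (A + N), ex ((h : ℝ) * (∑ ℓ ∈ q₀.primeFactors, (u ℓ : ℝ) *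
      ((((a : ZMod ℓ) - 1)⁻¹).val : ℝ) / (ℓ : ℝ) + ∑ j, f j a)) =
      ∑ a ∈ Ico A (A + N), g₀ a * ∏ j, ex ((h : ℝ) * f j a) :=
    Finset.sum_congr rfl fun a _ => hex a
  have hPg : Per q₀ g₀ := Per.prod _ _ fun ℓ hℓ =>
    (Per_ph ℓ _).of_dvd (Nat.dvd_of_mem_primeFactors hℓ)
  have hng : ∀ a, ‖g₀ a‖ ≤ 1 := by
    intro a
    rw [hg₀]
    simp only [norm_prod]
    refine Finset.prod_le_one (fun _ _ => norm_nonneg _) fun ℓ _ => ?_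
    unfold ph
    rw [norm_ex]
  have hvdc := hC q₀ Y N A g₀ q (fun j a => ex ((h : ℝ) * f j a)) (Nat.pos_of_ne_zero hq0) hY hN hPg hng
    (fun j => ⟨hq1 j, hg j, hqcop j, fun a => by
      change ex ((h : ℝ) * f j (a + q j)) = ex ((h : ℝ) * f j a)
      rw [hf j a], fun a => by
      rw [norm_ex]⟩)
  have hpp := hB q₀ h u hq₀sq hh hu
  have hfin := root_step (S := ‖∑ a ∈ Ico A (A + N), g₀ a * ∏ j, ex ((h : ℝ) * f j a)‖)
    (show 1 ≤ C * B by nlinarith) hNR.le (show 0 ≤ ((h : ℝ) / q₀) ^ ((1 : ℝ) / 4) + (q₀ : ℝ) * Y / N by positivity)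
    (L := L) (by
      refine hvdc.trans ?_
      have h1 : Real.sqrt (Gz L q₀ g₀) ≤ B * ((h : ℝ) / q₀) ^ ((1 : ℝ) / 4) := by
        refine (Real.sqrt_le_sqrt hpp).trans ?_
        rw [Real.sqrt_eq_rpow, ← Real.rpow_mul (by positivity)]
        have h2 : (h : ℝ) * B / q₀ = B * ((h : ℝ) / q₀) := by ring
        rw [h2, Real.mul_rpow (by linarith) (by positivity)]
        have h3 : (1 : ℝ) / 2 * (1 / 2) = 1 / 4 := by norm_num
        rw [h3]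
        refine mul_le_mul_of_nonneg_right ?_ (by positivity)
        calc B ^ ((1 : ℝ) / 4) ≤ B ^ (1 : ℝ) := Real.rpow_le_rpow_of_exponent_le hB1 (by norm_num)
          _ = B := Real.rpow_one _
      have h4 : (q₀ : ℝ) * Y / N ≤ B * ((q₀ : ℝ) * Y / N) := by
        have : 0 ≤ (q₀ : ℝ) * Y / N := by positivity
        nlinarith
      have h5 : 0 ≤ C * (N : ℝ) ^ (2 ^ L) := by positivity
      calc C * (N : ℝ) ^ (2 ^ L) * (Real.sqrt (Gz L q₀ g₀) + (q₀ : ℝ) * Y / N)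
          ≤ C * (N : ℝ) ^ (2 ^ L) * (B * ((h : ℝ) / q₀) ^ ((1 : ℝ) / 4) + B * ((q₀ : ℝ) * Y / N)) :=
            mul_le_mul_of_nonneg_left (add_le_add h1 h4) h5
        _ = C * B * (N : ℝ) ^ (2 ^ L) * (((h : ℝ) / q₀) ^ ((1 : ℝ) / 4) + (q₀ : ℝ) * Y / N) := by ring)
  refine (le_of_eq ?_).trans hfin
  exact congrArg norm hsum

end Pool.Agent.Helper6.PW
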