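import Mathlib
import Pool.Agent.Helper6.PW.Basic

/-!
# PW-13 Fejer: counting points near 0 modulo 1 by the Fejér kernel

`K(t) = H⁻¹ |∑_{0 ≤ h < H} ex (h t)|^2 ≥ 0`, and `K(t) = ∑_{|h| < H} (1 - |h|/H) ex (h t)`.  If `t - m ∈ [0, 1/(6H)]`
for an integer `m`, then for `0 ≤ h < H` the angle `2 π h (t - m)` is in `[0, π/3]`, so the real part of
`ex (h t) = ex (h (t - m))` is `≥ 1/2`, `|∑| ≥ H/2`, `K(t) ≥ H/4`.  Summing over `a ∈ I`:
`(H/4) #{…} ≤ ∑_{a ∈ I} K(θ a) ≤ #I + 2 ∑_{1 ≤ h < H} |∑_a ex (h θ a)|`.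
(The expansion: `∑_a |∑_h ex(h θ_a)|^2 = ∑_{h,h'} ∑_a ex ((h-h') θ_a)`, each difference `d ≠ 0` occurs at most
`H` times, and `|∑_a ex(-d θ_a)| = |∑_a ex(d θ_a)|`.)
-/

namespace Pool.Agent.Helper6.PW

open Finset

private theorem fejer_aux (g : ℕ → ℝ) (hg : ∀ d, 0 ≤ g d) (H h : ℕ) (hh : h < H) :
    ∑ k ∈ range H, g ((h - k) + (k - h)) ≤ g 0 + 2 * ∑ d ∈ Ico 1 H, g d := by
  have h1 : ∑ k ∈ range h, g ((h - k) + (k - h)) ≤ ∑ d ∈ Ico 1 H, g d := by
    have hinj : Set.InjOn (fun k => h - k) (range h : Set ℕ) := by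
      intro a ha b hb hab
      simp only [coe_range, Set.mem_Iio] at ha hb
      simp only at hab
      omega
    calc ∑ k ∈ range h, g ((h - k) + (k - h)) = ∑ k ∈ range h, g (h - k) := by
          refine sum_congr rfl fun k hk => ?_
          rw [mem_range] at hk
          congr 1
          omega
      _ = ∑ d ∈ (range h).image (fun k => h - k), g d := (sum_image hinj).symm
      _ ≤ _ := by
          refine sum_le_sum_of_subset_of_nonneg ?_ fun d _ _ => hg d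
          intro d hd
          rw [mem_image] at hd
          obtain ⟨k, hk, rfl⟩ := hd
          rw [mem_range] at hk
          rw [mem_Ico]
          omega
  have h2 : ∑ k ∈ Ico h H, g ((h - k) + (k - h)) ≤ g 0 + ∑ d ∈ Ico 1 H, g d := by
    have hinj : Set.InjOn (fun k => k - h) (Ico h H : Set ℕ) := by
      intro a ha b hb hab
      simp only [coe_Ico, Set.mem_Ico] at ha hb
      simp only at hab
      omega
    calc ∑ k ∈ Ico h H, g ((h - k) + (k - h)) = ∑ k ∈ Ico h H, g (k - h) := by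
          refine sum_congr rfl fun k hk => ?_
          rw [mem_Ico] at hk
          congr 1
          omega
      _ = ∑ d ∈ (Ico h H).image (fun k => k - h), g d := (sum_image hinj).symm
      _ ≤ ∑ d ∈ insert 0 (Ico 1 H), g d := by
          refine sum_le_sum_of_subset_of_nonneg ?_ fun d _ _ => hg d
          intro d hd
          rw [mem_image] at hd
          obtain ⟨k, hk, rfl⟩ := hd
          rw [mem_Ico] at hk
          rw [mem_insert, mem_Ico]
          omega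
      _ = _ := by
          rw [sum_insert (by simp)]
  have h3 : ∑ k ∈ range H, g ((h - k) + (k - h)) =
      ∑ k ∈ range h, g ((h - k) + (k - h)) + ∑ k ∈ Ico h H, g ((h - k) + (k - h)) := by
    rw [range_eq_Ico, ← sum_Ico_consecutive _ (Nat.zero_le h) hh.le, range_eq_Ico]
  rw [h3]
  linarith

private theorem fejer_re (H h : ℕ) (hH : 1 ≤ H) (hh : h < H) (t : ℝ) (m : ℤ) (h0 : 0 ≤ t - m)
    (h1 : t - m ≤ 1 / (6 * H)) : 1 / 2 ≤ (ex (h * t)).re := by
  have hH' : (0 : ℝ) < H := by exact_mod_cast hH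
  have e : ex (h * t) = ex (h * (t - m)) := by
    have : (h : ℝ) * t = h * (t - m) + ((h * m : ℤ) : ℝ) := by push_cast; ring
    rw [this, ex_add_int]
  rw [e]
  have e2 : (ex (h * (t - m))).re = Real.cos (2 * Real.pi * (h * (t - m))) := by
    unfold ex
    have : (2 * (Real.pi : ℂ) * ((h * (t - m) : ℝ) : ℂ) * Complex.I) =
        ((2 * Real.pi * (h * (t - m)) : ℝ) : ℂ) * Complex.I := by
      push_cast; ring
    rw [this, Complex.exp_ofReal_mul_I_re]
  rw [e2, ← Real.cos_pi_div_three]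
  have hpi := Real.pi_pos
  have hx0 : 0 ≤ 2 * Real.pi * (h * (t - m)) := by positivity
  have hx1 : (h : ℝ) * (t - m) ≤ 1 / 6 := by
    have hle : (h : ℝ) ≤ H := by exact_mod_cast hh.le
    calc (h : ℝ) * (t - m) ≤ H * (1 / (6 * H)) := by
          apply mul_le_mul hle h1 h0 hH'.le
      _ = 1 / 6 := by field_simp
  refine Real.cos_le_cos_of_nonneg_of_le_pi hx0 (by linarith) ?_
  nlinarith

open scoped Classical in
theorem fejer {ι : Type*} (I : Finset ι) (θ : ι → ℝ) (H : ℕ) (hH : 1 ≤ H) :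
    (#{a ∈ I | ∃ m : ℤ, 0 ≤ θ a - m ∧ θ a - m ≤ 1 / (6 * H)} : ℝ) ≤
      4 * #I / H + 8 / H * ∑ h ∈ Ico 1 H, ‖∑ a ∈ I, ex (h * θ a)‖ := by
  have hH' : (0 : ℝ) < H := by exact_mod_cast hH
  set S : ι → ℂ := fun a => ∑ h ∈ range H, ex (h * θ a) with hS
  set G : ℕ → ℝ := fun d => ‖∑ a ∈ I, ex (d * θ a)‖ with hG
  have hG0 : G 0 = #I := by
    simp [hG, ex_zero]
  -- lower bound
  have hlow : (H : ℝ) ^ 2 / 4 * (#{a ∈ I | ∃ m : ℤ, 0 ≤ θ a - m ∧ θ a - m ≤ 1 / (6 * H)} : ℝ) ≤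
      ∑ a ∈ I, ‖S a‖ ^ 2 := by
    calc (H : ℝ) ^ 2 / 4 * (#{a ∈ I | ∃ m : ℤ, 0 ≤ θ a - m ∧ θ a - m ≤ 1 / (6 * H)} : ℝ)
        = ∑ a ∈ {a ∈ I | ∃ m : ℤ, 0 ≤ θ a - m ∧ θ a - m ≤ 1 / (6 * H)}, (H : ℝ) ^ 2 / 4 := by
          rw [sum_const, nsmul_eq_mul, mul_comm]
      _ ≤ ∑ a ∈ {a ∈ I | ∃ m : ℤ, 0 ≤ θ a - m ∧ θ a - m ≤ 1 / (6 * H)}, ‖S a‖ ^ 2 := by
          refine sum_le_sum fun a ha => ?_
          rw [mem_filter] at ha
          obtain ⟨_, m, h0, h1⟩ := ha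
          have hre : (H : ℝ) / 2 ≤ (S a).re := by
            rw [hS]
            simp only [Complex.re_sum]
            calc (H : ℝ) / 2 = ∑ h ∈ range H, (1 / 2 : ℝ) := by
                  rw [sum_const, card_range, nsmul_eq_mul]; ring
              _ ≤ _ := sum_le_sum fun h hh => fejer_re H h hH (mem_range.mp hh) _ m h0 h1
          have hn : (H : ℝ) / 2 ≤ ‖S a‖ := hre.trans (Complex.re_le_norm _)
          nlinarith
      _ ≤ _ := sum_le_sum_of_subset_of_nonneg (filter_subset _ _) fun _ _ _ => by positivity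
  -- expansion
  have hexp : ((∑ a ∈ I, ‖S a‖ ^ 2 : ℝ) : ℂ) =
      ∑ h ∈ range H, ∑ k ∈ range H, ∑ a ∈ I, ex (((h : ℝ) - k) * θ a) := by
    push_cast
    have : ∀ a ∈ I, ((‖S a‖ : ℂ)) ^ 2 =
        ∑ h ∈ range H, ∑ k ∈ range H, ex (((h : ℝ) - k) * θ a) := by
      intro a _
      rw [← Complex.mul_conj', hS]
      simp only [map_sum]
      rw [sum_mul_sum]
      refine sum_congr rfl fun h _ => sum_congr rfl fun k _ => ?_
      rw [conj_ex, ← ex_add]
      congr 1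
      ring
    rw [sum_congr rfl this, sum_comm]
    refine sum_congr rfl fun h _ => ?_
    rw [sum_comm]
  have hterm : ∀ h k : ℕ, ‖∑ a ∈ I, ex (((h : ℝ) - k) * θ a)‖ = G ((h - k) + (k - h)) := by
    intro h k
    rcases le_total k h with hkh | hhk
    · have e : (h - k) + (k - h) = h - k := by omega
      rw [e, hG]
      simp only
      congr 1
      refine sum_congr rfl fun a _ => ?_
      rw [Nat.cast_sub hkh]
    · have e : (h - k) + (k - h) = k - h := by omega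
      rw [e, hG]
      simp only
      rw [← Complex.norm_conj, map_sum]
      congr 1
      refine sum_congr rfl fun a _ => ?_
      rw [conj_ex, Nat.cast_sub hhk]
      congr 1
      ring
  have hup : ∑ a ∈ I, ‖S a‖ ^ 2 ≤ H * (#I + 2 * ∑ h ∈ Ico 1 H, G h) := by
    have hnn : 0 ≤ ∑ a ∈ I, ‖S a‖ ^ 2 := sum_nonneg fun _ _ => by positivity
    have e1 : ∑ a ∈ I, ‖S a‖ ^ 2 = ‖((∑ a ∈ I, ‖S a‖ ^ 2 : ℝ) : ℂ)‖ := by
      rw [Complex.norm_real, Real.norm_of_nonneg hnn]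
    rw [e1, hexp]
    calc ‖∑ h ∈ range H, ∑ k ∈ range H, ∑ a ∈ I, ex (((h : ℝ) - k) * θ a)‖
        ≤ ∑ h ∈ range H, ∑ k ∈ range H, ‖∑ a ∈ I, ex (((h : ℝ) - k) * θ a)‖ :=
          (norm_sum_le _ _).trans (sum_le_sum fun h _ => norm_sum_le _ _)
      _ = ∑ h ∈ range H, ∑ k ∈ range H, G ((h - k) + (k - h)) :=
          sum_congr rfl fun h _ => sum_congr rfl fun k _ => hterm h k
      _ ≤ ∑ h ∈ range H, (G 0 + 2 * ∑ d ∈ Ico 1 H, G d) :=
          sum_le_sum fun h hh => fejer_aux G (fun d => norm_nonneg _) H h (mem_range.mp hh)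
      _ = _ := by
          rw [sum_const, card_range, nsmul_eq_mul, hG0]
  have hfin := hlow.trans hup
  set X : ℝ := (#{a ∈ I | ∃ m : ℤ, 0 ≤ θ a - m ∧ θ a - m ≤ 1 / (6 * H)} : ℝ) with hX
  set Y : ℝ := ∑ h ∈ Ico 1 H, G h with hY
  have hgoal : X ≤ 4 * #I / H + 8 / H * Y := by
    have : 4 * (#I : ℝ) / H + 8 / H * Y = (H * (#I + 2 * Y)) / ((H : ℝ) ^ 2 / 4) := by
      field_simp
      ring
    rw [this, le_div_iff₀ (by positivity)]
    linarith
  exact hgoal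

end Pool.Agent.Helper6.PW
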