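import Mathlib
import Pool.Agent.Helper6.PW.ESum
import Pool.Agent.Helper6.PW.Fejer

/-!
# PW-14 CountP: the primes compatible with a good divisor

`F = k φ(c)`, `Y = V Z`, `M' = (c / q₀) F`.  `Y ≥ 1`, because `(c F)^2 ≤ Y^L`, `c F ≥ 1`, `L ≥ 1`.
(1) For every prime `ℓ`: `ℓ ^ v_ℓ(M') ≤ Y`.  `c / q₀` is squarefree and coprime to `F`.  If `ℓ ∣ c / q₀` then
`v_ℓ(M') = 1` and `ℓ < Z ≤ V Z` (`V ≥ k ≥ 1`).  If `ℓ ∤ c / q₀` then `v_ℓ(M') = v_ℓ(k) + v_ℓ(φ(c))`,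
`ℓ^(v_ℓ(k)) ≤ k ≤ V` and `ℓ^(v_ℓ(φ(c))) ≤ Z` or `v_ℓ(φ(c)) = 0`: if `v_ℓ(φ(c)) ≥ 2` by `¬ Exc T c` and `T ≤ Z`; if it is 1,
`ℓ ∣ φ(c) = ∏_{p ∣ c} (p - 1)`, so `ℓ ≤ p - 1 < Z` for a prime `p ∣ c`; if it is 0 then `ℓ^(v_ℓ(M')) ≤ V ≤ Y`
(`Z ≥ 1` as `Y ≥ 1`).
(2) `esum` gives `θ`.  For `p ∈ PS c F P Dm` there is `D ≤ Dm` with `c ∣ (p-1) D + 1`, `F ∣ p D + 1`, so
`θ p = D/(c F) + m` and `0 ≤ θ p - m ≤ Dm/(c F) ≤ 1/(6 H)`.  `fejer` with `I = Ico (P+1) (P+1+P)` (integers; cast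
the set `PS` injectively) and `|∑_{a ∈ I} ex (h θ a)| ≤ C P ((h/q₀)^(1/4) + q₀ Y/P)^(1/2^L) ≤ C P ((H/q₀)^(1/4) + …)`
for `1 ≤ h < H`:  `#PS ≤ 4 P/H + (8/H) H C P (…)`.  Constant `8 C`.
-/

namespace Pool.Agent.Helper6.PW

open Finset

private theorem countP_pow {k c q₀ V Z T : ℕ} (hsq : Squarefree c) (hk : 1 ≤ k) (hkV : k ≤ V)
    (hcop : c.Coprime (k * c.totient)) (hZ : ∀ ℓ ∈ c.primeFactors, ℓ < Z) (hExc : ¬ Exc T c)
    (hTZ : T ≤ Z) (hq : q₀ ∣ c) (hZ1 : 1 ≤ Z) (ℓ : ℕ) (hℓ : ℓ.Prime) :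
    ℓ ^ (((c / q₀) * (k * c.totient)).factorization ℓ) ≤ V * Z := by
  have hc0 : c ≠ 0 := hsq.ne_zero
  have hφ0 : c.totient ≠ 0 := (Nat.totient_pos.2 (Nat.pos_of_ne_zero hc0)).ne'
  have hk0 : k ≠ 0 := by omega
  have hV1 : 1 ≤ V := hk.trans hkV
  have hdvd : c / q₀ ∣ c := Nat.div_dvd_of_dvd hq
  have hd0 : c / q₀ ≠ 0 := fun h => hc0 (Nat.eq_zero_of_zero_dvd (h ▸ hdvd))
  rw [Nat.factorization_mul hd0 (mul_ne_zero hk0 hφ0), Finsupp.add_apply]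
  by_cases hdiv : ℓ ∣ c / q₀
  · have hℓc : ℓ ∣ c := hdiv.trans hdvd
    have h1 : ¬ ℓ ∣ k * c.totient := by
      intro h
      have := Nat.dvd_gcd hℓc h
      rw [hcop] at this
      exact hℓ.one_lt.ne' (Nat.dvd_one.1 this)
    rw [Nat.factorization_eq_zero_of_not_dvd h1, add_zero]
    have h2 : (c / q₀).factorization ℓ ≤ 1 :=
      (hsq.squarefree_of_dvd hdvd).natFactorization_le_one ℓ
    have h3 : ℓ < Z := hZ ℓ (Nat.mem_primeFactors.2 ⟨hℓ, hℓc, hc0⟩)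
    calc ℓ ^ ((c / q₀).factorization ℓ) ≤ ℓ ^ 1 := Nat.pow_le_pow_right hℓ.pos h2
      _ = ℓ := pow_one ℓ
      _ ≤ 1 * Z := by omega
      _ ≤ V * Z := Nat.mul_le_mul_right Z hV1
  · rw [Nat.factorization_eq_zero_of_not_dvd hdiv, zero_add, Nat.factorization_mul hk0 hφ0,
      Finsupp.add_apply, pow_add]
    refine Nat.mul_le_mul ((Nat.ordProj_le ℓ hk0).trans hkV) ?_
    rcases Nat.lt_or_ge (c.totient.factorization ℓ) 2 with hlt | hge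
    · rcases Nat.eq_zero_or_pos (c.totient.factorization ℓ) with h0 | hpos
      · rw [h0, pow_zero]
        exact hZ1
      · have h1 : c.totient.factorization ℓ = 1 := by omega
        rw [h1, pow_one]
        have h2 : ℓ ∣ c.totient := Nat.dvd_of_factorization_pos (by omega)
        have h3 : c.totient = ∏ p ∈ c.primeFactors, (p - 1) := by
          have h4 := Nat.totient_mul_prod_primeFactors c
          rw [Nat.prod_primeFactors_of_squarefree hsq, mul_comm] at h4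
          exact Nat.eq_of_mul_eq_mul_left (Nat.pos_of_ne_zero hc0) h4
        rw [h3, (Nat.prime_iff.1 hℓ).dvd_finsetProd_iff] at h2
        obtain ⟨p, hp, hpl⟩ := h2
        have hp1 : 2 ≤ p := (Nat.prime_of_mem_primeFactors hp).two_le
        have h5 : ℓ ≤ p - 1 := Nat.le_of_dvd (by omega) hpl
        have h6 := hZ p hp
        omega
    · by_contra hcon
      rw [not_le] at hcon
      exact hExc ⟨ℓ, hℓ, hge, lt_of_le_of_lt hTZ hcon⟩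

theorem countP (L : ℕ) : ∃ C : ℝ, 1 ≤ C ∧ ∀ k c q₀ V Z T P Dm H : ℕ, 1 ≤ L → Squarefree c →
    1 ≤ k → k ≤ V → c.Coprime (k * c.totient) → (∀ ℓ ∈ c.primeFactors, ℓ < Z) → ¬ Exc T c →
    T ≤ Z → q₀ ∣ c → 1 ≤ P → 1 ≤ H → 6 * H * Dm ≤ c * (k * c.totient) →
    (c * (k * c.totient)) ^ 2 ≤ (V * Z) ^ L →
    (#(PS c (k * c.totient) P Dm) : ℝ) ≤
      P * (4 / H + C * (((H : ℝ) / q₀) ^ ((1 : ℝ) / 4) + (q₀ : ℝ) * (V * Z) / P) ^ ((1 : ℝ) / 2 ^ L)) := by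
  obtain ⟨C, hC, hes⟩ := esum L
  refine ⟨8 * C, by linarith, ?_⟩
  intro k c q₀ V Z T P Dm H hL hsq hk hkV hcop hZ hExc hTZ hq hP hH hDm hcF
  have hc0 : c ≠ 0 := hsq.ne_zero
  have hcpos : 0 < c := Nat.pos_of_ne_zero hc0
  have hφ0 : 0 < c.totient := Nat.totient_pos.2 hcpos
  have hF0 : 0 < k * c.totient := Nat.mul_pos hk hφ0
  have hY1 : 1 ≤ V * Z := by
    by_contra hcon
    have h0 : V * Z = 0 := by omega
    rw [h0, zero_pow (by omega)] at hcF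
    have : 0 < (c * (k * c.totient)) ^ 2 := by positivity
    omega
  have hZ1 : 1 ≤ Z := Nat.pos_of_ne_zero (fun h => by rw [h, mul_zero] at hY1; omega)
  have hdle : c / q₀ ≤ c := Nat.div_le_self c q₀
  obtain ⟨θ, hθ1, hθ2⟩ := hes c (k * c.totient) q₀ (V * Z) hL hY1 hsq hF0 hcop hq
    (countP_pow hsq hk hkV hcop hZ hExc hTZ hq hZ1)
    (le_trans (Nat.pow_le_pow_left (Nat.mul_le_mul_right _ hdle) 2) hcF)
  have hHr : (0 : ℝ) < H := by exact_mod_cast hH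
  have hPr : (0 : ℝ) < P := by exact_mod_cast hP
  have hcr : (0 : ℝ) < c := by exact_mod_cast hcpos
  have hFr : (0 : ℝ) < ((k * c.totient : ℕ) : ℝ) := by exact_mod_cast hF0
  have hfj := fejer (Ico ((P : ℤ) + 1) ((P : ℤ) + 1 + (P : ℕ))) θ H hH
  set E : ℝ := (((H : ℝ) / q₀) ^ ((1 : ℝ) / 4) + (q₀ : ℝ) * (V * Z) / P) ^ ((1 : ℝ) / 2 ^ L) with hE
  have hE0 : 0 ≤ E := by positivity
  -- the points
  have hcard : (#(PS c (k * c.totient) P Dm) : ℝ) ≤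
      4 * #(Ico ((P : ℤ) + 1) ((P : ℤ) + 1 + (P : ℕ))) / H + 8 / H * ∑ h ∈ Ico 1 H,
        ‖∑ a ∈ Ico ((P : ℤ) + 1) ((P : ℤ) + 1 + (P : ℕ)), ex (h * θ a)‖ := by
    refine le_trans ?_ hfj
    rw [Nat.cast_le]
    refine card_le_card_of_injOn (fun p : ℕ => (p : ℤ)) ?_ (fun a _ b _ hab => by
      simpa using hab)
    intro p hp
    rw [mem_coe, PS, mem_image] at hp
    obtain ⟨⟨p', D⟩, hx, rfl⟩ := hp
    rw [PD, mem_filter, mem_product, mem_Ioc, mem_range] at hx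
    obtain ⟨⟨⟨h1, h2⟩, h3⟩, h4, h5⟩ := hx
    simp only at h1 h2 h3 h4 h5 ⊢
    have h6 : (c : ℤ) ∣ ((p' : ℤ) - 1) * (D : ℤ) + 1 := by
      have h7 : (((p' - 1) * D + 1 : ℕ) : ℤ) = ((p' : ℤ) - 1) * (D : ℤ) + 1 := by
        rw [Nat.cast_add, Nat.cast_mul, Nat.cast_sub (by omega)]
        simp
      rw [← h7]
      exact_mod_cast h4
    have h8 : ((k * c.totient : ℕ) : ℤ) ∣ (p' : ℤ) * (D : ℤ) + 1 := by
      exact_mod_cast h5
    obtain ⟨m, hm⟩ := hθ1 (p' : ℤ) (D : ℤ) h6 h8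
    have hDD : D ≤ Dm := by omega
    simp only [coe_filter, Set.mem_ofPred_eq, mem_Ico]
    refine ⟨⟨by omega, by omega⟩, m, ?_, ?_⟩
    · rw [hm]
      have : (0 : ℝ) ≤ ((D : ℤ) : ℝ) / ((c : ℝ) * ((k * c.totient : ℕ) : ℝ)) := by positivity
      linarith
    · rw [hm, add_sub_cancel_right]
      have h9 : (6 : ℝ) * H * D ≤ (c : ℝ) * ((k * c.totient : ℕ) : ℝ) := by
        have h10 : 6 * H * D ≤ c * (k * c.totient) := (Nat.mul_le_mul_left _ hDD).trans hDm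
        exact_mod_cast h10
      rw [div_le_div_iff₀ (by positivity) (by positivity)]
      push_cast at h9 ⊢
      linarith
  have hIcard : (#(Ico ((P : ℤ) + 1) ((P : ℤ) + 1 + (P : ℕ))) : ℝ) = P := by
    rw [Int.card_Ico]
    simp
  have hterm : ∀ h ∈ Ico 1 H,
      ‖∑ a ∈ Ico ((P : ℤ) + 1) ((P : ℤ) + 1 + (P : ℕ)), ex (h * θ a)‖ ≤ C * P * E := by
    intro h hh
    rw [mem_Ico] at hh
    refine (hθ2 h P ((P : ℤ) + 1) hh.1 hP).trans ?_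
    refine mul_le_mul_of_nonneg_left ?_ (by positivity)
    rw [hE]
    push_cast
    refine Real.rpow_le_rpow (by positivity) ?_ (by positivity)
    have h1 : (h : ℝ) ≤ H := by exact_mod_cast hh.2.le
    gcongr
  have hsum : ∑ h ∈ Ico 1 H,
      ‖∑ a ∈ Ico ((P : ℤ) + 1) ((P : ℤ) + 1 + (P : ℕ)), ex (h * θ a)‖ ≤ H * (C * P * E) := by
    refine (sum_le_sum hterm).trans ?_
    rw [sum_const, nsmul_eq_mul, Nat.card_Ico]
    refine mul_le_mul_of_nonneg_right ?_ (by positivity)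
    have : H - 1 ≤ H := Nat.sub_le _ _
    exact_mod_cast this
  refine hcard.trans ?_
  rw [hIcard]
  calc 4 * (P : ℝ) / H + 8 / H * ∑ h ∈ Ico 1 H,
        ‖∑ a ∈ Ico ((P : ℤ) + 1) ((P : ℤ) + 1 + (P : ℕ)), ex (h * θ a)‖
      ≤ 4 * (P : ℝ) / H + 8 / H * (H * (C * P * E)) := by
        gcongr
    _ = P * (4 / H + 8 * C * E) := by
        field_simp

end Pool.Agent.Helper6.PW
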