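import Mathlib
import Pool.Agent.Helper6.PW.Defs

/-!
# PW-15 KeyId: the key identity

`n = k φ(n) + 1` a Lehmer number (squarefree), `p ∣ n` prime, `m = n / p`.  `m > 1` (not prime), `p ∤ m`,
`φ(n) = (p - 1) φ(m)`.  `m` is a proper divisor, so `m < k φ(m)` (`Idx.lt_mul_totient`); put `D = k φ(m) - m ≥ 1`.
`p m = n = k (p - 1) φ(m) + 1 = (p - 1)(m + D) + 1`, so `m = (p - 1) D + 1`, and `k φ(m) = m + D = p D + 1`.
-/

namespace Pool.Agent.Helper6.PW

open Finset Pool.Agent.Helper6.Lehmer Pool.Agent.Helper6.LehmerCount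

theorem key_id {n k p : ℕ} (h : Idx n k) (hp : p ∈ n.primeFactors) :
    ∃ D, 1 ≤ D ∧ n = p * ((p - 1) * D + 1) ∧ k * ((p - 1) * D + 1).totient = p * D + 1 := by
  have hpp := Nat.prime_of_mem_primeFactors hp
  have hpn := Nat.dvd_of_mem_primeFactors hp
  have hsq := h.lehmer.squarefree
  have h1 := h.lehmer.one_lt
  obtain ⟨m, rfl⟩ := hpn
  have hm0 : 0 < m := by
    rcases Nat.eq_zero_or_pos m with h0 | h0
    · subst h0; simp at h1
    · exact h0
  have hcop : p.Coprime m := Nat.coprime_of_squarefree_mul hsq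
  have hlt : m < p * m := by
    have := hpp.two_le
    nlinarith
  have h2 := h.lt_mul_totient (Dvd.intro_left p rfl) hlt
  have h3 := h.eq
  rw [Nat.totient_mul hcop, Nat.totient_prime hpp] at h3
  obtain ⟨D, hD⟩ : ∃ D, k * m.totient = m + D := ⟨k * m.totient - m, by omega⟩
  have hD1 : 1 ≤ D := by omega
  obtain ⟨q, rfl⟩ : ∃ q, p = q + 1 := ⟨p - 1, by have := hpp.pos; omega⟩
  simp only [Nat.add_sub_cancel] at h3 ⊢
  have h4 : (q + 1) * m = q * (m + D) + 1 := by
    rw [h3, ← hD]; ring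
  have h5 : m = q * D + 1 := by nlinarith
  refine ⟨D, hD1, by rw [← h5], ?_⟩
  rw [← h5, hD]
  rw [h5]; ring

end Pool.Agent.Helper6.PW
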