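import Mathlib
import Pool.Agent.Helper6.PW.KeyId

/-!
# PW-16 Inj: counting by the pairs `(p, D)`

`PD_card_le`: for a fixed `p` two admissible `D, D'` satisfy `c ∣ (p-1)(D - D')` and `F ∣ p (D - D')`, where `p - 1`
is invertible mod `c` and `p` mod `F`, so `D ≡ D' mod c F` (coprime); at most `Dm/(c F) + 1` of them in
`[0, Dm]` (`card_le_of_modEq` of `LehmerCount.Dense`).  `PD_card_le_PS`: if `Dm < c F` at most one `D` for each `p`.
`PS_card_le`: `PS ⊆ Ioc P (2P)`.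
`inj`: for `n ∈ S` choose `p, c`; by `key_id` `n = p ((p-1) D + 1)`, `n / p = (p - 1) D + 1 = m`, `c ∣ m`, and
`k φ(c) ∣ k φ(m) = p D + 1`; `D P^2 ≤ D p (p - 1) < n ≤ X` (`p ≥ P + 1`), so `D ≤ X / P^2` and `(p, D) ∈ PD c (k φ(c)) P (X/P^2)`.
`n` is determined by `(p, D)`; so `S` injects into the disjoint union (sigma) of the `PD`, or:
`S ⊆ C.biUnion (fun c => (PD c ..).image (fun x => x.1 * ((x.1 - 1) * x.2 + 1)))`.
-/

namespace Pool.Agent.Helper6.PW

open Finset Pool.Agent.Helper6.Lehmer Pool.Agent.Helper6.LehmerCount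

private theorem modEq_of_PD {c F p D D' : ℕ} (hcop : c.Coprime F)
    (h1 : c ∣ (p - 1) * D + 1) (h2 : F ∣ p * D + 1)
    (h1' : c ∣ (p - 1) * D' + 1) (h2' : F ∣ p * D' + 1) : D ≡ D' [MOD c * F] := by
  have key : ∀ {m a x y : ℕ}, m ∣ a * x + 1 → m ∣ a * y + 1 → x ≡ y [MOD m] := by
    intro m a x y hx hy
    have hcp : m.gcd a = 1 := by
      have h3 : m.gcd a ∣ a * x + 1 := (Nat.gcd_dvd_left m a).trans hx
      have h4 : m.gcd a ∣ a * x := (Nat.gcd_dvd_right m a).trans (Dvd.intro x rfl)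
      exact Nat.dvd_one.1 ((Nat.dvd_add_right h4).1 h3)
    have h5 : a * x + 1 ≡ a * y + 1 [MOD m] :=
      ((Nat.modEq_zero_iff_dvd).2 hx).trans ((Nat.modEq_zero_iff_dvd).2 hy).symm
    exact Nat.ModEq.cancel_left_of_coprime hcp (Nat.ModEq.add_right_cancel' 1 h5)
  exact (Nat.modEq_and_modEq_iff_modEq_mul hcop).1 ⟨key h1 h1', key h2 h2'⟩

private theorem PD_fiber {c F P Dm : ℕ} (hcop : c.Coprime F) (b : ℕ) :
    #{a ∈ PD c F P Dm | a.1 = b} ≤ Dm / (c * F) + 1 := by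
  have h1 : #({a ∈ PD c F P Dm | a.1 = b}.image Prod.snd) = #{a ∈ PD c F P Dm | a.1 = b} := by
    apply Finset.card_image_of_injOn
    rintro ⟨x, y⟩ hx ⟨x', y'⟩ hx' h
    simp only [Finset.coe_filter, Set.mem_setOf_eq] at hx hx' h
    rw [Prod.mk.injEq]
    exact ⟨hx.2.trans hx'.2.symm, h⟩
  rw [← h1]
  apply card_le_of_modEq
  · intro n hn
    rw [Finset.mem_image] at hn
    obtain ⟨⟨x, y⟩, hx, rfl⟩ := hn
    rw [Finset.mem_filter] at hx
    have h2 := hx.1
    unfold PD at h2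
    rw [Finset.mem_filter, Finset.mem_product, Finset.mem_range] at h2
    have h3 := h2.1.2
    simp only at h3 ⊢
    omega
  · intro n hn n' hn'
    rw [Finset.mem_image] at hn hn'
    obtain ⟨⟨x, y⟩, hx, rfl⟩ := hn
    obtain ⟨⟨x', y'⟩, hx', rfl⟩ := hn'
    rw [Finset.mem_filter] at hx hx'
    obtain ⟨h2, h3⟩ := hx
    obtain ⟨h2', h3'⟩ := hx'
    simp only at h3 h3'
    subst h3
    subst h3'
    unfold PD at h2 h2'
    rw [Finset.mem_filter] at h2 h2'
    exact modEq_of_PD hcop h2.2.1 h2.2.2 h2'.2.1 h2'.2.2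

theorem PD_card_le {c F P Dm : ℕ} (hc : 0 < c) (hF : 0 < F) (hcop : c.Coprime F) :
    #(PD c F P Dm) ≤ P * (Dm / (c * F) + 1) := by
  have _ := hc
  have _ := hF
  have h1 : #(PD c F P Dm) ≤ (Dm / (c * F) + 1) * #(Ioc P (2 * P)) := by
    refine Finset.card_le_mul_card_image_of_maps_to (f := Prod.fst) ?_ _ ?_
    · intro a ha
      unfold PD at ha
      rw [Finset.mem_filter, Finset.mem_product] at ha
      exact ha.1.1
    · intro b _
      exact PD_fiber hcop b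
  rw [Nat.card_Ioc] at h1
  have h2 : 2 * P - P = P := by omega
  rw [h2] at h1
  rw [mul_comm]
  exact h1

theorem PD_card_le_PS {c F P Dm : ℕ} (hcop : c.Coprime F) (h : Dm < c * F) :
    #(PD c F P Dm) ≤ #(PS c F P Dm) := by
  have h1 : #(PD c F P Dm) ≤ 1 * #((PD c F P Dm).image Prod.fst) := by
    refine Finset.card_le_mul_card_image _ _ ?_
    intro b _
    refine (PD_fiber hcop b).trans ?_
    rw [Nat.div_eq_of_lt h]
  rw [one_mul] at h1
  exact h1

theorem PS_card_le (c F P Dm : ℕ) : #(PS c F P Dm) ≤ P := by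
  have h1 : PS c F P Dm ⊆ Ioc P (2 * P) := by
    intro x hx
    unfold PS PD at hx
    rw [Finset.mem_image] at hx
    obtain ⟨a, ha, rfl⟩ := hx
    rw [Finset.mem_filter, Finset.mem_product] at ha
    exact ha.1.1
  refine (Finset.card_le_card h1).trans ?_
  rw [Nat.card_Ioc]
  omega

theorem inj {S C : Finset ℕ} {k X P : ℕ} (hP : 1 ≤ P)
    (hS : ∀ n ∈ S, Idx n k ∧ n ≤ X ∧ ∃ p ∈ n.primeFactors, P < p ∧ p ≤ 2 * P ∧ ∃ c ∈ C, c ∣ n / p) :
    #S ≤ ∑ c ∈ C, #(PD c (k * c.totient) P (X / P ^ 2)) := by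
  have hsub : S ⊆ C.biUnion (fun c => (PD c (k * c.totient) P (X / P ^ 2)).image
      (fun x => x.1 * ((x.1 - 1) * x.2 + 1))) := by
    intro n hn
    obtain ⟨hI, hnX, p, hp, hPp, hp2, c, hcC, hcn⟩ := hS n hn
    obtain ⟨D, hD1, hnD, hkD⟩ := key_id hI hp
    have hpp := Nat.prime_of_mem_primeFactors hp
    rw [Finset.mem_biUnion]
    refine ⟨c, hcC, ?_⟩
    rw [Finset.mem_image]
    refine ⟨(p, D), ?_, hnD.symm⟩
    have hdiv : n / p = (p - 1) * D + 1 := by
      rw [hnD]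
      exact Nat.mul_div_cancel_left _ hpp.pos
    rw [hdiv] at hcn
    unfold PD
    rw [Finset.mem_filter, Finset.mem_product, Finset.mem_Ioc, Finset.mem_range]
    refine ⟨⟨⟨hPp, hp2⟩, ?_⟩, hcn, ?_⟩
    · show D < X / P ^ 2 + 1
      have h1 : D ≤ X / P ^ 2 := by
        rw [Nat.le_div_iff_mul_le (by positivity)]
        have h2 : P ≤ p - 1 := by omega
        have h3 : P ≤ p := hPp.le
        calc D * P ^ 2 = P * (P * D) := by ring
          _ ≤ p * ((p - 1) * D) := Nat.mul_le_mul h3 (Nat.mul_le_mul_right D h2)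
          _ ≤ p * ((p - 1) * D + 1) := Nat.mul_le_mul_left p (Nat.le_succ _)
          _ = n := hnD.symm
          _ ≤ X := hnX
      omega
    · show k * c.totient ∣ p * D + 1
      rw [← hkD]
      exact Nat.mul_dvd_mul_left k (Nat.totient_dvd_of_dvd hcn)
  refine (Finset.card_le_card hsub).trans (Finset.card_biUnion_le.trans ?_)
  exact Finset.sum_le_sum fun c _ => Finset.card_image_le

end Pool.Agent.Helper6.PW
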