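import Mathlib
import Pool.Agent.Helper6.PW.Defs

/-!
# PW-22 QZero: a divisor of controlled size of a smooth number

Let `q₀` be the smallest divisor of `g` with `s₁ < R q₀` (`g` itself is one; `g ≥ 1` as `s₁ < R g`).  If `q₀ = 1`,
`q₀ ≤ s₁ s₀` (`s₁, s₀ ≥ 1`).  Otherwise a prime `ℓ ∣ q₀`, `ℓ < s₀`, `q₀/ℓ` is a smaller divisor, so
`R (q₀/ℓ) ≤ s₁`, `R ≥ 1`, `q₀ ≤ s₁ ℓ ≤ s₁ s₀`.
-/

namespace Pool.Agent.Helper6.PW

theorem exists_q0 {g s₀ s₁ R : ℕ} (hg : ∀ ℓ ∈ g.primeFactors, ℓ < s₀) (h : s₁ < R * g)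
    (hs₁ : 1 ≤ s₁) (hs₀ : 1 ≤ s₀) : ∃ q₀, q₀ ∣ g ∧ s₁ < R * q₀ ∧ q₀ ≤ s₁ * s₀ := by
  classical
  have hex : ∃ q, q ∣ g ∧ s₁ < R * q := ⟨g, dvd_rfl, h⟩
  have hg0 : g ≠ 0 := by
    rintro rfl
    simp at h
  have hR : 1 ≤ R := by
    rcases Nat.eq_zero_or_pos R with h0 | h0
    · rw [h0] at h
      simp at h
    · exact h0
  obtain ⟨hd, hlt⟩ := Nat.find_spec hex
  refine ⟨Nat.find hex, hd, hlt, ?_⟩
  set q := Nat.find hex with hq
  rcases eq_or_ne q 1 with h1 | h1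
  · rw [h1]
    exact Nat.mul_pos hs₁ hs₀
  · obtain ⟨l, hl, hlq⟩ := Nat.exists_prime_and_dvd h1
    obtain ⟨c, hc⟩ := hlq
    have hcd : c ∣ g := dvd_trans ⟨l, by rw [hc, mul_comm]⟩ hd
    have hq0 : q ≠ 0 := by
      intro h0
      rw [h0] at hd
      exact hg0 (zero_dvd_iff.1 hd)
    have hc0 : 0 < c := by
      rcases Nat.eq_zero_or_pos c with h0 | h0
      · rw [h0, mul_zero] at hc
        exact absurd hc hq0
      · exact h0
    have hclt : c < q := by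
      rw [hc]
      calc c = 1 * c := (one_mul c).symm
        _ < l * c := Nat.mul_lt_mul_of_pos_right hl.one_lt hc0
    have hmin := Nat.find_min hex (m := c) hclt
    have hRc : R * c ≤ s₁ := by
      by_contra hcon
      exact hmin ⟨hcd, not_le.1 hcon⟩
    have hls : l < s₀ := hg l (Nat.mem_primeFactors.2 ⟨hl, dvd_trans ⟨c, hc⟩ hd, hg0⟩)
    calc q = l * c := hc
      _ ≤ s₀ * s₁ := Nat.mul_le_mul hls.le
          (le_trans (by nlinarith) hRc)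
      _ = s₁ * s₀ := mul_comm _ _

end Pool.Agent.Helper6.PW
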