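import Mathlib
import Pool.Agent.Helper6.PW.Defs

/-!
# PW-17 Sel: selection of a divisor

`n` a Lehmer number, `2 ω(n) ≤ R`, `s₀ ≤ Z`, `1 ≤ s₁ ≤ y < sm Z n` (`sm H n` = product of the primes `< H` of `n`).
Claim for every `H` with `s₀ ≤ H ≤ Z` and every `E` with `E * sm H n ∣ sm Z n`, `E s₁ ≤ y`, `y < E * sm H n`: the
conclusion holds.  (The theorem is `H = Z`, `E = 1`.)  Induction on `H` from `s₀` upwards.
* `H = s₀`: put `Y = y / E ≥ s₁ ≥ 1`, `Y < sm s₀ n ≤ R * sm s₀ n` (`n ≠ 1` has a prime factor, so `R ≥ 1`).  `Idx.dense` (`LehmerCount.Dense`) gives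
  `d' ∣ sm s₀ n`, `d' ≤ Y < R d'`.  `d = E d'`: `d ≤ E Y ≤ y < E (Y + 1) ≤ E R d'`; `sm s₀ d = d'` because
  `E * sm s₀ n` divides the squarefree `sm Z n`, so `E` is coprime to `sm s₀ n`, and `E ∣ n`, so no prime of `E` is `< s₀`
  (`sm_mul`, `sm_eq_one`, `sm_eq_self'`); and `s₁ ≤ Y < R d'`.  First alternative.
* `H + 1 ≤ Z`, `sm (H+1) n = sm H n * (if H ∈ n.primeFactors then H else 1)` (`sm_succ`).  If `H` is not a prime
  factor, nothing changes.  Let `H = p` be one.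
  - If `E p s₁ ≤ y`: apply the claim for `H` to `E' = E p` (`E p * sm p n = E * sm (p+1) n`).
  - If `E p s₁ > y` and `y < E * sm p n`: apply the claim for `H` to the same `E`.
  - If `E p s₁ > y` and `E * sm p n ≤ y`: `d = E * sm p n ≤ y` divides `E * sm (p+1) n ∣ sm Z n`, and `p < R * sm p n`
    (`Idx.prime_le`), so `y < E p s₁ ≤ E R (sm p n) s₁ = R s₁ d`.  Second alternative (`s₀ ≤ p < Z`).
-/

namespace Pool.Agent.Helper6.PW

open Finset Pool.Agent.Helper6.Lehmer Pool.Agent.Helper6.LehmerCount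

private theorem sel_base {n k R : ℕ} (h : Idx n k) (hR : 2 * n.primeFactors.card ≤ R)
    (s₀ s₁ y Z : ℕ) (hs : 1 ≤ s₁) (E : ℕ) (hE : E * sm s₀ n ∣ sm Z n) (h1 : E * s₁ ≤ y)
    (h2 : y < E * sm s₀ n) :
    ∃ d, d ∣ sm Z n ∧ d ≤ y ∧ y < R * d ∧ s₁ < R * sm s₀ d := by
  have hE0 : 0 < E := by
    rcases Nat.eq_zero_or_pos E with h0 | h0
    · subst h0
      omega
    · exact h0
  have hcard : 1 ≤ n.primeFactors.card := by
    rw [Nat.one_le_iff_ne_zero, Ne, Finset.card_eq_zero, Nat.primeFactors_eq_empty]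
    have := h.lehmer.one_lt
    omega
  have hR1 : 1 ≤ R := by omega
  have hY : s₁ ≤ y / E := by
    rw [Nat.le_div_iff_mul_le hE0, mul_comm]
    exact h1
  have hY2 : y / E < R * sm s₀ n := by
    have h3 : y / E < sm s₀ n := Nat.div_lt_of_lt_mul h2
    exact lt_of_lt_of_le h3 (Nat.le_mul_of_pos_left _ hR1)
  obtain ⟨d', hd1, hd2, hd3⟩ := h.dense hR s₀ (y / E) (hs.trans hY) hY2
  have hdvd : E * d' ∣ sm Z n := (Nat.mul_dvd_mul_left E hd1).trans hE
  have hsq : Squarefree (E * sm s₀ n) := (sm_squarefree Z n).squarefree_of_dvd hE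
  have hcop : E.Coprime (sm s₀ n) := Nat.coprime_of_squarefree_mul hsq
  have hsE : sm s₀ E = 1 := by
    apply sm_eq_one
    intro p hp hlt
    have hpp := Nat.prime_of_mem_primeFactors hp
    have hpE := Nat.dvd_of_mem_primeFactors hp
    have hpn : p ∣ n := (hpE.trans (Dvd.intro _ rfl)).trans (hE.trans (sm_dvd Z))
    have hn0 : n ≠ 0 := h.lehmer.squarefree.ne_zero
    have hps : p ∣ sm s₀ n := by
      unfold sm
      apply Finset.dvd_prod_of_mem (fun p => p)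
      rw [mem_filter]
      exact ⟨Nat.mem_primeFactors.2 ⟨hpp, hpn, hn0⟩, hlt⟩
    have h3 : p ∣ 1 := by
      rw [← hcop.gcd_eq_one]
      exact Nat.dvd_gcd hpE hps
    exact hpp.one_lt.ne' (Nat.dvd_one.1 h3)
  have hsd : sm s₀ d' = d' := by
    apply sm_eq_self' ((sm_squarefree s₀ n).squarefree_of_dvd hd1)
    intro p hp
    have hp2 : p ∈ (sm s₀ n).primeFactors :=
      Nat.primeFactors_mono hd1 (sm_pos s₀ n).ne' hp
    rw [primeFactors_sm, mem_filter] at hp2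
    exact hp2.2
  refine ⟨E * d', hdvd, ?_, ?_, ?_⟩
  · calc E * d' ≤ E * (y / E) := Nat.mul_le_mul_left _ hd2
      _ ≤ y := Nat.mul_div_le y E
  · have h3 : y < E * (y / E + 1) := Nat.lt_mul_div_succ y hE0
    calc y < E * (y / E + 1) := h3
      _ ≤ E * (R * d') := Nat.mul_le_mul_left _ hd3
      _ = R * (E * d') := by ring
  · rw [sm_mul (hcop.coprime_dvd_right hd1), hsE, hsd, one_mul]
    omega

theorem sel {n k R : ℕ} (h : Idx n k) (hR : 2 * n.primeFactors.card ≤ R) (s₀ s₁ y Z : ℕ)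
    (hs : 1 ≤ s₁) (hZ : s₀ ≤ Z) (hy : s₁ ≤ y) (hyZ : y < sm Z n) :
    ∃ d, d ∣ sm Z n ∧ d ≤ y ∧ ((y < R * d ∧ s₁ < R * sm s₀ d) ∨
      ∃ p ∈ n.primeFactors, s₀ ≤ p ∧ p < Z ∧ ∃ E, d = E * sm p n ∧ y < R * s₁ * d) := by
  have key : ∀ H, s₀ ≤ H → H ≤ Z → ∀ E, E * sm H n ∣ sm Z n → E * s₁ ≤ y → y < E * sm H n →
      ∃ d, d ∣ sm Z n ∧ d ≤ y ∧ ((y < R * d ∧ s₁ < R * sm s₀ d) ∨
        ∃ p ∈ n.primeFactors, s₀ ≤ p ∧ p < Z ∧ ∃ E, d = E * sm p n ∧ y < R * s₁ * d) := by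
    intro H hH
    induction H, hH using Nat.le_induction with
    | base =>
      intro _ E hE h1 h2
      obtain ⟨d, h3, h4, h5, h6⟩ := sel_base h hR s₀ s₁ y Z hs E hE h1 h2
      exact ⟨d, h3, h4, Or.inl ⟨h5, h6⟩⟩
    | succ H hH ih =>
      intro hHZ E hE h1 h2
      rw [sm_succ] at hE h2
      by_cases hp : H ∈ n.primeFactors
      · rw [if_pos hp] at hE h2
        have e1 : E * (sm H n * H) = E * H * sm H n := by ring
        rcases Nat.lt_or_ge y (E * H * s₁) with h3 | h3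
        · rcases Nat.lt_or_ge y (E * sm H n) with h4 | h4
          · exact ih (by omega) E ((Nat.mul_dvd_mul_left E (Dvd.intro _ rfl)).trans hE) h1 h4
          · refine ⟨E * sm H n, (Nat.mul_dvd_mul_left E (Dvd.intro _ rfl)).trans hE, h4,
              Or.inr ⟨H, hp, hH, by omega, E, rfl, ?_⟩⟩
            have h5 : H ≤ R * sm H n :=
              (h.prime_le hp).le.trans (Nat.mul_le_mul_right _ hR)
            calc y < E * H * s₁ := h3
              _ ≤ E * (R * sm H n) * s₁ := Nat.mul_le_mul_right _ (Nat.mul_le_mul_left _ h5)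
              _ = R * s₁ * (E * sm H n) := by ring
        · exact ih (by omega) (E * H) (by rw [← e1]; exact hE) h3 (by rw [← e1]; exact h2)
      · rw [if_neg hp, mul_one] at hE h2
        exact ih (by omega) E hE h1 h2
  exact key Z hZ le_rfl 1 (by rw [one_mul]) (by rw [one_mul]; exact hy) (by rw [one_mul]; exact hyZ)

end Pool.Agent.Helper6.PW
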