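import Mathlib
import Pool.Agent.Helper6.PW.Sel

/-!
# PW-23 Split: every Lehmer number has a divisor in one of the three classes

`sel` with `R = 2 W`, `y = z` gives `d ∣ sm Z n`, `d ≤ z`.  `p ∤ sm Z n` (`p ≥ Z`), so `sm Z n ∣ n / p` and `d ∣ n / p`,
in particular `d < n`, `d ≥ 1`, `d` squarefree, its primes are `< Z` and `≤ w` in number; `d < k φ(d)`
(`Idx.lt_mul_totient`); `d` is coprime to `k φ(d)`, because `d ∣ n` and `k φ(d) ∣ k φ(n) = n - 1`.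
First alternative: `d ∈ goodC` or `d ∈ excC` according to `Exc T d`.
Second alternative: `d = E * sm q n`, `q` a prime factor of `n`, `s₀ ≤ q`; `α = Nat.log 2 (sm q n)`; `sm q n ∈ Lset k W s₀ (2^α)` by
`sm_mem` (`Helper58.LT.Spacing`; `2 W ≤ s₀ ≤ q`, `s₀ > 0` because `W ≥ ω(n) ≥ 1`), `s₀ ≤ q < 2 ω(n) sm q n ≤ 2 W 2^(α+1)` (`Idx.prime_le`),
`z < 2 W s₁ d`: `d ∈ iniC`.
-/

namespace Pool.Agent.Helper6.PW

open Finset Pool.Agent.Helper6.Lehmer Pool.Agent.Helper6.LehmerCount Pool.Agent.Helper58.LT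

theorem split {n k W w Z s₀ s₁ z p : ℕ} (T : ℕ) (h : Idx n k) (hW : n.primeFactors.card ≤ W)
    (hw : n.primeFactors.card ≤ w) (hp : p ∈ n.primeFactors) (hZp : Z ≤ p) (hs₁ : 1 ≤ s₁)
    (hs₀ : 2 * W ≤ s₀) (hsZ : s₀ ≤ Z) (hsz : s₁ ≤ z) (hz : z < sm Z n) :
    ∃ c, (c ∈ goodC k W Z s₀ s₁ z T ∨ c ∈ excC k W w z T ∨ c ∈ iniC k W s₀ s₁ z) ∧ c ∣ n / p := by
  classical
  have hpp := Nat.prime_of_mem_primeFactors hp
  have hpn := Nat.dvd_of_mem_primeFactors hp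
  have hsq := h.lehmer.squarefree
  have hn1 := h.lehmer.one_lt
  have hn0 : n ≠ 0 := by omega
  have hW1 : 1 ≤ W := by
    have : 0 < n.primeFactors.card := Finset.card_pos.2 ⟨p, hp⟩
    omega
  -- `sm Z n ∣ n / p`
  have hsmdiv : sm Z n ∣ n / p := by
    have hcop : (sm Z n).Coprime p := by
      rw [Nat.coprime_comm, hpp.coprime_iff_not_dvd]
      intro hdv
      have h1 : p ∈ (sm Z n).primeFactors :=
        Nat.mem_primeFactors.2 ⟨hpp, hdv, (sm_pos Z n).ne'⟩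
      rw [primeFactors_sm, mem_filter] at h1
      omega
    have h1 : sm Z n ∣ p * (n / p) := by
      rw [Nat.mul_div_cancel' hpn]; exact sm_dvd Z
    exact hcop.dvd_of_dvd_mul_left h1
  have hdivlt : n / p < n := Nat.div_lt_self (by omega) hpp.one_lt
  have hdiv0 : 0 < n / p := Nat.div_pos (Nat.le_of_dvd (by omega) hpn) hpp.pos
  have hsZ1 : s₁ ≤ z := hsz
  obtain ⟨d, hdsm, hdz, hcase⟩ := sel h (R := 2 * W) (Nat.mul_le_mul_left 2 hW) s₀ s₁ z Z hs₁ hsZ hsz hz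
  have hdnp : d ∣ n / p := hdsm.trans hsmdiv
  have hdn : d ∣ n := hdsm.trans (sm_dvd Z)
  have hd0 : 0 < d := Nat.pos_of_dvd_of_pos hdn (by omega)
  have hdlt : d < n := lt_of_le_of_lt (Nat.le_of_dvd hdiv0 hdnp) hdivlt
  have hdsq : Squarefree d := hsq.squarefree_of_dvd hdn
  have hdpr : ∀ ℓ ∈ d.primeFactors, ℓ < Z := by
    intro ℓ hℓ
    have h1 : ℓ ∈ (sm Z n).primeFactors := Nat.primeFactors_mono hdsm (sm_pos Z n).ne' hℓ
    rw [primeFactors_sm, mem_filter] at h1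
    exact h1.2
  have hdcard : d.primeFactors.card ≤ w :=
    (Finset.card_le_card (Nat.primeFactors_mono hdn hn0)).trans hw
  have hdk := h.lt_mul_totient hdn hdlt
  have hdcop : d.Coprime (k * d.totient) := by
    have h1 : k * d.totient ∣ k * n.totient := Nat.mul_dvd_mul_left k (Nat.totient_dvd_of_dvd hdn)
    have h2 : n.Coprime (k * n.totient) := by
      have h3 := h.eq
      obtain ⟨m, hm⟩ : ∃ m, m = k * n.totient := ⟨_, rfl⟩
      rw [← hm] at h3 ⊢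
      rw [h3]
      simp
    exact Nat.Coprime.coprime_dvd_left hdn (Nat.Coprime.coprime_dvd_right h1 h2)
  rcases hcase with ⟨h1, h2⟩ | ⟨q, hq, hsq0, hqZ, E, hE, h3⟩
  · by_cases hexc : Exc T d
    · refine ⟨d, Or.inr (Or.inl ?_), hdnp⟩
      unfold excC
      refine mem_filter.2 ⟨mem_Icc.2 ⟨hd0, hdz⟩, ?_⟩
      exact ⟨hdsq, hdcard, hdcop, hdk, h1, hexc⟩
    · refine ⟨d, Or.inl ?_, hdnp⟩
      unfold goodC
      refine mem_filter.2 ⟨mem_Icc.2 ⟨hd0, hdz⟩, ?_⟩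
      exact ⟨hdsq, hdpr, hdcop, hdk, h1, h2, hexc⟩
  · refine ⟨d, Or.inr (Or.inr ?_), hdnp⟩
    unfold iniC
    have hsm0 := sm_pos q n
    have hα1 : 2 ^ (Nat.log 2 (sm q n)) ≤ sm q n := Nat.pow_log_le_self 2 hsm0.ne'
    have hα2 : sm q n < 2 ^ (Nat.log 2 (sm q n)).succ := Nat.lt_pow_succ_log_self one_lt_two _
    rw [pow_succ, mul_comm] at hα2
    refine mem_filter.2 ⟨mem_Icc.2 ⟨hd0, hdz⟩, ?_⟩
    refine ⟨hdcop, hdk, h3, E, sm q n, Nat.log 2 (sm q n), hE, ?_, ?_⟩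
    · have h4 := h.prime_le hq
      have h5 : q ≤ 2 * W * sm q n := by
        have h6 : 2 * n.primeFactors.card * sm q n ≤ 2 * W * sm q n :=
          Nat.mul_le_mul_right _ (Nat.mul_le_mul_left 2 hW)
        omega
      have h7 : s₀ ≤ 4 * W * 2 ^ (Nat.log 2 (sm q n)) := by
        have h8 : 2 * W * sm q n ≤ 2 * W * (2 * 2 ^ (Nat.log 2 (sm q n))) :=
          Nat.mul_le_mul_left _ hα2.le
        calc s₀ ≤ q := hsq0
          _ ≤ 2 * W * sm q n := h5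
          _ ≤ 2 * W * (2 * 2 ^ (Nat.log 2 (sm q n))) := h8
          _ = 4 * W * 2 ^ (Nat.log 2 (sm q n)) := by ring
      exact_mod_cast h7
    · apply sm_mem h hW hq (hs₀.trans hsq0) _ _ hα1 hα2
      · have : 0 < s₀ := by omega
        exact_mod_cast this
      · exact_mod_cast hsq0

end Pool.Agent.Helper6.PW
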