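import Mathlib
import Pool.Agent.Helper6.PW.CountP
import Pool.Agent.Helper6.PW.Inj
import Pool.Agent.Helper6.PW.Split
import Pool.Agent.Helper6.PW.QZero

/-!
# PW-24 CntK: the number of `n` of a fixed index in case A

`Dm = X / P^2`.  If `S` is empty the claim is trivial (the right side is `≥ 0`).  Otherwise `k ≥ 2` (`Idx.two_le`) and `k ≤ W + 1`
(`Idx.index_le`).  `split` (with `p > P ≥ Z`) and `inj` with `C = goodC ∪ excC ∪ iniC` give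
`#S ≤ ∑_{goodC} #PD + ∑_{excC} #PD + ∑_{iniC} #PD`.  Always `F = k φ(c) > c ≥ 1`, `c` coprime to `F`.
* `c ∈ goodC` (at most `z` of them): `z < 2 W c`, so `6 H Dm (2W)^2 ≤ z^2 < (2 W c)^2` and `6 H Dm < c^2 ≤ c F`; `Dm < c F`, `#PD ≤ #PS`
  (`PD_card_le_PS`).  `exists_q0` with `g = sm s₀ c` (`primeFactors_sm`, `sm_dvd`), `R = 2W`: `q₀ ∣ c`, `s₁ < 2 W q₀`, `q₀ ≤ s₁ s₀`.
  `countP` with `V = W + 1`: `(c F)^2 ≤ ((W+1) z^2)^2` because `F ≤ (W + 1) c ≤ (W+1) z`.  `H/q₀ ≤ 2 W H/s₁`, `q₀ ≤ s₁ s₀`, monotonicity of `rpow`.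
* `c ∈ excC`: again `Dm < c F` (`H ≥ 1`), `#PD ≤ #PS ≤ P`.
* `c ∈ iniC`: `#PD ≤ P (Dm/(c F) + 1)` (`PD_card_le`), `Dm/(c F) ≤ Dm/c^2 ≤ Dm (2 W s₁)^2/z^2` as `z < 2 W s₁ c`.
-/

namespace Pool.Agent.Helper6.PW

open Finset Pool.Agent.Helper6.Lehmer Pool.Agent.Helper6.LehmerCount

private theorem sum_union3_le {α : Type*} [DecidableEq α] (A B D : Finset α) (f : α → ℕ) :
    ∑ c ∈ A ∪ B ∪ D, f c ≤ ∑ c ∈ A, f c + ∑ c ∈ B, f c + ∑ c ∈ D, f c := by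
  have h1 := sum_union_inter (s₁ := A ∪ B) (s₂ := D) (f := f)
  have h2 := sum_union_inter (s₁ := A) (s₂ := B) (f := f)
  omega

private theorem Dm_lt {k W z c H Dm : ℕ} (_hW : 1 ≤ W)
    (h6 : 6 * H * Dm * (2 * W) ^ 2 ≤ z ^ 2) (hz : z < 2 * W * c) (hcF : c < k * c.totient) :
    6 * H * Dm < c * (k * c.totient) := by
  have h1 : z ^ 2 < (2 * W * c) ^ 2 := Nat.pow_lt_pow_left hz (by norm_num)
  have h2 : 6 * H * Dm * (2 * W) ^ 2 < c ^ 2 * (2 * W) ^ 2 := by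
    calc 6 * H * Dm * (2 * W) ^ 2 ≤ z ^ 2 := h6
      _ < (2 * W * c) ^ 2 := h1
      _ = c ^ 2 * (2 * W) ^ 2 := by ring
  have h3 : 6 * H * Dm < c ^ 2 := lt_of_mul_lt_mul_right h2 (Nat.zero_le _)
  calc 6 * H * Dm < c ^ 2 := h3
    _ = c * c := by ring
    _ ≤ c * (k * c.totient) := Nat.mul_le_mul_left _ hcF.le

private theorem good_bound {L : ℕ} {C : ℝ} (hC : 1 ≤ C)
    (hcP : ∀ k c q₀ V Z T P Dm H : ℕ, 1 ≤ L → Squarefree c →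
      1 ≤ k → k ≤ V → c.Coprime (k * c.totient) → (∀ ℓ ∈ c.primeFactors, ℓ < Z) → ¬ Exc T c →
      T ≤ Z → q₀ ∣ c → 1 ≤ P → 1 ≤ H → 6 * H * Dm ≤ c * (k * c.totient) →
      (c * (k * c.totient)) ^ 2 ≤ (V * Z) ^ L →
      (#(PS c (k * c.totient) P Dm) : ℝ) ≤
        P * (4 / H + C * (((H : ℝ) / q₀) ^ ((1 : ℝ) / 4) + (q₀ : ℝ) * (V * Z) / P) ^ ((1 : ℝ) / 2 ^ L)))
    {k W Z s₀ s₁ z T X P H c : ℕ} (hL : 1 ≤ L) (hW : 1 ≤ W) (hP : 1 ≤ P) (hH : 1 ≤ H)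
    (hTZ : T ≤ Z) (hs₁ : 1 ≤ s₁) (hs₀ : 2 * W ≤ s₀) (hk : 1 ≤ k) (hkW : k ≤ W + 1)
    (h6 : 6 * H * (X / P ^ 2) * (2 * W) ^ 2 ≤ z ^ 2) (hY : ((W + 1) * z ^ 2) ^ 2 ≤ ((W + 1) * Z) ^ L)
    (hc : c ∈ goodC k W Z s₀ s₁ z T) :
    (#(PD c (k * c.totient) P (X / P ^ 2)) : ℝ) ≤
      P * (4 / H + C * ((2 * W * H / s₁ : ℝ) ^ ((1 : ℝ) / 4) +
        (s₁ : ℝ) * s₀ * ((W + 1) * Z) / P) ^ ((1 : ℝ) / 2 ^ L)) := by
  classical
  rw [goodC, mem_filter, mem_Icc] at hc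
  obtain ⟨⟨hc1, hcz⟩, hsq, hprimes, hcop, hcF, hzc, hs, hE⟩ := hc
  have hD := Dm_lt hW h6 hzc hcF
  have hDm : X / P ^ 2 < c * (k * c.totient) := by
    refine lt_of_le_of_lt ?_ hD
    calc X / P ^ 2 = 1 * (X / P ^ 2) := (one_mul _).symm
      _ ≤ 6 * H * (X / P ^ 2) := Nat.mul_le_mul_right _ (by omega)
  obtain ⟨q₀, hq₀, hs₁q, hq₀s⟩ := exists_q0 (g := sm s₀ c) (s₀ := s₀) (s₁ := s₁) (R := 2 * W)
    (by
      intro ℓ hℓ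
      rw [primeFactors_sm, mem_filter] at hℓ
      exact hℓ.2) hs hs₁ (by omega)
  have hq₀c : q₀ ∣ c := hq₀.trans (sm_dvd s₀)
  have hF : k * c.totient ≤ (W + 1) * z :=
    Nat.mul_le_mul hkW ((Nat.totient_le c).trans hcz)
  have hcF2 : (c * (k * c.totient)) ^ 2 ≤ ((W + 1) * Z) ^ L := by
    refine le_trans (Nat.pow_le_pow_left ?_ 2) hY
    calc c * (k * c.totient) ≤ z * ((W + 1) * z) := Nat.mul_le_mul hcz hF
      _ = (W + 1) * z ^ 2 := by ring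
  have h1 := hcP k c q₀ (W + 1) Z T P (X / P ^ 2) H hL hsq hk hkW hcop hprimes hE hTZ hq₀c hP hH hD.le hcF2
  have h2 : (#(PD c (k * c.totient) P (X / P ^ 2)) : ℝ) ≤ #(PS c (k * c.totient) P (X / P ^ 2)) := by
    exact_mod_cast PD_card_le_PS hcop hDm
  refine (h2.trans h1).trans ?_
  have hPR : (0 : ℝ) < P := by exact_mod_cast hP
  have hHR : (0 : ℝ) < H := by exact_mod_cast hH
  have hs₁R : (0 : ℝ) < s₁ := by exact_mod_cast hs₁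
  have hq₀pos : 0 < q₀ := Nat.pos_of_dvd_of_pos hq₀c hc1
  have hq₀R : (0 : ℝ) < q₀ := by exact_mod_cast hq₀pos
  have hs₁q' : (s₁ : ℝ) ≤ 2 * W * q₀ := by exact_mod_cast hs₁q.le
  have hq₀s' : (q₀ : ℝ) ≤ s₁ * s₀ := by exact_mod_cast hq₀s
  have ha : (H : ℝ) / q₀ ≤ 2 * W * H / s₁ := by
    rw [div_le_div_iff₀ hq₀R hs₁R]
    calc (H : ℝ) * s₁ ≤ H * (2 * W * q₀) := mul_le_mul_of_nonneg_left hs₁q' hHR.le
      _ = 2 * W * H * q₀ := by ring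
  have hb : (q₀ : ℝ) * (((W + 1 : ℕ) : ℝ) * Z) / P ≤ (s₁ : ℝ) * s₀ * ((W + 1) * Z) / P := by
    push_cast
    refine div_le_div_of_nonneg_right ?_ hPR.le
    exact mul_le_mul_of_nonneg_right hq₀s' (by positivity)
  refine mul_le_mul_of_nonneg_left ?_ hPR.le
  refine add_le_add le_rfl ?_
  refine mul_le_mul_of_nonneg_left ?_ (by linarith)
  refine Real.rpow_le_rpow (by positivity) ?_ (by positivity)
  refine add_le_add ?_ hb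
  exact Real.rpow_le_rpow (by positivity) ha (by norm_num)

private theorem exc_bound {k W w z T X P H c : ℕ} (hW : 1 ≤ W) (hH : 1 ≤ H)
    (h6 : 6 * H * (X / P ^ 2) * (2 * W) ^ 2 ≤ z ^ 2) (hc : c ∈ excC k W w z T) :
    (#(PD c (k * c.totient) P (X / P ^ 2)) : ℝ) ≤ P := by
  classical
  rw [excC, mem_filter, mem_Icc] at hc
  obtain ⟨⟨hc1, hcz⟩, hsq, hcard, hcop, hcF, hzc, hE⟩ := hc
  have hD := Dm_lt hW h6 hzc hcF
  have hDm : X / P ^ 2 < c * (k * c.totient) := by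
    refine lt_of_le_of_lt ?_ hD
    calc X / P ^ 2 = 1 * (X / P ^ 2) := (one_mul _).symm
      _ ≤ 6 * H * (X / P ^ 2) := Nat.mul_le_mul_right _ (by omega)
  exact_mod_cast (PD_card_le_PS hcop hDm).trans (PS_card_le _ _ _ _)

private theorem ini_bound {k W s₀ s₁ z X P c : ℕ} (hz : 1 ≤ z) (hc : c ∈ iniC k W s₀ s₁ z) :
    (#(PD c (k * c.totient) P (X / P ^ 2)) : ℝ) ≤
      P * (1 + ((X / P ^ 2 : ℕ) : ℝ) * (2 * W * s₁) ^ 2 / (z : ℝ) ^ 2) := by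
  classical
  rw [iniC, mem_filter, mem_Icc] at hc
  obtain ⟨⟨hc1, hcz⟩, hcop, hcF, hzc, -⟩ := hc
  have hFpos : 0 < k * c.totient := lt_of_le_of_lt (Nat.zero_le _) hcF
  have h1 : #(PD c (k * c.totient) P (X / P ^ 2)) ≤ P * (X / P ^ 2 / (c * (k * c.totient)) + 1) :=
    PD_card_le hc1 hFpos hcop
  have h2 : (#(PD c (k * c.totient) P (X / P ^ 2)) : ℝ) ≤
      P * (((X / P ^ 2 / (c * (k * c.totient)) : ℕ) : ℝ) + 1) := by exact_mod_cast h1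
  refine h2.trans ?_
  refine mul_le_mul_of_nonneg_left ?_ (Nat.cast_nonneg _)
  rw [add_comm]
  refine add_le_add le_rfl ?_
  have hcR : (0 : ℝ) < c := by exact_mod_cast hc1
  have hFR : (0 : ℝ) < ((k * c.totient : ℕ) : ℝ) := by exact_mod_cast hFpos
  have hzR : (0 : ℝ) < z := by exact_mod_cast hz
  have h3 : ((X / P ^ 2 / (c * (k * c.totient)) : ℕ) : ℝ) ≤
      ((X / P ^ 2 : ℕ) : ℝ) / ((c : ℝ) * ((k * c.totient : ℕ) : ℝ)) := by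
    have := Nat.cast_div_le (α := ℝ) (m := X / P ^ 2) (n := c * (k * c.totient))
    rwa [Nat.cast_mul c (k * c.totient)] at this
  refine h3.trans ?_
  rw [div_le_div_iff₀ (by positivity) (by positivity), mul_assoc]
  refine mul_le_mul_of_nonneg_left ?_ (Nat.cast_nonneg _)
  have hzc' : (z : ℝ) ≤ 2 * W * s₁ * c := by exact_mod_cast hzc.le
  have hcF' : (c : ℝ) ≤ ((k * c.totient : ℕ) : ℝ) := by exact_mod_cast hcF.le
  calc (z : ℝ) ^ 2 ≤ (2 * W * s₁ * c) ^ 2 := pow_le_pow_left₀ hzR.le hzc' 2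
    _ = (2 * W * s₁) ^ 2 * (c * c) := by ring
    _ ≤ (2 * W * s₁) ^ 2 * (c * ((k * c.totient : ℕ) : ℝ)) := by
        refine mul_le_mul_of_nonneg_left ?_ (by positivity)
        exact mul_le_mul_of_nonneg_left hcF' hcR.le

theorem cntK (L : ℕ) : ∃ C : ℝ, 1 ≤ C ∧ ∀ (k W w Z s₀ s₁ z T X P H : ℕ) (S : Finset ℕ),
    1 ≤ L → 1 ≤ W → 1 ≤ P → 1 ≤ H → Z ≤ P → T ≤ Z → 1 ≤ s₁ → 2 * W ≤ s₀ → s₀ ≤ Z → s₁ ≤ z →
    6 * H * (X / P ^ 2) * (2 * W) ^ 2 ≤ z ^ 2 → ((W + 1) * z ^ 2) ^ 2 ≤ ((W + 1) * Z) ^ L →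
    (∀ n ∈ S, Idx n k ∧ n ≤ X ∧ n.primeFactors.card ≤ W ∧ n.primeFactors.card ≤ w ∧
      (∃ p ∈ n.primeFactors, P < p ∧ p ≤ 2 * P) ∧ z < sm Z n) →
    (#S : ℝ) ≤
      (z : ℝ) * (P * (4 / H + C * ((2 * W * H / s₁ : ℝ) ^ ((1 : ℝ) / 4) +
        (s₁ : ℝ) * s₀ * ((W + 1) * Z) / P) ^ ((1 : ℝ) / 2 ^ L))) +
      P * (#(excC k W w z T) : ℝ) +
      P * (1 + ((X / P ^ 2 : ℕ) : ℝ) * (2 * W * s₁) ^ 2 / (z : ℝ) ^ 2) * (#(iniC k W s₀ s₁ z) : ℝ) := by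
  classical
  obtain ⟨C, hC, hcP⟩ := countP L
  refine ⟨C, hC, ?_⟩
  intro k W w Z s₀ s₁ z T X P H S hL hW hP hH hZP hTZ hs₁ hs₀ hs₀Z hs₁z h6 hY hS
  have hPR : (0 : ℝ) < P := by exact_mod_cast hP
  have hHR : (0 : ℝ) < H := by exact_mod_cast hH
  have hs₁R : (0 : ℝ) < s₁ := by exact_mod_cast hs₁
  have hz1 : 1 ≤ z := hs₁.trans hs₁z
  have hzR : (0 : ℝ) < z := by exact_mod_cast hz1
  have hC0 : 0 ≤ C := by linarith
  set B : ℝ := P * (4 / H + C * ((2 * W * H / s₁ : ℝ) ^ ((1 : ℝ) / 4) +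
        (s₁ : ℝ) * s₀ * ((W + 1) * Z) / P) ^ ((1 : ℝ) / 2 ^ L)) with hB
  have hB0 : 0 ≤ B := by positivity
  have hI0 : 0 ≤ (P : ℝ) * (1 + ((X / P ^ 2 : ℕ) : ℝ) * (2 * W * s₁) ^ 2 / (z : ℝ) ^ 2) := by positivity
  rcases S.eq_empty_or_nonempty with rfl | ⟨n₀, hn₀⟩
  · rw [card_empty, Nat.cast_zero]
    positivity
  obtain ⟨hidx₀, -, hcard₀, -⟩ := hS n₀ hn₀
  have hk2 : 2 ≤ k := hidx₀.two_le
  have hkW : k ≤ W + 1 := hidx₀.index_le.trans (by omega)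
  have hmain : #S ≤ ∑ c ∈ goodC k W Z s₀ s₁ z T ∪ excC k W w z T ∪ iniC k W s₀ s₁ z,
      #(PD c (k * c.totient) P (X / P ^ 2)) := by
    refine inj hP fun n hn => ?_
    obtain ⟨hidx, hnX, hcW, hcw, ⟨p, hp, hPp, hp2⟩, hz⟩ := hS n hn
    refine ⟨hidx, hnX, p, hp, hPp, hp2, ?_⟩
    obtain ⟨c, hc, hcn⟩ := split T hidx hcW hcw hp (hZP.trans hPp.le) hs₁ hs₀ hs₀Z hs₁z hz
    refine ⟨c, ?_, hcn⟩
    rw [mem_union, mem_union]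
    tauto
  have hmain2 := hmain.trans (sum_union3_le _ _ _ _)
  have hmain3 : (#S : ℝ) ≤ ∑ c ∈ goodC k W Z s₀ s₁ z T, (#(PD c (k * c.totient) P (X / P ^ 2)) : ℝ) +
      ∑ c ∈ excC k W w z T, (#(PD c (k * c.totient) P (X / P ^ 2)) : ℝ) +
      ∑ c ∈ iniC k W s₀ s₁ z, (#(PD c (k * c.totient) P (X / P ^ 2)) : ℝ) := by exact_mod_cast hmain2
  refine hmain3.trans (add_le_add (add_le_add ?_ ?_) ?_)
  · calc _ ≤ ∑ _c ∈ goodC k W Z s₀ s₁ z T, B := sum_le_sum fun c hc =>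
          good_bound hC hcP hL hW hP hH hTZ hs₁ hs₀ (by omega) hkW h6 hY hc
      _ = (#(goodC k W Z s₀ s₁ z T) : ℝ) * B := by rw [sum_const, nsmul_eq_mul]
      _ ≤ z * B := by
          refine mul_le_mul_of_nonneg_right ?_ hB0
          have h1 : #(goodC k W Z s₀ s₁ z T) ≤ z := by
            have h2 : goodC k W Z s₀ s₁ z T ⊆ Icc 1 z := by
              unfold goodC
              exact filter_subset _ _
            have h3 := card_le_card h2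
            rwa [Nat.card_Icc, Nat.add_sub_cancel] at h3
          exact_mod_cast h1
  · calc _ ≤ ∑ _c ∈ excC k W w z T, (P : ℝ) := sum_le_sum fun c hc => exc_bound hW hH h6 hc
      _ = P * (#(excC k W w z T) : ℝ) := by rw [sum_const, nsmul_eq_mul, mul_comm]
  · calc _ ≤ ∑ _c ∈ iniC k W s₀ s₁ z,
          ((P : ℝ) * (1 + ((X / P ^ 2 : ℕ) : ℝ) * (2 * W * s₁) ^ 2 / (z : ℝ) ^ 2)) :=
          sum_le_sum fun c hc => ini_bound hz1 hc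
      _ = _ := by rw [sum_const, nsmul_eq_mul, mul_comm]

end Pool.Agent.Helper6.PW
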