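import Mathlib
import Pool.Agent.Helper6.PW.Defs

/-!
# PW-18 InitCnt: the number of multiples of initial segments

`c ∈ iniC k W s₀ s₁ (2^ζ)`: `c = E m`, `m ∈ Lset k W s₀ (2^α)`, so `2^α ≤ m ≤ c ≤ 2^ζ`, `α ≤ ζ`, `1 ≤ E ≤ 2^ζ/2^α = 2^(ζ-α)`.
So the number is at most `∑_{α ≤ ζ} 2^(ζ-α) #(Lset k W s₀ (2^α))` over the `α` with `s₀ ≤ 4 W 2^α`, and
`card_Lset` (`Helper58.LT.Spacing`) gives `#Lset ≤ 24 W^2 2^α / √s₀`.
-/

namespace Pool.Agent.Helper6.PW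

open Finset Pool.Agent.Helper6.Lehmer Pool.Agent.Helper6.LehmerCount Pool.Agent.Helper58.LT

theorem iniC_card (k W s₀ s₁ ζ : ℕ) (hW : 1 ≤ W) (hs₀ : 1 ≤ s₀) :
    (#(iniC k W s₀ s₁ (2 ^ ζ)) : ℝ) ≤ ((ζ : ℝ) + 1) * (24 * (W : ℝ) ^ 2 * 2 ^ ζ / Real.sqrt s₀) := by
  classical
  set A : Finset ℕ := (range (ζ + 1)).filter (fun α => (s₀ : ℝ) ≤ 4 * W * (2 : ℝ) ^ α) with hA
  have hsub : iniC k W s₀ s₁ (2 ^ ζ) ⊆ A.biUnion (fun α =>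
      ((Icc 1 (2 ^ (ζ - α))) ×ˢ Lset k W (s₀ : ℝ) (2 ^ α)).image (fun x => x.1 * x.2)) := by
    intro c hc
    unfold iniC at hc
    rw [mem_filter, mem_Icc] at hc
    obtain ⟨⟨hc1, hc2⟩, -, -, -, E, m, α, rfl, hα, hm⟩ := hc
    have hm' := hm
    unfold Lset at hm'
    rw [mem_filter, mem_Ico] at hm'
    obtain ⟨⟨hm1, hm2⟩, -⟩ := hm'
    have hE : 1 ≤ E := by
      rcases Nat.eq_zero_or_pos E with h | h
      · subst h; omega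
      · exact h
    have h1 : E * 2 ^ α ≤ 2 ^ ζ := (Nat.mul_le_mul_left E hm1).trans hc2
    have h2 : 2 ^ α ≤ 2 ^ ζ := (Nat.le_mul_of_pos_left _ hE).trans h1
    have h3 : α ≤ ζ := (Nat.pow_le_pow_iff_right (by norm_num)).1 h2
    have h4 : E ≤ 2 ^ (ζ - α) := by
      have h5 : (2 : ℕ) ^ ζ = 2 ^ (ζ - α) * 2 ^ α := by
        rw [← pow_add]
        congr 1
        omega
      rw [h5] at h1
      exact Nat.le_of_mul_le_mul_right h1 (by positivity)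
    rw [mem_biUnion]
    refine ⟨α, ?_, ?_⟩
    · rw [hA, mem_filter, mem_range]
      exact ⟨by omega, hα⟩
    · rw [mem_image]
      exact ⟨(E, m), mem_product.2 ⟨mem_Icc.2 ⟨hE, h4⟩, hm⟩, rfl⟩
  have hs : (1 : ℝ) ≤ s₀ := by exact_mod_cast hs₀
  have hsq : 0 < Real.sqrt s₀ := Real.sqrt_pos.2 (by linarith)
  have h1 : (#(iniC k W s₀ s₁ (2 ^ ζ)) : ℝ) ≤
      ∑ α ∈ A, (2 : ℝ) ^ (ζ - α) * (#(Lset k W (s₀ : ℝ) (2 ^ α)) : ℝ) := by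
    have h2 : #(iniC k W s₀ s₁ (2 ^ ζ)) ≤
        ∑ α ∈ A, 2 ^ (ζ - α) * #(Lset k W (s₀ : ℝ) (2 ^ α)) := by
      refine (card_le_card hsub).trans (card_biUnion_le.trans (sum_le_sum fun α _ => ?_))
      refine card_image_le.trans ?_
      rw [card_product, Nat.card_Icc]
      simp
    calc (#(iniC k W s₀ s₁ (2 ^ ζ)) : ℝ) ≤
        ((∑ α ∈ A, 2 ^ (ζ - α) * #(Lset k W (s₀ : ℝ) (2 ^ α)) : ℕ) : ℝ) := by exact_mod_cast h2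
      _ = _ := by push_cast; rfl
  refine h1.trans ?_
  have h3 : ∀ α ∈ A, (2 : ℝ) ^ (ζ - α) * (#(Lset k W (s₀ : ℝ) (2 ^ α)) : ℝ) ≤
      24 * (W : ℝ) ^ 2 * 2 ^ ζ / Real.sqrt s₀ := by
    intro α hα
    rw [hA, mem_filter, mem_range] at hα
    have h4 := card_Lset k W (2 ^ α) (s₀ : ℝ) hW hs (by push_cast; exact hα.2)
    push_cast at h4
    calc (2 : ℝ) ^ (ζ - α) * (#(Lset k W (s₀ : ℝ) (2 ^ α)) : ℝ)
        ≤ (2 : ℝ) ^ (ζ - α) * (24 * (W : ℝ) ^ 2 * 2 ^ α / Real.sqrt s₀) :=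
          mul_le_mul_of_nonneg_left h4 (by positivity)
      _ = 24 * (W : ℝ) ^ 2 * (2 ^ (ζ - α) * 2 ^ α) / Real.sqrt s₀ := by ring
      _ = _ := by
        rw [← pow_add]
        congr 3
        omega
  calc ∑ α ∈ A, (2 : ℝ) ^ (ζ - α) * (#(Lset k W (s₀ : ℝ) (2 ^ α)) : ℝ)
      ≤ ∑ α ∈ A, 24 * (W : ℝ) ^ 2 * 2 ^ ζ / Real.sqrt s₀ := sum_le_sum h3
    _ = (#A : ℝ) * (24 * (W : ℝ) ^ 2 * 2 ^ ζ / Real.sqrt s₀) := by
        rw [sum_const, nsmul_eq_mul]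
    _ ≤ _ := by
        refine mul_le_mul_of_nonneg_right ?_ (by positivity)
        have h5 : #A ≤ ζ + 1 := (card_filter_le _ _).trans (by rw [card_range])
        exact_mod_cast h5

end Pool.Agent.Helper6.PW
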