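import Mathlib

/-!
# PW-25 NumA: the numerical bound for the good divisors

`Λ = 2^(L+4) = 16 * 2^L`.  `2^(ζ+b) ≤ 2^((l+1)/2 + τ)`.  `4/H ≤ 192 (l+1)^2 2^(-2τ)`.  `A₁ = (2 (l+1) H / 2^(Λτ))^(1/4)
≤ (2(l+1))^(1/4) 2^((2-Λ)τ/4)` (`H ≤ 2^(2τ)`), `A₂ = 2^(Λτ) 2^(8Λτ) (l+2) 2^(b-32Λτ) / 2^b = (l+2) 2^(-23Λτ)` (`32 Λ τ ≤ b`), so
`A₁ + A₂ ≤ 4 (l+2) 2^(-(Λ-2)τ/4)`, and with `(Λ-2)/(4 * 2^L) = 4 - 2/(4 * 2^L) ≥ 7/2` the power `1/2^L` is at most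
`4 (l+2) 2^(-7τ/2) ≤ 4 (l+2) 2^(-2τ)`.  So the left side is at most
`(l+2) 2^((l+1)/2+τ) (192 + 4 C) (l+2)^2 2^(-2τ) ≤ 2 (192 + 4C)(l+2)^3 2^(l/2 - τ)`, and this is `≤ 2^(l/2 - τ/2)/3` as soon as
`6 (192 + 4 C) (l+2)^3 ≤ 2^(τ/2)`, which follows from `τ ≥ κ l` for large `l`.
-/

namespace Pool.Agent.Helper6.PW

theorem numA (L : ℕ) (C κ : ℝ) (hC : 1 ≤ C) (hκ : 0 < κ) : ∃ l₀ : ℕ, ∀ l b τ ζ H : ℕ, l₀ ≤ l →
    κ * l ≤ τ → 32 * 2 ^ (L + 4) * τ ≤ b → 2 * (ζ + b) ≤ l + 1 + 2 * τ →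
    2 ^ (2 * τ) ≤ 48 * (l + 1) ^ 2 * H → H ≤ 2 ^ (2 * τ) →
    ((l : ℝ) + 2) * ((2 : ℝ) ^ ζ * ((2 : ℝ) ^ b * (4 / H + C *
      ((2 * ((l : ℝ) + 1) * H / 2 ^ (2 ^ (L + 4) * τ)) ^ ((1 : ℝ) / 4) +
        (2 : ℝ) ^ (2 ^ (L + 4) * τ) * 2 ^ (8 * 2 ^ (L + 4) * τ) *
          (((l : ℝ) + 2) * 2 ^ (b - 32 * 2 ^ (L + 4) * τ)) / 2 ^ b) ^ ((1 : ℝ) / 2 ^ L)))) ≤
      (2 : ℝ) ^ ((l : ℝ) / 2 - (τ : ℝ) / 2) / 3 := by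
  have hr : 1 < (2 : ℝ) ^ (κ / 2) := Real.one_lt_rpow (by norm_num) (by positivity)
  have hr0 : 0 < (2 : ℝ) ^ (κ / 2) := by positivity
  have hK : 0 < 27 * (6 * (192 + 4 * C)) := by positivity
  have ht := tendsto_pow_const_mul_const_pow_of_abs_lt_one 3 (r := ((2 : ℝ) ^ (κ / 2))⁻¹)
    (by rw [abs_inv, abs_of_pos hr0]; exact inv_lt_one_of_one_lt₀ hr)
  have hev := ht.eventually_lt_const (show (0 : ℝ) < 1 / (27 * (6 * (192 + 4 * C))) by positivity)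
  obtain ⟨l₁, hl₁⟩ := Filter.eventually_atTop.1 hev
  refine ⟨max l₁ 1, fun l b τ ζ H hl hκl hb hζ hH1 hH2 => ?_⟩
  have hl1 : 1 ≤ l := le_trans (le_max_right _ _) hl
  have hl1' : (1 : ℝ) ≤ l := by exact_mod_cast hl1
  have hl2 := hl₁ l (le_trans (le_max_left _ _) hl)
  -- the final inequality
  have hfin : 6 * (192 + 4 * C) * ((l : ℝ) + 2) ^ 3 ≤ (2 : ℝ) ^ ((τ : ℝ) / 2) := by
    have h1 : ((2 : ℝ) ^ (κ / 2)) ^ l ≤ (2 : ℝ) ^ ((τ : ℝ) / 2) := by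
      rw [← Real.rpow_natCast, ← Real.rpow_mul (by norm_num)]
      apply Real.rpow_le_rpow_of_exponent_le (by norm_num)
      have : κ / 2 * (l : ℝ) = κ * l / 2 := by ring
      rw [this]
      linarith
    refine le_trans ?_ h1
    have h2 : ((l : ℝ) + 2) ^ 3 ≤ 27 * (l : ℝ) ^ 3 := by
      have : (l : ℝ) + 2 ≤ 3 * l := by linarith
      calc ((l : ℝ) + 2) ^ 3 ≤ (3 * (l : ℝ)) ^ 3 := by gcongr
        _ = 27 * (l : ℝ) ^ 3 := by ring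
    have h3 : (l : ℝ) ^ 3 * (27 * (6 * (192 + 4 * C))) < ((2 : ℝ) ^ (κ / 2)) ^ l := by
      rw [inv_pow, ← div_eq_mul_inv, div_lt_div_iff₀ (by positivity) hK] at hl2
      linarith
    calc 6 * (192 + 4 * C) * ((l : ℝ) + 2) ^ 3 ≤ 6 * (192 + 4 * C) * (27 * (l : ℝ) ^ 3) := by
          gcongr
      _ = (l : ℝ) ^ 3 * (27 * (6 * (192 + 4 * C))) := by ring
      _ ≤ _ := h3.le
  have hM : (1 : ℝ) ≤ 2 ^ L := one_le_pow₀ (by norm_num)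
  have hM0 : (0 : ℝ) < 2 ^ L := by positivity
  have hτ0 : (0 : ℝ) ≤ τ := Nat.cast_nonneg τ
  have hLam : ((2 ^ (L + 4) : ℕ) : ℝ) = 16 * 2 ^ L := by push_cast; ring
  -- powers
  have hp1 : ∀ k : ℕ, (2 : ℝ) ^ k = (2 : ℝ) ^ (k : ℝ) := fun k => (Real.rpow_natCast 2 k).symm
  have hH0 : (0 : ℝ) < H := by
    rcases Nat.eq_zero_or_pos H with h | h
    · subst h
      simp at hH1
    · exact_mod_cast h
  have hH1' : (2 : ℝ) ^ (2 * (τ : ℝ)) ≤ 48 * ((l : ℝ) + 1) ^ 2 * H := by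
    have : ((2 ^ (2 * τ) : ℕ) : ℝ) ≤ ((48 * (l + 1) ^ 2 * H : ℕ) : ℝ) := by exact_mod_cast hH1
    push_cast at this
    rw [hp1] at this
    push_cast at this
    exact this
  have hH2' : (H : ℝ) ≤ (2 : ℝ) ^ (2 * (τ : ℝ)) := by
    have : ((H : ℕ) : ℝ) ≤ ((2 ^ (2 * τ) : ℕ) : ℝ) := by exact_mod_cast hH2
    push_cast at this
    rw [hp1] at this
    push_cast at this
    exact this
  have e1 : 4 / (H : ℝ) ≤ 192 * ((l : ℝ) + 1) ^ 2 * (2 : ℝ) ^ (-(2 * (τ : ℝ))) := by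
    rw [Real.rpow_neg (by norm_num), ← div_eq_mul_inv, div_le_div_iff₀ hH0 (by positivity)]
    nlinarith
  have e2 : (2 * ((l : ℝ) + 1) * H / 2 ^ (2 ^ (L + 4) * τ)) ^ ((1 : ℝ) / 4) ≤
      2 * ((l : ℝ) + 2) * (2 : ℝ) ^ (-((16 * 2 ^ L - 2) * (τ : ℝ) / 4)) := by
    have h1 : 2 * ((l : ℝ) + 1) * H / 2 ^ (2 ^ (L + 4) * τ) ≤
        (2 * ((l : ℝ) + 2)) * (2 : ℝ) ^ (-((16 * 2 ^ L - 2) * (τ : ℝ))) := by
      rw [hp1, div_eq_mul_inv, ← Real.rpow_neg (by norm_num)]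
      calc 2 * ((l : ℝ) + 1) * H * (2 : ℝ) ^ (-((2 ^ (L + 4) * τ : ℕ) : ℝ))
          ≤ 2 * ((l : ℝ) + 2) * (2 : ℝ) ^ (2 * (τ : ℝ)) * (2 : ℝ) ^ (-((2 ^ (L + 4) * τ : ℕ) : ℝ)) := by
            gcongr
            linarith
        _ = (2 * ((l : ℝ) + 2)) * (2 : ℝ) ^ (-((16 * 2 ^ L - 2) * (τ : ℝ))) := by
            rw [mul_assoc, ← Real.rpow_add (by norm_num)]
            congr 2
            rw [Nat.cast_mul, hLam]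
            ring
    calc (2 * ((l : ℝ) + 1) * H / 2 ^ (2 ^ (L + 4) * τ)) ^ ((1 : ℝ) / 4)
        ≤ ((2 * ((l : ℝ) + 2)) * (2 : ℝ) ^ (-((16 * 2 ^ L - 2) * (τ : ℝ)))) ^ ((1 : ℝ) / 4) :=
          Real.rpow_le_rpow (by positivity) h1 (by norm_num)
      _ = (2 * ((l : ℝ) + 2)) ^ ((1 : ℝ) / 4) *
          ((2 : ℝ) ^ (-((16 * 2 ^ L - 2) * (τ : ℝ)))) ^ ((1 : ℝ) / 4) :=
          Real.mul_rpow (by positivity) (by positivity)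
      _ ≤ (2 * ((l : ℝ) + 2)) * (2 : ℝ) ^ (-((16 * 2 ^ L - 2) * (τ : ℝ) / 4)) := by
          have h2 : (2 * ((l : ℝ) + 2)) ^ ((1 : ℝ) / 4) ≤ (2 * ((l : ℝ) + 2)) := by
            conv_rhs => rw [← Real.rpow_one (2 * ((l : ℝ) + 2))]
            exact Real.rpow_le_rpow_of_exponent_le (by linarith) (by norm_num)
          have h3 : ((2 : ℝ) ^ (-((16 * 2 ^ L - 2) * (τ : ℝ)))) ^ ((1 : ℝ) / 4) =
              (2 : ℝ) ^ (-((16 * 2 ^ L - 2) * (τ : ℝ) / 4)) := by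
            rw [← Real.rpow_mul (by norm_num)]
            congr 1
            ring
          rw [h3]
          gcongr
  have e3 : (2 : ℝ) ^ (2 ^ (L + 4) * τ) * 2 ^ (8 * 2 ^ (L + 4) * τ) *
          (((l : ℝ) + 2) * 2 ^ (b - 32 * 2 ^ (L + 4) * τ)) / 2 ^ b ≤
      2 * ((l : ℝ) + 2) * (2 : ℝ) ^ (-((16 * 2 ^ L - 2) * (τ : ℝ) / 4)) := by
    have h1 : (2 : ℝ) ^ (2 ^ (L + 4) * τ) * 2 ^ (8 * 2 ^ (L + 4) * τ) *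
          (((l : ℝ) + 2) * 2 ^ (b - 32 * 2 ^ (L + 4) * τ)) / 2 ^ b =
        ((l : ℝ) + 2) * (2 : ℝ) ^ (-(23 * 16 * 2 ^ L * (τ : ℝ))) := by
      rw [hp1, hp1, hp1, hp1, div_eq_mul_inv, ← Real.rpow_neg (by norm_num), Nat.cast_sub hb]
      rw [show ∀ a b c d e : ℝ, a * b * (c * d) * e = c * (a * b * d * e) by intros; ring]
      rw [← Real.rpow_add (by norm_num), ← Real.rpow_add (by norm_num),
        ← Real.rpow_add (by norm_num)]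
      congr 2
      rw [Nat.cast_mul, Nat.cast_mul, Nat.cast_mul, Nat.cast_mul, Nat.cast_mul, hLam]
      push_cast
      ring
    rw [h1]
    have h2 : (2 : ℝ) ^ (-(23 * 16 * 2 ^ L * (τ : ℝ))) ≤
        (2 : ℝ) ^ (-((16 * 2 ^ L - 2) * (τ : ℝ) / 4)) := by
      apply Real.rpow_le_rpow_of_exponent_le (by norm_num)
      have : (16 * 2 ^ L - 2) * (τ : ℝ) / 4 ≤ 23 * 16 * 2 ^ L * (τ : ℝ) := by
        have h3 : (16 * (2 : ℝ) ^ L - 2) / 4 ≤ 23 * 16 * 2 ^ L := by linarith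
        calc (16 * 2 ^ L - 2) * (τ : ℝ) / 4 = (16 * 2 ^ L - 2) / 4 * (τ : ℝ) := by ring
          _ ≤ 23 * 16 * 2 ^ L * (τ : ℝ) := by gcongr
      linarith
    have h4 : (0 : ℝ) < (2 : ℝ) ^ (-((16 * 2 ^ L - 2) * (τ : ℝ) / 4)) := by positivity
    calc ((l : ℝ) + 2) * (2 : ℝ) ^ (-(23 * 16 * 2 ^ L * (τ : ℝ)))
        ≤ ((l : ℝ) + 2) * (2 : ℝ) ^ (-((16 * 2 ^ L - 2) * (τ : ℝ) / 4)) := by gcongr
      _ ≤ 2 * ((l : ℝ) + 2) * (2 : ℝ) ^ (-((16 * 2 ^ L - 2) * (τ : ℝ) / 4)) := by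
          nlinarith
  have e4 : ((2 * ((l : ℝ) + 1) * H / 2 ^ (2 ^ (L + 4) * τ)) ^ ((1 : ℝ) / 4) +
        (2 : ℝ) ^ (2 ^ (L + 4) * τ) * 2 ^ (8 * 2 ^ (L + 4) * τ) *
          (((l : ℝ) + 2) * 2 ^ (b - 32 * 2 ^ (L + 4) * τ)) / 2 ^ b) ^ ((1 : ℝ) / 2 ^ L) ≤
      4 * ((l : ℝ) + 2) * (2 : ℝ) ^ (-(2 * (τ : ℝ))) := by
    calc _ ≤ (4 * ((l : ℝ) + 2) * (2 : ℝ) ^ (-((16 * 2 ^ L - 2) * (τ : ℝ) / 4))) ^
          ((1 : ℝ) / 2 ^ L) := by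
          refine Real.rpow_le_rpow (by positivity) ?_ (by positivity)
          linarith
      _ = (4 * ((l : ℝ) + 2)) ^ ((1 : ℝ) / 2 ^ L) *
          ((2 : ℝ) ^ (-((16 * 2 ^ L - 2) * (τ : ℝ) / 4))) ^ ((1 : ℝ) / 2 ^ L) :=
          Real.mul_rpow (by positivity) (by positivity)
      _ ≤ 4 * ((l : ℝ) + 2) * (2 : ℝ) ^ (-(2 * (τ : ℝ))) := by
          have h1 : (4 * ((l : ℝ) + 2)) ^ ((1 : ℝ) / 2 ^ L) ≤ 4 * ((l : ℝ) + 2) := by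
            conv_rhs => rw [← Real.rpow_one (4 * ((l : ℝ) + 2))]
            refine Real.rpow_le_rpow_of_exponent_le (by linarith) ?_
            rw [div_le_one hM0]
            exact hM
          have h2 : ((2 : ℝ) ^ (-((16 * 2 ^ L - 2) * (τ : ℝ) / 4))) ^ ((1 : ℝ) / 2 ^ L) ≤
              (2 : ℝ) ^ (-(2 * (τ : ℝ))) := by
            rw [← Real.rpow_mul (by norm_num)]
            apply Real.rpow_le_rpow_of_exponent_le (by norm_num)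
            have h3 : -((16 * 2 ^ L - 2) * (τ : ℝ) / 4) * (1 / 2 ^ L) =
                -((4 - 1 / (2 * 2 ^ L)) * (τ : ℝ)) := by
              field_simp
              ring
            rw [h3]
            have h4 : (1 : ℝ) / (2 * 2 ^ L) ≤ 1 := by
              rw [div_le_one (by positivity)]
              linarith
            have h5 : 2 * (τ : ℝ) ≤ (4 - 1 / (2 * 2 ^ L)) * (τ : ℝ) := by
              gcongr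
              linarith
            linarith
          gcongr
  have e5 : 4 / (H : ℝ) + C * ((2 * ((l : ℝ) + 1) * H / 2 ^ (2 ^ (L + 4) * τ)) ^ ((1 : ℝ) / 4) +
        (2 : ℝ) ^ (2 ^ (L + 4) * τ) * 2 ^ (8 * 2 ^ (L + 4) * τ) *
          (((l : ℝ) + 2) * 2 ^ (b - 32 * 2 ^ (L + 4) * τ)) / 2 ^ b) ^ ((1 : ℝ) / 2 ^ L) ≤
      (192 + 4 * C) * ((l : ℝ) + 2) ^ 2 * (2 : ℝ) ^ (-(2 * (τ : ℝ))) := by
    have h0 : (0 : ℝ) < (2 : ℝ) ^ (-(2 * (τ : ℝ))) := by positivity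
    have h1 : 192 * ((l : ℝ) + 1) ^ 2 + C * (4 * ((l : ℝ) + 2)) ≤
        (192 + 4 * C) * ((l : ℝ) + 2) ^ 2 := by
      have : ((l : ℝ) + 1) ^ 2 ≤ ((l : ℝ) + 2) ^ 2 := by gcongr; linarith
      have h2 : ((l : ℝ) + 2) ≤ ((l : ℝ) + 2) ^ 2 := by nlinarith
      nlinarith
    calc _ ≤ 192 * ((l : ℝ) + 1) ^ 2 * (2 : ℝ) ^ (-(2 * (τ : ℝ))) +
          C * (4 * ((l : ℝ) + 2) * (2 : ℝ) ^ (-(2 * (τ : ℝ)))) := by
          have : 0 ≤ C := by linarith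
          gcongr
      _ = (192 * ((l : ℝ) + 1) ^ 2 + C * (4 * ((l : ℝ) + 2))) * (2 : ℝ) ^ (-(2 * (τ : ℝ))) := by
          ring
      _ ≤ _ := by gcongr
  have e6 : (2 : ℝ) ^ ζ * (2 : ℝ) ^ b ≤ 2 * (2 : ℝ) ^ ((l : ℝ) / 2 + τ) := by
    rw [← pow_add, hp1]
    have h1 : (2 : ℝ) * (2 : ℝ) ^ ((l : ℝ) / 2 + τ) = (2 : ℝ) ^ (1 + ((l : ℝ) / 2 + τ)) := by
      rw [Real.rpow_add (by norm_num) 1, Real.rpow_one]
    rw [h1]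
    apply Real.rpow_le_rpow_of_exponent_le (by norm_num)
    have h2 : ((2 * (ζ + b) : ℕ) : ℝ) ≤ ((l + 1 + 2 * τ : ℕ) : ℝ) := by exact_mod_cast hζ
    push_cast at h2 ⊢
    linarith
  have e7 : (2 : ℝ) ^ ((l : ℝ) / 2 + τ) * (2 : ℝ) ^ (-(2 * (τ : ℝ))) =
      (2 : ℝ) ^ ((l : ℝ) / 2 - τ) := by
    rw [← Real.rpow_add (by norm_num)]
    congr 1
    ring
  have e8 : (2 : ℝ) ^ ((τ : ℝ) / 2) * (2 : ℝ) ^ ((l : ℝ) / 2 - τ) =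
      (2 : ℝ) ^ ((l : ℝ) / 2 - (τ : ℝ) / 2) := by
    rw [← Real.rpow_add (by norm_num)]
    congr 1
    ring
  have hl0 : (0 : ℝ) ≤ (l : ℝ) + 2 := by positivity
  have hX : (0 : ℝ) < (2 : ℝ) ^ ((l : ℝ) / 2 - τ) := by positivity
  calc _ = ((l : ℝ) + 2) * (((2 : ℝ) ^ ζ * (2 : ℝ) ^ b) * (4 / H + C *
      ((2 * ((l : ℝ) + 1) * H / 2 ^ (2 ^ (L + 4) * τ)) ^ ((1 : ℝ) / 4) +
        (2 : ℝ) ^ (2 ^ (L + 4) * τ) * 2 ^ (8 * 2 ^ (L + 4) * τ) *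
          (((l : ℝ) + 2) * 2 ^ (b - 32 * 2 ^ (L + 4) * τ)) / 2 ^ b) ^ ((1 : ℝ) / 2 ^ L))) := by
        ring
    _ ≤ ((l : ℝ) + 2) * ((2 * (2 : ℝ) ^ ((l : ℝ) / 2 + τ)) *
        ((192 + 4 * C) * ((l : ℝ) + 2) ^ 2 * (2 : ℝ) ^ (-(2 * (τ : ℝ))))) := by
        have h0 : 0 ≤ 4 / (H : ℝ) + C *
      ((2 * ((l : ℝ) + 1) * H / 2 ^ (2 ^ (L + 4) * τ)) ^ ((1 : ℝ) / 4) +
        (2 : ℝ) ^ (2 ^ (L + 4) * τ) * 2 ^ (8 * 2 ^ (L + 4) * τ) *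
          (((l : ℝ) + 2) * 2 ^ (b - 32 * 2 ^ (L + 4) * τ)) / 2 ^ b) ^ ((1 : ℝ) / 2 ^ L) := by
          have : 0 ≤ C := by linarith
          positivity
        refine mul_le_mul_of_nonneg_left ?_ hl0
        exact mul_le_mul e6 e5 h0 (by positivity)
    _ = (6 * (192 + 4 * C) * ((l : ℝ) + 2) ^ 3) *
        ((2 : ℝ) ^ ((l : ℝ) / 2 + τ) * (2 : ℝ) ^ (-(2 * (τ : ℝ)))) / 3 := by
        ring
    _ = (6 * (192 + 4 * C) * ((l : ℝ) + 2) ^ 3) * (2 : ℝ) ^ ((l : ℝ) / 2 - τ) / 3 := by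
        rw [e7]
    _ ≤ (2 : ℝ) ^ ((τ : ℝ) / 2) * (2 : ℝ) ^ ((l : ℝ) / 2 - τ) / 3 := by
        gcongr
    _ = _ := by rw [e8]

end Pool.Agent.Helper6.PW
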