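import Mathlib

/-!
# PW-26 NumE: the numerical bound for the exceptional divisors

`B = max 1 (24/κ)`; `exp (4 (1 + ζ log 2)/B) ≤ exp (4 (1 + l)/B) ≤ 2^(6 (1+l)/B) ≤ 2^(12 l / B) ≤ 2^(κ l/2) ≤ 2^(τ/2)` (`1/log 2 ≤ 3/2`);
`κ₁` with `κ₁ log B ≤ (κ/2) log 2`: `B^w ≤ B^(κ₁ l) ≤ 2^(κ l/2) ≤ 2^(τ/2)`.
`2^(b/8) / √(2^(b/2))` (natural divisions) `≤ 2^(b/8 - b/4 + 1/4) = 2^(-b/8+1/4)`; `1/2^(b/8) ≤ 2^(-b/8+1)`; `b/8 ≥ 128 τ`;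
`2^(ζ+b) ≤ 2^((l+1)/2+τ)`.  So the left side is at most
`(l+2) 2^((l+1)/2+τ) (2^(-128τ + 1/4 + τ) + 8 (1+l)^2 2^(-128τ)) ≤ 2^(l/2) 2^(-τ) ≤ 2^(l/2-τ/2)/3` for large `l`.
-/

namespace Pool.Agent.Helper6.PW

private theorem numE_poly (κ : ℝ) (hκ : 0 < κ) : ∃ l₀ : ℕ, ∀ l : ℕ, l₀ ≤ l →
    6 * ((l : ℝ) + 2) * (2 + 8 * (1 + (l : ℝ)) ^ 2) ≤ (2 : ℝ) ^ (κ * (l : ℝ)) := by
  have hb : 0 < κ * Real.log 2 := mul_pos hκ (Real.log_pos (by norm_num))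
  have h := (isLittleO_pow_exp_pos_mul_atTop (k := 3) hb).bound
    (show (0 : ℝ) < 1 / 612 by norm_num)
  obtain ⟨x₀, hx₀⟩ := Filter.eventually_atTop.1 h
  refine ⟨max 1 ⌈x₀⌉₊, fun l hl => ?_⟩
  have h1 : (1 : ℝ) ≤ l := by exact_mod_cast (le_max_left _ _).trans hl
  have h2 : x₀ ≤ (l : ℝ) := (Nat.le_ceil x₀).trans (by exact_mod_cast (le_max_right _ _).trans hl)
  have h3 := hx₀ l h2
  rw [Real.norm_of_nonneg (by positivity), Real.norm_of_nonneg (Real.exp_pos _).le] at h3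
  have h4 : (2 : ℝ) ^ (κ * (l : ℝ)) = Real.exp (κ * Real.log 2 * l) := by
    rw [Real.rpow_def_of_pos (by norm_num)]
    congr 1
    ring
  rw [h4]
  have h5 : 6 * ((l : ℝ) + 2) * (2 + 8 * (1 + (l : ℝ)) ^ 2) ≤ 612 * (l : ℝ) ^ 3 := by
    have a1 : (l : ℝ) + 2 ≤ 3 * l := by linarith
    have a2 : 2 + 8 * (1 + (l : ℝ)) ^ 2 ≤ 34 * (l : ℝ) ^ 2 := by nlinarith
    calc 6 * ((l : ℝ) + 2) * (2 + 8 * (1 + (l : ℝ)) ^ 2)
        ≤ 6 * (3 * l) * (34 * (l : ℝ) ^ 2) := by gcongr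
      _ = 612 * (l : ℝ) ^ 3 := by ring
  linarith


theorem numE (κ : ℝ) (hκ : 0 < κ) : ∃ B κ₁ : ℝ, 1 ≤ B ∧ 0 < κ₁ ∧ ∃ l₀ : ℕ, ∀ l b τ ζ w : ℕ,
    l₀ ≤ l → κ * l ≤ τ → 1024 * τ ≤ b → 2 * (ζ + b) ≤ l + 1 + 2 * τ → ζ ≤ l → (w : ℝ) ≤ κ₁ * l →
    ((l : ℝ) + 2) * ((2 : ℝ) ^ b * ((2 : ℝ) ^ ζ *
      ((2 : ℝ) ^ (b / 8) * (B ^ w * Real.exp (4 * (1 + Real.log ((2 : ℝ) ^ ζ)) / B) /
        Real.sqrt ((2 : ℝ) ^ (b / 2))) +
        4 * (1 + Real.log ((2 : ℝ) ^ ζ)) ^ 2 / (2 : ℝ) ^ (b / 8)))) ≤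
      (2 : ℝ) ^ ((l : ℝ) / 2 - (τ : ℝ) / 2) / 3 := by
  have hlog2 : 0 < Real.log 2 := Real.log_pos (by norm_num)
  set B : ℝ := max 1 (24 / κ) with hBdef
  have hB1 : 1 ≤ B := le_max_left _ _
  have hB0 : 0 < B := lt_of_lt_of_le one_pos hB1
  have hBκ : 24 / κ ≤ B := le_max_right _ _
  have hlogB : 0 ≤ Real.log B := Real.log_nonneg hB1
  obtain ⟨l₁, hl₁⟩ := numE_poly κ hκ
  refine ⟨B, (κ / 2) * Real.log 2 / (1 + Real.log B), hB1, by positivity, max 1 l₁, ?_⟩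
  intro l b τ ζ w hl hτ hb hζb hζ hw
  have hl1 : (1 : ℝ) ≤ l := by exact_mod_cast (le_max_left _ _).trans hl
  have hpoly := hl₁ l ((le_max_right _ _).trans hl)
  have hlog2' : Real.log 2 ≤ 1 := by
    have := Real.log_two_lt_d9
    linarith
  have hlog2'' : 2 / 3 ≤ Real.log 2 := by
    have := Real.log_two_gt_d9
    linarith
  have hζl : (ζ : ℝ) ≤ l := by exact_mod_cast hζ
  have hbR : 1024 * (τ : ℝ) ≤ b := by exact_mod_cast hb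
  have hζbR : 2 * ((ζ : ℝ) + b) ≤ l + 1 + 2 * τ := by exact_mod_cast hζb
  have hτ0 : (0 : ℝ) ≤ τ := Nat.cast_nonneg _
  have hlogz : Real.log ((2 : ℝ) ^ ζ) = ζ * Real.log 2 := Real.log_pow _ _
  rw [hlogz]
  have hz1 : (ζ : ℝ) * Real.log 2 ≤ l := by
    calc (ζ : ℝ) * Real.log 2 ≤ ζ * 1 := by gcongr
      _ ≤ l := by linarith
  have hz0 : 0 ≤ (ζ : ℝ) * Real.log 2 := by positivity
  have two : (0 : ℝ) < 2 := by norm_num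
  -- `B ^ w`
  have hBw : B ^ w ≤ (2 : ℝ) ^ ((τ : ℝ) / 2) := by
    rw [← Real.exp_log hB0, ← Real.exp_nat_mul, Real.rpow_def_of_pos two]
    apply Real.exp_le_exp.2
    have h1 : (w : ℝ) * Real.log B ≤ (κ / 2) * Real.log 2 / (1 + Real.log B) * l * Real.log B := by
      gcongr
    have h2 : (κ / 2) * Real.log 2 / (1 + Real.log B) * l * Real.log B ≤ κ / 2 * Real.log 2 * l := by
      have h3 : Real.log B / (1 + Real.log B) ≤ 1 := by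
        rw [div_le_one (by positivity)]
        linarith
      calc (κ / 2) * Real.log 2 / (1 + Real.log B) * l * Real.log B
          = (κ / 2 * Real.log 2 * l) * (Real.log B / (1 + Real.log B)) := by ring
        _ ≤ (κ / 2 * Real.log 2 * l) * 1 := by gcongr
        _ = κ / 2 * Real.log 2 * l := by ring
    have h4 : κ / 2 * Real.log 2 * l ≤ Real.log 2 * (τ / 2) := by
      have : κ * l * Real.log 2 ≤ τ * Real.log 2 := by gcongr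
      linarith
    linarith
  -- the exponential
  have hexp : Real.exp (4 * (1 + (ζ : ℝ) * Real.log 2) / B) ≤ (2 : ℝ) ^ ((τ : ℝ) / 2) := by
    rw [Real.rpow_def_of_pos two]
    apply Real.exp_le_exp.2
    have h1 : 1 / B ≤ κ / 24 := by
      rw [div_le_div_iff₀ hB0 (by norm_num)]
      have := (div_le_iff₀ hκ).1 hBκ
      linarith
    have h2 : 4 * (1 + (ζ : ℝ) * Real.log 2) / B ≤ 4 * (1 + l) * (κ / 24) := by
      calc 4 * (1 + (ζ : ℝ) * Real.log 2) / B = 4 * (1 + (ζ : ℝ) * Real.log 2) * (1 / B) := by ring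
        _ ≤ 4 * (1 + l) * (κ / 24) := by gcongr
    have h3 : 4 * (1 + (l : ℝ)) * (κ / 24) ≤ κ * l / 3 := by nlinarith
    have h4 : κ * l / 3 ≤ Real.log 2 * (τ / 2) := by
      have h5 : 2 / 3 * (κ * l) ≤ Real.log 2 * τ := by
        have : 0 ≤ κ * l := by positivity
        calc 2 / 3 * (κ * l) ≤ Real.log 2 * (κ * l) := by gcongr
          _ ≤ Real.log 2 * τ := by gcongr
      linarith
    linarith
  -- the powers of two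
  have hb8u : (2 : ℝ) ^ (b / 8) ≤ (2 : ℝ) ^ ((b : ℝ) / 8) := by
    rw [← Real.rpow_natCast]
    apply Real.rpow_le_rpow_of_exponent_le (by norm_num)
    exact Nat.cast_div_le
  have hb8l : (2 : ℝ) ^ ((b : ℝ) / 8 - 1) ≤ (2 : ℝ) ^ (b / 8) := by
    rw [← Real.rpow_natCast]
    apply Real.rpow_le_rpow_of_exponent_le (by norm_num)
    have h1 : b < 8 * (b / 8 + 1) := by omega
    have h2 : (b : ℝ) < 8 * (((b / 8 : ℕ) : ℝ) + 1) := by exact_mod_cast h1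
    linarith
  have hsq : (2 : ℝ) ^ ((b : ℝ) / 4 - 1) ≤ Real.sqrt ((2 : ℝ) ^ (b / 2)) := by
    apply Real.le_sqrt_of_sq_le
    rw [← Real.rpow_natCast ((2 : ℝ) ^ ((b : ℝ) / 4 - 1)) 2, ← Real.rpow_mul two.le,
      ← Real.rpow_natCast]
    apply Real.rpow_le_rpow_of_exponent_le (by norm_num)
    have h1 : b < 2 * (b / 2 + 1) := by omega
    have h2 : (b : ℝ) < 2 * (((b / 2 : ℕ) : ℝ) + 1) := by exact_mod_cast h1
    push_cast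
    linarith
  have hbz : (2 : ℝ) ^ b * (2 : ℝ) ^ ζ ≤ (2 : ℝ) ^ (((l : ℝ) + 1) / 2 + τ) := by
    rw [← Real.rpow_natCast, ← Real.rpow_natCast, ← Real.rpow_add two]
    apply Real.rpow_le_rpow_of_exponent_le (by norm_num)
    linarith
  -- first summand
  have hA : (2 : ℝ) ^ (b / 8) * (B ^ w * Real.exp (4 * (1 + (ζ : ℝ) * Real.log 2) / B) /
      Real.sqrt ((2 : ℝ) ^ (b / 2))) ≤ 2 * (2 : ℝ) ^ ((τ : ℝ) - (b : ℝ) / 8) := by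
    have hs0 : 0 < Real.sqrt ((2 : ℝ) ^ (b / 2)) := Real.sqrt_pos.2 (by positivity)
    have h1 : B ^ w * Real.exp (4 * (1 + (ζ : ℝ) * Real.log 2) / B) /
        Real.sqrt ((2 : ℝ) ^ (b / 2)) ≤
        (2 : ℝ) ^ ((τ : ℝ) / 2) * (2 : ℝ) ^ ((τ : ℝ) / 2) / (2 : ℝ) ^ ((b : ℝ) / 4 - 1) := by
      apply div_le_div₀ (by positivity) _ (by positivity) hsq
      exact mul_le_mul hBw hexp (Real.exp_pos _).le (by positivity)
    calc (2 : ℝ) ^ (b / 8) * (B ^ w * Real.exp (4 * (1 + (ζ : ℝ) * Real.log 2) / B) /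
          Real.sqrt ((2 : ℝ) ^ (b / 2)))
        ≤ (2 : ℝ) ^ ((b : ℝ) / 8) * ((2 : ℝ) ^ ((τ : ℝ) / 2) * (2 : ℝ) ^ ((τ : ℝ) / 2) /
          (2 : ℝ) ^ ((b : ℝ) / 4 - 1)) := by
          apply mul_le_mul hb8u h1 (by positivity) (by positivity)
      _ = (2 : ℝ) ^ (1 + ((τ : ℝ) - (b : ℝ) / 8)) := by
          rw [← Real.rpow_add two, ← Real.rpow_sub two, ← Real.rpow_add two]
          congr 1
          ring
      _ = 2 * (2 : ℝ) ^ ((τ : ℝ) - (b : ℝ) / 8) := by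
          rw [Real.rpow_add two, Real.rpow_one]
  -- second summand
  have hC : 4 * (1 + (ζ : ℝ) * Real.log 2) ^ 2 / (2 : ℝ) ^ (b / 8) ≤
      8 * (1 + (l : ℝ)) ^ 2 * (2 : ℝ) ^ (-(b : ℝ) / 8) := by
    calc 4 * (1 + (ζ : ℝ) * Real.log 2) ^ 2 / (2 : ℝ) ^ (b / 8)
        ≤ 4 * (1 + (l : ℝ)) ^ 2 / (2 : ℝ) ^ ((b : ℝ) / 8 - 1) := by
          apply div_le_div₀ (by positivity) _ (by positivity) hb8l
          gcongr
      _ = 4 * (1 + (l : ℝ)) ^ 2 * (2 : ℝ) ^ (1 + -(b : ℝ) / 8) := by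
          rw [div_eq_mul_inv, ← Real.rpow_neg two.le]
          congr 2
          ring
      _ = 8 * (1 + (l : ℝ)) ^ 2 * (2 : ℝ) ^ (-(b : ℝ) / 8) := by
          rw [Real.rpow_add two, Real.rpow_one]
          ring
  have hsum : (2 : ℝ) ^ (b / 8) * (B ^ w * Real.exp (4 * (1 + (ζ : ℝ) * Real.log 2) / B) /
      Real.sqrt ((2 : ℝ) ^ (b / 2))) + 4 * (1 + (ζ : ℝ) * Real.log 2) ^ 2 / (2 : ℝ) ^ (b / 8) ≤
      (2 + 8 * (1 + (l : ℝ)) ^ 2) * (2 : ℝ) ^ ((τ : ℝ) - (b : ℝ) / 8) := by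
    have h1 : (2 : ℝ) ^ (-(b : ℝ) / 8) ≤ (2 : ℝ) ^ ((τ : ℝ) - (b : ℝ) / 8) := by
      apply Real.rpow_le_rpow_of_exponent_le (by norm_num)
      linarith
    have h2 : 8 * (1 + (l : ℝ)) ^ 2 * (2 : ℝ) ^ (-(b : ℝ) / 8) ≤
        8 * (1 + (l : ℝ)) ^ 2 * (2 : ℝ) ^ ((τ : ℝ) - (b : ℝ) / 8) := by gcongr
    linarith
  calc ((l : ℝ) + 2) * ((2 : ℝ) ^ b * ((2 : ℝ) ^ ζ *
      ((2 : ℝ) ^ (b / 8) * (B ^ w * Real.exp (4 * (1 + (ζ : ℝ) * Real.log 2) / B) /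
        Real.sqrt ((2 : ℝ) ^ (b / 2))) +
        4 * (1 + (ζ : ℝ) * Real.log 2) ^ 2 / (2 : ℝ) ^ (b / 8))))
      = ((l : ℝ) + 2) * (((2 : ℝ) ^ b * (2 : ℝ) ^ ζ) *
      ((2 : ℝ) ^ (b / 8) * (B ^ w * Real.exp (4 * (1 + (ζ : ℝ) * Real.log 2) / B) /
        Real.sqrt ((2 : ℝ) ^ (b / 2))) +
        4 * (1 + (ζ : ℝ) * Real.log 2) ^ 2 / (2 : ℝ) ^ (b / 8))) := by ring
    _ ≤ ((l : ℝ) + 2) * ((2 : ℝ) ^ (((l : ℝ) + 1) / 2 + τ) *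
      ((2 + 8 * (1 + (l : ℝ)) ^ 2) * (2 : ℝ) ^ ((τ : ℝ) - (b : ℝ) / 8))) := by
        apply mul_le_mul_of_nonneg_left _ (by positivity)
        exact mul_le_mul hbz hsum (by positivity) (by positivity)
    _ = (6 * ((l : ℝ) + 2) * (2 + 8 * (1 + (l : ℝ)) ^ 2)) / 6 *
      (2 : ℝ) ^ (((l : ℝ) + 1) / 2 + τ + ((τ : ℝ) - (b : ℝ) / 8)) := by
        rw [Real.rpow_add two (((l : ℝ) + 1) / 2 + τ)]
        ring
    _ ≤ (2 : ℝ) ^ (κ * (l : ℝ)) / 6 *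
      (2 : ℝ) ^ (((l : ℝ) + 1) / 2 + τ + ((τ : ℝ) - (b : ℝ) / 8)) := by gcongr
    _ = (2 : ℝ) ^ (κ * (l : ℝ) + (((l : ℝ) + 1) / 2 + τ + ((τ : ℝ) - (b : ℝ) / 8))) / 6 := by
        rw [Real.rpow_add two (κ * (l : ℝ))]
        ring
    _ ≤ (2 : ℝ) ^ (1 + ((l : ℝ) / 2 - (τ : ℝ) / 2)) / 6 := by
        apply div_le_div_of_nonneg_right _ (by norm_num)
        apply Real.rpow_le_rpow_of_exponent_le (by norm_num)
        linarith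
    _ = (2 : ℝ) ^ ((l : ℝ) / 2 - (τ : ℝ) / 2) / 3 := by
        rw [Real.rpow_add two, Real.rpow_one]
        ring

end Pool.Agent.Helper6.PW
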