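import Mathlib

/-!
# PW-27 NumI: the numerical bound for the multiples of initial segments

`Λ = 2^(L+4) ≥ 16`, `Dm 2^(2b) ≤ 2^l`, `l + 2τ ≤ 2(ζ + b)`, so `Dm/(2^ζ)^2 ≤ 2^(l - 2b - 2ζ) ≤ 2^(-2τ)`, and
`1 + Dm (2 (l+1) 2^(Λτ))^2/(2^ζ)^2 ≤ 1 + 4 (l+1)^2 2^(2Λτ-2τ) ≤ 5 (l+1)^2 2^(2Λτ-2τ)`.  `√(2^(8Λτ)) = 2^(4Λτ)`.
`2^(ζ+b) ≤ 2^((l+1)/2+τ)`, `ζ ≤ l`.  The left side is at most
`(l+2) * 2^((l+1)/2+τ) * 5 (l+1)^2 2^(2Λτ-2τ) * (l+1) * 24 (l+1)^2 2^(-4Λτ) ≤ 240 (l+2)^6 2^(l/2 - τ - 2Λτ) ≤ 2^(l/2-τ/2)/3` for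
large `l` (`τ ≥ κ l`).
-/

namespace Pool.Agent.Helper6.PW

theorem numI_grow (κ : ℝ) (hκ : 0 < κ) : ∃ l₀ : ℕ, ∀ l : ℕ, l₀ ≤ l →
    720 * ((l : ℝ) + 2) ^ 6 ≤ (2 : ℝ) ^ (κ * (l : ℝ)) := by
  have hr : (1 : ℝ) < (2 : ℝ) ^ κ := Real.one_lt_rpow (by norm_num) hκ
  have h := isLittleO_pow_const_const_pow_of_one_lt (R := ℝ) 6 hr
  have hc : (0 : ℝ) < 1 / (720 * ((2 : ℝ) ^ κ) ^ 2) := by positivity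
  have h1 := h.def hc
  rw [Filter.eventually_atTop] at h1
  obtain ⟨N, hN⟩ := h1
  refine ⟨N, fun l hl => ?_⟩
  have h2 := hN (l + 2) (by omega)
  rw [Real.norm_of_nonneg (by positivity), Real.norm_of_nonneg (by positivity)] at h2
  push_cast at h2
  have h3 : ((2 : ℝ) ^ κ) ^ (l + 2) = ((2 : ℝ) ^ κ) ^ 2 * (2 : ℝ) ^ (κ * (l : ℝ)) := by
    rw [pow_add, Real.rpow_mul (by norm_num), Real.rpow_natCast]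
    ring
  rw [h3] at h2
  have hp : (0 : ℝ) < ((2 : ℝ) ^ κ) ^ 2 := by positivity
  calc 720 * ((l : ℝ) + 2) ^ 6
      ≤ 720 * (1 / (720 * ((2 : ℝ) ^ κ) ^ 2) * (((2 : ℝ) ^ κ) ^ 2 * (2 : ℝ) ^ (κ * (l : ℝ)))) := by
        gcongr
    _ = (2 : ℝ) ^ (κ * (l : ℝ)) := by
        field_simp

theorem numI (L : ℕ) (κ : ℝ) (hκ : 0 < κ) : ∃ l₀ : ℕ, ∀ l b τ ζ Dm : ℕ, l₀ ≤ l →
    κ * l ≤ τ → 2 * (ζ + b) ≤ l + 1 + 2 * τ → l + 2 * τ ≤ 2 * (ζ + b) → ζ ≤ l →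
    Dm * 2 ^ (2 * b) ≤ 2 ^ l →
    ((l : ℝ) + 2) * ((2 : ℝ) ^ b * (1 + (Dm : ℝ) * (2 * ((l : ℝ) + 1) * 2 ^ (2 ^ (L + 4) * τ)) ^ 2 /
        ((2 : ℝ) ^ ζ) ^ 2) * (((ζ : ℝ) + 1) * (24 * ((l : ℝ) + 1) ^ 2 * 2 ^ ζ /
          Real.sqrt ((2 : ℝ) ^ (8 * 2 ^ (L + 4) * τ))))) ≤
      (2 : ℝ) ^ ((l : ℝ) / 2 - (τ : ℝ) / 2) / 3 := by
  obtain ⟨l₀, hl₀⟩ := numI_grow κ hκ
  refine ⟨l₀, fun l b τ ζ Dm hl hτ hub hlb hζ hDm => ?_⟩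
  have hg := hl₀ l hl
  set Λ : ℕ := 2 ^ (L + 4) with hΛ
  have hΛ1 : 1 ≤ Λ := Nat.one_le_two_pow
  -- the square root
  have hsq : Real.sqrt ((2 : ℝ) ^ (8 * Λ * τ)) = (2 : ℝ) ^ (4 * Λ * τ) := by
    have : (2 : ℝ) ^ (8 * Λ * τ) = ((2 : ℝ) ^ (4 * Λ * τ)) ^ 2 := by
      rw [← pow_mul]; congr 1; ring
    rw [this, Real.sqrt_sq (by positivity)]
  rw [hsq]
  set Y : ℝ := (2 : ℝ) ^ (Λ * τ) with hY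
  have hY4 : (2 : ℝ) ^ (4 * Λ * τ) = Y ^ 4 := by
    rw [hY, ← pow_mul]; congr 1; ring
  rw [hY4]
  set T : ℝ := (2 : ℝ) ^ τ with hT
  have hT0 : 0 < T := by positivity
  have hY0 : 0 < Y := by positivity
  have hTY : T ≤ Y := by
    rw [hT, hY]
    exact pow_le_pow_right₀ (by norm_num) (Nat.le_mul_of_pos_left τ hΛ1)
  have hl0 : (0 : ℝ) ≤ (l : ℝ) := Nat.cast_nonneg l
  -- bound for Dm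
  have hD1 : (Dm : ℝ) * (2 : ℝ) ^ (2 * b) ≤ (2 : ℝ) ^ l := by exact_mod_cast hDm
  have hD2 : (Dm : ℝ) * T ^ 2 ≤ ((2 : ℝ) ^ ζ) ^ 2 := by
    have e1 : (2 : ℝ) ^ (l + 2 * τ) ≤ (2 : ℝ) ^ (2 * (ζ + b)) :=
      pow_le_pow_right₀ (by norm_num) hlb
    have e2 : (2 : ℝ) ^ (l + 2 * τ) = (2 : ℝ) ^ l * T ^ 2 := by
      rw [pow_add, hT, ← pow_mul, mul_comm τ 2]
    have e3 : (2 : ℝ) ^ (2 * (ζ + b)) = ((2 : ℝ) ^ ζ) ^ 2 * (2 : ℝ) ^ (2 * b) := by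
      rw [← pow_mul, ← pow_add]; congr 1; ring
    rw [e2, e3] at e1
    have hb0 : (0 : ℝ) < (2 : ℝ) ^ (2 * b) := by positivity
    have : (Dm : ℝ) * T ^ 2 * (2 : ℝ) ^ (2 * b) ≤ ((2 : ℝ) ^ ζ) ^ 2 * (2 : ℝ) ^ (2 * b) := by
      calc (Dm : ℝ) * T ^ 2 * (2 : ℝ) ^ (2 * b) = ((Dm : ℝ) * (2 : ℝ) ^ (2 * b)) * T ^ 2 := by ring
        _ ≤ (2 : ℝ) ^ l * T ^ 2 := by gcongr
        _ ≤ _ := e1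
    exact le_of_mul_le_mul_right this hb0
  have hfac : 1 + (Dm : ℝ) * (2 * ((l : ℝ) + 1) * Y) ^ 2 / ((2 : ℝ) ^ ζ) ^ 2 ≤
      5 * ((l : ℝ) + 1) ^ 2 * Y ^ 2 / T ^ 2 := by
    have hz : (0 : ℝ) < ((2 : ℝ) ^ ζ) ^ 2 := by positivity
    have h1 : (Dm : ℝ) * (2 * ((l : ℝ) + 1) * Y) ^ 2 / ((2 : ℝ) ^ ζ) ^ 2 ≤
        4 * ((l : ℝ) + 1) ^ 2 * Y ^ 2 / T ^ 2 := by
      rw [div_le_div_iff₀ hz (by positivity)]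
      calc (Dm : ℝ) * (2 * ((l : ℝ) + 1) * Y) ^ 2 * T ^ 2
          = (4 * ((l : ℝ) + 1) ^ 2 * Y ^ 2) * ((Dm : ℝ) * T ^ 2) := by ring
        _ ≤ (4 * ((l : ℝ) + 1) ^ 2 * Y ^ 2) * ((2 : ℝ) ^ ζ) ^ 2 := by gcongr
    have h2 : (1 : ℝ) ≤ ((l : ℝ) + 1) ^ 2 * Y ^ 2 / T ^ 2 := by
      rw [le_div_iff₀ (by positivity), one_mul]
      have h3 : T ^ 2 ≤ Y ^ 2 := by gcongr
      have h4 : (1 : ℝ) ≤ ((l : ℝ) + 1) ^ 2 := by nlinarith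
      nlinarith [sq_nonneg Y, mul_le_mul h4 h3 (by positivity) (by positivity)]
    calc 1 + (Dm : ℝ) * (2 * ((l : ℝ) + 1) * Y) ^ 2 / ((2 : ℝ) ^ ζ) ^ 2
        ≤ ((l : ℝ) + 1) ^ 2 * Y ^ 2 / T ^ 2 + 4 * ((l : ℝ) + 1) ^ 2 * Y ^ 2 / T ^ 2 :=
          add_le_add h2 h1
      _ = 5 * ((l : ℝ) + 1) ^ 2 * Y ^ 2 / T ^ 2 := by ring
  have hζr : (ζ : ℝ) + 1 ≤ (l : ℝ) + 1 := by
    have : (ζ : ℝ) ≤ l := by exact_mod_cast hζ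
    linarith
  -- the power of two
  have hpow : (2 : ℝ) ^ (ζ + b) ≤ 2 * ((2 : ℝ) ^ ((l : ℝ) / 2) * T) := by
    have e1 : (2 : ℝ) ^ (ζ + b) = (2 : ℝ) ^ (((ζ + b : ℕ) : ℝ)) := (Real.rpow_natCast _ _).symm
    have e2 : (T : ℝ) = (2 : ℝ) ^ ((τ : ℕ) : ℝ) := by rw [hT, Real.rpow_natCast]
    rw [e1, e2, ← Real.rpow_add (by norm_num)]
    have e3 : (2 : ℝ) * (2 : ℝ) ^ ((l : ℝ) / 2 + (τ : ℝ)) = (2 : ℝ) ^ (1 + ((l : ℝ) / 2 + (τ : ℝ))) := by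
      rw [Real.rpow_add (by norm_num) 1, Real.rpow_one]
    rw [e3]
    apply Real.rpow_le_rpow_of_exponent_le (by norm_num)
    have : (2 : ℝ) * ((ζ + b : ℕ) : ℝ) ≤ (l : ℝ) + 1 + 2 * (τ : ℝ) := by exact_mod_cast hub
    linarith
  have hR0 : (0 : ℝ) < (2 : ℝ) ^ ((l : ℝ) / 2) := by positivity
  -- main chain
  have hmain : ((l : ℝ) + 2) * ((2 : ℝ) ^ b * (1 + (Dm : ℝ) * (2 * ((l : ℝ) + 1) * Y) ^ 2 /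
        ((2 : ℝ) ^ ζ) ^ 2) * (((ζ : ℝ) + 1) * (24 * ((l : ℝ) + 1) ^ 2 * 2 ^ ζ / Y ^ 4))) ≤
      240 * ((l : ℝ) + 2) ^ 6 * (2 : ℝ) ^ ((l : ℝ) / 2) / (T * Y ^ 2) := by
    calc ((l : ℝ) + 2) * ((2 : ℝ) ^ b * (1 + (Dm : ℝ) * (2 * ((l : ℝ) + 1) * Y) ^ 2 /
        ((2 : ℝ) ^ ζ) ^ 2) * (((ζ : ℝ) + 1) * (24 * ((l : ℝ) + 1) ^ 2 * 2 ^ ζ / Y ^ 4)))
        ≤ ((l : ℝ) + 2) * ((2 : ℝ) ^ b * (5 * ((l : ℝ) + 1) ^ 2 * Y ^ 2 / T ^ 2) *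
          (((l : ℝ) + 1) * (24 * ((l : ℝ) + 1) ^ 2 * 2 ^ ζ / Y ^ 4))) := by
          gcongr
      _ = 120 * ((l : ℝ) + 2) * ((l : ℝ) + 1) ^ 5 * (2 : ℝ) ^ (ζ + b) / (T ^ 2 * Y ^ 2) := by
          rw [pow_add]
          field_simp
          ring
      _ ≤ 120 * ((l : ℝ) + 2) * ((l : ℝ) + 2) ^ 5 * (2 * ((2 : ℝ) ^ ((l : ℝ) / 2) * T)) /
          (T ^ 2 * Y ^ 2) := by
          gcongr
          linarith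
      _ = 240 * ((l : ℝ) + 2) ^ 6 * (2 : ℝ) ^ ((l : ℝ) / 2) / (T * Y ^ 2) := by
          field_simp
          ring
  refine hmain.trans ?_
  -- final comparison
  have hT1 : (2 : ℝ) ^ (κ * (l : ℝ)) ≤ T := by
    rw [hT, ← Real.rpow_natCast]
    exact Real.rpow_le_rpow_of_exponent_le (by norm_num) hτ
  have hT2 : 720 * ((l : ℝ) + 2) ^ 6 ≤ T := hg.trans hT1
  have hTone : (1 : ℝ) ≤ T := by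
    rw [hT]; exact one_le_pow₀ (by norm_num)
  have hYone : (1 : ℝ) ≤ Y := hTone.trans hTY
  have hhalf : (2 : ℝ) ^ ((l : ℝ) / 2 - (τ : ℝ) / 2) * T ≥ (2 : ℝ) ^ ((l : ℝ) / 2) := by
    have e2 : (T : ℝ) = (2 : ℝ) ^ ((τ : ℕ) : ℝ) := by rw [hT, Real.rpow_natCast]
    rw [e2, ← Real.rpow_add (by norm_num)]
    apply Real.rpow_le_rpow_of_exponent_le (by norm_num)
    have : (0 : ℝ) ≤ (τ : ℝ) := Nat.cast_nonneg τ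
    linarith
  have hY2 : T ≤ Y ^ 2 := by nlinarith
  rw [div_le_div_iff₀ (by positivity) (by norm_num)]
  calc 240 * ((l : ℝ) + 2) ^ 6 * (2 : ℝ) ^ ((l : ℝ) / 2) * 3
      = (720 * ((l : ℝ) + 2) ^ 6) * (2 : ℝ) ^ ((l : ℝ) / 2) := by ring
    _ ≤ Y ^ 2 * ((2 : ℝ) ^ ((l : ℝ) / 2 - (τ : ℝ) / 2) * T) := by
        apply mul_le_mul (hT2.trans hY2) hhalf (by positivity) (by positivity)
    _ = (2 : ℝ) ^ ((l : ℝ) / 2 - (τ : ℝ) / 2) * (T * Y ^ 2) := by ring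

end Pool.Agent.Helper6.PW
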