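import Mathlib
import Pool.Agent.Helper6.PW.Defs

/-!
# PW-28 Omega: `ω(n) = o(log n)`

Choose `m ≥ 2/κ`.  The prime factors `< 2^m` are at most `2^m` in number; if `r` prime factors are `≥ 2^m`, then
`2^(m r) ≤ n ≤ 2^l`, `r ≤ l/m ≤ κ l/2`.  So `ω(n) ≤ 2^m + κ l/2 ≤ κ l` if `l ≥ 2^(m+1)/κ`.
-/

namespace Pool.Agent.Helper6.PW

theorem omega_small (κ : ℝ) (hκ : 0 < κ) : ∃ l₀ : ℕ, ∀ l n : ℕ, l₀ ≤ l → 1 ≤ n → n ≤ 2 ^ l →
    (n.primeFactors.card : ℝ) ≤ κ * l := by
  obtain ⟨m, hm⟩ := exists_nat_ge (2 / κ)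
  obtain ⟨l₀, hl₀⟩ := exists_nat_ge ((2 : ℝ) ^ (m + 1) / κ)
  have hmpos : (0 : ℝ) < m := lt_of_lt_of_le (by positivity) hm
  have hmκ : 2 ≤ m * κ := by
    have := (div_le_iff₀ hκ).1 hm
    exact this
  refine ⟨l₀, fun l n hl hn hnl => ?_⟩
  have hlκ : (2 : ℝ) ^ (m + 1) ≤ l * κ := by
    have h1 : (2 : ℝ) ^ (m + 1) / κ ≤ (l : ℝ) := hl₀.trans (by exact_mod_cast hl)
    exact (div_le_iff₀ hκ).1 h1
  set A := n.primeFactors.filter (fun p => p < 2 ^ m) with hA
  set B := n.primeFactors.filter (fun p => ¬ p < 2 ^ m) with hB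
  have hsplit : A.card + B.card = n.primeFactors.card :=
    Finset.card_filter_add_card_filter_not _
  have hAc : A.card ≤ 2 ^ m := by
    calc A.card ≤ (Finset.range (2 ^ m)).card := by
          apply Finset.card_le_card
          intro p hp
          rw [hA, Finset.mem_filter] at hp
          exact Finset.mem_range.2 hp.2
      _ = 2 ^ m := Finset.card_range _
  have hBprod : (2 ^ m) ^ B.card ≤ n := by
    calc (2 ^ m) ^ B.card = ∏ _p ∈ B, 2 ^ m := by rw [Finset.prod_const]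
      _ ≤ ∏ p ∈ B, p := by
          apply Finset.prod_le_prod'
          intro p hp
          rw [hB, Finset.mem_filter] at hp
          exact not_lt.1 hp.2
      _ ≤ n := by
          apply Nat.le_of_dvd hn
          refine dvd_trans ?_ (Nat.prod_primeFactors_dvd n)
          exact Finset.prod_dvd_prod_of_subset _ _ _ (Finset.filter_subset _ _)
  have hmB : m * B.card ≤ l := by
    have h2 : 2 ^ (m * B.card) ≤ 2 ^ l := by
      rw [pow_mul]; exact hBprod.trans hnl
    exact (Nat.pow_le_pow_iff_right (by norm_num)).1 h2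
  have h1 : (n.primeFactors.card : ℝ) = A.card + B.card := by
    rw [← hsplit]; push_cast; ring
  have h2 : (A.card : ℝ) ≤ (2 : ℝ) ^ m := by exact_mod_cast hAc
  have h3 : (m : ℝ) * B.card ≤ l := by exact_mod_cast hmB
  have h4 : (2 : ℝ) ^ m ≤ κ * l / 2 := by
    rw [pow_succ] at hlκ
    linarith
  have h5 : (B.card : ℝ) ≤ κ * l / 2 := by
    have h6 : 2 * (B.card : ℝ) ≤ κ * l := by
      calc 2 * (B.card : ℝ) ≤ (m * κ) * B.card :=
            mul_le_mul_of_nonneg_right hmκ (Nat.cast_nonneg _)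
        _ = κ * (m * B.card) := by ring
        _ ≤ κ * l := mul_le_mul_of_nonneg_left h3 hκ.le
    linarith
  rw [h1]
  linarith

end Pool.Agent.Helper6.PW
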