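import Mathlib
import Pool.Agent.Helper6.PW.Defs

/-!
# PW-20 PPl: a large prime square in `φ(c)`

`ℓ^2 ∣ φ(c) = ∏_{p ∣ c} (p - 1)` (`c` squarefree): either `ℓ^2 ∣ p - 1` for some `p ∣ c`, or `ℓ ∣ p - 1`, `ℓ ∣ p' - 1` for
two different primes `p, p' ∣ c` (then `p p' ∣ c`).  The number of `c ≤ C` divisible by `d` is `≤ C/d`.  First kind: `≤ ∑_{2 ≤ m ≤ C, ℓ^2 ∣ m - 1}
C/m ≤ C ∑_{1 ≤ i ≤ C} 1/(i ℓ^2) ≤ C (1 + log C)/ℓ^2`.  Second kind: `≤ ∑_{m, m'} C/(m m') ≤ C ((1 + log C)/ℓ)^2`, over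
`m, m' ≤ C` with `ℓ ∣ m - 1`, `ℓ ∣ m' - 1`, `m, m' ≥ 2`.  And `1 + log C ≤ (1 + log C)^2`.
-/

namespace Pool.Agent.Helper6.PW

open Finset

private lemma sum_inv_class_le (d C : ℕ) (hd : 1 ≤ d) :
    ∑ m ∈ (Icc 2 C).filter (fun m => d ∣ m - 1), 1 / (m : ℝ) ≤ (1 + Real.log C) / d := by
  have hd0 : (0 : ℝ) < d := by exact_mod_cast hd
  have h1 : ∀ m ∈ (Icc 2 C).filter (fun m => d ∣ m - 1),
      1 / (m : ℝ) ≤ 1 / (d : ℝ) * ((((m - 1) / d : ℕ) : ℝ))⁻¹ := by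
    intro m hm
    rw [mem_filter, mem_Icc] at hm
    have h2 : d * ((m - 1) / d) = m - 1 := Nat.mul_div_cancel' hm.2
    have h3 : 0 < (m - 1) / d := by
      rcases Nat.eq_zero_or_pos ((m - 1) / d) with h | h
      · rw [h, mul_zero] at h2
        omega
      · exact h
    have h4 : (0 : ℝ) < (((m - 1) / d : ℕ) : ℝ) := by exact_mod_cast h3
    have h5 : d * ((m - 1) / d) ≤ m := by omega
    have h6 : (d : ℝ) * (((m - 1) / d : ℕ) : ℝ) ≤ m := by exact_mod_cast h5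
    rw [← one_div, one_div_mul_one_div]
    exact one_div_le_one_div_of_le (mul_pos hd0 h4) h6
  refine (sum_le_sum h1).trans ?_
  rw [← mul_sum, show (1 + Real.log C) / (d : ℝ) = 1 / (d : ℝ) * (1 + Real.log C) by ring]
  refine mul_le_mul_of_nonneg_left ?_ (by positivity)
  have h5 := harmonic_le_one_add_log C
  rw [harmonic_eq_sum_Icc] at h5
  push_cast at h5
  refine le_trans ?_ h5
  have hinj : Set.InjOn (fun m : ℕ => (m - 1) / d)
      ((Icc 2 C).filter (fun m => d ∣ m - 1) : Finset ℕ) := by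
    intro m hm m' hm' h
    have hm1 := mem_filter.1 (mem_coe.1 hm)
    have hm2 := mem_filter.1 (mem_coe.1 hm')
    rw [mem_Icc] at hm1 hm2
    have h2 : d * ((m - 1) / d) = m - 1 := Nat.mul_div_cancel' hm1.2
    have h3 : d * ((m' - 1) / d) = m' - 1 := Nat.mul_div_cancel' hm2.2
    have h4 : (m - 1) / d = (m' - 1) / d := h
    rw [h4, h3] at h2
    omega
  calc ∑ m ∈ (Icc 2 C).filter (fun m => d ∣ m - 1), ((((m - 1) / d : ℕ) : ℝ))⁻¹
      = ∑ i ∈ ((Icc 2 C).filter (fun m => d ∣ m - 1)).image (fun m => (m - 1) / d), ((i : ℕ) : ℝ)⁻¹ :=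
        (sum_image (f := fun i : ℕ => (i : ℝ)⁻¹) hinj).symm
    _ ≤ ∑ i ∈ Icc 1 C, ((i : ℕ) : ℝ)⁻¹ := by
        refine sum_le_sum_of_subset_of_nonneg ?_ (fun _ _ _ => by positivity)
        intro i hi
        obtain ⟨m, hm, rfl⟩ := mem_image.1 hi
        rw [mem_filter, mem_Icc] at hm
        rw [mem_Icc]
        have h2 : d * ((m - 1) / d) = m - 1 := Nat.mul_div_cancel' hm.2
        constructor
        · rcases Nat.eq_zero_or_pos ((m - 1) / d) with h | h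
          · rw [h, mul_zero] at h2
            omega
          · exact h
        · have : (m - 1) / d ≤ m - 1 := Nat.div_le_self _ _
          omega

private lemma card_mult_le (C d : ℕ) : (#((Icc 1 C).filter (fun c => d ∣ c)) : ℝ) ≤ C * (1 / d) := by
  have h1 : #((Icc 1 C).filter (fun c => d ∣ c)) = C / d := by
    rw [← Nat.Ioc_filter_dvd_card_eq_div]
    rfl
  rw [h1, mul_one_div]
  exact Nat.cast_div_le

private lemma kinds {ℓ c : ℕ} (hℓ : ℓ.Prime) (hc : c ≠ 0) (hsq : Squarefree c)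
    (h : ℓ ^ 2 ∣ c.totient) : (∃ p, p.Prime ∧ p ∣ c ∧ ℓ ^ 2 ∣ p - 1) ∨
      ∃ p p', p.Prime ∧ p'.Prime ∧ p ≠ p' ∧ p ∣ c ∧ p' ∣ c ∧ ℓ ∣ p - 1 ∧ ℓ ∣ p' - 1 := by
  classical
  have htot : c.totient = ∏ p ∈ c.primeFactors, (p - 1) := by
    have h1 := Nat.totient_mul_prod_primeFactors c
    rw [Nat.prod_primeFactors_of_squarefree hsq, mul_comm] at h1
    exact Nat.eq_of_mul_eq_mul_left (Nat.pos_of_ne_zero hc) h1
  rw [htot] at h
  by_cases h2 : ∃ p p', p.Prime ∧ p'.Prime ∧ p ≠ p' ∧ p ∣ c ∧ p' ∣ c ∧ ℓ ∣ p - 1 ∧ ℓ ∣ p' - 1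
  · exact Or.inr h2
  left
  have hℓd : ℓ ∣ ∏ p ∈ c.primeFactors, (p - 1) := (dvd_pow_self ℓ two_ne_zero).trans h
  obtain ⟨p, hp, hpℓ⟩ := (Prime.dvd_finsetProd_iff hℓ.prime _).1 hℓd
  have hpp := Nat.prime_of_mem_primeFactors hp
  have hpc := Nat.dvd_of_mem_primeFactors hp
  refine ⟨p, hpp, hpc, ?_⟩
  rw [← mul_prod_erase _ _ hp] at h
  have hcop : Nat.Coprime (ℓ ^ 2) (∏ q ∈ c.primeFactors.erase p, (q - 1)) := by
    apply Nat.Coprime.pow_left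
    apply Nat.Coprime.prod_right
    intro q hq
    rw [mem_erase] at hq
    rw [Nat.Prime.coprime_iff_not_dvd hℓ]
    intro hq'
    exact h2 ⟨p, q, hpp, Nat.prime_of_mem_primeFactors hq.2, hq.1.symm, hpc,
      Nat.dvd_of_mem_primeFactors hq.2, hpℓ, hq'⟩
  exact hcop.dvd_of_dvd_mul_right h

theorem pp_large (ℓ C : ℕ) (hℓ : ℓ.Prime) (hC : 1 ≤ C) (S : Finset ℕ)
    (hS : ∀ c ∈ S, 1 ≤ c ∧ c ≤ C ∧ Squarefree c ∧ ℓ ^ 2 ∣ c.totient) :
    (#S : ℝ) ≤ 2 * C * (1 + Real.log C) ^ 2 / (ℓ : ℝ) ^ 2 := by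
  classical
  have hℓ0 : (0 : ℝ) < ℓ := by exact_mod_cast hℓ.pos
  have hC0 : (0 : ℝ) ≤ C := Nat.cast_nonneg C
  have hlog : 0 ≤ Real.log C := Real.log_natCast_nonneg C
  set A := (Icc 2 C).filter (fun m => ℓ ^ 2 ∣ m - 1) with hA
  set B := (Icc 2 C).filter (fun m => ℓ ∣ m - 1) with hB
  have hsub : S ⊆ (A.biUnion fun m => (Icc 1 C).filter (fun c => m ∣ c)) ∪
      ((B ×ˢ B).biUnion fun q => (Icc 1 C).filter (fun c => q.1 * q.2 ∣ c)) := by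
    intro c hc
    obtain ⟨h1, h2, h3, h4⟩ := hS c hc
    have hc0 : c ≠ 0 := by omega
    have hle : ∀ p, p.Prime → p ∣ c → 2 ≤ p ∧ p ≤ C := fun p hp hpc =>
      ⟨hp.two_le, (Nat.le_of_dvd (by omega) hpc).trans h2⟩
    rw [mem_union, mem_biUnion, mem_biUnion]
    rcases kinds hℓ hc0 h3 h4 with ⟨p, hp, hpc, hpl⟩ | ⟨p, p', hp, hp', hne, hpc, hpc', hpl, hpl'⟩
    · left
      refine ⟨p, ?_, ?_⟩
      · rw [hA, mem_filter, mem_Icc]
        exact ⟨hle p hp hpc, hpl⟩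
      · rw [mem_filter, mem_Icc]
        exact ⟨⟨h1, h2⟩, hpc⟩
    · right
      refine ⟨(p, p'), ?_, ?_⟩
      · rw [mem_product, hB, mem_filter, mem_filter, mem_Icc, mem_Icc]
        exact ⟨⟨hle p hp hpc, hpl⟩, ⟨hle p' hp' hpc', hpl'⟩⟩
      · rw [mem_filter, mem_Icc]
        exact ⟨⟨h1, h2⟩, ((Nat.coprime_primes hp hp').2 hne).mul_dvd_of_dvd_of_dvd hpc hpc'⟩
  have hA1 : (#(A.biUnion fun m => (Icc 1 C).filter (fun c => m ∣ c)) : ℝ) ≤
      C * ((1 + Real.log C) / (ℓ : ℝ) ^ 2) := by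
    calc (#(A.biUnion fun m => (Icc 1 C).filter (fun c => m ∣ c)) : ℝ)
        ≤ ∑ m ∈ A, (#((Icc 1 C).filter (fun c => m ∣ c)) : ℝ) := by
          exact_mod_cast card_biUnion_le
      _ ≤ ∑ m ∈ A, (C : ℝ) * (1 / m) := sum_le_sum fun m _ => card_mult_le C m
      _ = C * ∑ m ∈ A, 1 / (m : ℝ) := (mul_sum _ _ _).symm
      _ ≤ C * ((1 + Real.log C) / (ℓ : ℝ) ^ 2) := by
          refine mul_le_mul_of_nonneg_left ?_ hC0
          have := sum_inv_class_le (ℓ ^ 2) C (Nat.pos_of_ne_zero (pow_ne_zero 2 hℓ.ne_zero))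
          push_cast at this
          exact this
  have hB1 : (#((B ×ˢ B).biUnion fun q => (Icc 1 C).filter (fun c => q.1 * q.2 ∣ c)) : ℝ) ≤
      C * ((1 + Real.log C) / ℓ) ^ 2 := by
    calc (#((B ×ˢ B).biUnion fun q => (Icc 1 C).filter (fun c => q.1 * q.2 ∣ c)) : ℝ)
        ≤ ∑ q ∈ B ×ˢ B, (#((Icc 1 C).filter (fun c => q.1 * q.2 ∣ c)) : ℝ) := by
          exact_mod_cast card_biUnion_le
      _ ≤ ∑ q ∈ B ×ˢ B, (C : ℝ) * ((1 / (q.1 : ℝ)) * (1 / (q.2 : ℝ))) := by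
          refine sum_le_sum fun q _ => (card_mult_le C (q.1 * q.2)).trans (le_of_eq ?_)
          push_cast
          rw [one_div_mul_one_div]
      _ = C * ((∑ m ∈ B, 1 / (m : ℝ)) * ∑ m ∈ B, 1 / (m : ℝ)) := by
          rw [← mul_sum, sum_product, sum_mul_sum]
      _ ≤ C * ((1 + Real.log C) / ℓ) ^ 2 := by
          refine mul_le_mul_of_nonneg_left ?_ hC0
          rw [sq]
          have := sum_inv_class_le ℓ C hℓ.pos
          exact mul_le_mul this this (sum_nonneg fun _ _ => by positivity) (by positivity)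
  have h1 : (#S : ℝ) ≤ (#(A.biUnion fun m => (Icc 1 C).filter (fun c => m ∣ c)) : ℝ) +
      #((B ×ˢ B).biUnion fun q => (Icc 1 C).filter (fun c => q.1 * q.2 ∣ c)) := by
    exact_mod_cast (card_le_card hsub).trans (card_union_le _ _)
  refine (h1.trans (add_le_add hA1 hB1)).trans ?_
  have h2 : 1 + Real.log C ≤ (1 + Real.log C) ^ 2 := by nlinarith
  calc (C : ℝ) * ((1 + Real.log C) / (ℓ : ℝ) ^ 2) + C * ((1 + Real.log C) / ℓ) ^ 2
      = C * ((1 + Real.log C) + (1 + Real.log C) ^ 2) / (ℓ : ℝ) ^ 2 := by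
        field_simp
    _ ≤ 2 * C * (1 + Real.log C) ^ 2 / (ℓ : ℝ) ^ 2 := by
        refine div_le_div_of_nonneg_right ?_ (by positivity)
        nlinarith

end Pool.Agent.Helper6.PW
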