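import Mathlib
import Pool.Agent.Helper6.PW.Defs

/-!
# PW-19 PPs: large powers of a fixed prime in `φ(c)`

Rankin.  `φ(c) = ∏_{p ∣ c} (p - 1)` for squarefree `c`, so `ℓ^(v_ℓ(φ(c))) = ∏_{p ∣ c} ℓ^(v_ℓ(p-1))`.  For `c ∈ S`:
`1 ≤ (C / c) * ℓ^(v_ℓ(φ(c))/2) / √T` and `1 ≤ B^w B^(-ω(c))`, so
`#S ≤ (C B^w / √T) ∑_{c ∈ S} ∏_{p ∣ c} (ℓ^(v_ℓ(p-1)/2) / (B p)) ≤ (C B^w / √T) ∏_{p ≤ C} (1 + ℓ^(v_ℓ(p-1)/2)/(B p))`
(expand the product over the subsets of the primes `≤ C`; `c ↦ c.primeFactors` is injective on squarefree numbers)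
`≤ (C B^w / √T) exp ((1/B) ∑_{2 ≤ m ≤ C} ℓ^(v_ℓ(m-1)/2)/m)`.  Finally, as `ℓ^(v/2) ≤ ∑_{j ≤ v} ℓ^(j/2)`,
`∑_{2 ≤ m ≤ C} ℓ^(v_ℓ(m-1)/2)/m ≤ ∑_{j ≥ 0} ℓ^(j/2) ∑_{i ≥ 1, i ℓ^j + 1 ≤ C} 1/(i ℓ^j) ≤ (1 + log C) ∑_j ℓ^(-j/2)
≤ (1 + log C) ∑_j 2^(-j/2) ≤ 4 (1 + log C)` (`1/(1 - 1/√2) = 3.41..`; `∑_{i ≤ C} 1/i ≤ 1 + log C`).
-/

namespace Pool.Agent.Helper6.PW

open Finset

private theorem pps_fact {ℓ : ℕ} {c : ℕ} (hc : Squarefree c) :
    c.totient.factorization ℓ = ∑ p ∈ c.primeFactors, (p - 1).factorization ℓ := by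
  have h0 : c ≠ 0 := hc.ne_zero
  have h1 : c.totient = ∏ p ∈ c.primeFactors, (p - 1) := by
    have h2 := Nat.totient_mul_prod_primeFactors c
    rw [Nat.prod_primeFactors_of_squarefree hc, mul_comm] at h2
    exact Nat.eq_of_mul_eq_mul_left (Nat.pos_of_ne_zero h0) h2
  rw [h1, Nat.factorization_prod]
  · rw [Finsupp.finsetSum_apply]
  · intro p hp
    have := (Nat.prime_of_mem_primeFactors hp).two_le
    omega

private theorem pps_geom (n : ℕ) : ∑ j ∈ range n, (3 / 4 : ℝ) ^ j ≤ 4 := by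
  rw [geom_sum_eq (by norm_num)]
  have : (0 : ℝ) ≤ (3 / 4) ^ n := by positivity
  rw [div_le_iff_of_neg (by norm_num)]
  linarith

private theorem pps_sqrt {ℓ : ℕ} (hℓ : ℓ.Prime) : (Real.sqrt ℓ)⁻¹ ≤ 3 / 4 := by
  have h2 : (2 : ℝ) ≤ ℓ := by exact_mod_cast hℓ.two_le
  rw [inv_le_comm₀ (by positivity) (by norm_num)]
  apply Real.le_sqrt_of_sq_le
  norm_num
  linarith

private theorem pps_harm (C : ℕ) : ∑ i ∈ Icc 1 C, (1 : ℝ) / i ≤ 1 + Real.log C := by
  have h := harmonic_le_one_add_log C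
  have h2 : ((harmonic C : ℚ) : ℝ) = ∑ i ∈ Icc 1 C, (1 : ℝ) / i := by
    rw [harmonic_eq_sum_Icc]
    push_cast
    simp only [one_div]
  rw [h2] at h
  exact h

private theorem pps_sum {ℓ C : ℕ} (hℓ : ℓ.Prime) :
    ∑ m ∈ Icc 2 C, (Real.sqrt ℓ) ^ ((m - 1).factorization ℓ) / m ≤ 4 * (1 + Real.log C) := by
  set r := Real.sqrt ℓ with hr
  have hr0 : 0 < r := by
    rw [hr]
    have := hℓ.pos
    positivity
  have hrr : r * r = ℓ := Real.mul_self_sqrt (by positivity)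
  have hlog : 0 ≤ 1 + Real.log C := by
    have := Real.log_natCast_nonneg C
    linarith
  -- pointwise
  have h1 : ∀ m ∈ Icc 2 C, r ^ ((m - 1).factorization ℓ) / m ≤
      ∑ j ∈ range C, if ℓ ^ j ∣ m - 1 then r ^ j / m else 0 := by
    intro m hm
    rw [mem_Icc] at hm
    have hm1 : m - 1 ≠ 0 := by omega
    have hdvd : ℓ ^ ((m - 1).factorization ℓ) ∣ m - 1 := Nat.ordProj_dvd _ _
    have hlt : (m - 1).factorization ℓ < C := by
      have h2 := Nat.le_of_dvd (by omega) hdvd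
      have h3 := Nat.lt_pow_self hℓ.one_lt (n := (m - 1).factorization ℓ)
      omega
    have h4 := single_le_sum (f := fun j => if ℓ ^ j ∣ m - 1 then r ^ j / (m : ℝ) else 0)
      (s := range C) (fun j _ => by
        show 0 ≤ (if ℓ ^ j ∣ m - 1 then r ^ j / (m : ℝ) else 0)
        split_ifs <;> positivity) (mem_range.mpr hlt)
    simp only [hdvd, if_true] at h4
    exact h4
  -- inner sums
  have h2 : ∀ j ∈ range C, ∑ m ∈ Icc 2 C, (if ℓ ^ j ∣ m - 1 then r ^ j / (m : ℝ) else 0) ≤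
      (3 / 4) ^ j * (1 + Real.log C) := by
    intro j _
    have hℓj : 0 < ℓ ^ j := pow_pos hℓ.pos j
    have h3 : ∑ m ∈ Icc 2 C, (if ℓ ^ j ∣ m - 1 then r ^ j / (m : ℝ) else 0) ≤
        ∑ i ∈ Icc 1 C, r ^ j / ((i : ℝ) * (ℓ : ℝ) ^ j) := by
      rw [← sum_filter]
      have h5 : ∀ m ∈ (Icc 2 C).filter (fun m => ℓ ^ j ∣ m - 1), r ^ j / (m : ℝ) ≤
          r ^ j / ((((m - 1) / ℓ ^ j : ℕ) : ℝ) * (ℓ : ℝ) ^ j) := by
        intro m hm
        rw [mem_filter, mem_Icc] at hm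
        have h6 : (m - 1) / ℓ ^ j * ℓ ^ j = m - 1 := Nat.div_mul_cancel hm.2
        have h7 : ((((m - 1) / ℓ ^ j : ℕ) : ℝ) * (ℓ : ℝ) ^ j) = ((m - 1 : ℕ) : ℝ) := by
          exact_mod_cast h6
        rw [h7]
        apply div_le_div_of_nonneg_left (by positivity)
        · have : 0 < m - 1 := by omega
          exact_mod_cast this
        · exact_mod_cast Nat.sub_le m 1
      refine (sum_le_sum h5).trans ?_
      have hinj : Set.InjOn (fun m => (m - 1) / ℓ ^ j)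
          ((Icc 2 C).filter (fun m => ℓ ^ j ∣ m - 1) : Finset ℕ) := by
        intro a ha b hb hab
        rw [Finset.mem_coe, mem_filter, mem_Icc] at ha hb
        have h6 : (a - 1) / ℓ ^ j * ℓ ^ j = a - 1 := Nat.div_mul_cancel ha.2
        have h7 : (b - 1) / ℓ ^ j * ℓ ^ j = b - 1 := Nat.div_mul_cancel hb.2
        have hab' : (a - 1) / ℓ ^ j = (b - 1) / ℓ ^ j := hab
        rw [hab', h7] at h6
        omega
      rw [← sum_image (f := fun i : ℕ => r ^ j / ((i : ℝ) * (ℓ : ℝ) ^ j)) hinj]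
      apply sum_le_sum_of_subset_of_nonneg
      · intro i hi
        rw [mem_image] at hi
        obtain ⟨m, hm, rfl⟩ := hi
        rw [mem_filter, mem_Icc] at hm
        rw [mem_Icc]
        constructor
        · exact Nat.div_pos (Nat.le_of_dvd (by omega) hm.2) hℓj
        · exact (Nat.div_le_self _ _).trans (by omega)
      · intro i _ _
        positivity
    refine h3.trans ?_
    have h4 : ∑ i ∈ Icc 1 C, r ^ j / ((i : ℝ) * (ℓ : ℝ) ^ j) = (r⁻¹) ^ j * ∑ i ∈ Icc 1 C, (1 : ℝ) / i := by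
      rw [mul_sum]
      apply sum_congr rfl
      intro i hi
      rw [mem_Icc] at hi
      have hi0 : (i : ℝ) ≠ 0 := by
        have : i ≠ 0 := by omega
        exact_mod_cast this
      rw [← hrr, mul_pow, inv_pow]
      have : r ^ j ≠ 0 := by positivity
      field_simp
    rw [h4]
    apply mul_le_mul
    · exact pow_le_pow_left₀ (by positivity) (pps_sqrt hℓ) j
    · exact pps_harm C
    · positivity
    · positivity
  calc ∑ m ∈ Icc 2 C, r ^ ((m - 1).factorization ℓ) / m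
      ≤ ∑ m ∈ Icc 2 C, ∑ j ∈ range C, (if ℓ ^ j ∣ m - 1 then r ^ j / (m : ℝ) else 0) :=
        sum_le_sum h1
    _ = ∑ j ∈ range C, ∑ m ∈ Icc 2 C, (if ℓ ^ j ∣ m - 1 then r ^ j / (m : ℝ) else 0) := sum_comm
    _ ≤ ∑ j ∈ range C, (3 / 4) ^ j * (1 + Real.log C) := sum_le_sum h2
    _ = (∑ j ∈ range C, (3 / 4) ^ j) * (1 + Real.log C) := by rw [sum_mul]
    _ ≤ 4 * (1 + Real.log C) := mul_le_mul_of_nonneg_right (pps_geom C) hlog

theorem pp_small (ℓ C w T : ℕ) (hℓ : ℓ.Prime) (hC : 1 ≤ C) (hT : 1 ≤ T) (B : ℝ) (hB : 1 ≤ B)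
    (S : Finset ℕ) (hS : ∀ c ∈ S, 1 ≤ c ∧ c ≤ C ∧ Squarefree c ∧ c.primeFactors.card ≤ w ∧
      T < ℓ ^ (c.totient.factorization ℓ)) :
    (#S : ℝ) ≤ C * (B ^ w * Real.exp (4 * (1 + Real.log C) / B) / Real.sqrt T) := by
  set r := Real.sqrt ℓ with hr
  have hr0 : 0 < r := by
    rw [hr]
    have := hℓ.pos
    positivity
  have hB0 : 0 < B := by linarith
  have hT0 : 0 < Real.sqrt T := by positivity
  have hC0 : (0 : ℝ) < C := by exact_mod_cast hC
  set g : ℕ → ℝ := fun p => r ^ ((p - 1).factorization ℓ) / (B * p) with hg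
  have hg0 : ∀ p, 0 ≤ g p := by
    intro p
    simp only [hg]
    positivity
  set K : ℝ := C * B ^ w / Real.sqrt T with hK
  have hK0 : 0 ≤ K := by positivity
  -- pointwise
  have h1 : ∀ c ∈ S, (1 : ℝ) ≤ K * ∏ p ∈ c.primeFactors, g p := by
    intro c hc
    obtain ⟨hc1, hcC, hsq, hw, hTc⟩ := hS c hc
    have hc0 : (0 : ℝ) < c := by exact_mod_cast hc1
    have e1 : ∏ p ∈ c.primeFactors, g p =
        r ^ (c.totient.factorization ℓ) / (B ^ c.primeFactors.card * c) := by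
      simp only [hg]
      rw [prod_div_distrib, prod_mul_distrib, prod_const, prod_pow_eq_pow_sum, pps_fact hsq]
      congr 2
      have := Nat.prod_primeFactors_of_squarefree hsq
      rw [← Nat.cast_prod, this]
    have e2 : Real.sqrt T ≤ r ^ (c.totient.factorization ℓ) := by
      apply Real.sqrt_le_iff.mpr
      refine ⟨by positivity, ?_⟩
      rw [← pow_mul, mul_comm, pow_mul, hr, Real.sq_sqrt (by positivity)]
      exact_mod_cast hTc.le
    have e3 : B ^ c.primeFactors.card ≤ B ^ w := pow_le_pow_right₀ hB hw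
    have e4 : (c : ℝ) ≤ C := by exact_mod_cast hcC
    rw [e1, hK, div_mul_div_comm, le_div_iff₀ (by positivity), one_mul]
    calc Real.sqrt T * (B ^ c.primeFactors.card * c)
        ≤ r ^ (c.totient.factorization ℓ) * (B ^ w * C) := by gcongr
      _ = C * B ^ w * r ^ (c.totient.factorization ℓ) := by ring
  have h2 : (#S : ℝ) ≤ K * ∑ c ∈ S, ∏ p ∈ c.primeFactors, g p := by
    rw [mul_sum]
    calc (#S : ℝ) = ∑ c ∈ S, (1 : ℝ) := by simp
      _ ≤ _ := sum_le_sum h1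
  -- expand the product
  set P : Finset ℕ := (Icc 2 C).filter Nat.Prime with hP
  have h3 : ∑ c ∈ S, ∏ p ∈ c.primeFactors, g p ≤ ∏ p ∈ P, (1 + g p) := by
    rw [prod_one_add]
    have hinj : Set.InjOn (fun c : ℕ => c.primeFactors) (S : Set ℕ) := by
      intro a ha b hb hab
      have h4 := Nat.prod_primeFactors_of_squarefree (hS a ha).2.2.1
      have h5 := Nat.prod_primeFactors_of_squarefree (hS b hb).2.2.1
      have hab' : a.primeFactors = b.primeFactors := hab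
      rw [← h4, ← h5, hab']
    rw [← sum_image (f := fun s : Finset ℕ => ∏ p ∈ s, g p) hinj]
    apply sum_le_sum_of_subset_of_nonneg
    · intro s hs
      rw [mem_image] at hs
      obtain ⟨c, hc, rfl⟩ := hs
      rw [mem_powerset]
      intro p hp
      have hpp := Nat.prime_of_mem_primeFactors hp
      rw [hP, mem_filter, mem_Icc]
      refine ⟨⟨hpp.two_le, ?_⟩, hpp⟩
      exact (Nat.le_of_dvd (hS c hc).1 (Nat.dvd_of_mem_primeFactors hp)).trans (hS c hc).2.1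
    · intro s _ _
      exact prod_nonneg fun p _ => hg0 p
  have h4 : ∏ p ∈ P, (1 + g p) ≤ Real.exp (∑ p ∈ P, g p) := by
    rw [Real.exp_sum]
    apply prod_le_prod
    · intro p _
      have := hg0 p
      linarith
    · intro p _
      rw [add_comm]
      exact Real.add_one_le_exp _
  have h5 : ∑ p ∈ P, g p ≤ 4 * (1 + Real.log C) / B := by
    calc ∑ p ∈ P, g p ≤ ∑ m ∈ Icc 2 C, g m :=
          sum_le_sum_of_subset_of_nonneg (filter_subset _ _) (fun p _ _ => hg0 p)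
      _ = (∑ m ∈ Icc 2 C, r ^ ((m - 1).factorization ℓ) / m) / B := by
          rw [sum_div]
          apply sum_congr rfl
          intro m _
          simp only [hg]
          rw [div_div, mul_comm]
      _ ≤ 4 * (1 + Real.log C) / B := by
          apply div_le_div_of_nonneg_right (pps_sum hℓ) hB0.le
  calc (#S : ℝ) ≤ K * ∑ c ∈ S, ∏ p ∈ c.primeFactors, g p := h2
    _ ≤ K * Real.exp (4 * (1 + Real.log C) / B) := by
        apply mul_le_mul_of_nonneg_left _ hK0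
        exact h3.trans (h4.trans (Real.exp_le_exp.mpr h5))
    _ = C * (B ^ w * Real.exp (4 * (1 + Real.log C) / B) / Real.sqrt T) := by
        rw [hK]
        ring

end Pool.Agent.Helper6.PW
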