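import Mathlib
import Pool.Agent.Helper6.PW.PPs
import Pool.Agent.Helper6.PW.PPl

/-!
# PW-21 PPc: few `c` are exceptional

`Exc T c` gives a prime `ℓ` with `v = v_ℓ(φ(c)) ≥ 2`, `T < ℓ^v`; also `ℓ ∣ φ(c)`, so `ℓ ≤ C`.  Primes `ℓ ≤ T₀`: at most `T₀` classes, each bounded by
`pp_small`.  Primes `ℓ > T₀`: `ℓ^2 ∣ φ(c)` (`Nat.ordProj_dvd`/`factorization`), `pp_large`, and `∑_{ℓ > T₀} 1/ℓ^2 ≤ 2/T₀`
(`sum_inv_sq` of `LehmerCount.Dense`, or telescoping).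
-/

namespace Pool.Agent.Helper6.PW

open Finset

theorem pp (C w T T₀ : ℕ) (hC : 1 ≤ C) (hT : 1 ≤ T) (hT₀ : 1 ≤ T₀) (B : ℝ) (hB : 1 ≤ B)
    (S : Finset ℕ) (hS : ∀ c ∈ S, 1 ≤ c ∧ c ≤ C ∧ Squarefree c ∧ c.primeFactors.card ≤ w ∧ Exc T c) :
    (#S : ℝ) ≤ C * (T₀ * (B ^ w * Real.exp (4 * (1 + Real.log C) / B) / Real.sqrt T) +
      4 * (1 + Real.log C) ^ 2 / T₀) := by
  classical
  have hC0 : (0 : ℝ) ≤ C := Nat.cast_nonneg C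
  have hlog : 0 ≤ Real.log C := Real.log_natCast_nonneg C
  have hT00 : (0 : ℝ) < T₀ := by exact_mod_cast hT₀
  set K : ℝ := C * (B ^ w * Real.exp (4 * (1 + Real.log C) / B) / Real.sqrt T) with hK
  have hK0 : 0 ≤ K := by
    have : 0 ≤ B := by linarith
    positivity
  set Sm : ℕ → Finset ℕ := fun ℓ => S.filter (fun c => ℓ.Prime ∧ T < ℓ ^ (c.totient.factorization ℓ))
    with hSm
  set La : ℕ → Finset ℕ := fun ℓ => S.filter (fun c => ℓ.Prime ∧ ℓ ^ 2 ∣ c.totient) with hLa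
  have hsub : S ⊆ ((Icc 1 T₀).biUnion Sm) ∪ ((Ioc T₀ C).biUnion La) := by
    intro c hc
    obtain ⟨h1, h2, h3, h4, ℓ, hℓ, hv, hTl⟩ := hS c hc
    have hdvd : ℓ ^ (c.totient.factorization ℓ) ∣ c.totient := Nat.ordProj_dvd _ _
    have hpos : 0 < c.totient := Nat.totient_pos.mpr (by omega)
    rw [mem_union, mem_biUnion, mem_biUnion]
    rcases le_or_gt ℓ T₀ with hle | hgt
    · left
      refine ⟨ℓ, mem_Icc.mpr ⟨hℓ.one_lt.le, hle⟩, ?_⟩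
      simp only [hSm, mem_filter]
      exact ⟨hc, hℓ, hTl⟩
    · right
      refine ⟨ℓ, mem_Ioc.mpr ⟨hgt, ?_⟩, ?_⟩
      · have h5 : ℓ ∣ c.totient := (dvd_pow_self ℓ (by omega)).trans hdvd
        exact (Nat.le_of_dvd hpos h5).trans ((Nat.totient_le c).trans h2)
      · simp only [hLa, mem_filter]
        exact ⟨hc, hℓ, (pow_dvd_pow ℓ hv).trans hdvd⟩
  have hsmall : ∀ ℓ ∈ Icc 1 T₀, (#(Sm ℓ) : ℝ) ≤ K := by
    intro ℓ _
    by_cases hℓ : ℓ.Prime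
    · apply pp_small ℓ C w T hℓ hC hT B hB
      intro c hc
      simp only [hSm, mem_filter] at hc
      obtain ⟨h1, h2, h3, h4, _⟩ := hS c hc.1
      exact ⟨h1, h2, h3, h4, hc.2.2⟩
    · have : Sm ℓ = ∅ := by
        simp only [hSm]
        apply filter_eq_empty_iff.mpr
        intro c _ h
        exact hℓ h.1
      rw [this]
      simpa using hK0
  have hlarge : ∀ ℓ ∈ Ioc T₀ C, (#(La ℓ) : ℝ) ≤ 2 * C * (1 + Real.log C) ^ 2 * ((ℓ : ℝ) ^ 2)⁻¹ := by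
    intro ℓ _
    by_cases hℓ : ℓ.Prime
    · have := pp_large ℓ C hℓ hC (La ℓ) (by
        intro c hc
        simp only [hLa, mem_filter] at hc
        obtain ⟨h1, h2, h3, _, _⟩ := hS c hc.1
        exact ⟨h1, h2, h3, hc.2.2⟩)
      rw [div_eq_mul_inv] at this
      exact this
    · have : La ℓ = ∅ := by
        simp only [hLa]
        apply filter_eq_empty_iff.mpr
        intro c _ h
        exact hℓ h.1
      rw [this]
      simp only [card_empty, Nat.cast_zero]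
      positivity
  have hinv : ∑ ℓ ∈ Ioc T₀ C, ((ℓ : ℝ) ^ 2)⁻¹ ≤ (T₀ : ℝ)⁻¹ := by
    rcases le_or_gt T₀ C with h | h
    · have h1 := sum_Ioc_inv_sq_le_sub (α := ℝ) (k := T₀) (n := C) (by omega) h
      have h2 : (0 : ℝ) ≤ (C : ℝ)⁻¹ := by positivity
      linarith
    · rw [Ioc_eq_empty (by omega)]
      simp
  have h1 : (#S : ℝ) ≤ (#((Icc 1 T₀).biUnion Sm) : ℝ) + #((Ioc T₀ C).biUnion La) := by
    exact_mod_cast (card_le_card hsub).trans (card_union_le _ _)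
  have h2 : (#((Icc 1 T₀).biUnion Sm) : ℝ) ≤ T₀ * K := by
    calc (#((Icc 1 T₀).biUnion Sm) : ℝ) ≤ ∑ ℓ ∈ Icc 1 T₀, (#(Sm ℓ) : ℝ) := by
          exact_mod_cast card_biUnion_le
      _ ≤ ∑ _ℓ ∈ Icc 1 T₀, K := sum_le_sum hsmall
      _ = T₀ * K := by simp
  have h3 : (#((Ioc T₀ C).biUnion La) : ℝ) ≤ 2 * C * (1 + Real.log C) ^ 2 * (T₀ : ℝ)⁻¹ := by
    calc (#((Ioc T₀ C).biUnion La) : ℝ) ≤ ∑ ℓ ∈ Ioc T₀ C, (#(La ℓ) : ℝ) := by
          exact_mod_cast card_biUnion_le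
      _ ≤ ∑ ℓ ∈ Ioc T₀ C, 2 * C * (1 + Real.log C) ^ 2 * ((ℓ : ℝ) ^ 2)⁻¹ := sum_le_sum hlarge
      _ = 2 * C * (1 + Real.log C) ^ 2 * ∑ ℓ ∈ Ioc T₀ C, ((ℓ : ℝ) ^ 2)⁻¹ := (mul_sum _ _ _).symm
      _ ≤ 2 * C * (1 + Real.log C) ^ 2 * (T₀ : ℝ)⁻¹ := by
          apply mul_le_mul_of_nonneg_left hinv
          positivity
  have h4 : 0 ≤ (C : ℝ) * (1 + Real.log C) ^ 2 * (T₀ : ℝ)⁻¹ := by positivity
  have h5 : (C : ℝ) * (T₀ * (B ^ w * Real.exp (4 * (1 + Real.log C) / B) / Real.sqrt T) +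
      4 * (1 + Real.log C) ^ 2 / T₀) = T₀ * K + 4 * (C * (1 + Real.log C) ^ 2 * (T₀ : ℝ)⁻¹) := by
    rw [hK]
    ring
  rw [h5]
  linarith

end Pool.Agent.Helper6.PW
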