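import Mathlib
import Pool.Agent.Helper6.PW.CntK
import Pool.Agent.Helper6.PW.InitCnt
import Pool.Agent.Helper6.PW.PPc
import Pool.Agent.Helper6.PW.NumA
import Pool.Agent.Helper6.PW.NumE
import Pool.Agent.Helper6.PW.NumI
import Pool.Agent.Helper6.PW.Omega

/-!
# PW-29 CaseA: power saving when the product of the primes below `2^(b-32Λτ)` is large

`Λ = 2^(L+4)`.  Parameters: `X = 2^l`, `P = 2^b`, `W = l + 1`, `Z = 2^(b-32Λτ)`, `s₀ = 2^(8Λτ)`, `s₁ = 2^(Λτ)`, `ζ = (l+1)/2 - b + τ`,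
`z = 2^ζ`, `H = 2^(2τ)/(24 (l+1)^2)` (natural division), `T = 2^(b/2)`, `T₀ = 2^(b/8)`, `w = ⌊κ₁ l⌋` with `κ₁`, `B` from `numE`.
For `n ∈ S`: `ω(n) ≤ l ≤ W` (`card_primeFactors_lt`, `Idx.index_le`: `LehmerCount.Growth`), `ω(n) ≤ w` for large `l` (`omega_small`); the index `k` of `n`
(`exists_idx`) is `≤ ω(n) + 1 ≤ l + 1`, so `S = ⋃_{k ∈ range (l+2)} S_k`, `#S ≤ (l + 2) max_k #S_k`.
Conditions of `cntK` (for `l ≥ l₀`): `1 ≤ H` and `2^(2τ) ≤ 48 (l+1)^2 H` (as `2^(2τ) ≥ 24 (l+1)^2`); `2 W ≤ s₀`; `Z ≤ P`; `T ≤ Z` (`64Λτ ≤ b`);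
`s₀ ≤ Z`; `s₁ ≤ z` because `2b + 2Λτ ≤ l`; `6 H (X/P^2) (2W)^2 = 24 (l+1)^2 H * 2^(l-2b) ≤ 2^(2τ + l - 2b) ≤ 2^(2ζ) = z^2`, because
`2ζ = 2((l+1)/2) - 2b + 2τ ≥ l - 2b + 2τ`; `((W+1) z^2)^2 ≤ ((W+1) Z)^L`: `2ζ ≤ l + 1 - 2b + 2τ ≤ l` and `2 l ≤ L (b - 32Λτ)`, `L ≥ 2`.
`#excC ≤ z (T₀ (…) + …)` by `pp`, `#iniC ≤ …` by `iniC_card`; then `numA`, `numE`, `numI` (`Λ ≥ 16` gives `1024 τ ≤ b`; `ζ ≤ l`).
-/

namespace Pool.Agent.Helper6.PW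

open Finset Pool.Agent.Helper6.Lehmer Pool.Agent.Helper6.LehmerCount

private theorem growA (κ : ℝ) (hκ : 0 < κ) : ∃ l₀ : ℕ, ∀ l τ : ℕ, l₀ ≤ l → κ * l ≤ τ →
    48 * (l + 1) ^ 2 ≤ 2 ^ (2 * τ) := by
  have hr : (1 : ℝ) < (2 : ℝ) ^ (2 * κ) := Real.one_lt_rpow (by norm_num) (by linarith)
  have h1 := tendsto_pow_const_div_const_pow_of_one_lt 2 hr
  have h2 : ∀ᶠ l : ℕ in Filter.atTop, ((l : ℝ)) ^ 2 / ((2 : ℝ) ^ (2 * κ)) ^ l < 1 / 192 :=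
    h1.eventually (gt_mem_nhds (by norm_num))
  obtain ⟨l₀, hl₀⟩ := Filter.eventually_atTop.1 h2
  refine ⟨l₀ + 1, fun l τ hl hτ => ?_⟩
  have h3 := hl₀ l (by omega)
  have hl1 : (1 : ℝ) ≤ l := by exact_mod_cast (show 1 ≤ l by omega)
  have hpos : (0 : ℝ) < ((2 : ℝ) ^ (2 * κ)) ^ l := by positivity
  rw [div_lt_iff₀ hpos] at h3
  have h4 : ((2 : ℝ) ^ (2 * κ)) ^ l ≤ (2 : ℝ) ^ (2 * τ) := by
    rw [← Real.rpow_natCast, ← Real.rpow_mul (by norm_num : (0 : ℝ) ≤ 2), ← Real.rpow_natCast 2 (2 * τ)]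
    apply Real.rpow_le_rpow_of_exponent_le (by norm_num)
    push_cast
    nlinarith
  have h5 : (48 : ℝ) * (l + 1) ^ 2 ≤ (2 : ℝ) ^ (2 * τ) := by nlinarith
  exact_mod_cast h5

theorem caseA (L : ℕ) (κ : ℝ) (hL : 2 ≤ L) (hκ : 0 < κ) : ∃ l₀ : ℕ, ∀ l b τ : ℕ, l₀ ≤ l →
    κ * l ≤ τ → 64 * 2 ^ (L + 4) * τ ≤ b → 2 * b + 2 * 2 ^ (L + 4) * τ ≤ l →
    2 * l ≤ L * (b - 32 * 2 ^ (L + 4) * τ) → ∀ S : Finset ℕ,
    (∀ n ∈ S, IsLehmer n ∧ n ≤ 2 ^ l ∧ (∃ p ∈ n.primeFactors, 2 ^ b < p ∧ p ≤ 2 ^ (b + 1)) ∧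
      2 ^ ((l + 1) / 2 - b + τ) < sm (2 ^ (b - 32 * 2 ^ (L + 4) * τ)) n) →
    (#S : ℝ) ≤ (2 : ℝ) ^ ((l : ℝ) / 2 - (τ : ℝ) / 2) := by
  obtain ⟨C, hC, hK⟩ := cntK L
  obtain ⟨lA, hA⟩ := numA L C κ hC hκ
  obtain ⟨B, κ₁, hB, hκ₁, lE, hE⟩ := numE κ hκ
  obtain ⟨lI, hI⟩ := numI L κ hκ
  obtain ⟨lw, hw⟩ := omega_small κ₁ hκ₁
  obtain ⟨lg, hg⟩ := growA κ hκ
  refine ⟨lA + lE + lI + lw + lg + 1, ?_⟩
  intro l b τ hl hτ hb hbl hLl S hS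
  have hgr := hg l τ (by omega) hτ
  have hAt := fun ζ H => hA l b τ ζ H (by omega) hτ
  have hEt := fun ζ w => hE l b τ ζ w (by omega) hτ
  have hIt := fun ζ Dm => hI l b τ ζ Dm (by omega) hτ
  have hwt := fun n => hw l n (by omega)
  clear hA hE hI hw hg
  have hτ1 : 1 ≤ τ := by
    have h1 : (0 : ℝ) < τ := lt_of_lt_of_le (mul_pos hκ (by exact_mod_cast (show 0 < l by omega))) hτ
    exact_mod_cast h1
  have hΛ16 : 16 ≤ 2 ^ (L + 4) := by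
    calc 16 = 2 ^ 4 := by norm_num
      _ ≤ 2 ^ (L + 4) := Nat.pow_le_pow_right (by norm_num) (by omega)
  obtain ⟨M, hM⟩ : ∃ M, M = 2 ^ (L + 4) * τ := ⟨_, rfl⟩
  have e1 : 64 * 2 ^ (L + 4) * τ = 64 * M := by rw [hM]; ring
  have e2 : 2 * 2 ^ (L + 4) * τ = 2 * M := by rw [hM]; ring
  have e3 : 32 * 2 ^ (L + 4) * τ = 32 * M := by rw [hM]; ring
  have e4 : 8 * 2 ^ (L + 4) * τ = 8 * M := by rw [hM]; ring
  have hMτ : 16 * τ ≤ M := by rw [hM]; exact Nat.mul_le_mul_right τ hΛ16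
  simp only [e1, e2, e3, e4, ← hM] at *
  clear e1 e2 e3 e4
  obtain ⟨ζ, hζ⟩ : ∃ ζ, ζ = (l + 1) / 2 - b + τ := ⟨_, rfl⟩
  rw [← hζ] at hS
  obtain ⟨Hn, hHn⟩ : ∃ Hn, Hn = 2 ^ (2 * τ) / (24 * (l + 1) ^ 2) := ⟨_, rfl⟩
  obtain ⟨w, hwd⟩ : ∃ w, w = ⌊κ₁ * l⌋₊ := ⟨_, rfl⟩
  have hwle : (w : ℝ) ≤ κ₁ * l := by
    rw [hwd]
    exact Nat.floor_le (by positivity)
  have hm0 : 0 < 24 * (l + 1) ^ 2 := by positivity
  have hHn1 : 1 ≤ Hn := by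
    rw [hHn, Nat.le_div_iff_mul_le hm0]
    omega
  have hHmul : 24 * (l + 1) ^ 2 * Hn ≤ 2 ^ (2 * τ) := by
    rw [hHn]
    exact Nat.mul_div_le _ _
  have hHle : Hn ≤ 2 ^ (2 * τ) := by
    rw [hHn]
    exact Nat.div_le_self _ _
  have hH48 : 2 ^ (2 * τ) ≤ 48 * (l + 1) ^ 2 * Hn := by
    have h1 : 2 ^ (2 * τ) < 24 * (l + 1) ^ 2 * (2 ^ (2 * τ) / (24 * (l + 1) ^ 2) + 1) :=
      Nat.lt_mul_div_succ _ hm0
    rw [← hHn] at h1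
    have h2 : 24 * (l + 1) ^ 2 * (Hn + 1) ≤ 24 * (l + 1) ^ 2 * (2 * Hn) :=
      Nat.mul_le_mul_left _ (by omega)
    have h3 : 24 * (l + 1) ^ 2 * (2 * Hn) = 48 * (l + 1) ^ 2 * Hn := by ring
    omega
  have hζ1 : 2 * (ζ + b) ≤ l + 1 + 2 * τ := by omega
  have hζ2 : l + 2 * τ ≤ 2 * (ζ + b) := by omega
  have hζl : ζ ≤ l := by omega
  have h2ζ : 2 * ζ ≤ l := by omega
  -- the bound for one index
  obtain ⟨EE, hEE⟩ : ∃ EE : ℝ, EE = (2 : ℝ) ^ ζ * ((2 : ℝ) ^ (b / 8) * (B ^ w * Real.exp (4 * (1 + Real.log ((2 : ℝ) ^ ζ)) / B) /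
        Real.sqrt ((2 : ℝ) ^ (b / 2))) + 4 * (1 + Real.log ((2 : ℝ) ^ ζ)) ^ 2 / (2 : ℝ) ^ (b / 8)) := ⟨_, rfl⟩
  obtain ⟨II, hII⟩ : ∃ II : ℝ, II = ((ζ : ℝ) + 1) * (24 * ((l : ℝ) + 1) ^ 2 * 2 ^ ζ /
          Real.sqrt ((2 : ℝ) ^ (8 * M))) := ⟨_, rfl⟩
  obtain ⟨AA, hAA⟩ : ∃ AA : ℝ, AA = (2 : ℝ) ^ ζ * ((2 : ℝ) ^ b * (4 / Hn + C *
      ((2 * ((l : ℝ) + 1) * Hn / 2 ^ M) ^ ((1 : ℝ) / 4) +
        (2 : ℝ) ^ M * 2 ^ (8 * M) *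
          (((l : ℝ) + 2) * 2 ^ (b - 32 * M)) / 2 ^ b) ^ ((1 : ℝ) / 2 ^ L))) := ⟨_, rfl⟩
  have hexc : ∀ k : ℕ, (#(excC k (l + 1) w (2 ^ ζ) (2 ^ (b / 2))) : ℝ) ≤ EE := by
    intro k
    have h1 := pp (2 ^ ζ) w (2 ^ (b / 2)) (2 ^ (b / 8)) Nat.one_le_two_pow Nat.one_le_two_pow Nat.one_le_two_pow B hB
      (excC k (l + 1) w (2 ^ ζ) (2 ^ (b / 2))) (by
        intro c hc
        unfold excC at hc
        simp only [Finset.mem_filter, Finset.mem_Icc] at hc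
        exact ⟨hc.1.1, hc.1.2, hc.2.1, hc.2.2.1, hc.2.2.2.2.2.2⟩)
    push_cast at h1
    rw [hEE]
    exact h1
  have hini : ∀ k : ℕ, (#(iniC k (l + 1) (2 ^ (8 * M)) (2 ^ M) (2 ^ ζ)) : ℝ) ≤ II := by
    intro k
    have h1 := iniC_card k (l + 1) (2 ^ (8 * M)) (2 ^ M) ζ (by omega) Nat.one_le_two_pow
    push_cast at h1
    rw [hII]
    exact h1
  obtain ⟨Dm, hDm⟩ : ∃ Dm, Dm = 2 ^ l / (2 ^ b) ^ 2 := ⟨_, rfl⟩
  have hDmle : Dm * 2 ^ (2 * b) ≤ 2 ^ l := by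
    rw [hDm, mul_comm 2 b, pow_mul]
    exact Nat.div_mul_le_self _ _
  have hcond1 : 6 * Hn * (2 ^ l / (2 ^ b) ^ 2) * (2 * (l + 1)) ^ 2 ≤ (2 ^ ζ) ^ 2 := by
    have h1 : 2 ^ l / (2 ^ b) ^ 2 = 2 ^ (l - 2 * b) := by
      rw [← pow_mul, mul_comm b 2]
      exact Nat.pow_div (by omega) (by norm_num)
    rw [h1]
    calc 6 * Hn * 2 ^ (l - 2 * b) * (2 * (l + 1)) ^ 2 = 24 * (l + 1) ^ 2 * Hn * 2 ^ (l - 2 * b) := by ring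
      _ ≤ 2 ^ (2 * τ) * 2 ^ (l - 2 * b) := Nat.mul_le_mul_right _ hHmul
      _ = 2 ^ (2 * τ + (l - 2 * b)) := by rw [pow_add]
      _ ≤ 2 ^ (ζ * 2) := Nat.pow_le_pow_right (by norm_num) (by omega)
      _ = (2 ^ ζ) ^ 2 := by rw [pow_mul]
  have hcond2 : ((l + 1 + 1) * (2 ^ ζ) ^ 2) ^ 2 ≤ ((l + 1 + 1) * 2 ^ (b - 32 * M)) ^ L := by
    calc ((l + 1 + 1) * (2 ^ ζ) ^ 2) ^ 2 = (l + 1 + 1) ^ 2 * 2 ^ (ζ * 4) := by
          rw [pow_mul]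
          ring
      _ ≤ (l + 1 + 1) ^ L * 2 ^ ((b - 32 * M) * L) := by
          refine Nat.mul_le_mul (Nat.pow_le_pow_right (by omega) hL) (Nat.pow_le_pow_right (by norm_num) ?_)
          have h1 : L * (b - 32 * M) = (b - 32 * M) * L := mul_comm _ _
          omega
      _ = ((l + 1 + 1) * 2 ^ (b - 32 * M)) ^ L := by
          rw [mul_pow, pow_mul]
  obtain ⟨Sk, hSk⟩ : ∃ Sk : ℕ → Finset ℕ, Sk = fun k => by classical exact S.filter (fun n => Idx n k) := ⟨_, rfl⟩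
  have hone : ∀ k : ℕ, (#(Sk k) : ℝ) ≤ AA + (2 : ℝ) ^ b * EE +
      (2 : ℝ) ^ b * (1 + (Dm : ℝ) * (2 * ((l : ℝ) + 1) * 2 ^ M) ^ 2 / ((2 : ℝ) ^ ζ) ^ 2) * II := by
    intro k
    have h1 := hK k (l + 1) w (2 ^ (b - 32 * M)) (2 ^ (8 * M)) (2 ^ M) (2 ^ ζ) (2 ^ (b / 2)) (2 ^ l) (2 ^ b) Hn (Sk k)
      (by omega) (by omega) Nat.one_le_two_pow hHn1
      (Nat.pow_le_pow_right (by norm_num) (by omega))
      (Nat.pow_le_pow_right (by norm_num) (by omega))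
      Nat.one_le_two_pow
      (by
        calc 2 * (l + 1) ≤ 48 * (l + 1) ^ 2 := by nlinarith
          _ ≤ 2 ^ (2 * τ) := hgr
          _ ≤ 2 ^ (8 * M) := Nat.pow_le_pow_right (by norm_num) (by omega))
      (Nat.pow_le_pow_right (by norm_num) (by omega))
      (Nat.pow_le_pow_right (by norm_num) (by omega))
      hcond1 hcond2
      (by
        intro n hn
        rw [hSk] at hn
        simp only [Finset.mem_filter] at hn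
        obtain ⟨hnS, hk⟩ := hn
        obtain ⟨h2, h3, ⟨q, hq, hq1, hq2⟩, h4⟩ := hS n hnS
        have hom : n.primeFactors.card < l + 1 := card_primeFactors_lt h2.squarefree (by
          calc n ≤ 2 ^ l := h3
            _ < 2 ^ (l + 1) := Nat.pow_lt_pow_right (by norm_num) (by omega))
        refine ⟨hk, h3, by omega, ?_, ⟨q, hq, hq1, ?_⟩, h4⟩
        · rw [hwd]
          exact Nat.le_floor (hwt n h2.one_lt.le h3)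
        · rw [pow_succ] at hq2
          omega)
    rw [← hDm] at h1
    push_cast at h1
    have h5 : ((l : ℝ) + 1 + 1) = l + 2 := by ring
    rw [h5, ← hAA] at h1
    refine h1.trans (add_le_add (add_le_add le_rfl ?_) ?_)
    · exact mul_le_mul_of_nonneg_left (hexc k) (by positivity)
    · exact mul_le_mul_of_nonneg_left (hini k) (by positivity)
  have hcard : (#S : ℝ) ≤ ∑ k ∈ Finset.range (l + 2), (#(Sk k) : ℝ) := by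
    have h1 : S ⊆ (Finset.range (l + 2)).biUnion Sk := by
      intro n hn
      obtain ⟨h2, h3, _, h4⟩ := hS n hn
      obtain ⟨k, hk⟩ := exists_idx h2
      have hom : n.primeFactors.card < l + 1 := card_primeFactors_lt h2.squarefree (by
        calc n ≤ 2 ^ l := h3
          _ < 2 ^ (l + 1) := Nat.pow_lt_pow_right (by norm_num) (by omega))
      have hki := hk.index_le
      rw [Finset.mem_biUnion]
      refine ⟨k, Finset.mem_range.2 (by omega), ?_⟩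
      rw [hSk]
      simp only [Finset.mem_filter]
      exact ⟨hn, hk⟩
    have h2 := (Finset.card_le_card h1).trans Finset.card_biUnion_le
    exact_mod_cast h2
  have hAf := hAt ζ Hn (by omega) hζ1 hH48 hHle
  have hEf := hEt ζ w (by omega) hζ1 hζl hwle
  have hIf := hIt ζ Dm hζ1 hζ2 hζl hDmle
  rw [← hAA] at hAf
  rw [← hEE] at hEf
  rw [← hII] at hIf
  calc (#S : ℝ) ≤ ∑ k ∈ Finset.range (l + 2), (#(Sk k) : ℝ) := hcard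
    _ ≤ ∑ _k ∈ Finset.range (l + 2), (AA + (2 : ℝ) ^ b * EE +
      (2 : ℝ) ^ b * (1 + (Dm : ℝ) * (2 * ((l : ℝ) + 1) * 2 ^ M) ^ 2 / ((2 : ℝ) ^ ζ) ^ 2) * II) :=
        Finset.sum_le_sum fun k _ => hone k
    _ = ((l : ℝ) + 2) * AA + ((l : ℝ) + 2) * ((2 : ℝ) ^ b * EE) +
      ((l : ℝ) + 2) * ((2 : ℝ) ^ b * (1 + (Dm : ℝ) * (2 * ((l : ℝ) + 1) * 2 ^ M) ^ 2 / ((2 : ℝ) ^ ζ) ^ 2) * II) := by
        rw [Finset.sum_const, Finset.card_range, nsmul_eq_mul]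
        push_cast
        ring
    _ ≤ (2 : ℝ) ^ ((l : ℝ) / 2 - (τ : ℝ) / 2) := by linarith

end Pool.Agent.Helper6.PW
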