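import Mathlib
import Pool.Agent.Helper6.PW.Defs

/-!
# PW-30 Seg: the elementary bound with `i` comparable largest primes

For `n ∈ S` let `r` be the `i`-th largest prime factor: `r ∣ n` prime, `#{q ∣ n : q ≥ r} = i`, so `r ≥ 2^v`.  Put `u = sm r n`, `n = u * lg r n`,
`lg r n` is a product of `i` primes in `[2^v, 2^(b+1)]`, so `2^(i v) ≤ lg r n ≤ 2^(i(b+1))`, `u ≤ 2^(l - i v)` (as reals), `u 2^(i(b+1)) > 2^(l-1)`.
Index `k ≤ ω(n) + 1 ≤ l + 1` (`Idx.index_le`, `card_primeFactors_lt`), `W = l + 1`.  `α = Nat.log 2 u ≤ l`: `u ∈ Lset k W 2^v (2^α)` by `sm_mem`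
(`2W ≤ 2^v ≤ r`).  `2^v ≤ r < 2 ω(n) u ≤ 4 W 2^α` (`Idx.prime_le`), in particular `u ≥ 2`, and `card_Lset`: `#Lset ≤ 24 W^2 2^α/√(2^v)`.
By `card_divisor` each `u` divides at most `2 * 2^l/u^2 + 1 ≤ 2^(l+1-2α) + 1` of the `n` of index `k`.  So
`#S ≤ ∑_{k ≤ l+1} ∑_α 24 (l+1)^2 (2^(l+1-α) + 2^α) 2^(-v/2)`, over `α ≤ l` with `2^α ≤ 2^(l - i v)` and `2^(α+1) 2^(i(b+1)) > 2^(l-1)`; in this range
`2^(l+1-α) ≤ 2^(i(b+1)+3)`.  Total `≤ (l+2)(l+1) 24 (l+1)^2 (2^(l - i v - v/2) + 2^(i b + i + 3 - v/2))`; `C` is a large constant depending on `I`.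
-/

namespace Pool.Agent.Helper6.PW

open Finset Pool.Agent.Helper6.Lehmer Pool.Agent.Helper6.LehmerCount Pool.Agent.Helper58.LT

private theorem seg_ith (T : Finset ℕ) : ∀ i : ℕ, 1 ≤ i → i ≤ #T →
    ∃ r ∈ T, #{q ∈ T | r ≤ q} = i := by
  classical
  induction T using Finset.strongInduction with
  | H T ih =>
    intro i hi hiT
    have hne : T.Nonempty := by
      rw [← Finset.card_pos]; omega
    rcases Nat.lt_or_ge i #T with hlt | hge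
    · have hmin := T.min'_mem hne
      have hss : T.erase (T.min' hne) ⊂ T := Finset.erase_ssubset hmin
      have hc : #(T.erase (T.min' hne)) = #T - 1 := Finset.card_erase_of_mem hmin
      obtain ⟨r, hr, hrc⟩ := ih _ hss i hi (by omega)
      rw [Finset.mem_erase] at hr
      refine ⟨r, hr.2, ?_⟩
      rw [← hrc]
      congr 1
      ext q
      rw [mem_filter, mem_filter, mem_erase]
      constructor
      · rintro ⟨h1, h2⟩
        refine ⟨⟨?_, h1⟩, h2⟩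
        have h3 := T.min'_le r hr.2
        rintro rfl
        exact hr.1 (le_antisymm h2 h3)
      · rintro ⟨⟨_, h1⟩, h2⟩
        exact ⟨h1, h2⟩
    · refine ⟨T.min' hne, T.min'_mem hne, ?_⟩
      have : {q ∈ T | T.min' hne ≤ q} = T := by
        ext q
        rw [mem_filter]
        exact ⟨fun h => h.1, fun h => ⟨h, T.min'_le q h⟩⟩
      rw [this]
      omega

/-- the data of one `n` -/
private theorem seg_one {n l i b v : ℕ} (hi : 1 ≤ i) (hv : 2 * (l + 1) ≤ 2 ^ v)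
    (hn : IsLehmer n) (hlow : 2 ^ (l - 1) < n) (hup : n ≤ 2 ^ l)
    (hb : ∀ q ∈ n.primeFactors, q ≤ 2 ^ (b + 1)) (hc : i ≤ #{q ∈ n.primeFactors | 2 ^ v ≤ q}) :
    ∃ k α u : ℕ, k < l + 2 ∧ α < l + 1 ∧ 2 ^ α * (2 ^ v) ^ i ≤ 2 ^ l ∧
      2 ^ (l - 1) < 2 ^ (α + 1) * (2 ^ (b + 1)) ^ i ∧ 2 ^ v ≤ 4 * (l + 1) * 2 ^ α ∧
      u ∈ Lset k (l + 1) ((2 : ℝ) ^ v) (2 ^ α) ∧ 2 ≤ u ∧ Idx n k ∧ u ∣ n := by
  classical
  obtain ⟨k, hk⟩ := exists_idx hn
  have hsq := hn.squarefree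
  have hom : n.primeFactors.card < l + 1 := card_primeFactors_lt hsq
    (lt_of_le_of_lt hup (Nat.pow_lt_pow_right (by norm_num) (by omega)))
  obtain ⟨r, hr, hrc⟩ := seg_ith {q ∈ n.primeFactors | 2 ^ v ≤ q} i hi hc
  rw [mem_filter] at hr
  obtain ⟨hrp, hrv⟩ := hr
  have hset : {q ∈ n.primeFactors | ¬ q < r} =
      {q ∈ {q ∈ n.primeFactors | 2 ^ v ≤ q} | r ≤ q} := by
    ext q
    simp only [mem_filter, not_lt]
    constructor
    · rintro ⟨h1, h2⟩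
      exact ⟨⟨h1, hrv.trans h2⟩, h2⟩
    · rintro ⟨⟨h1, _⟩, h2⟩
      exact ⟨h1, h2⟩
  have hmul := sm_mul_lg hsq r
  have hlg : lg r n = ∏ q ∈ {q ∈ n.primeFactors | ¬ q < r}, q := rfl
  have hlow2 : (2 ^ v) ^ i ≤ lg r n := by
    rw [hlg, hset, ← hrc, ← Finset.prod_const]
    apply Finset.prod_le_prod'
    intro q hq
    rw [mem_filter, mem_filter] at hq
    exact hq.1.2
  have hup2 : lg r n ≤ (2 ^ (b + 1)) ^ i := by
    rw [hlg, hset, ← hrc, ← Finset.prod_const]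
    apply Finset.prod_le_prod'
    intro q hq
    rw [mem_filter, mem_filter] at hq
    exact hb q hq.1.1
  have hprime := hk.prime_le hrp
  have hu0 := sm_pos r n
  obtain ⟨u, hu⟩ : ∃ u, u = sm r n := ⟨_, rfl⟩
  have hmem := fun (α : ℕ) (h1 : 2 ^ α ≤ sm r n) (h2 : sm r n < 2 * 2 ^ α) =>
    sm_mem (n := n) (k := k) (W := l + 1) (p := r) (a := 2 ^ α) (H := (2 : ℝ) ^ v) hk (by omega) hrp
      (hv.trans hrv) (by positivity) (by exact_mod_cast hrv) h1 h2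
  have hdvd : sm r n ∣ n := sm_dvd r
  rw [← hu] at hmul hprime hu0 hmem hdvd
  have hu2 : 2 ≤ u := by
    by_contra hcon
    have hu1 : u = 1 := by omega
    rw [hu1] at hprime
    omega
  have hα1 : 2 ^ Nat.log 2 u ≤ u := Nat.pow_log_le_self 2 (by omega)
  have hα2 : u < 2 ^ (Nat.log 2 u + 1) := Nat.lt_pow_succ_log_self (by norm_num) u
  have hα2' : u < 2 * 2 ^ Nat.log 2 u := by
    rw [pow_succ] at hα2; omega
  obtain ⟨α, hα⟩ : ∃ α, α = Nat.log 2 u := ⟨_, rfl⟩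
  rw [← hα] at hα1 hα2 hα2'
  have hun : u ≤ n := Nat.le_of_dvd (lt_trans Nat.zero_lt_one hn.one_lt) hdvd
  have hαl : α < l + 1 := by
    have h1 : 2 ^ α ≤ 2 ^ l := hα1.trans (hun.trans hup)
    have h2 := (Nat.pow_le_pow_iff_right (by norm_num : 1 < 2)).1 h1
    omega
  refine ⟨k, α, u, ?_, hαl, ?_, ?_, ?_, hmem α hα1 hα2', hu2, hk, hdvd⟩
  · have := hk.index_le
    omega
  · calc 2 ^ α * (2 ^ v) ^ i ≤ u * lg r n := Nat.mul_le_mul hα1 hlow2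
      _ = n := hmul
      _ ≤ 2 ^ l := hup
  · calc 2 ^ (l - 1) < n := hlow
      _ = u * lg r n := hmul.symm
      _ ≤ 2 ^ (α + 1) * (2 ^ (b + 1)) ^ i := Nat.mul_le_mul hα2.le hup2
  · have h1 : 2 * n.primeFactors.card * u ≤ 2 * (l + 1) * (2 * 2 ^ α) :=
      Nat.mul_le_mul (Nat.mul_le_mul_left 2 hom.le) hα2'.le
    calc 2 ^ v ≤ r := hrv
      _ ≤ 2 * n.primeFactors.card * u := hprime.le
      _ ≤ 2 * (l + 1) * (2 * 2 ^ α) := h1
      _ = 4 * (l + 1) * 2 ^ α := by ring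

theorem seg (I : ℕ) : ∃ C : ℕ, ∀ i l b v : ℕ, 1 ≤ i → i ≤ I → 1 ≤ l → 2 * (l + 1) ≤ 2 ^ v →
    ∀ S : Finset ℕ, (∀ n ∈ S, IsLehmer n ∧ 2 ^ (l - 1) < n ∧ n ≤ 2 ^ l ∧
      (∀ q ∈ n.primeFactors, q ≤ 2 ^ (b + 1)) ∧ i ≤ #{q ∈ n.primeFactors | 2 ^ v ≤ q}) →
    (#S : ℝ) ≤ C * ((l : ℝ) + 1) ^ C * ((2 : ℝ) ^ ((l : ℝ) - i * v - v / 2) +
      (2 : ℝ) ^ ((i : ℝ) * b - v / 2)) := by
  classical
  refine ⟨384 * 2 ^ I, ?_⟩
  intro i l b v hi hiI hl hv S hS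
  set A : Finset ℕ := (range (l + 1)).filter (fun α => 2 ^ α * (2 ^ v) ^ i ≤ 2 ^ l ∧
      2 ^ (l - 1) < 2 ^ (α + 1) * (2 ^ (b + 1)) ^ i ∧ 2 ^ v ≤ 4 * (l + 1) * 2 ^ α) with hA
  have hsub : S ⊆ (range (l + 2)).biUnion (fun k => A.biUnion (fun α =>
      ((Lset k (l + 1) ((2 : ℝ) ^ v) (2 ^ α)).filter (fun u => 2 ≤ u)).biUnion (fun u =>
        S.filter (fun n => Idx n k ∧ u ∣ n)))) := by
    intro n hn
    obtain ⟨h1, h2, h3, h4, h5⟩ := hS n hn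
    obtain ⟨k, α, u, g1, g2, g3, g4, g5, g6, g7, g8, g9⟩ := seg_one hi hv h1 h2 h3 h4 h5
    simp only [mem_biUnion, mem_filter, mem_range, hA]
    exact ⟨k, g1, α, ⟨g2, g3, g4, g5⟩, u, ⟨g6, g7⟩, hn, g8, g9⟩
  have hsv : 0 < Real.sqrt ((2 : ℝ) ^ v) := Real.sqrt_pos.2 (by positivity)
  -- the contribution of one pair
  set M : ℝ := 24 * ((l : ℝ) + 1) ^ 2 / Real.sqrt ((2 : ℝ) ^ v) *
    (8 * 2 ^ i * 2 ^ (i * b) + 2 ^ l / 2 ^ (i * v)) with hM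
  have hM0 : 0 ≤ M := by positivity
  have hone : ∀ k ∈ range (l + 2), ∀ α ∈ A,
      ∑ u ∈ (Lset k (l + 1) ((2 : ℝ) ^ v) (2 ^ α)).filter (fun u => 2 ≤ u),
        (#(S.filter (fun n => Idx n k ∧ u ∣ n)) : ℝ) ≤ M := by
    intro k _ α hα
    rw [hA, mem_filter, mem_range] at hα
    obtain ⟨hα0, hα1, hα2, hα3⟩ := hα
    have hα1R : (2 : ℝ) ^ α * 2 ^ (i * v) ≤ 2 ^ l := by
      have : (2 : ℝ) ^ α * ((2 : ℝ) ^ v) ^ i ≤ 2 ^ l := by exact_mod_cast hα1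
      rwa [← pow_mul, mul_comm v i] at this
    have hα2R : (2 : ℝ) ^ l < 4 * 2 ^ α * (2 ^ i * 2 ^ (i * b)) := by
      have h0 : (2 : ℝ) ^ (l - 1) < (2 : ℝ) ^ (α + 1) * ((2 : ℝ) ^ (b + 1)) ^ i := by
        exact_mod_cast hα2
      have h1 : (2 : ℝ) ^ l = 2 * 2 ^ (l - 1) := by
        conv_lhs => rw [show l = (l - 1) + 1 by omega]
        rw [pow_succ]; ring
      have h2 : ((2 : ℝ) ^ (b + 1)) ^ i = 2 ^ i * 2 ^ (i * b) := by
        rw [← pow_mul, ← pow_add]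
        congr 1
        ring
      rw [h2, pow_succ] at h0
      rw [h1]
      nlinarith
    have hc : ∀ u ∈ (Lset k (l + 1) ((2 : ℝ) ^ v) (2 ^ α)).filter (fun u => 2 ≤ u),
        (#(S.filter (fun n => Idx n k ∧ u ∣ n)) : ℝ) ≤ 2 * 2 ^ l / ((2 : ℝ) ^ α) ^ 2 + 1 := by
      intro u hu
      rw [mem_filter] at hu
      obtain ⟨hu1, hu2⟩ := hu
      unfold Lset at hu1
      rw [mem_filter, mem_Ico] at hu1
      have h1 := card_divisor (S := S.filter (fun n => Idx n k ∧ u ∣ n)) (k := k) (D := u)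
        (X := 2 ^ l) hu2 (by
          intro n hn
          rw [mem_filter] at hn
          exact ⟨hn.2.1, (hS n hn.1).2.2.1, hn.2.2⟩)
      refine h1.trans ?_
      have h2 : ((2 : ℝ) ^ α) ^ 2 ≤ (u : ℝ) ^ 2 := by
        apply pow_le_pow_left₀ (by positivity)
        exact_mod_cast hu1.1.1
      push_cast
      have h3 : (2 : ℝ) * 2 ^ l / (u : ℝ) ^ 2 ≤ 2 * 2 ^ l / ((2 : ℝ) ^ α) ^ 2 :=
        div_le_div_of_nonneg_left (by positivity) (by positivity) h2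
      linarith
    have hcard : (#((Lset k (l + 1) ((2 : ℝ) ^ v) (2 ^ α)).filter (fun u => 2 ≤ u)) : ℝ) ≤
        24 * ((l : ℝ) + 1) ^ 2 * 2 ^ α / Real.sqrt ((2 : ℝ) ^ v) := by
      have h1 : #((Lset k (l + 1) ((2 : ℝ) ^ v) (2 ^ α)).filter (fun u => 2 ≤ u)) ≤
          #(Lset k (l + 1) ((2 : ℝ) ^ v) (2 ^ α)) := card_filter_le _ _
      have h2 := card_Lset k (l + 1) (2 ^ α) ((2 : ℝ) ^ v) (by omega)
        (one_le_pow₀ (by norm_num)) (by push_cast; exact_mod_cast hα3)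
      push_cast at h2
      exact le_trans (by exact_mod_cast h1) h2
    calc ∑ u ∈ (Lset k (l + 1) ((2 : ℝ) ^ v) (2 ^ α)).filter (fun u => 2 ≤ u),
          (#(S.filter (fun n => Idx n k ∧ u ∣ n)) : ℝ)
        ≤ ∑ u ∈ (Lset k (l + 1) ((2 : ℝ) ^ v) (2 ^ α)).filter (fun u => 2 ≤ u),
          (2 * 2 ^ l / ((2 : ℝ) ^ α) ^ 2 + 1) := sum_le_sum hc
      _ = (#((Lset k (l + 1) ((2 : ℝ) ^ v) (2 ^ α)).filter (fun u => 2 ≤ u)) : ℝ) *
          (2 * 2 ^ l / ((2 : ℝ) ^ α) ^ 2 + 1) := by rw [sum_const, nsmul_eq_mul]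
      _ ≤ 24 * ((l : ℝ) + 1) ^ 2 * 2 ^ α / Real.sqrt ((2 : ℝ) ^ v) *
          (2 * 2 ^ l / ((2 : ℝ) ^ α) ^ 2 + 1) :=
          mul_le_mul_of_nonneg_right hcard (by positivity)
      _ = 24 * ((l : ℝ) + 1) ^ 2 / Real.sqrt ((2 : ℝ) ^ v) *
          (2 * 2 ^ l / 2 ^ α + 2 ^ α) := by
          field_simp
      _ ≤ M := by
          rw [hM]
          apply mul_le_mul_of_nonneg_left _ (by positivity)
          apply add_le_add
          · rw [div_le_iff₀ (by positivity)]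
            nlinarith
          · rw [le_div_iff₀ (by positivity)]
            exact hα1R
  have htotal : (#S : ℝ) ≤ ((l : ℝ) + 2) * (((l : ℝ) + 1) * M) := by
    have h1 : #S ≤ ∑ k ∈ range (l + 2), ∑ α ∈ A,
        ∑ u ∈ (Lset k (l + 1) ((2 : ℝ) ^ v) (2 ^ α)).filter (fun u => 2 ≤ u),
          #(S.filter (fun n => Idx n k ∧ u ∣ n)) := by
      refine (card_le_card hsub).trans (card_biUnion_le.trans (sum_le_sum fun k _ => ?_))
      refine card_biUnion_le.trans (sum_le_sum fun α _ => ?_)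
      exact card_biUnion_le
    calc (#S : ℝ) ≤ ((∑ k ∈ range (l + 2), ∑ α ∈ A,
          ∑ u ∈ (Lset k (l + 1) ((2 : ℝ) ^ v) (2 ^ α)).filter (fun u => 2 ≤ u),
            #(S.filter (fun n => Idx n k ∧ u ∣ n)) : ℕ) : ℝ) := by exact_mod_cast h1
      _ = ∑ k ∈ range (l + 2), ∑ α ∈ A,
          ∑ u ∈ (Lset k (l + 1) ((2 : ℝ) ^ v) (2 ^ α)).filter (fun u => 2 ≤ u),
            (#(S.filter (fun n => Idx n k ∧ u ∣ n)) : ℝ) := by push_cast; rfl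
      _ ≤ ∑ k ∈ range (l + 2), ∑ α ∈ A, M :=
          sum_le_sum fun k hk => sum_le_sum fun α hα => hone k hk α hα
      _ = ((l : ℝ) + 2) * ((#A : ℝ) * M) := by
          rw [sum_const, sum_const, card_range, nsmul_eq_mul, nsmul_eq_mul]
          push_cast
          ring
      _ ≤ ((l : ℝ) + 2) * (((l : ℝ) + 1) * M) := by
          apply mul_le_mul_of_nonneg_left _ (by positivity)
          apply mul_le_mul_of_nonneg_right _ hM0
          have h5 : #A ≤ l + 1 := (card_filter_le _ _).trans (by rw [card_range])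
          exact_mod_cast h5
  refine htotal.trans ?_
  -- powers
  have hsqrt : Real.sqrt ((2 : ℝ) ^ v) = (2 : ℝ) ^ ((v : ℝ) / 2) := by
    rw [Real.sqrt_eq_rpow, ← Real.rpow_natCast, ← Real.rpow_mul (by norm_num)]
    congr 1
    ring
  have hp1 : (2 : ℝ) ^ ((i : ℝ) * b - v / 2) = 2 ^ (i * b) / (2 : ℝ) ^ ((v : ℝ) / 2) := by
    rw [Real.rpow_sub (by norm_num)]
    congr 1
    rw [← Real.rpow_natCast]
    push_cast
    rfl
  have hp2 : (2 : ℝ) ^ ((l : ℝ) - i * v - v / 2) = 2 ^ l / 2 ^ (i * v) / (2 : ℝ) ^ ((v : ℝ) / 2) := by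
    rw [Real.rpow_sub (by norm_num), Real.rpow_sub (by norm_num)]
    congr 1
    rw [← Real.rpow_natCast, ← Real.rpow_natCast]
    push_cast
    rfl
  rw [hp1, hp2, hM, hsqrt]
  set z : ℝ := (2 : ℝ) ^ ((v : ℝ) / 2) with hz
  have hz0 : 0 < z := by positivity
  have hL1 : (1 : ℝ) ≤ (l : ℝ) + 1 := by
    have : (0 : ℝ) ≤ l := Nat.cast_nonneg l
    linarith
  have h2i : (2 : ℝ) ^ i ≤ 2 ^ I := pow_le_pow_right₀ (by norm_num) hiI
  have h2i1 : (1 : ℝ) ≤ 2 ^ I := one_le_pow₀ (by norm_num)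
  set P : ℝ := 2 ^ (i * b) with hP
  set Q : ℝ := 2 ^ l / 2 ^ (i * v) with hQ
  have hP0 : 0 < P := by positivity
  have hQ0 : 0 < Q := by positivity
  have hpow : ((l : ℝ) + 1) ^ 4 ≤ ((l : ℝ) + 1) ^ (384 * 2 ^ I) := by
    apply pow_le_pow_right₀ hL1
    have : 1 ≤ 2 ^ I := Nat.one_le_two_pow
    omega
  have hl2 : (l : ℝ) + 2 ≤ 2 * ((l : ℝ) + 1) := by linarith
  have hPQ : 8 * 2 ^ i * P + Q ≤ 8 * 2 ^ I * (Q + P) := by
    have h1 : 8 * 2 ^ i * P ≤ 8 * 2 ^ I * P := by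
      apply mul_le_mul_of_nonneg_right _ hP0.le
      linarith
    have h2 : Q ≤ 8 * 2 ^ I * Q := by nlinarith
    linarith
  calc ((l : ℝ) + 2) * (((l : ℝ) + 1) * (24 * ((l : ℝ) + 1) ^ 2 / z * (8 * 2 ^ i * P + Q)))
      ≤ (2 * ((l : ℝ) + 1)) * (((l : ℝ) + 1) * (24 * ((l : ℝ) + 1) ^ 2 / z *
        (8 * 2 ^ I * (Q + P)))) := by
        apply mul_le_mul hl2 _ (by positivity) (by positivity)
        apply mul_le_mul_of_nonneg_left _ (by positivity)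
        exact mul_le_mul_of_nonneg_left hPQ (by positivity)
    _ = (384 * 2 ^ I) * ((l : ℝ) + 1) ^ 4 * ((Q + P) / z) := by ring
    _ ≤ (384 * 2 ^ I) * ((l : ℝ) + 1) ^ (384 * 2 ^ I) * ((Q + P) / z) := by
        apply mul_le_mul_of_nonneg_right _ (by positivity)
        exact mul_le_mul_of_nonneg_left hpow (by positivity)
    _ = _ := by
        push_cast
        ring

end Pool.Agent.Helper6.PW
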