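import Mathlib
import Pool.Agent.Helper6.PW.Defs

/-!
# PW-31 SegLow: three lower bounds

`low_few`: `n = sm (2^v) n * lg (2^v) n` (`sm_mul_lg`), and `lg (2^v) n` is a product of at most `j` primes `≤ 2^(b+1)`.
`low_next`: let `r` be the least prime factor `≥ 2^v`; `sm r n = sm (2^v) n` and `r < 2 ω(n) sm r n` (`Idx.prime_le`).
`top_small`: `p < 2 ω(n) sm p n`, `p * sm p n ≤ n` (`p` divides `lg p n`), `ω(n) ≤ l` (`card_primeFactors_lt`): `2^(2b) < p^2 < 2 ω(n) n`.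
-/

namespace Pool.Agent.Helper6.PW

open Finset Pool.Agent.Helper6.Lehmer Pool.Agent.Helper6.LehmerCount

theorem low_few {n l b v j : ℕ} (hn : IsLehmer n) (hl : 2 ^ (l - 1) < n)
    (hq : ∀ q ∈ n.primeFactors, q ≤ 2 ^ (b + 1)) (hj : #{q ∈ n.primeFactors | 2 ^ v ≤ q} ≤ j) :
    2 ^ (l - 1) < sm (2 ^ v) n * 2 ^ ((b + 1) * j) := by
  have hsq := hn.squarefree
  have h1 : lg (2 ^ v) n ≤ 2 ^ ((b + 1) * j) := by
    unfold lg
    have h2 : #(n.primeFactors.filter fun p => ¬ p < 2 ^ v) ≤ j := by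
      refine le_trans (Finset.card_le_card fun p hp => ?_) hj
      rw [mem_filter] at hp ⊢
      exact ⟨hp.1, not_lt.1 hp.2⟩
    calc ∏ p ∈ n.primeFactors with ¬ p < 2 ^ v, p
        ≤ (2 ^ (b + 1)) ^ #(n.primeFactors.filter fun p => ¬ p < 2 ^ v) :=
          Finset.prod_le_pow_card _ _ _ fun p hp => hq p (mem_filter.1 hp).1
      _ ≤ (2 ^ (b + 1)) ^ j := Nat.pow_le_pow_right (by positivity) h2
      _ = 2 ^ ((b + 1) * j) := by rw [← pow_mul]
  calc 2 ^ (l - 1) < n := hl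
    _ = sm (2 ^ v) n * lg (2 ^ v) n := (sm_mul_lg hsq _).symm
    _ ≤ sm (2 ^ v) n * 2 ^ ((b + 1) * j) := Nat.mul_le_mul_left _ h1

theorem low_next {n k v : ℕ} (h : Idx n k) (hex : ∃ q ∈ n.primeFactors, 2 ^ v ≤ q) :
    2 ^ v < 2 * n.primeFactors.card * sm (2 ^ v) n := by
  have hne : (n.primeFactors.filter fun q => 2 ^ v ≤ q).Nonempty := by
    obtain ⟨q, hq, hq2⟩ := hex
    exact ⟨q, mem_filter.2 ⟨hq, hq2⟩⟩
  obtain ⟨r, hr, hmin⟩ := Finset.exists_min_image _ (fun q => q) hne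
  rw [mem_filter] at hr
  have h1 : sm r n = sm (2 ^ v) n := by
    unfold sm
    congr 1
    ext p
    rw [mem_filter, mem_filter]
    constructor
    · rintro ⟨hp, hpr⟩
      refine ⟨hp, ?_⟩
      by_contra hcon
      have := hmin p (mem_filter.2 ⟨hp, not_lt.1 hcon⟩)
      omega
    · rintro ⟨hp, hpv⟩
      exact ⟨hp, lt_of_lt_of_le hpv hr.2⟩
  have h2 := h.prime_le hr.1
  rw [h1] at h2
  exact lt_of_le_of_lt hr.2 h2

theorem top_small {n k l b p : ℕ} (h : Idx n k) (hn : n ≤ 2 ^ l) (hp : p ∈ n.primeFactors)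
    (hb : 2 ^ b < p) : 2 ^ (2 * b) < 2 * (l + 1) * 2 ^ l := by
  have hsq := h.lehmer.squarefree
  have h1 := h.prime_le hp
  have h2 : sm p n * p ≤ n := by
    have h3 := Nat.le_of_dvd (by have := h.lehmer.one_lt; omega) (sm_dvd (n := n) (p + 1))
    rw [sm_succ, if_pos hp] at h3
    exact h3
  have h4 : n.primeFactors.card < l + 1 :=
    card_primeFactors_lt hsq (lt_of_le_of_lt hn (Nat.pow_lt_pow_right (by norm_num) (by omega)))
  have hp0 : 0 < p := (Nat.prime_of_mem_primeFactors hp).pos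
  calc 2 ^ (2 * b) = 2 ^ b * 2 ^ b := by rw [two_mul, pow_add]
    _ ≤ p * p := Nat.mul_le_mul hb.le hb.le
    _ < 2 * n.primeFactors.card * sm p n * p := Nat.mul_lt_mul_of_pos_right h1 hp0
    _ = 2 * n.primeFactors.card * (sm p n * p) := by ring
    _ ≤ 2 * (l + 1) * 2 ^ l :=
        Nat.mul_le_mul (Nat.mul_le_mul_left _ h4.le) (h2.trans hn)

end Pool.Agent.Helper6.PW
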