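import Mathlib
import Pool.Agent.Helper6.PW.CaseA
import Pool.Agent.Helper6.PW.Seg
import Pool.Agent.Helper6.PW.SegLow

/-!
# PW-32 Blk: one dyadic block

Replace `U` by `max U 4` and put `ε' = min ε (1/4)` (the hypothesis for `ε` implies `|u - (2i+1)| ≥ ε'` or the second alternative).  `u = l/b ≤ U`.
`η = ε'/(256 U) ≤ 1/4096`, `L = ⌈8 U⌉₊`, `Λ = 2^(L+4)`, `τ = ⌊η b/Λ⌋₊`, `v = b - 32Λτ`.  So `Λτ ≤ η b`, `v ≥ (1 - 32η) b ≥ (1 - ε'/(8U)) b ≥ 0.99 b`,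
and `τ ≥ κ l` with `κ = η/(2ΛU)` for large `l` (`b ≥ l/U`).  Constants: `κ`, `L` give `l₀` of `caseA`; `I = ⌈U⌉₊ + 2` gives `C` of `seg`.
The conclusion of `caseA` is `≤ 2^((1/2 - κ/2) l)`.  Conditions of `caseA` if `u ≥ 5/2`: `64Λτ ≤ 64 η b ≤ b`; `2b + 2Λτ ≤ (2 + 2η) b ≤ 5b/2 ≤ l`;
`2 l ≤ L v`, as `v ≥ b/2 ≥ l/(2U)`, `L ≥ 8U`.
`S` nonempty w.l.o.g.  Write `N_v(n) = #{q ∣ n : q ≥ 2^v}` (`≥ 1`, since `P ≥ 2^b ≥ 2^v`).
* `u ≤ 5/2`: `seg` with `i = 1`: `C (l+1)^C (2^(l - 3v/2) + 2^(b - v/2))`; `v ≥ 0.99 b ≥ 0.396 l` gives `l - 3v/2 ≤ 0.406 l`; `top_small`: `2b ≤ l + log₂(2(l+1))`,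
  `b ≤ 0.51 l`, `b - v/2 ≤ 0.505 b ≤ 0.26 l`.  Total `≤ 2^(0.45 l)`.
* `5/2 < u ≤ 15/4`: `caseA` for all of `S`: `low_next` (index from `exists_idx`, `ω(n) ≤ l`) `sm (2^v) n > 2^v/(2(l+1))`, and `v - log₂(2l+2) ≥ (l+1)/2 - b + τ` because
  `2b ≥ (8/15) l` and `32Λτ + τ ≤ 33 η b ≤ 0.01 b`.
* `u > 15/4`: `i = ⌊(u+1)/2⌋₊ ≥ 2`, `2i - 1 ≤ u < 2i + 1`.
  - if `|u - (2j+1)| < ε'` for `j = i` or `j = i - 1`: then `j ≥ 2` (`2j+1 > u - 1/4 ≥ 3.5`), so for every `n ∈ S` fewer than `j + 2` prime factors are `≥ 2^((1-ε) b)`, hence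
    `N_v(n) ≤ j + 1` (`v ≥ (1-ε) b`).  `low_few`: `2^(l-1) < sm (2^v) n * 2^((b+1)(j+1))`, and `l - 1 - (b+1)(j+1) ≥ (l+1)/2 - b + τ` since
    `l/2 ≥ (j + 1/2 - ε'/2) b ≥ j b + (3/8) b` and `(3/8) b ≥ j + 4 + τ` for large `l`.  `caseA`.
  - otherwise `2i - 1 + ε' ≤ u ≤ 2i + 1 - ε'`.  `S = S₁ ∪ S₂`, `N_v(n) ≥ i` resp. `≤ i - 1`.
    `S₁`: `seg` with `i`: `(i + 1/2) v ≥ (i+1/2) b - 32η(i+1/2) b ≥ (l + ε' b)/2 - 32 η l ≥ l/2 + (3/8) ε' b` (`2i + 1 ≥ u + ε'`; `i + 1/2 ≤ u/2 + 1 ≤ u`; `32 η l = ε' l/(8U) ≤ ε' b/8`), and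
    `i b - v/2 ≤ (i - 1/2) b + 16 η b ≤ (l - ε' b)/2 + 16 η b ≤ l/2 - (3/8) ε' b`; with `b ≥ l/U` a saving `2^(-(3/8) ε' l/U)`.
    `S₂`: `low_few` with `j = i - 1`: `l - 1 - (b+1)(i-1) ≥ (l+1)/2 - b + τ`, since `l/2 ≥ (i - 1/2) b`.  `caseA`.
-/

namespace Pool.Agent.Helper6.PW

open Finset Pool.Agent.Helper6.Lehmer Pool.Agent.Helper6.LehmerCount

private theorem blk_ev (A : ℝ) (C : ℕ) (δ : ℝ) (hδ : 0 < δ) : ∃ l₀ : ℕ, ∀ l : ℕ, l₀ ≤ l →
    A * ((l : ℝ) + 1) ^ C ≤ (2 : ℝ) ^ (δ * l) := by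
  have hr : (1 : ℝ) < (2 : ℝ) ^ δ := Real.one_lt_rpow (by norm_num) hδ
  have hr0 : (0 : ℝ) < (2 : ℝ) ^ δ := by positivity
  have h1 := tendsto_pow_const_div_const_pow_of_one_lt C hr
  have hpos : (0 : ℝ) < 1 / ((|A| + 1) * (2 : ℝ) ^ δ) := by positivity
  have h2 := (h1.eventually (gt_mem_nhds hpos)).exists_forall_of_atTop
  obtain ⟨n₀, h3⟩ := h2
  refine ⟨n₀, fun l hl => ?_⟩
  have h4 := h3 (l + 1) (by omega)
  have h5 : (0 : ℝ) < ((2 : ℝ) ^ δ) ^ (l + 1) := by positivity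
  rw [div_lt_div_iff₀ h5 (by positivity), one_mul] at h4
  have h6 : ((2 : ℝ) ^ δ) ^ (l + 1) = (2 : ℝ) ^ (δ * l) * (2 : ℝ) ^ δ := by
    rw [pow_succ, ← Real.rpow_natCast ((2 : ℝ) ^ δ) l, ← Real.rpow_mul (by norm_num)]
  rw [h6, ← mul_assoc] at h4
  have h7 := lt_of_mul_lt_mul_right h4 hr0.le
  push_cast at h7
  have h8 : 0 ≤ ((l : ℝ) + 1) ^ C := by positivity
  have h9 : A ≤ |A| + 1 := (le_abs_self A).trans (by linarith)
  nlinarith

private theorem blk_few {l b j ζ s : ℕ} (h : 2 ^ (l - 1) < s * 2 ^ ((b + 1) * j))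
    (hζ : ζ + (b + 1) * j ≤ l - 1) : 2 ^ ζ < s := by
  have h1 : 2 ^ ζ * 2 ^ ((b + 1) * j) < s * 2 ^ ((b + 1) * j) := by
    rw [← pow_add]
    exact lt_of_le_of_lt (Nat.pow_le_pow_right (by norm_num) hζ) h
  exact lt_of_mul_lt_mul_right h1 (Nat.zero_le _)

private theorem blk_two {C l : ℕ} {δ E F : ℝ} (h : 2 * (C : ℝ) * ((l : ℝ) + 1) ^ C ≤ (2 : ℝ) ^ (δ * l))
    (hE : E ≤ (1 / 2 - 3 * δ) * l) (hF : F ≤ (1 / 2 - 3 * δ) * l) :
    C * ((l : ℝ) + 1) ^ C * ((2 : ℝ) ^ E + (2 : ℝ) ^ F) ≤ (2 : ℝ) ^ ((1 / 2 - 2 * δ) * l) := by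
  have h1 : (2 : ℝ) ^ E ≤ (2 : ℝ) ^ ((1 / 2 - 3 * δ) * l) :=
    Real.rpow_le_rpow_of_exponent_le (by norm_num) hE
  have h2 : (2 : ℝ) ^ F ≤ (2 : ℝ) ^ ((1 / 2 - 3 * δ) * l) :=
    Real.rpow_le_rpow_of_exponent_le (by norm_num) hF
  have h3 : (0 : ℝ) ≤ C * ((l : ℝ) + 1) ^ C := by positivity
  have h4 : (0 : ℝ) < (2 : ℝ) ^ ((1 / 2 - 3 * δ) * l) := by positivity
  calc C * ((l : ℝ) + 1) ^ C * ((2 : ℝ) ^ E + (2 : ℝ) ^ F)
      ≤ C * ((l : ℝ) + 1) ^ C * ((2 : ℝ) ^ ((1 / 2 - 3 * δ) * l) + (2 : ℝ) ^ ((1 / 2 - 3 * δ) * l)) :=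
        mul_le_mul_of_nonneg_left (add_le_add h1 h2) h3
    _ = (2 * (C : ℝ) * ((l : ℝ) + 1) ^ C) * (2 : ℝ) ^ ((1 / 2 - 3 * δ) * l) := by ring
    _ ≤ (2 : ℝ) ^ (δ * l) * (2 : ℝ) ^ ((1 / 2 - 3 * δ) * l) := mul_le_mul_of_nonneg_right h h4.le
    _ = (2 : ℝ) ^ ((1 / 2 - 2 * δ) * l) := by
        rw [← Real.rpow_add (by norm_num)]
        congr 1
        ring

theorem blk (ε : ℝ) (hε : 0 < ε) (U : ℝ) (hU : 1 ≤ U) : ∃ δ : ℝ, 0 < δ ∧ ∃ l₀ : ℕ, ∀ l b : ℕ,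
    l₀ ≤ l → (l : ℝ) ≤ U * b → ∀ S : Finset ℕ,
    (∀ n ∈ S, IsLehmer n ∧ 2 ^ (l - 1) < n ∧ n ≤ 2 ^ l ∧
      (∃ p, IsP n p ∧ 2 ^ b < p ∧ p ≤ 2 ^ (b + 1)) ∧
      ∀ i : ℕ, 2 ≤ i → ε ≤ |(l : ℝ) / b - (2 * i + 1)| ∨
        #(n.primeFactors.filter (fun q : ℕ => (2 : ℝ) ^ ((1 - ε) * b) ≤ (q : ℝ))) < i + 2) →
    (#S : ℝ) ≤ (2 : ℝ) ^ ((1 / 2 - δ) * l) := by
  classical
  set U' : ℝ := max U 4 with hU'
  have hUU : U ≤ U' := le_max_left _ _
  have hU4 : 4 ≤ U' := le_max_right _ _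
  have hU0 : 0 < U' := by linarith
  set ε' : ℝ := min ε (1 / 4) with hε'
  have he0 : 0 < ε' := lt_min hε (by norm_num)
  have he1 : ε' ≤ ε := min_le_left _ _
  have he4 : ε' ≤ 1 / 4 := min_le_right _ _
  set L : ℕ := ⌈8 * U'⌉₊ with hL
  have hL8 : 8 * U' ≤ L := Nat.le_ceil _
  have hL2 : 2 ≤ L := by
    have : (2 : ℝ) ≤ L := by linarith
    exact_mod_cast this
  set Λ : ℝ := 2 ^ (L + 4) with hΛ
  have hΛ1 : 1 ≤ Λ := one_le_pow₀ (by norm_num)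
  have hΛ0 : 0 < Λ := by linarith
  set η : ℝ := ε' / (256 * U') with hη
  have hη0 : 0 < η := by positivity
  have hηU : η * U' = ε' / 256 := by
    rw [hη]
    field_simp
  have hη1 : η ≤ 1 / 4096 := by
    rw [hη, div_le_iff₀ (by positivity)]
    linarith
  set κ : ℝ := η / (2 * Λ * U') with hκ
  have hκ0 : 0 < κ := by positivity
  obtain ⟨lA, hA⟩ := caseA L κ hL2 hκ0
  obtain ⟨C, hC⟩ := seg (⌈U'⌉₊ + 2)
  set δ : ℝ := min (1 / 60) (min (κ / 4) (ε' / (8 * U'))) with hδ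
  have hδ0 : 0 < δ := lt_min (by norm_num) (lt_min (by positivity) (by positivity))
  have hδ1 : δ ≤ 1 / 60 := min_le_left _ _
  have hδ2 : δ ≤ κ / 4 := (min_le_right _ _).trans (min_le_left _ _)
  have hδ3 : δ ≤ ε' / (8 * U') := (min_le_right _ _).trans (min_le_right _ _)
  set θ : ℝ := 1 / (1000 * U') with hθ
  have hθ0 : 0 < θ := by positivity
  obtain ⟨l1, h1⟩ := blk_ev (2 * (C : ℝ)) C δ hδ0
  obtain ⟨l2, h2⟩ := blk_ev 2 1 θ hθ0
  obtain ⟨l3, h3⟩ := blk_ev 2 0 δ hδ0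
  refine ⟨δ, hδ0, max (max lA (max l1 l2)) (max l3 (max ⌈1 / κ⌉₊ ⌈1000 * U' * (U' + 10)⌉₊)),
    fun l b hl hlb S hS => ?_⟩
  have hlA : lA ≤ l := (le_max_left _ _).trans ((le_max_left _ _).trans hl)
  have hl1 : l1 ≤ l := (le_max_left _ _).trans ((le_max_right _ _).trans ((le_max_left _ _).trans hl))
  have hl2 : l2 ≤ l := (le_max_right _ _).trans ((le_max_right _ _).trans ((le_max_left _ _).trans hl))
  have hl3 : l3 ≤ l := (le_max_left _ _).trans ((le_max_right _ _).trans hl)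
  have hl4 : 1 / κ ≤ l := (Nat.le_ceil _).trans (by
    exact_mod_cast (le_max_left _ _).trans ((le_max_right _ _).trans ((le_max_right _ _).trans hl)))
  have hl5 : 1000 * U' * (U' + 10) ≤ l := (Nat.le_ceil _).trans (by
    exact_mod_cast (le_max_right _ _).trans ((le_max_right _ _).trans ((le_max_right _ _).trans hl)))
  have e1 := h1 l hl1
  have e2 := h2 l hl2
  have e3 := h3 l hl3
  rw [pow_one] at e2
  rw [pow_zero, mul_one] at e3
  have hb0 : (0 : ℝ) ≤ b := Nat.cast_nonneg _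
  have hlU : (l : ℝ) ≤ U' * b := hlb.trans (mul_le_mul_of_nonneg_right hUU hb0)
  have hbig : 1000 * (U' + 10) ≤ b := by
    have h4 : U' * (1000 * (U' + 10)) ≤ U' * b := by nlinarith
    exact le_of_mul_le_mul_left h4 hU0
  have hbpos : (0 : ℝ) < b := by nlinarith
  have hl0 : (1 : ℝ) ≤ l := by nlinarith
  have hl0' : 1 ≤ l := by exact_mod_cast hl0
  have hθl : θ * l ≤ b / 1000 := by
    rw [hθ]
    have : 1 / (1000 * U') * (l : ℝ) ≤ 1 / (1000 * U') * (U' * b) :=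
      mul_le_mul_of_nonneg_left hlU (by positivity)
    refine this.trans (le_of_eq ?_)
    field_simp
  -- the parameter tau
  set τ : ℕ := ⌊η * b / Λ⌋₊ with hτ
  have hτle : Λ * τ ≤ η * b := by
    have h4 : (τ : ℝ) ≤ η * b / Λ := Nat.floor_le (by positivity)
    rw [le_div_iff₀ hΛ0] at h4
    linarith
  have hτle' : (τ : ℝ) ≤ η * b := by
    have : (τ : ℝ) ≤ Λ * τ := by
      have h5 : (0 : ℝ) ≤ τ := Nat.cast_nonneg _
      nlinarith
    linarith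
  have hτge : κ * l ≤ τ := by
    have h4 : η * b / Λ < τ + 1 := Nat.lt_floor_add_one _
    have h5 : 2 * (κ * l) ≤ η * b / Λ := by
      rw [hκ, le_div_iff₀ hΛ0]
      have h6 : 2 * (η / (2 * Λ * U') * (l : ℝ)) * Λ = η * (l / U') := by
        field_simp
      rw [h6]
      refine mul_le_mul_of_nonneg_left ?_ hη0.le
      rw [div_le_iff₀ hU0]
      linarith
    have h7 : 1 ≤ κ * l := by
      rw [div_le_iff₀ hκ0] at hl4
      linarith
    linarith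
  have hηb : η * b ≤ b / 4096 := by nlinarith
  have h32 : 32 * 2 ^ (L + 4) * τ ≤ b := by
    have : (32 : ℝ) * 2 ^ (L + 4) * τ ≤ b := by
      rw [← hΛ]
      nlinarith
    exact_mod_cast this
  set v : ℕ := b - 32 * 2 ^ (L + 4) * τ with hv
  have hvR : (v : ℝ) = b - 32 * Λ * τ := by
    rw [hv, Nat.cast_sub h32, hΛ]
    push_cast
    ring
  have hv1 : (b : ℝ) - 32 * (η * b) ≤ v := by
    rw [hvR]
    nlinarith
  have hvb : v ≤ b := Nat.sub_le _ _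
  have hvbR : (v : ℝ) ≤ b := by exact_mod_cast hvb
  -- the first facts on the elements of S
  have hq : ∀ n ∈ S, ∀ q ∈ n.primeFactors, q ≤ 2 ^ (b + 1) := by
    intro n hn q hq
    obtain ⟨_, _, _, ⟨p, hp, _, hp2⟩, _⟩ := hS n hn
    exact (hp.2 q hq).trans hp2
  have hlog : (2 * ((l : ℝ) + 1)) ≤ (2 : ℝ) ^ (θ * l) := e2
  have h2v : 2 * (l + 1) ≤ 2 ^ v := by
    have h4 : (2 : ℝ) * ((l : ℝ) + 1) ≤ (2 : ℝ) ^ (v : ℝ) := by
      refine hlog.trans (Real.rpow_le_rpow_of_exponent_le (by norm_num) ?_)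
      linarith
    rw [Real.rpow_natCast] at h4
    exact_mod_cast h4
  have hone : ∀ n ∈ S, 1 ≤ #{q ∈ n.primeFactors | 2 ^ v ≤ q} := by
    intro n hn
    obtain ⟨_, _, _, ⟨p, hp, hp1, _⟩, _⟩ := hS n hn
    rw [Nat.one_le_iff_ne_zero, Finset.card_ne_zero]
    exact ⟨p, mem_filter.2 ⟨hp.1, (Nat.pow_le_pow_right (by norm_num) hvb).trans hp1.le⟩⟩
  -- case A
  have hcA : (5 / 2 : ℝ) * b ≤ l → ∀ T : Finset ℕ, T ⊆ S →
      (∀ n ∈ T, 2 ^ ((l + 1) / 2 - b + τ) < sm (2 ^ v) n) →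
      (#T : ℝ) ≤ (2 : ℝ) ^ ((1 / 2 - 2 * δ) * l) := by
    intro h5 T hT hsm
    refine (hA l b τ hlA hτge ?_ ?_ ?_ T ?_).trans ?_
    · have : (64 : ℝ) * 2 ^ (L + 4) * τ ≤ b := by
        rw [← hΛ]
        nlinarith
      exact_mod_cast this
    · have : (2 : ℝ) * b + 2 * 2 ^ (L + 4) * τ ≤ l := by
        rw [← hΛ]
        nlinarith
      exact_mod_cast this
    · have : (2 : ℝ) * l ≤ L * v := by
        have h6 : (b : ℝ) / 2 ≤ v := by linarith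
        have h7 : 8 * U' * (b / 2) ≤ L * v := mul_le_mul hL8 h6 (by positivity) (by positivity)
        nlinarith
      exact_mod_cast this
    · intro n hn
      obtain ⟨ha, _, hc, ⟨p, hp, hp1, hp2⟩, _⟩ := hS n (hT hn)
      exact ⟨ha, hc, ⟨p, hp.1, hp1, hp2⟩, hsm n hn⟩
    · refine Real.rpow_le_rpow_of_exponent_le (by norm_num) ?_
      have : 2 * δ * l ≤ τ / 2 := by
        have h8 : δ * l ≤ κ / 4 * l := mul_le_mul_of_nonneg_right hδ2 (by linarith)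
        linarith
      linarith
  have hfinal : ∀ x : ℝ, x ≤ (2 : ℝ) ^ ((1 / 2 - 2 * δ) * l) → x ≤ (2 : ℝ) ^ ((1 / 2 - δ) * l) := by
    intro x hx
    refine hx.trans (Real.rpow_le_rpow_of_exponent_le (by norm_num) ?_)
    nlinarith
  have hζ : ∀ j : ℕ, (2 : ℝ) * b ≤ l → 2 * (τ : ℝ) + 2 * ((b + 1) * j) + 3 ≤ l + 2 * b →
      (l + 1) / 2 - b + τ + (b + 1) * j ≤ l - 1 := by
    intro j h5 h6
    have h7 : 2 * b ≤ l := by exact_mod_cast h5
    have h8 : 2 * τ + 2 * ((b + 1) * j) + 3 ≤ l + 2 * b := by exact_mod_cast h6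
    omega
  by_cases c1 : (l : ℝ) ≤ 5 / 2 * b
  · -- case u ≤ 5/2
    rcases S.eq_empty_or_nonempty with hSe | ⟨n, hn⟩
    · rw [hSe, card_empty, Nat.cast_zero]
      positivity
    have hb6 : (b : ℝ) ≤ 6 / 10 * l := by
      obtain ⟨ha, _, hc, ⟨p, hp, hp1, _⟩, _⟩ := hS n hn
      obtain ⟨k, hk⟩ := exists_idx ha
      have h4 := top_small hk hc hp.1 hp1
      have h5 : (2 : ℝ) ^ ((2 * b : ℕ) : ℝ) < (2 : ℝ) ^ (θ * l + l) := by
        rw [Real.rpow_add (by norm_num), Real.rpow_natCast, Real.rpow_natCast]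
        have h6 : (2 : ℝ) ^ (2 * b) < 2 * ((l : ℝ) + 1) * 2 ^ l := by exact_mod_cast h4
        exact h6.trans_le (mul_le_mul_of_nonneg_right hlog (by positivity))
      have h7 := (Real.rpow_lt_rpow_left_iff (by norm_num)).1 h5
      push_cast at h7
      have h8 : θ ≤ 1 / 1000 := by
        rw [hθ]
        exact one_div_le_one_div_of_le (by norm_num) (by linarith)
      nlinarith
    refine hfinal _ ((hC 1 l b v le_rfl (by omega) hl0' h2v S fun n hn => ?_).trans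
      (blk_two e1 ?_ ?_))
    · obtain ⟨ha, hb', hc, _⟩ := hS n hn
      exact ⟨ha, hb', hc, hq n hn, hone n hn⟩
    · push_cast
      nlinarith
    · push_cast
      nlinarith
  push Not at c1
  by_cases c2 : (l : ℝ) ≤ 15 / 4 * b
  · -- case 5/2 < u ≤ 15/4
    refine hfinal _ (hcA c1.le S (Finset.Subset.refl _) fun n hn => ?_)
    obtain ⟨ha, _, hc, ⟨p, hp, hp1, _⟩, _⟩ := hS n hn
    obtain ⟨k, hk⟩ := exists_idx ha
    have h4 := low_next (v := v) hk ⟨p, hp.1, (Nat.pow_le_pow_right (by norm_num) hvb).trans hp1.le⟩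
    have h5 : n.primeFactors.card < l + 1 := card_primeFactors_lt ha.squarefree
      (lt_of_le_of_lt hc (Nat.pow_lt_pow_right (by norm_num) (by omega)))
    have h6 : 2 ^ v < 2 * (l + 1) * sm (2 ^ v) n :=
      lt_of_lt_of_le h4 (Nat.mul_le_mul_right _ (Nat.mul_le_mul_left _ h5.le))
    have h7 : 2 * (l + 1) * 2 ^ ((l + 1) / 2 - b + τ) ≤ 2 ^ v := by
      have h8 : (2 : ℝ) * ((l : ℝ) + 1) * 2 ^ ((l + 1) / 2 - b + τ) ≤ 2 ^ v := by
        rw [← Real.rpow_natCast, ← Real.rpow_natCast]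
        calc (2 : ℝ) * ((l : ℝ) + 1) * (2 : ℝ) ^ (((l + 1) / 2 - b + τ : ℕ) : ℝ)
            ≤ (2 : ℝ) ^ (θ * l) * (2 : ℝ) ^ (((l + 1) / 2 - b + τ : ℕ) : ℝ) :=
              mul_le_mul_of_nonneg_right hlog (by positivity)
          _ = (2 : ℝ) ^ (θ * l + (((l + 1) / 2 - b + τ : ℕ) : ℝ)) := by
              rw [Real.rpow_add (by norm_num)]
          _ ≤ (2 : ℝ) ^ (v : ℝ) := by
              refine Real.rpow_le_rpow_of_exponent_le (by norm_num) ?_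
              have h9 : 2 * b ≤ l := by
                have : (2 : ℝ) * b ≤ l := by linarith
                exact_mod_cast this
              have h10 : 2 * ((l + 1) / 2 - b + τ) + 2 * b ≤ l + 1 + 2 * τ := by omega
              have h11 : 2 * (((l + 1) / 2 - b + τ : ℕ) : ℝ) + 2 * b ≤ l + 1 + 2 * τ := by
                exact_mod_cast h10
              linarith
      exact_mod_cast h8
    have h12 := lt_of_le_of_lt h7 h6
    exact lt_of_mul_lt_mul_left h12 (Nat.zero_le _)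
  push Not at c2
  -- case u > 15/4
  set u : ℝ := (l : ℝ) / b with hu
  have hub : u * b = l := by
    rw [hu]
    field_simp
  have hu1 : 15 / 4 < u := by
    rw [hu, lt_div_iff₀ hbpos]
    exact c2
  have hu2 : u ≤ U' := by
    rw [hu, div_le_iff₀ hbpos]
    exact hlU
  set i : ℕ := ⌊(u + 1) / 2⌋₊ with hi
  have hi1 : (i : ℝ) ≤ (u + 1) / 2 := Nat.floor_le (by linarith)
  have hi2 : (u + 1) / 2 < i + 1 := Nat.lt_floor_add_one _
  have hi3 : 2 ≤ i := by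
    rw [hi, Nat.le_floor_iff (by linarith)]
    push_cast
    linarith
  have hiR : (2 : ℝ) ≤ i := by exact_mod_cast hi3
  have hiU : 2 * (i : ℝ) ≤ U' + 1 := by linarith
  have hiI : i ≤ ⌈U'⌉₊ + 2 := by
    have h4 : (i : ℝ) ≤ (⌈U'⌉₊ + 2 : ℕ) := by
      push_cast
      have := Nat.le_ceil U'
      linarith
    exact_mod_cast h4
  have hηl : 32 * (η * b) * (i + 1 / 2) ≤ ε' * b / 8 := by
    have h4 : (i : ℝ) + 1 / 2 ≤ U' := by linarith
    have h5 : 32 * (η * b) * (i + 1 / 2) ≤ 32 * (η * b) * U' :=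
      mul_le_mul_of_nonneg_left h4 (by positivity)
    have h6 : 32 * (η * b) * U' = 32 * (η * U') * b := by ring
    rw [h6, hηU] at h5
    linarith
  have hηb2 : 16 * (η * b) ≤ ε' * b / 64 := by
    have h5 : 16 * (η * b) * 4 ≤ 16 * (η * b) * U' :=
      mul_le_mul_of_nonneg_left hU4 (by positivity)
    have h6 : 16 * (η * b) * U' = 16 * (η * U') * b := by ring
    rw [h6, hηU] at h5
    linarith
  by_cases c3 : |u - (2 * i + 1)| < ε' ∨ |u - (2 * ((i - 1 : ℕ) : ℝ) + 1)| < ε'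
  · -- u is close to an odd integer
    obtain ⟨j, hj2, hjU, hju⟩ : ∃ j : ℕ, 2 ≤ j ∧ j ≤ i ∧ |u - (2 * j + 1)| < ε' := by
      rcases c3 with c3 | c3
      · exact ⟨i, hi3, le_rfl, c3⟩
      · refine ⟨i - 1, ?_, Nat.sub_le _ _, ?_⟩
        · have h4 : ((i - 1 : ℕ) : ℝ) = i - 1 := by
            rw [Nat.cast_sub (by omega), Nat.cast_one]
          rw [abs_lt] at c3
          have h5 : (1 : ℝ) < ((i - 1 : ℕ) : ℝ) := by
            have := c3.2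
            linarith
          have : 1 < i - 1 := by exact_mod_cast h5
          omega
        · exact c3
    have hjR : (j : ℝ) ≤ i := by exact_mod_cast hjU
    rw [abs_lt] at hju
    refine hfinal _ (hcA c1.le S (Finset.Subset.refl _) fun n hn => ?_)
    obtain ⟨ha, hb', hc, _, hx⟩ := hS n hn
    have hcard : #{q ∈ n.primeFactors | 2 ^ v ≤ q} ≤ j + 1 := by
      have h4 : #(n.primeFactors.filter (fun q : ℕ => (2 : ℝ) ^ ((1 - ε) * b) ≤ (q : ℝ))) < j + 2 := by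
        rcases hx j hj2 with h5 | h5
        · exfalso
          have h6 : |u - (2 * j + 1)| < ε := (abs_lt.2 hju).trans_le he1
          rw [hu] at h6
          linarith
        · exact h5
      have h7 : {q ∈ n.primeFactors | 2 ^ v ≤ q} ⊆
          n.primeFactors.filter (fun q : ℕ => (2 : ℝ) ^ ((1 - ε) * b) ≤ (q : ℝ)) := by
        intro q hq
        rw [mem_filter] at hq ⊢
        refine ⟨hq.1, ?_⟩
        have h8 : ((2 : ℝ) ^ v) ≤ q := by exact_mod_cast hq.2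
        refine le_trans ?_ h8
        rw [← Real.rpow_natCast]
        refine Real.rpow_le_rpow_of_exponent_le (by norm_num) ?_
        have h9 : 32 * (η * b) ≤ ε' * b := by linarith [mul_nonneg he0.le hb0]
        have h10 : ε' * b ≤ ε * b := mul_le_mul_of_nonneg_right he1 hb0
        linarith
      have := Finset.card_le_card h7
      omega
    have h11 := low_few ha hb' (hq n hn) hcard
    refine blk_few h11 (hζ (j + 1) (by linarith) ?_)
    push_cast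
    have h12 : (2 * j + 1 - ε') * b ≤ u * b := mul_le_mul_of_nonneg_right (by linarith) hb0
    rw [hub] at h12
    have h13 : ε' * b ≤ 1 / 4 * b := mul_le_mul_of_nonneg_right he4 hb0
    linarith
  · push Not at c3
    obtain ⟨c3, c4⟩ := c3
    have hu3 : u ≤ 2 * i + 1 - ε' := by
      rw [abs_of_nonpos (by linarith)] at c3
      linarith
    have hi1' : ((i - 1 : ℕ) : ℝ) = i - 1 := by
      rw [Nat.cast_sub (by omega), Nat.cast_one]
    have hu4 : 2 * i - 1 + ε' ≤ u := by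
      rw [hi1', abs_of_nonneg (by linarith)] at c4
      linarith
    have hu5 : (2 * i - 1 + ε') * b ≤ l := by
      rw [← hub]
      exact mul_le_mul_of_nonneg_right hu4 hb0
    have hu6 : (l : ℝ) ≤ (2 * i + 1 - ε') * b := by
      rw [← hub]
      exact mul_le_mul_of_nonneg_right hu3 hb0
    have hδε : 3 * δ * l ≤ 3 / 8 * (ε' * b) := by
      have h4 : 3 * δ * l ≤ 3 * (ε' / (8 * U')) * (U' * b) :=
        mul_le_mul (mul_le_mul_of_nonneg_left hδ3 (by norm_num)) hlU (by linarith) (by positivity)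
      have h5 : 3 * (ε' / (8 * U')) * (U' * b) = 3 / 8 * (ε' * b) := by
        field_simp
        try ring
      linarith
    set S₁ := S.filter (fun n => i ≤ #{q ∈ n.primeFactors | 2 ^ v ≤ q}) with hS1
    set S₂ := S.filter (fun n => ¬ i ≤ #{q ∈ n.primeFactors | 2 ^ v ≤ q}) with hS2
    have hcard : (#S : ℝ) = #S₁ + #S₂ := by
      have := Finset.card_filter_add_card_filter_not (s := S)
        (fun n => i ≤ #{q ∈ n.primeFactors | 2 ^ v ≤ q})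
      exact_mod_cast this.symm
    have b1 : (#S₁ : ℝ) ≤ (2 : ℝ) ^ ((1 / 2 - 2 * δ) * l) := by
      refine (hC i l b v (by omega) hiI hl0' h2v S₁ fun n hn => ?_).trans (blk_two e1 ?_ ?_)
      · rw [hS1, mem_filter] at hn
        obtain ⟨ha, hb', hc, _⟩ := hS n hn.1
        exact ⟨ha, hb', hc, hq n hn.1, hn.2⟩
      · have h4 : ((b : ℝ) - 32 * (η * b)) * (i + 1 / 2) ≤ v * (i + 1 / 2) :=
          mul_le_mul_of_nonneg_right hv1 (by linarith)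
        nlinarith
      · nlinarith
    have b2 : (#S₂ : ℝ) ≤ (2 : ℝ) ^ ((1 / 2 - 2 * δ) * l) := by
      refine hcA c1.le S₂ (Finset.filter_subset _ _) fun n hn => ?_
      rw [hS2, mem_filter] at hn
      obtain ⟨ha, hb', hc, _⟩ := hS n hn.1
      have h11 := low_few (v := v) (j := i - 1) ha hb' (hq n hn.1) (by omega)
      refine blk_few h11 (hζ (i - 1) (by linarith) ?_)
      rw [hi1']
      have h12 : 0 ≤ ε' * b := mul_nonneg he0.le hb0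
      nlinarith
    rw [hcard]
    calc (#S₁ : ℝ) + #S₂ ≤ 2 * (2 : ℝ) ^ ((1 / 2 - 2 * δ) * l) := by linarith
      _ ≤ (2 : ℝ) ^ (δ * l) * (2 : ℝ) ^ ((1 / 2 - 2 * δ) * l) :=
          mul_le_mul_of_nonneg_right e3 (by positivity)
      _ = (2 : ℝ) ^ ((1 / 2 - δ) * l) := by
          rw [← Real.rpow_add (by norm_num)]
          congr 1
          ring

end Pool.Agent.Helper6.PW
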