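import Mathlib
import Pool.Agent.Helper6.PW.Blk
import Pool.Agent.Helper58.LT.SumUp

/-!
# PW-33 SumUp: summation over the dyadic blocks

`mainS_mono`: the hypothesis for `ε` implies the hypothesis for `ε' ≤ ε` (`x^ε' ≤ x^ε`, `P^(1-ε) ≤ P^(1-ε')`), so we may assume `ε ≤ 1/4`.
`U = 4/ε`, `ε' = ε/2`; `blk ε' U` gives `δ₁`, `l₀`.  `δ' = ε/(16 U) = ε^2/64`.  `M = Nat.clog 2 x`: `2^(M-1) < x ≤ 2^M`.
`n ∈ S` with `n ≤ 2^a`, `a = ⌊(1-δ') M⌋₊`: at most `NL (2^a) ≤ 2^(a/2)` (`NL_bound_exp`) for large `x`.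
The other `n`: `l = Nat.clog 2 n` (`2^(l-1) < n ≤ 2^l`, `a < l ≤ M`), `b = Nat.log 2 P` (`2^b ≤ P < 2^(b+1)`, and `P ≠ 2^b` because `P` is odd, `IsLehmer.three_le`,
`IsLehmer.odd`).  `x^ε ≤ P` gives `ε (M - 1) ≤ b + 1`, so `l ≤ M ≤ (b+1)/ε + 1 ≤ U b`, `b → ∞`.
Comparison: `log x = (M + O(1)) log 2`, `log P = (b + O(1)) log 2` with `O(1) ∈ [-1, 1]`, `|M - l| ≤ δ' M + 1`, so `|log x/log P - l/b| ≤ ε/2` for large `x`
(`|log x/log P - M/b| ≤ C(ε)/b`, `|M - l|/b ≤ (δ' M + 1)/b ≤ δ' U + 1/b ≤ ε/4`).  And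
`P^(1-ε) ≤ 2^((b+1)(1-ε)) ≤ 2^((1-ε') b)` for large `b`, so `{q : q ≥ 2^((1-ε') b)} ⊆ {q : q ≥ P^(1-ε)}`.  So the block `(l, b)` satisfies the hypothesis of `blk ε' U`.
`#S ≤ 2^(a/2) + (M+1)^2 2^((1/2-δ₁) M) ≤ x^(1/2-δ)` with `δ = min(δ', δ₁)/4`, `2^M ≤ 2x`.
-/

namespace Pool.Agent.Helper6.PW

open Finset Pool.Agent.Helper6.Lehmer Pool.Agent.Helper6.LehmerCount

theorem isP_uniqueSUM {n P p : ℕ} (h : IsP n P) (h' : IsP n p) : P = p :=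
  le_antisymm (h'.2 P h.1) (h.2 p h'.1)

theorem mainS_monoSUM {ε ε' : ℝ} (h : ε' ≤ ε) {x n : ℕ} (hx : 1 ≤ x)
    (hn : ∃ P, IsP n P ∧ (x : ℝ) ^ ε ≤ P ∧
      ∀ i : ℕ, 2 ≤ i → ε ≤ |Real.log x / Real.log P - (2 * i + 1)| ∨
        #(n.primeFactors.filter (fun q : ℕ => (P : ℝ) ^ (1 - ε) ≤ (q : ℝ))) < i + 2) :
    ∃ P, IsP n P ∧ (x : ℝ) ^ ε' ≤ P ∧
      ∀ i : ℕ, 2 ≤ i → ε' ≤ |Real.log x / Real.log P - (2 * i + 1)| ∨
        #(n.primeFactors.filter (fun q : ℕ => (P : ℝ) ^ (1 - ε') ≤ (q : ℝ))) < i + 2 := by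
  obtain ⟨P, hP, hxP, hi⟩ := hn
  have hx' : (1 : ℝ) ≤ x := by exact_mod_cast hx
  have hP1 : (1 : ℝ) ≤ P := by
    have := (Nat.prime_of_mem_primeFactors hP.1).one_lt.le
    exact_mod_cast this
  refine ⟨P, hP, (Real.rpow_le_rpow_of_exponent_le hx' h).trans hxP, ?_⟩
  intro i h2
  rcases hi i h2 with h3 | h3
  · exact Or.inl (h.trans h3)
  · right
    refine lt_of_le_of_lt (card_le_card ?_) h3
    intro q hq
    rw [mem_filter] at hq ⊢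
    exact ⟨hq.1, (Real.rpow_le_rpow_of_exponent_le hP1 (by linarith)).trans hq.2⟩

theorem quotSUM {ε X Y M l b : ℝ} (hε : 0 < ε) (hX1 : M - 1 ≤ X) (hX2 : X ≤ M)
    (hM0 : 0 ≤ M)
    (hY1 : b ≤ Y) (hY2 : Y ≤ b + 1) (hb0 : 0 < b) (hMb : M ≤ 4 / ε * b)
    (hl1 : (1 - ε ^ 2 / 64) * M ≤ l) (hl2 : l ≤ M) (hb : 4 * (1 + 4 / ε) / ε ≤ b) :
    |X / Y - l / b| ≤ ε / 2 := by
  have hY0 : 0 < Y := by linarith
  have h1 : |X / Y - M / b| ≤ (1 + 4 / ε) / b := by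
    have e1 : X / Y - M / b = ((X - M) * b - M * (Y - b)) / (Y * b) := by
      field_simp
      ring
    rw [e1, abs_div, abs_of_pos (mul_pos hY0 hb0), div_le_div_iff₀ (mul_pos hY0 hb0) hb0]
    have h2 : |(X - M) * b - M * (Y - b)| ≤ b + M := by
      rw [abs_le]
      constructor
      · nlinarith
      · nlinarith
    have h3 : b + M ≤ (1 + 4 / ε) * b := by linarith
    calc |(X - M) * b - M * (Y - b)| * b ≤ ((1 + 4 / ε) * b) * b :=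
          mul_le_mul_of_nonneg_right (h2.trans h3) hb0.le
      _ = (1 + 4 / ε) * (b * b) := by ring
      _ ≤ (1 + 4 / ε) * (Y * b) := by
          refine mul_le_mul_of_nonneg_left ?_ (by positivity)
          exact mul_le_mul_of_nonneg_right hY1 hb0.le
  have h4 : (1 + 4 / ε) / b ≤ ε / 4 := by
    rw [div_le_iff₀ hb0]
    have h5 : 4 * (1 + 4 / ε) ≤ b * ε := (div_le_iff₀ hε).mp hb
    linarith
  have h6 : |M / b - l / b| ≤ ε / 4 := by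
    have e2 : M / b - l / b = (M - l) / b := by ring
    rw [e2, abs_of_nonneg (div_nonneg (by linarith) hb0.le), div_le_iff₀ hb0]
    have h7 : M - l ≤ ε ^ 2 / 64 * M := by linarith
    have h8 : ε ^ 2 / 64 * M ≤ ε ^ 2 / 64 * (4 / ε * b) :=
      mul_le_mul_of_nonneg_left hMb (by positivity)
    have h9 : ε ^ 2 / 64 * (4 / ε * b) = ε / 16 * b := by
      field_simp
      ring
    have h10 : ε / 16 * b ≤ ε / 4 * b := mul_le_mul_of_nonneg_right (by linarith) hb0.le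
    linarith
  have h11 : X / Y - l / b = (X / Y - M / b) + (M / b - l / b) := by ring
  rw [h11]
  exact (abs_add_le _ _).trans (by linarith)

theorem blkHypSUM {ε : ℝ} (hε : 0 < ε) (hε4 : ε ≤ 1 / 4) {x M l b P n : ℕ}
    (hx1 : 2 ^ (M - 1) < x) (hx2 : x ≤ 2 ^ M) (hM : 1 ≤ M)
    (hl1 : (1 - ε ^ 2 / 64) * M ≤ l) (hl2 : l ≤ M) (hb1 : 2 ^ b < P) (hb2 : P ≤ 2 ^ (b + 1))
    (hP : (x : ℝ) ^ ε ≤ P) (hMbig : 4 * (1 + 4 / ε) / ε ≤ ε * (M - 1) - 1) :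
    (l : ℝ) ≤ 4 / ε * b ∧ ∀ i : ℕ, (ε ≤ |Real.log x / Real.log P - (2 * i + 1)| ∨
        #(n.primeFactors.filter (fun q : ℕ => (P : ℝ) ^ (1 - ε) ≤ (q : ℝ))) < i + 2) →
      (ε / 2 ≤ |(l : ℝ) / b - (2 * i + 1)| ∨
        #(n.primeFactors.filter (fun q : ℕ => (2 : ℝ) ^ ((1 - ε / 2) * b) ≤ (q : ℝ))) < i + 2) := by
  have hl2' : 0 < Real.log 2 := Real.log_pos (by norm_num)
  have hx0 : 0 < x := lt_of_le_of_lt (Nat.zero_le _) hx1
  have hx0R : (0 : ℝ) < x := by exact_mod_cast hx0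
  have hP0 : 0 < P := lt_of_le_of_lt (Nat.zero_le _) hb1
  have hP0R : (0 : ℝ) < P := by exact_mod_cast hP0
  have lx1 : ((M : ℝ) - 1) * Real.log 2 ≤ Real.log x := by
    have h1 : ((2 : ℝ) ^ (M - 1)) ≤ x := by exact_mod_cast hx1.le
    have h2 := Real.log_le_log (by positivity) h1
    rw [Real.log_pow] at h2
    rw [Nat.cast_sub hM, Nat.cast_one] at h2
    exact h2
  have lx2 : Real.log x ≤ M * Real.log 2 := by
    have h1 : (x : ℝ) ≤ (2 : ℝ) ^ M := by exact_mod_cast hx2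
    have h2 := Real.log_le_log hx0R h1
    rwa [Real.log_pow] at h2
  have lP1 : (b : ℝ) * Real.log 2 ≤ Real.log P := by
    have h1 : ((2 : ℝ) ^ b) ≤ P := by exact_mod_cast hb1.le
    have h2 := Real.log_le_log (by positivity) h1
    rwa [Real.log_pow] at h2
  have lP2 : Real.log P ≤ (b + 1) * Real.log 2 := by
    have h1 : (P : ℝ) ≤ (2 : ℝ) ^ (b + 1) := by exact_mod_cast hb2
    have h2 := Real.log_le_log hP0R h1
    rw [Real.log_pow] at h2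
    push_cast at h2
    exact h2
  have lxP : ε * Real.log x ≤ Real.log P := by
    have h1 := Real.log_le_log (by positivity) hP
    rwa [Real.log_rpow hx0R] at h1
  have hb3 : ε * ((M : ℝ) - 1) ≤ b + 1 := by
    have h1 : ε * (((M : ℝ) - 1) * Real.log 2) ≤ (b + 1) * Real.log 2 :=
      (mul_le_mul_of_nonneg_left lx1 hε.le).trans (lxP.trans lP2)
    rw [← mul_assoc] at h1
    exact le_of_mul_le_mul_right h1 hl2'
  have hbbig : 4 * (1 + 4 / ε) / ε ≤ b := by linarith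
  have h4ε : 16 ≤ 4 / ε := by
    rw [le_div_iff₀ hε]
    linarith
  have hbb2 : 16 * (4 / ε) ≤ b := by
    have h1 : 4 * (1 + 4 / ε) / ε = (1 + 4 / ε) * (4 / ε) := by ring
    rw [h1] at hbbig
    nlinarith
  have hb16 : (256 : ℝ) ≤ b := by linarith
  have hb0 : (0 : ℝ) < b := by linarith
  have hMb : (M : ℝ) ≤ 4 / ε * b := by
    have h1 : ε * M ≤ 4 * b := by nlinarith
    rw [div_mul_eq_mul_div, le_div_iff₀ hε]
    linarith
  refine ⟨le_trans (by exact_mod_cast hl2) hMb, ?_⟩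
  intro i hi
  rcases hi with hi | hi
  · left
    have hq := quotSUM (ε := ε) (X := Real.log x / Real.log 2) (Y := Real.log P / Real.log 2)
      (M := M) (l := l) (b := b) hε (by rw [le_div_iff₀ hl2']; exact lx1)
      (by rw [div_le_iff₀ hl2']; exact lx2) (Nat.cast_nonneg _)
      (by rw [le_div_iff₀ hl2']; exact lP1) (by rw [div_le_iff₀ hl2']; exact lP2) hb0 hMb hl1
      (by exact_mod_cast hl2) hbbig
    rw [div_div_div_cancel_right₀ hl2'.ne'] at hq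
    have h1 : Real.log x / Real.log P - (2 * (i : ℝ) + 1) =
        (Real.log x / Real.log P - l / b) + ((l : ℝ) / b - (2 * i + 1)) := by ring
    rw [h1] at hi
    have h2 := hi.trans (abs_add_le _ _)
    linarith
  · right
    refine lt_of_le_of_lt (card_le_card ?_) hi
    intro q hq
    rw [mem_filter] at hq ⊢
    refine ⟨hq.1, le_trans ?_ hq.2⟩
    have h1 : (P : ℝ) ^ (1 - ε) ≤ ((2 : ℝ) ^ ((b : ℝ) + 1)) ^ (1 - ε) := by
      refine Real.rpow_le_rpow hP0R.le ?_ (by linarith)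
      have h2 : (P : ℝ) ≤ (2 : ℝ) ^ (b + 1) := by exact_mod_cast hb2
      refine h2.trans (le_of_eq ?_)
      rw [← Real.rpow_natCast]
      push_cast
      rfl
    refine h1.trans ?_
    rw [← Real.rpow_mul (by norm_num)]
    refine Real.rpow_le_rpow_of_exponent_le (by norm_num) ?_
    have h3 : 1 ≤ ε / 2 * b := by
      have h4 : ε / 2 * (16 * (4 / ε)) ≤ ε / 2 * b := mul_le_mul_of_nonneg_left hbb2 (by positivity)
      have h5 : ε / 2 * (16 * (4 / ε)) = 32 := by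
        field_simp
        norm_num
      linarith
    nlinarith

/-- decomposition into dyadic blocks in `n` and `P` -/
theorem decompSUM (S : Finset ℕ) (x M a : ℕ) (hxM : x ≤ 2 ^ M)
    (hS : ∀ n ∈ S, IsLehmer n ∧ n ≤ x ∧ ∃ P, IsP n P) :
    ∃ B : ℕ → ℕ → Finset ℕ,
      (∀ l b, ∀ n ∈ B l b, n ∈ S ∧ 2 ^ (l - 1) < n ∧ n ≤ 2 ^ l ∧
        ∃ p, IsP n p ∧ 2 ^ b < p ∧ p ≤ 2 ^ (b + 1)) ∧
      #S ≤ NL (2 ^ a) + ∑ l ∈ Ioc a M, ∑ b ∈ range M, #(B l b) := by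
  classical
  refine ⟨fun l b => {n ∈ S | 2 ^ (l - 1) < n ∧ n ≤ 2 ^ l ∧
    ∃ p, IsP n p ∧ 2 ^ b < p ∧ p ≤ 2 ^ (b + 1)}, ?_, ?_⟩
  · intro l b n hn
    rw [mem_filter] at hn
    exact hn
  · have hsub : S ⊆ {n ∈ Icc 1 (2 ^ a) | IsLehmer n} ∪
        (Ioc a M).biUnion (fun l => (range M).biUnion (fun b => {n ∈ S | 2 ^ (l - 1) < n ∧
          n ≤ 2 ^ l ∧ ∃ p, IsP n p ∧ 2 ^ b < p ∧ p ≤ 2 ^ (b + 1)})) := by
      intro n hn
      obtain ⟨hL, hnx, P, hP⟩ := hS n hn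
      have hn0 : n ≠ 0 := by
        rintro rfl
        simpa using hP.1
      rw [mem_union]
      by_cases hna : n ≤ 2 ^ a
      · left
        rw [mem_filter, mem_Icc]
        exact ⟨⟨by omega, hna⟩, hL⟩
      · right
        push Not at hna
        have h1 : 1 < n := lt_of_le_of_lt Nat.one_le_two_pow hna
        have h2 : n ≤ 2 ^ Nat.clog 2 n := Nat.le_pow_clog (by norm_num) n
        have h3 : 2 ^ (Nat.clog 2 n).pred < n := Nat.pow_pred_clog_lt_self (by norm_num) h1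
        have hPp := Nat.prime_of_mem_primeFactors hP.1
        have hPn := Nat.dvd_of_mem_primeFactors hP.1
        have hPle : P ≤ n := Nat.le_of_dvd (by omega) hPn
        have h3P : 3 ≤ P := hL.three_le hPp hPn
        have h5 : 2 ^ Nat.log 2 P ≤ P := Nat.pow_log_le_self 2 (by omega)
        have h6 : P < 2 ^ (Nat.log 2 P + 1) := Nat.lt_pow_succ_log_self (by norm_num) P
        have h7 : 2 ^ Nat.log 2 P ≠ P := by
          intro h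
          have hlog : 1 ≤ Nat.log 2 P := by
            by_contra hc
            have : Nat.log 2 P = 0 := by omega
            rw [this] at h
            simp at h
            omega
          have h8 : 2 ∣ P := by
            rw [← h]
            exact dvd_pow_self 2 (by omega)
          have h9 := (Nat.prime_dvd_prime_iff_eq Nat.prime_two hPp).mp h8
          omega
        rw [mem_biUnion]
        refine ⟨Nat.clog 2 n, ?_, ?_⟩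
        · rw [mem_Ioc]
          constructor
          · have h4 : 2 ^ a < 2 ^ Nat.clog 2 n := lt_of_lt_of_le hna h2
            exact (Nat.pow_lt_pow_iff_right (by norm_num)).mp h4
          · exact Nat.clog_le_of_le_pow (hnx.trans hxM)
        · rw [mem_biUnion]
          refine ⟨Nat.log 2 P, ?_, ?_⟩
          · rw [mem_range]
            have h10 : 2 ^ Nat.log 2 P < 2 ^ M := by
              calc 2 ^ Nat.log 2 P < P := lt_of_le_of_ne h5 h7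
                _ ≤ n := hPle
                _ ≤ x := hnx
                _ ≤ 2 ^ M := hxM
            exact (Nat.pow_lt_pow_iff_right (by norm_num)).mp h10
          · rw [mem_filter]
            exact ⟨hn, h3, h2, P, hP, lt_of_le_of_ne h5 h7, h6.le⟩
    refine (card_le_card hsub).trans ((card_union_le _ _).trans ?_)
    refine add_le_add (le_of_eq ?_) ?_
    · unfold NL
      congr!
    · refine card_biUnion_le.trans (Finset.sum_le_sum ?_)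
      intro l _
      exact card_biUnion_le

/-- for large `M`, a polynomial factor is absorbed -/
theorem polySUM {δ : ℝ} (hδ : 0 < δ) : ∃ M₀ : ℕ, ∀ M : ℕ, M₀ ≤ M →
    (2 : ℝ) * (1 + (M : ℝ) ^ 2) ≤ (2 : ℝ) ^ (δ * ((M : ℝ) - 1)) := by
  have hr : 1 < (2 : ℝ) ^ δ := Real.one_lt_rpow (by norm_num) hδ
  have h1 := tendsto_pow_const_div_const_pow_of_one_lt 2 hr
  have hpos : (0 : ℝ) < 1 / (4 * (2 : ℝ) ^ δ) := by positivity
  have h2 := h1.eventually (gt_mem_nhds hpos)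
  obtain ⟨M₀, hM₀⟩ := Filter.eventually_atTop.mp h2
  refine ⟨max M₀ 1, ?_⟩
  intro M hM
  have h3 := hM₀ M ((le_max_left _ _).trans hM)
  have hM1 : (1 : ℝ) ≤ M := by exact_mod_cast (le_max_right _ _).trans hM
  have h4 : (2 : ℝ) ^ (δ * ((M : ℝ) - 1)) = ((2 : ℝ) ^ δ) ^ M / (2 : ℝ) ^ δ := by
    rw [mul_sub, mul_one, Real.rpow_sub (by norm_num), Real.rpow_mul (by norm_num), Real.rpow_natCast]
  rw [h4, le_div_iff₀ (by positivity)]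
  rw [div_lt_div_iff₀ (by positivity) (by positivity)] at h3
  have h5 : (1 : ℝ) ≤ (M : ℝ) ^ 2 := one_le_pow₀ hM1
  have h6 : 0 < (2 : ℝ) ^ δ := by positivity
  nlinarith [mul_le_mul_of_nonneg_right h5 h6.le]

theorem main_smallSUM (ε : ℝ) (hε : 0 < ε) (hε4 : ε ≤ 1 / 4) : ∃ δ : ℝ, 0 < δ ∧ ∃ x₀ : ℕ, 1 ≤ x₀ ∧
    ∀ x : ℕ, x₀ ≤ x →
    ∀ S : Finset ℕ, (∀ n ∈ S, IsLehmer n ∧ n ≤ x ∧ ∃ P, IsP n P ∧ (x : ℝ) ^ ε ≤ P ∧
      ∀ i : ℕ, 2 ≤ i → ε ≤ |Real.log x / Real.log P - (2 * i + 1)| ∨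
        #(n.primeFactors.filter (fun q : ℕ => (P : ℝ) ^ (1 - ε) ≤ (q : ℝ))) < i + 2) →
    (#S : ℝ) ≤ (x : ℝ) ^ ((1 : ℝ) / 2 - δ) := by
  have hU : (1 : ℝ) ≤ 4 / ε := by
    rw [le_div_iff₀ hε]
    linarith
  obtain ⟨δ₁, hδ₁, l₀, hblk⟩ := blk (ε / 2) (by positivity) (4 / ε) hU
  obtain ⟨X₀, hNL⟩ := Pool.Agent.Helper58.LT.NL_bound_exp
  obtain ⟨δ₃, hδ₃⟩ : ∃ δ₃, δ₃ = min (ε ^ 2 / 128) (min δ₁ (1 / 4)) := ⟨_, rfl⟩
  have hδ₃pos : 0 < δ₃ := by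
    rw [hδ₃]
    exact lt_min (by positivity) (lt_min hδ₁ (by norm_num))
  have hδ₃a : δ₃ ≤ ε ^ 2 / 128 := by rw [hδ₃]; exact min_le_left _ _
  have hδ₃b : δ₃ ≤ δ₁ := by rw [hδ₃]; exact (min_le_right _ _).trans (min_le_left _ _)
  have hδ₃c : δ₃ ≤ 1 / 4 := by rw [hδ₃]; exact (min_le_right _ _).trans (min_le_right _ _)
  obtain ⟨M₁, hM₁⟩ := polySUM (δ := δ₃ / 2) (by positivity)
  obtain ⟨M₂, hM₂⟩ : ∃ M₂ : ℕ, (4 * (1 + 4 / ε) / ε + 1) / ε + 1 ≤ M₂ := exists_nat_ge _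
  obtain ⟨M₀, hM₀⟩ : ∃ M₀, M₀ = M₁ + M₂ + (2 * (l₀ + X₀ + 1)) + 2 := ⟨_, rfl⟩
  refine ⟨δ₃ / 2, by positivity, 2 ^ M₀, Nat.one_le_two_pow, ?_⟩
  intro x hx S hS
  obtain ⟨M, hM⟩ : ∃ M, M = Nat.clog 2 x := ⟨_, rfl⟩
  have hx2 : x ≤ 2 ^ M := by rw [hM]; exact Nat.le_pow_clog (by norm_num) x
  have hMM : M₀ ≤ M := (Nat.pow_le_pow_iff_right (by norm_num)).mp (hx.trans hx2)
  have hx1' : 1 < x := lt_of_lt_of_le (Nat.one_lt_two_pow (by omega)) hx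
  have hx1 : 2 ^ (M - 1) < x := by
    rw [hM]
    exact Nat.pow_pred_clog_lt_self (by norm_num) hx1'
  have hM1 : 1 ≤ M := by omega
  have hMR : (M₀ : ℝ) ≤ M := by exact_mod_cast hMM
  have hM₀R : (M₀ : ℝ) = M₁ + M₂ + (2 * (l₀ + X₀ + 1)) + 2 := by
    rw [hM₀]
    push_cast
    ring
  have hM₁0 : (0 : ℝ) ≤ M₁ := Nat.cast_nonneg _
  have hM₂0 : (0 : ℝ) ≤ M₂ := Nat.cast_nonneg _
  have hl₀0 : (0 : ℝ) ≤ l₀ := Nat.cast_nonneg _
  have hX₀0 : (0 : ℝ) ≤ X₀ := Nat.cast_nonneg _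
  have hMpos : (0 : ℝ) < M := by exact_mod_cast hM1
  have hMbig : 4 * (1 + 4 / ε) / ε ≤ ε * (M - 1) - 1 := by
    have h1 : (4 * (1 + 4 / ε) / ε + 1) / ε ≤ (M : ℝ) - 1 := by linarith
    rw [div_le_iff₀ hε] at h1
    linarith
  obtain ⟨a, ha⟩ : ∃ a, a = ⌊(1 - ε ^ 2 / 64) * (M : ℝ)⌋₊ := ⟨_, rfl⟩
  have hε2 : ε ^ 2 / 64 ≤ 1 / 2 := by nlinarith
  have hε20 : 0 ≤ ε ^ 2 / 64 := by positivity
  have ha0 : 0 ≤ (1 - ε ^ 2 / 64) * (M : ℝ) := mul_nonneg (by linarith) hMpos.le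
  have ha1 : (a : ℝ) ≤ (1 - ε ^ 2 / 64) * M := by rw [ha]; exact Nat.floor_le ha0
  have ha2 : (1 - ε ^ 2 / 64) * M < a + 1 := by rw [ha]; exact Nat.lt_floor_add_one _
  have ha3 : (l₀ : ℝ) + X₀ ≤ a := by
    have h1 : (1 : ℝ) / 2 * M ≤ (1 - ε ^ 2 / 64) * M :=
      mul_le_mul_of_nonneg_right (by linarith) hMpos.le
    linarith
  have ha4 : l₀ + X₀ ≤ a := by exact_mod_cast ha3
  obtain ⟨B, hB, hcard⟩ := decompSUM S x M a hx2 (fun n hn =>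
    ⟨(hS n hn).1, (hS n hn).2.1, (hS n hn).2.2.imp (fun P h => h.1)⟩)
  have hcard' : (#S : ℝ) ≤ (NL (2 ^ a) : ℝ) + ∑ l ∈ Ioc a M, ∑ b ∈ range M, (#(B l b) : ℝ) := by
    exact_mod_cast hcard
  -- each block
  have hblock : ∀ l ∈ Ioc a M, ∀ b ∈ range M,
      (#(B l b) : ℝ) ≤ (2 : ℝ) ^ ((1 / 2 - δ₃) * (M : ℝ)) := by
    intro l hl b _
    rw [mem_Ioc] at hl
    rcases (B l b).eq_empty_or_nonempty with he | hne
    · rw [he, card_empty, Nat.cast_zero]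
      positivity
    · have hl1 : (1 - ε ^ 2 / 64) * (M : ℝ) ≤ l := by
        have : (a : ℝ) + 1 ≤ l := by exact_mod_cast hl.1
        linarith
      have key : ∀ n ∈ B l b, (l : ℝ) ≤ 4 / ε * b ∧
          (IsLehmer n ∧ 2 ^ (l - 1) < n ∧ n ≤ 2 ^ l ∧
          (∃ p, IsP n p ∧ 2 ^ b < p ∧ p ≤ 2 ^ (b + 1)) ∧
          ∀ i : ℕ, 2 ≤ i → ε / 2 ≤ |(l : ℝ) / b - (2 * i + 1)| ∨
            #(n.primeFactors.filter (fun q : ℕ => (2 : ℝ) ^ ((1 - ε / 2) * b) ≤ (q : ℝ)))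
              < i + 2) := by
        intro n hn
        obtain ⟨hnS, hn1, hn2, p, hp, hp1, hp2⟩ := hB l b n hn
        obtain ⟨hL, hnx, P, hP, hxP, hi⟩ := hS n hnS
        have hPp := isP_uniqueSUM hP hp
        subst hPp
        obtain ⟨k1, k2⟩ := blkHypSUM (n := n) hε hε4 hx1 hx2 hM1 hl1 hl.2 hp1 hp2 hxP hMbig
        exact ⟨k1, hL, hn1, hn2, ⟨P, hP, hp1, hp2⟩, fun i h2 => k2 i (hi i h2)⟩
      obtain ⟨n, hn⟩ := hne
      have h1 := hblk l b (by omega) (key n hn).1 (B l b) (fun n hn => (key n hn).2)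
      refine h1.trans (Real.rpow_le_rpow_of_exponent_le (by norm_num) ?_)
      have hlM : (l : ℝ) ≤ M := by exact_mod_cast hl.2
      calc (1 / 2 - δ₁) * (l : ℝ) ≤ (1 / 2 - δ₃) * l :=
            mul_le_mul_of_nonneg_right (by linarith) (Nat.cast_nonneg _)
        _ ≤ (1 / 2 - δ₃) * M := mul_le_mul_of_nonneg_left hlM (by linarith)
  have hsum : ∑ l ∈ Ioc a M, ∑ b ∈ range M, (#(B l b) : ℝ) ≤
      (M : ℝ) ^ 2 * (2 : ℝ) ^ ((1 / 2 - δ₃) * (M : ℝ)) := by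
    have h1 : ∑ l ∈ Ioc a M, ∑ b ∈ range M, (#(B l b) : ℝ) ≤
        ∑ _l ∈ Ioc a M, ∑ _b ∈ range M, (2 : ℝ) ^ ((1 / 2 - δ₃) * (M : ℝ)) :=
      Finset.sum_le_sum (fun l hl => Finset.sum_le_sum (fun b hb => hblock l hl b hb))
    refine h1.trans ?_
    rw [Finset.sum_const, Finset.sum_const, Nat.card_Ioc, card_range, nsmul_eq_mul, nsmul_eq_mul]
    have h2 : ((M - a : ℕ) : ℝ) ≤ M := by exact_mod_cast Nat.sub_le _ _
    have h3 : 0 ≤ (2 : ℝ) ^ ((1 / 2 - δ₃) * (M : ℝ)) := by positivity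
    calc ((M - a : ℕ) : ℝ) * ((M : ℝ) * (2 : ℝ) ^ ((1 / 2 - δ₃) * (M : ℝ))) ≤
          (M : ℝ) * ((M : ℝ) * (2 : ℝ) ^ ((1 / 2 - δ₃) * (M : ℝ))) :=
          mul_le_mul_of_nonneg_right h2 (by positivity)
      _ = _ := by ring
  have hsmall : (NL (2 ^ a) : ℝ) ≤ (2 : ℝ) ^ ((1 / 2 - δ₃) * (M : ℝ)) := by
    have h1 := hNL (2 ^ a) ((by omega : X₀ ≤ a).trans Nat.lt_two_pow_self.le)
    have h2 : Real.exp (-(Real.log ((2 ^ a : ℕ) : ℝ) ^ ((1 : ℝ) / 61))) ≤ 1 := by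
      rw [Real.exp_le_one_iff]
      have : 0 ≤ Real.log ((2 ^ a : ℕ) : ℝ) ^ ((1 : ℝ) / 61) :=
        Real.rpow_nonneg (Real.log_natCast_nonneg _) _
      linarith
    have h3 : Real.sqrt ((2 ^ a : ℕ) : ℝ) = (2 : ℝ) ^ ((a : ℝ) / 2) := by
      rw [Real.sqrt_eq_rpow]
      push_cast
      rw [← Real.rpow_natCast, ← Real.rpow_mul (by norm_num)]
      congr 1
      ring
    calc (NL (2 ^ a) : ℝ) ≤ Real.sqrt ((2 ^ a : ℕ) : ℝ) * 1 :=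
          h1.trans (mul_le_mul_of_nonneg_left h2 (Real.sqrt_nonneg _))
      _ = (2 : ℝ) ^ ((a : ℝ) / 2) := by rw [mul_one, h3]
      _ ≤ (2 : ℝ) ^ ((1 / 2 - δ₃) * (M : ℝ)) := by
          refine Real.rpow_le_rpow_of_exponent_le (by norm_num) ?_
          have h4 : δ₃ * (M : ℝ) ≤ ε ^ 2 / 128 * M := mul_le_mul_of_nonneg_right hδ₃a hMpos.le
          linarith
  have htot : (#S : ℝ) ≤ (1 + (M : ℝ) ^ 2) * (2 : ℝ) ^ ((1 / 2 - δ₃) * (M : ℝ)) := by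
    linarith
  have hpoly := hM₁ M (by omega)
  have hxR : (2 : ℝ) ^ ((M : ℝ) - 1) ≤ x := by
    have h1 : ((2 : ℝ) ^ (M - 1 : ℕ)) ≤ x := by exact_mod_cast hx1.le
    rw [← Real.rpow_natCast, Nat.cast_sub hM1, Nat.cast_one] at h1
    exact h1
  have hx0R : (0 : ℝ) < x := by exact_mod_cast (by omega : 0 < x)
  have h5 : (2 : ℝ) ^ ((1 / 2 - δ₃) * (M : ℝ)) ≤ 2 * (2 : ℝ) ^ ((1 / 2 - δ₃) * ((M : ℝ) - 1)) := by
    calc (2 : ℝ) ^ ((1 / 2 - δ₃) * (M : ℝ)) ≤ (2 : ℝ) ^ (1 + (1 / 2 - δ₃) * ((M : ℝ) - 1)) := by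
          refine Real.rpow_le_rpow_of_exponent_le (by norm_num) ?_
          linarith
      _ = 2 * (2 : ℝ) ^ ((1 / 2 - δ₃) * ((M : ℝ) - 1)) := by
          rw [Real.rpow_add (by norm_num), Real.rpow_one]
  calc (#S : ℝ) ≤ (1 + (M : ℝ) ^ 2) * (2 : ℝ) ^ ((1 / 2 - δ₃) * (M : ℝ)) := htot
    _ ≤ (1 + (M : ℝ) ^ 2) * (2 * (2 : ℝ) ^ ((1 / 2 - δ₃) * ((M : ℝ) - 1))) :=
        mul_le_mul_of_nonneg_left h5 (by positivity)
    _ = (2 * (1 + (M : ℝ) ^ 2)) * (2 : ℝ) ^ ((1 / 2 - δ₃) * ((M : ℝ) - 1)) := by ring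
    _ ≤ (2 : ℝ) ^ (δ₃ / 2 * ((M : ℝ) - 1)) * (2 : ℝ) ^ ((1 / 2 - δ₃) * ((M : ℝ) - 1)) :=
        mul_le_mul_of_nonneg_right hpoly (by positivity)
    _ = ((2 : ℝ) ^ ((M : ℝ) - 1)) ^ ((1 : ℝ) / 2 - δ₃ / 2) := by
        rw [← Real.rpow_add (by norm_num), ← Real.rpow_mul (by norm_num)]
        congr 1
        ring
    _ ≤ (x : ℝ) ^ ((1 : ℝ) / 2 - δ₃ / 2) :=
        Real.rpow_le_rpow (by positivity) hxR (by linarith)

theorem pw_main (ε : ℝ) (hε : 0 < ε) : ∃ δ : ℝ, 0 < δ ∧ ∃ x₀ : ℕ, ∀ x : ℕ, x₀ ≤ x →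
    ∀ S : Finset ℕ, (∀ n ∈ S, IsLehmer n ∧ n ≤ x ∧ ∃ P, IsP n P ∧ (x : ℝ) ^ ε ≤ P ∧
      ∀ i : ℕ, 2 ≤ i → ε ≤ |Real.log x / Real.log P - (2 * i + 1)| ∨
        #(n.primeFactors.filter (fun q : ℕ => (P : ℝ) ^ (1 - ε) ≤ (q : ℝ))) < i + 2) →
    (#S : ℝ) ≤ (x : ℝ) ^ ((1 : ℝ) / 2 - δ) := by
  obtain ⟨δ, hδ, x₀, hx₀, h⟩ := main_smallSUM (min ε (1 / 4)) (lt_min hε (by norm_num))
    (min_le_right _ _)
  refine ⟨δ, hδ, x₀, ?_⟩
  intro x hx S hS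
  refine h x hx S (fun n hn => ?_)
  obtain ⟨h1, h2, h3⟩ := hS n hn
  exact ⟨h1, h2, mainS_monoSUM (min_le_left _ _) (hx₀.trans hx) h3⟩

end Pool.Agent.Helper6.PW
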